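import Pool.Agent.H683.SC.PosStm

/-!
# The algorithm for the subgraph component polynomial computes the coefficients (SP_CORR)
-/

set_option autoImplicit false

namespace Pool.Agent.H945.SP

open Pool.Agent.NPC Pool.Agent.H633R2 Pool.Agent.H683.MC Pool.Agent.H683.SC

/-- the labels in the letters are the labels of the term -/
theorem mem_flat (t : KExp) (a : ℕ) :
    a ∈ (t.toks.flatMap fun o => if o.1 = 1 then [] else [o.2.1, o.2.2]) ↔ a ∈ t.lbs := by
  induction t with
  | vtx b => simp [KExp.toks, KExp.lbs]
  | union s t ihs iht =>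
    simp only [KExp.toks, KExp.lbs, List.flatMap_append, List.mem_append, ihs, iht]
    simp
  | join b c t ih =>
    simp only [KExp.toks, KExp.lbs, List.flatMap_append, List.mem_append, ih]
    simp
    tauto
  | relab b c t ih =>
    simp only [KExp.toks, KExp.lbs, List.flatMap_append, List.mem_append, ih]
    simp
    tauto

theorem tlab_eq (w : List (ℕ × ℕ × ℕ)) :
    tlab w = (w.flatMap fun o => if o.1 = 1 then [] else [o.2.1, o.2.2]).dedup :=
  Pool.Agent.NPC.H683MC.ded_eq _

theorem mem_tlab (t : KExp) (a : ℕ) : a ∈ tlab t.toks ↔ a ∈ t.lbs := by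
  rw [tlab_eq, List.mem_dedup, mem_flat]

theorem nodup_tlab (w : List (ℕ × ℕ × ℕ)) : (tlab w).Nodup := by
  rw [tlab_eq]
  exact List.nodup_dedup _

theorem lbs_lt (k : ℕ) (t : KExp) (h : t.Ok k) : ∀ a ∈ t.lbs, a < k := by
  induction t with
  | vtx b =>
    intro a ha
    rw [KExp.lbs, List.mem_singleton] at ha
    rw [ha]
    exact h
  | union s t ihs iht =>
    intro a ha
    rw [KExp.lbs, List.mem_append] at ha
    exact ha.elim (ihs h.1 a) (iht h.2 a)
  | join b c t ih =>
    intro a ha
    rw [KExp.lbs, List.mem_cons, List.mem_cons] at ha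
    rcases ha with rfl | rfl | ha
    · exact h.1
    · exact h.2.1
    · exact ih h.2.2.2 a ha
  | relab b c t ih =>
    intro a ha
    rw [KExp.lbs, List.mem_cons, List.mem_cons] at ha
    rcases ha with rfl | rfl | ha
    · exact h.1
    · exact h.2.1
    · exact ih h.2.2 a ha

theorem labs_sub (t : KExp) : ∀ a ∈ t.labs, a ∈ t.lbs := by
  induction t with
  | vtx b => exact fun a ha => ha
  | union s t ihs iht =>
    intro a ha
    rw [KExp.labs, List.mem_append] at ha
    rw [KExp.lbs, List.mem_append]
    exact ha.imp (ihs a) (iht a)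
  | join b c t ih =>
    intro a ha
    rw [KExp.lbs, List.mem_cons, List.mem_cons]
    exact Or.inr (Or.inr (ih a ha))
  | relab b c t ih =>
    intro a ha
    rw [KExp.labs, List.mem_map] at ha
    obtain ⟨d, hd, rfl⟩ := ha
    rw [KExp.lbs, List.mem_cons, List.mem_cons]
    by_cases h : d = b
    · rw [if_pos h]
      exact Or.inr (Or.inl rfl)
    · rw [if_neg h]
      exact Or.inr (Or.inr (ih d hd))

theorem nvt_eq (t : KExp) : nvt t.toks = t.labs.length := by
  induction t with
  | vtx b => rfl
  | union s t ihs iht =>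
    unfold nvt at ihs iht ⊢
    rw [KExp.toks, KExp.labs, List.filter_append, List.filter_append, List.length_append,
      List.length_append, List.length_append, ihs, iht]
    rfl
  | join b c t ih =>
    unfold nvt at ih ⊢
    rw [KExp.toks, KExp.labs, List.filter_append, List.length_append, ih]
    rfl
  | relab b c t ih =>
    unfold nvt at ih ⊢
    rw [KExp.toks, KExp.labs, List.filter_append, List.length_append, ih, List.length_map]
    rfl

theorem rep_mem_sts (kk j : ℕ) : List.replicate j 1 ∈ sts kk j := by
  induction j with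
  | zero => exact List.mem_singleton.2 rfl
  | succ j ih =>
    rw [sts, List.mem_flatMap]
    refine ⟨_, ih, ?_⟩
    rw [List.mem_map]
    exact ⟨1, List.mem_range.2 (by omega), rfl⟩

theorem lk_map (st : List (List ℕ)) (f : List ℕ → ℕ) (σ : List ℕ) (h : σ ∈ st) :
    lk st (st.map f) σ = f σ := by
  induction st with
  | nil => exact absurd h List.not_mem_nil
  | cons x st ih =>
    unfold lk at ih ⊢
    rw [List.map_cons, List.zip_cons_cons, List.find?_cons]
    by_cases hx : x = σ
    · have h1 : decide ((x, f x).1 = σ) = true := decide_eq_true hx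
      rw [h1]
      simp only
      rw [hx]
    · have h1 : decide ((x, f x).1 = σ) = false := decide_eq_false hx
      rw [h1]
      simp only
      exact ih ((List.mem_cons.1 h).resolve_left (fun h => hx h.symm))

theorem Zt_congr {q : ℕ} (t : KExp) (S S' : ℕ → Fin q → Prop) (X : ℤ)
    (h : ∀ a ∈ t.labs, ∀ c, S a c ↔ S' a c) : Zt t S X = Zt t S' X := by
  classical
  unfold Zt
  refine Finset.sum_congr rfl fun f _ => ?_
  refine if_congr ?_ rfl rfl
  refine and_congr_right fun _ => ?_
  refine forall_congr' fun v => forall_congr' fun c => imp_congr_right fun _ => ?_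
  exact h _ (List.get_mem _ _) c

theorem qco_le (M : List (List Bool)) (i j : ℕ) : qco M i j ≤ 2 ^ M.length := by
  classical
  unfold qco
  refine (Finset.card_filter_le _ _).trans ?_
  rw [Finset.card_univ, Fintype.card_finset, Fintype.card_fin]

theorem CORR (hWZ : S_WZ) (hZF : S_ZF) (hTAB : S_TAB) (hDIG : S_DIG) : S_CORR := by
  intro k M t ht
  obtain ⟨hok, e, he⟩ := id ht
  have hn : t.labs.length = M.length := by
    have := Fintype.card_congr e
    rw [Fintype.card_fin, Fintype.card_fin] at this
    exact this.symm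
  have hD := nodup_tlab t.toks
  have hmem : ∀ a ∈ t.lbs, a ∈ tlab t.toks := fun a ha => (mem_tlab t a).2 ha
  have hlen : (tlab t.toks).length ≤ k := by
    have h1 : (tlab t.toks).toFinset ⊆ Finset.range k := by
      intro a ha
      rw [List.mem_toFinset, mem_tlab] at ha
      exact Finset.mem_range.2 (lbs_lt k t hok a ha)
    have h2 := Finset.card_le_card h1
    rw [List.toFinset_card_of_nodup hD, Finset.card_range] at h2
    exact h2
  refine ⟨?_, hlen⟩
  have hnv : nvt t.toks = M.length := (nvt_eq t).trans hn
  obtain ⟨D, hDdef⟩ : ∃ D, D = tlab t.toks := ⟨_, rfl⟩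
  obtain ⟨q, hq⟩ : ∃ q, q = 2 ^ (M.length + D.length + 1) := ⟨_, rfl⟩
  have hqq : qq t.toks = q := by
    unfold qq
    rw [hnv, hq, hDdef]
  have hXX : XX t.toks = q ^ (M.length + 1) := by
    unfold XX
    rw [hnv, hq, hDdef, ← pow_mul]
  have hDq : D.length ≤ q := by
    rw [hq]
    have h1 : D.length < 2 ^ D.length := Nat.lt_two_pow_self
    have h2 : 2 ^ D.length ≤ 2 ^ (M.length + D.length + 1) :=
      Nat.pow_le_pow_right (by norm_num) (by omega)
    omega
  rw [← hDdef] at hD hmem
  -- the value
  have hval : valt t.toks = W D (q ^ (M.length + 1)) q t (List.replicate D.length 1) := by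
    have h1 := hTAB D (q ^ (M.length + 1)) q t [] hD hmem hDq
    unfold valt
    rw [hXX, hqq, ← hDdef, h1, List.getD_cons_zero]
    exact lk_map _ _ _ (rep_mem_sts _ _)
  have hst : StOk D.length (List.replicate D.length 1) := by
    refine ⟨List.length_replicate, fun s hs => ?_⟩
    rw [List.eq_of_mem_replicate hs]
    omega
  have hW := hWZ D (q ^ (M.length + 1)) q k t (List.replicate D.length 1) hD hok hmem hDq hst
  have hZ : Zt (q := q) t
      (fun l c => cod ((List.replicate D.length 1).getD (D.idxOf l) 0) c)
        ((q ^ (M.length + 1) : ℕ) : ℤ) =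
      Zt (q := q) t (fun _ _ => True) ((q ^ (M.length + 1) : ℕ) : ℤ) := by
    refine Zt_congr t _ _ _ fun a ha c => ?_
    have h1 : D.idxOf a < D.length := List.idxOf_lt_length_iff.2 (hmem a (labs_sub t a ha))
    have h2 : (List.replicate D.length 1).getD (D.idxOf a) 0 = 1 := by
      rw [List.getD_eq_getElem _ _ (by rw [List.length_replicate]; exact h1),
        List.getElem_replicate]
    rw [h2]
    unfold cod
    simp
  rw [hZ, hZF k q M t _ ht] at hW
  have hV : valt t.toks = ∑ i ∈ Finset.range (M.length + 1), ∑ j ∈ Finset.range (M.length + 1),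
      (q ^ (M.length + 1)) ^ i * q ^ j * qco M i j := by
    rw [hval]
    exact_mod_cast hW
  have hlt : ∀ i j, qco M i j < q := by
    intro i j
    refine (qco_le M i j).trans_lt ?_
    rw [hq]
    exact Nat.pow_lt_pow_right (by norm_num) (by omega)
  have hdig := hDIG M.length q (qco M) hlt
  unfold digs qtab
  rw [hnv]
  refine List.map_congr_left fun i hi => List.map_congr_left fun j hj => ?_
  rw [List.mem_range] at hi hj
  rw [hXX, hqq, hV]
  exact hdig i (by omega) j (by omega)

end Pool.Agent.H945.SP
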