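import Mathlib

/-!
# Products over the embeddings of a number field

Polynomials over a finite extension `L` of a field `K ⊆ ℂ`: the product of the images under all embeddings
`L → ℂ` over `K` has coefficients in `K`.
-/

set_option autoImplicit false

open MvPolynomial

namespace Pool.Agent.H945.Abs

variable {σ : Type} {K : Subfield ℂ}

/-- A complex polynomial in finitely many variables whose values at all points over `K` are in `K` has coefficients
in `K`. -/
theorem coeff_mem_of_values (f : MvPolynomial σ ℂ) (h : ∀ x : σ → K, eval (fun i => (x i : ℂ)) f ∈ K) :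
    ∃ p : MvPolynomial σ K, map (algebraMap K ℂ) p = f := by
  classical
  have hinf : Infinite K := Infinite.of_injective (Nat.cast : ℕ → K) Nat.cast_injective
  have key : ∀ m, f.coeff m ∈ K := by
    intro m
    by_contra hm
    -- a linear functional which vanishes on `K`
    obtain ⟨φ, hφ1, hφ2⟩ : ∃ φ : ℂ →ₗ[K] K, φ 1 = 0 ∧ φ (f.coeff m) ≠ 0 := by
      have h1 : (f.coeff m) ∉ Submodule.span K ({1} : Set ℂ) := by
        intro h2
        rw [Submodule.mem_span_singleton] at h2
        obtain ⟨a, ha⟩ := h2
        apply hm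
        rw [← ha, Subfield.smul_def, smul_eq_mul, mul_one]
        exact a.2
      obtain ⟨φ, hφ, hφ'⟩ := Submodule.exists_le_ker_of_notMem h1
      refine ⟨φ, ?_, hφ⟩
      exact hφ' (Submodule.mem_span_singleton_self 1)
    let g : MvPolynomial σ K := ∑ m ∈ f.support, monomial m (φ (f.coeff m))
    have hg : ∀ x : σ → K, eval x g = φ (eval (fun i => (x i : ℂ)) f) := by
      intro x
      simp only [g, map_sum, eval_monomial]
      rw [eval_eq, map_sum]
      refine Finset.sum_congr rfl fun m _ => ?_
      have : (f.coeff m * ∏ i ∈ m.support, (x i : ℂ) ^ m i) = (∏ i ∈ m.support, x i ^ m i) • f.coeff m := by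
        rw [Subfield.smul_def, smul_eq_mul, mul_comm]
        push_cast
        rfl
      rw [this, map_smul, smul_eq_mul, mul_comm]
      rfl
    have hK : ∀ z ∈ K, φ z = 0 := by
      intro z hz
      have : z = (⟨z, hz⟩ : K) • (1 : ℂ) := by
        rw [Subfield.smul_def, smul_eq_mul, mul_one]
      rw [this, map_smul, hφ1, smul_zero]
    have hg0 : g = 0 := by
      apply MvPolynomial.funext
      intro x
      rw [hg, hK _ (h x), map_zero]
    have hc : g.coeff m = φ (f.coeff m) := by
      simp only [g, coeff_sum, coeff_monomial]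
      rw [Finset.sum_ite_eq' f.support m]
      split_ifs with h1
      · rfl
      · rw [MvPolynomial.notMem_support_iff.1 h1, map_zero]
    rw [hg0, coeff_zero] at hc
    exact hφ2 hc.symm
  refine ⟨∑ m ∈ f.support, monomial m (⟨f.coeff m, key m⟩ : K), ?_⟩
  rw [map_sum]
  conv_rhs => rw [f.as_sum]
  refine Finset.sum_congr rfl fun m _ => ?_
  rw [map_monomial]
  rfl

variable {L : Type} [Field L] [Algebra K L] [FiniteDimensional K L]

/-- the product of the conjugates of a polynomial -/
theorem exists_norm (q : MvPolynomial σ L) :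
    ∃ p : MvPolynomial σ K, map (algebraMap K ℂ) p = ∏ τ : L →ₐ[K] ℂ, map (τ : L →+* ℂ) q := by
  refine coeff_mem_of_values _ fun x => ?_
  rw [map_prod]
  have h1 : ∀ τ : L →ₐ[K] ℂ, eval (fun i => (x i : ℂ)) (map (τ : L →+* ℂ) q) =
      τ (eval (fun i => algebraMap K L (x i)) q) := by
    intro τ
    have h2 : (fun i => ((x i : K) : ℂ)) = fun i => (τ : L →+* ℂ) (algebraMap K L (x i)) := by
      funext i
      exact (τ.commutes (x i)).symm
    rw [h2, eval_map]
    have h3 := MvPolynomial.eval₂_comp_left (τ : L →+* ℂ) (RingHom.id L) (fun i => algebraMap K L (x i)) q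
    rw [MvPolynomial.eval₂_id] at h3
    change _ = (τ : L →+* ℂ) _
    rw [h3]
    rfl
  rw [Finset.prod_congr rfl fun τ _ => h1 τ]
  have h4 := Algebra.norm_eq_prod_embeddings K ℂ (eval (fun i => algebraMap K L (x i)) q)
  rw [← h4]
  exact (Algebra.norm K (eval (fun i => algebraMap K L (x i)) q)).2

end Pool.Agent.H945.Abs
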