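import Pool.Agent.H945.Abs1
import Pool.Graph.R_seed8.Y123.ST.Out

/-!
# Absolute lines in tensor powers, and subtorsors

`c` is an invertible complex matrix (a comparison isomorphism), `L` a finite extension of `K ⊆ ℂ`, and `α` a tensor
with coefficients in `L` on the de Rham side, all conjugates of which span lines defined over `K` on the Betti side.
-/

set_option autoImplicit false
set_option linter.unusedSectionVars false

open Matrix MvPolynomial

namespace Pool.Agent.H945.Abs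

open Pool.Agent.Y123.ST

variable {B κ : Type} [Fintype B] [DecidableEq B] [Fintype κ] [DecidableEq κ]
  {K : Subfield ℂ} {L : Type} [Field L] [Algebra K L] [FiniteDimensional K L]

/-- the conjugate of a tensor -/
noncomputable def cj (α : (κ → B) → L) (τ : L →ₐ[K] ℂ) : (κ → B) → ℂ := fun I => τ (α I)

/-- a tensor over `K` as a complex tensor -/
noncomputable def inC (F : (κ → B) → K) : (κ → B) → ℂ := fun I => (F I : ℂ)

/-- the linear form with the coefficients `v` -/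
noncomputable def lf (v : (κ → B) → ℂ) : MvPolynomial (κ → B) ℂ := ∑ I, C (v I) * X I

theorem eval_lf (v ξ : (κ → B) → ℂ) : eval ξ (lf v) = ξ ⬝ᵥ v := by
  unfold lf
  rw [map_sum, dotProduct]
  refine Finset.sum_congr rfl fun I _ => ?_
  rw [map_mul, eval_C, eval_X, mul_comm]

theorem lf_ne {v : (κ → B) → ℂ} (hv : v ≠ 0) : lf v ≠ 0 := by
  intro h
  apply hv
  funext I
  have h1 := eval_lf v (Pi.single I 1)
  rw [h, map_zero, single_dotProduct, one_mul] at h1
  exact h1.symm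

/-- complex polynomials are determined by their values at the points over `K` -/
theorem ext_K {σ : Type} {p q : MvPolynomial σ ℂ} (h : ∀ x : σ → K, eval (fun i => (x i : ℂ)) p = eval (fun i => (x i : ℂ)) q) :
    p = q := by
  have hinf : ((K : Set ℂ)).Infinite := by
    have h1 : Set.range (fun n : ℕ => (n : ℂ)) ⊆ (K : Set ℂ) := by
      rintro _ ⟨n, rfl⟩
      exact natCast_mem K n
    exact (Set.infinite_range_of_injective Nat.cast_injective).mono h1
  refine funext_set (fun _ => (K : Set ℂ)) (fun _ => hinf) fun x hx => ?_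
  have hx' : ∀ i, x i ∈ K := fun i => hx i (Set.mem_univ i)
  exact h fun i => ⟨x i, hx' i⟩

theorem tp_inv {x : Matrix B B ℂ} (hx : IsUnit x) : tp κ x⁻¹ * tp κ x = 1 := by
  rw [← tp_mul, nonsing_inv_mul _ ((isUnit_iff_isUnit_det x).1 hx), tp_one]

theorem tp_inj {x : Matrix B B ℂ} (hx : IsUnit x) {v w : (κ → B) → ℂ} (h : tp κ x *ᵥ v = tp κ x *ᵥ w) : v = w := by
  have h1 : tp κ x⁻¹ *ᵥ (tp κ x *ᵥ v) = tp κ x⁻¹ *ᵥ (tp κ x *ᵥ w) := by rw [h]
  rwa [mulVec_mulVec, mulVec_mulVec, tp_inv hx, one_mulVec, one_mulVec] at h1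

/-- the product of the conjugates of the linear form `α` -/
noncomputable def NN (K : Subfield ℂ) [Algebra K L] [FiniteDimensional K L] (α : (κ → B) → L) (ξ : (κ → B) → ℂ) : ℂ :=
  ∏ τ : L →ₐ[K] ℂ, ξ ⬝ᵥ cj α τ

/-- the product of the linear forms on the Betti side -/
noncomputable def RR (F : (L →ₐ[K] ℂ) → (κ → B) → K) (ξ : (κ → B) → ℂ) : ℂ := ∏ τ, ξ ⬝ᵥ inC (F τ)

/-- the isomorphisms which map the product of the forms `α` to a multiple of the product of the forms `F` -/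
def SS (α : (κ → B) → L) (F : (L →ₐ[K] ℂ) → (κ → B) → K) : Set (Matrix B B ℂ) :=
  {x | IsUnit x ∧ ∃ k : ℂ, k ≠ 0 ∧ ∀ ξ, NN K α (ξ ᵥ* tp κ x) = k * RR F ξ}

theorem NN_tp (α : (κ → B) → L) (x : Matrix B B ℂ) (ξ : (κ → B) → ℂ) :
    NN K α (ξ ᵥ* tp κ x) = ∏ τ : L →ₐ[K] ℂ, ξ ⬝ᵥ (tp κ x *ᵥ cj α τ) := by
  unfold NN
  refine Finset.prod_congr rfl fun τ _ => ?_
  rw [dotProduct_mulVec]

theorem SS_torsor {α : (κ → B) → L} {F : (L →ₐ[K] ℂ) → (κ → B) → K} {x y z : Matrix B B ℂ} (hx : x ∈ SS α F)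
    (hy : y ∈ SS α F) (hz : z ∈ SS α F) : x * y⁻¹ * z ∈ SS α F := by
  obtain ⟨hx0, k1, hk1, h1⟩ := hx
  obtain ⟨hy0, k2, hk2, h2⟩ := hy
  obtain ⟨hz0, k3, hk3, h3⟩ := hz
  have hy' : IsUnit y⁻¹ := by
    rw [isUnit_iff_isUnit_det] at hy0 ⊢
    rw [det_nonsing_inv]
    exact hy0.ringInverse
  refine ⟨(hx0.mul hy').mul hz0, k3 * k2⁻¹ * k1, mul_ne_zero (mul_ne_zero hk3 (inv_ne_zero hk2)) hk1, fun ξ => ?_⟩
  have h4 : ∀ η, RR F (η ᵥ* tp κ y⁻¹) = k2⁻¹ * NN K α η := by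
    intro η
    have h5 := h2 (η ᵥ* tp κ y⁻¹)
    rw [vecMul_vecMul, tp_inv hy0, vecMul_one] at h5
    rw [h5, ← mul_assoc, inv_mul_cancel₀ hk2, one_mul]
  rw [tp_mul, tp_mul, ← vecMul_vecMul, h3, ← vecMul_vecMul, h4, h1]
  ring

end Pool.Agent.H945.Abs
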