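import Pool.Agent.H945.Abs2

/-!
# The set of the isomorphisms which permute the absolute lines is a subtorsor over `K`
-/

set_option autoImplicit false
set_option linter.unusedSectionVars false

open Matrix MvPolynomial

namespace Pool.Agent.H945.Abs

open Pool.Agent.Y123.ST

variable {B κ : Type} [Fintype B] [DecidableEq B] [Fintype κ] [DecidableEq κ]
  {K : Subfield ℂ} {L : Type} [Field L] [Algebra K L] [FiniteDimensional K L]

/-- the generic tensor power of a matrix, paired with `ξ` and `α` -/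
noncomputable def gq (α : (κ → B) → L) (ξ : (κ → B) → K) : MvPolynomial (B × B) L :=
  ∑ I, ∑ I', C (algebraMap K L (ξ I) * α I') * ∏ k, X (I k, I' k)

theorem gq_eval (α : (κ → B) → L) (ξ : (κ → B) → K) (τ : L →ₐ[K] ℂ) (x : Matrix B B ℂ) :
    eval (fun b => x b.1 b.2) (map (τ : L →+* ℂ) (gq α ξ)) = inC ξ ⬝ᵥ (tp κ x *ᵥ cj α τ) := by
  unfold gq
  simp only [map_sum, map_mul, map_prod, map_C, map_X, eval_C, eval_X, dotProduct, mulVec, Finset.mul_sum]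
  refine Finset.sum_congr rfl fun I _ => Finset.sum_congr rfl fun I' _ => ?_
  have h1 : (τ : L →+* ℂ) (algebraMap K L (ξ I)) = (ξ I : ℂ) := τ.commutes (ξ I)
  rw [h1]
  unfold inC cj tp
  rw [Matrix.of_apply]
  change _ * τ (α I') * _ = _
  ring

theorem NN_poly (α : (κ → B) → L) (ξ : (κ → B) → K) : ∃ p : MvPolynomial (B × B) K, ∀ x : Matrix B B ℂ,
    eval (fun b => x b.1 b.2) (map (algebraMap K ℂ) p) = NN K α (inC ξ ᵥ* tp κ x) := by
  obtain ⟨p, hp⟩ := exists_norm (K := K) (gq α ξ)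
  refine ⟨p, fun x => ?_⟩
  rw [hp, map_prod, NN_tp]
  exact Finset.prod_congr rfl fun τ _ => gq_eval α ξ τ x

/-- the value of `RR` at a point over `K` -/
noncomputable def RK (F : (L →ₐ[K] ℂ) → (κ → B) → K) (ξ : (κ → B) → K) : K := ∏ τ, ξ ⬝ᵥ F τ

theorem RK_cast (F : (L →ₐ[K] ℂ) → (κ → B) → K) (ξ : (κ → B) → K) : ((RK F ξ : K) : ℂ) = RR F (inC ξ) := by
  unfold RK RR inC
  push_cast
  refine Finset.prod_congr rfl fun τ _ => ?_
  simp only [dotProduct]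
  push_cast
  rfl

theorem inC_ne {F : (κ → B) → K} (h : F ≠ 0) : inC F ≠ 0 := by
  intro h1
  apply h
  funext I
  have := congrFun h1 I
  unfold inC at this
  rw [Pi.zero_apply] at this ⊢
  exact_mod_cast this

/-- a product of nonzero linear forms has a nonzero value at a point over `K` -/
theorem exists_RK_ne {F : (L →ₐ[K] ℂ) → (κ → B) → K} (hF : ∀ τ, F τ ≠ 0) : ∃ ξ, RK F ξ ≠ 0 := by
  by_contra hcon
  push Not at hcon
  have h1 : (∏ τ, lf (inC (F τ)) : MvPolynomial (κ → B) ℂ) = 0 := by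
    refine ext_K (K := K) fun ξ => ?_
    rw [map_prod, map_zero]
    have h2 := RK_cast F ξ
    rw [hcon ξ] at h2
    rw [Finset.prod_congr rfl fun τ _ => eval_lf (inC (F τ)) (fun i => (ξ i : ℂ))]
    exact h2.symm
  rw [Finset.prod_eq_zero_iff] at h1
  obtain ⟨τ, _, h2⟩ := h1
  exact lf_ne (inC_ne (hF τ)) h2

theorem cj_ne {α : (κ → B) → L} (hα : α ≠ 0) (τ : L →ₐ[K] ℂ) : cj α τ ≠ 0 := by
  intro h
  apply hα
  funext I
  have := congrFun h I
  unfold cj at this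
  exact τ.injective (this.trans (map_zero τ).symm)

theorem SS_sub {α : (κ → B) → L} (hα : α ≠ 0) {F : (L →ₐ[K] ℂ) → (κ → B) → K} (hF : ∀ τ, F τ ≠ 0) :
    SubT K (SS α F) := by
  refine ⟨fun x hx y hy z hz => SS_torsor hx hy hz, ?_⟩
  choose p hp using NN_poly (K := K) α
  refine ⟨Set.range fun q : ((κ → B) → K) × ((κ → B) → K) => p q.1 * C (RK F q.2) - p q.2 * C (RK F q.1), fun x => ?_⟩
  unfold SS
  rw [Set.mem_ofPred_eq]
  refine and_congr_right fun hx => ⟨?_, ?_⟩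
  · rintro ⟨k, _, h1⟩ _ ⟨q, rfl⟩
    simp only [map_sub, map_mul, map_C, eval_C, hp, h1]
    change _ * _ * ((RK F q.2 : K) : ℂ) - _ * _ * ((RK F q.1 : K) : ℂ) = 0
    rw [RK_cast, RK_cast]
    ring
  · intro h
    have h1 : ∀ ξ ξ' : (κ → B) → K, NN K α (inC ξ ᵥ* tp κ x) * RR F (inC ξ') =
        NN K α (inC ξ' ᵥ* tp κ x) * RR F (inC ξ) := by
      intro ξ ξ'
      have h2 := h _ ⟨(ξ, ξ'), rfl⟩
      simp only [map_sub, map_mul, map_C, eval_C, hp] at h2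
      change _ * ((RK F ξ' : K) : ℂ) - _ * ((RK F ξ : K) : ℂ) = 0 at h2
      rw [RK_cast, RK_cast] at h2
      exact sub_eq_zero.1 h2
    obtain ⟨ξ', hξ'⟩ := exists_RK_ne hF
    have hξ'C : RR F (inC ξ') ≠ 0 := by
      rw [← RK_cast]
      exact_mod_cast hξ'
    set k := NN K α (inC ξ' ᵥ* tp κ x) / RR F (inC ξ') with hk
    have h3 : (∏ τ : L →ₐ[K] ℂ, lf (tp κ x *ᵥ cj α τ) : MvPolynomial (κ → B) ℂ) = C k * ∏ τ, lf (inC (F τ)) := by
      refine ext_K (K := K) fun ξ => ?_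
      rw [map_prod, map_mul, map_prod, eval_C]
      rw [Finset.prod_congr rfl fun τ _ => eval_lf (tp κ x *ᵥ cj α τ) (fun i => (ξ i : ℂ)),
        Finset.prod_congr rfl fun τ _ => eval_lf (inC (F τ)) (fun i => (ξ i : ℂ))]
      have h4 := h1 ξ ξ'
      rw [NN_tp (K := K) α x (inC ξ)] at h4
      change (∏ τ : L →ₐ[K] ℂ, inC ξ ⬝ᵥ (tp κ x *ᵥ cj α τ)) = k * RR F (inC ξ)
      rw [hk, div_mul_eq_mul_div, eq_div_iff hξ'C, h4]
    have h5 : ∀ ξ, NN K α (ξ ᵥ* tp κ x) = k * RR F ξ := by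
      intro ξ
      have h6 := congrArg (eval ξ) h3
      rw [map_prod, map_mul, map_prod, eval_C] at h6
      rw [Finset.prod_congr rfl fun τ _ => eval_lf (tp κ x *ᵥ cj α τ) ξ,
        Finset.prod_congr rfl fun τ _ => eval_lf (inC (F τ)) ξ] at h6
      rw [NN_tp]
      exact h6
    refine ⟨k, ?_, h5⟩
    intro hk0
    rw [hk0, map_zero, zero_mul, Finset.prod_eq_zero_iff] at h3
    obtain ⟨τ, _, h6⟩ := h3
    refine lf_ne (v := tp κ x *ᵥ cj α τ) ?_ h6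
    intro h7
    apply cj_ne hα τ
    apply tp_inj hx
    rw [h7, mulVec_zero]

/-- The lines spanned by the conjugates of `α` are, via `c`, the lines spanned by the `F τ`, which are over `K`. -/
def AbsLine (K : Subfield ℂ) [Algebra K L] (c : Matrix B B ℂ) (α : (κ → B) → L) (F : (L →ₐ[K] ℂ) → (κ → B) → K)
    (s : (L →ₐ[K] ℂ) → ℂ) : Prop := ∀ τ, tp κ c *ᵥ cj α τ = s τ • inC (F τ)

theorem AbsLine.ne {c : Matrix B B ℂ} (hc : IsUnit c) {α : (κ → B) → L} (hα : α ≠ 0)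
    {F : (L →ₐ[K] ℂ) → (κ → B) → K} {s : (L →ₐ[K] ℂ) → ℂ} (h : AbsLine K c α F s) (τ : L →ₐ[K] ℂ) :
    F τ ≠ 0 ∧ s τ ≠ 0 := by
  have h1 : tp κ c *ᵥ cj α τ ≠ 0 := by
    intro h2
    apply cj_ne hα τ
    apply tp_inj hc
    rw [h2, mulVec_zero]
  rw [h τ] at h1
  constructor
  · intro h2
    apply h1
    have : inC (F τ) = 0 := by
      rw [h2]
      funext I
      unfold inC
      simp
    rw [this, smul_zero]
  · intro h2
    apply h1
    rw [h2, zero_smul]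

theorem AbsLine.mem {c : Matrix B B ℂ} (hc : IsUnit c) {α : (κ → B) → L} (hα : α ≠ 0)
    {F : (L →ₐ[K] ℂ) → (κ → B) → K} {s : (L →ₐ[K] ℂ) → ℂ} (h : AbsLine K c α F s) : c ∈ SS α F := by
  refine ⟨hc, ∏ τ, s τ, Finset.prod_ne_zero_iff.2 fun τ _ => (h.ne hc hα τ).2, fun ξ => ?_⟩
  rw [NN_tp, RR, ← Finset.prod_mul_distrib]
  refine Finset.prod_congr rfl fun τ _ => ?_
  rw [h τ, dotProduct_smul, smul_eq_mul]

/-- if a hyperplane is contained in a union of hyperplanes then it is one of them -/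
theorem hyperplane {T : Type} [Finite T] {v : (κ → B) → ℂ} {w : T → (κ → B) → ℂ} (hv : v ≠ 0) (hw : ∀ i, w i ≠ 0)
    (h : ∀ ξ, ξ ⬝ᵥ v = 0 → ∃ i, ξ ⬝ᵥ w i = 0) : ∃ i, ∃ a : ℂ, v = a • w i := by
  classical
  let φ : ((κ → B) → ℂ) →ₗ[ℂ] ℂ :=
    { toFun := fun ξ => ξ ⬝ᵥ v
      map_add' := fun x y => add_dotProduct x y v
      map_smul' := fun a x => smul_dotProduct a x v }
  let ψ : T → ((κ → B) → ℂ) →ₗ[ℂ] ℂ := fun i =>
    { toFun := fun ξ => ξ ⬝ᵥ w i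
      map_add' := fun x y => add_dotProduct x y (w i)
      map_smul' := fun a x => smul_dotProduct a x (w i) }
  obtain ⟨i, hi⟩ := Subspace.exists_eq_top_of_iUnion_eq_univ
    (p := fun i => (LinearMap.ker ((ψ i).comp (LinearMap.ker φ).subtype))) (by
      rw [Set.eq_univ_iff_forall]
      rintro ⟨ξ, hξ⟩
      obtain ⟨i, hi⟩ := h ξ hξ
      rw [Set.mem_iUnion]
      exact ⟨i, hi⟩)
  have h1 : ∀ ξ, ξ ⬝ᵥ v = 0 → ξ ⬝ᵥ w i = 0 := by
    intro ξ hξ
    have h2 : (⟨ξ, hξ⟩ : LinearMap.ker φ) ∈ LinearMap.ker ((ψ i).comp (LinearMap.ker φ).subtype) := by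
      rw [hi]
      exact Submodule.mem_top
    exact h2
  obtain ⟨I, hI⟩ := Function.ne_iff.1 hv
  rw [Pi.zero_apply] at hI
  let ξ₁ : (κ → B) → ℂ := Pi.single I (v I)⁻¹
  have h2 : ξ₁ ⬝ᵥ v = 1 := by
    simp only [ξ₁]
    rw [single_dotProduct, inv_mul_cancel₀ hI]
  have h3 : w i = (ξ₁ ⬝ᵥ w i) • v := by
    funext J
    have h4 := h1 (Pi.single J 1 - (v J) • ξ₁) (by
      rw [sub_dotProduct, smul_dotProduct, h2, single_dotProduct, one_mul, smul_eq_mul, mul_one, sub_self])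
    rw [sub_dotProduct, smul_dotProduct, single_dotProduct, one_mul, smul_eq_mul, sub_eq_zero] at h4
    rw [h4, Pi.smul_apply, smul_eq_mul, mul_comm]
  have h4 : ξ₁ ⬝ᵥ w i ≠ 0 := by
    intro h5
    apply hw i
    rw [h3, h5, zero_smul]
  generalize ξ₁ ⬝ᵥ w i = a at h3 h4
  refine ⟨i, a⁻¹, ?_⟩
  rw [h3, smul_smul, inv_mul_cancel₀ h4, one_smul]

/-- the elements `g` with `g c` in the subtorsor permute the lines -/
theorem AbsLine.perm {c : Matrix B B ℂ} (hc : IsUnit c) {α : (κ → B) → L} (hα : α ≠ 0)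
    {F : (L →ₐ[K] ℂ) → (κ → B) → K} {s : (L →ₐ[K] ℂ) → ℂ} (h : AbsLine K c α F s) {g : Matrix B B ℂ}
    (hg : IsUnit g) (hgc : g * c ∈ SS α F) (τ : L →ₐ[K] ℂ) : ∃ σ : L →ₐ[K] ℂ, ∃ a : ℂ, a ≠ 0 ∧
      tp κ g *ᵥ inC (F τ) = a • inC (F σ) := by
  have hne : ∀ τ, inC (F τ) ≠ 0 := fun τ => inC_ne (h.ne hc hα τ).1
  have hv : tp κ g *ᵥ inC (F τ) ≠ 0 := by
    intro h2
    apply hne τ
    apply tp_inj hg
    rw [h2, mulVec_zero]
  obtain ⟨_, k, hk, h1⟩ := hgc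
  obtain ⟨σ, a, ha⟩ := hyperplane hv hne (by
    intro ξ hξ
    have h2 := h1 ξ
    rw [NN_tp] at h2
    have h3 : (∏ σ : L →ₐ[K] ℂ, ξ ⬝ᵥ (tp κ (g * c) *ᵥ cj α σ)) = 0 := by
      refine Finset.prod_eq_zero (Finset.mem_univ τ) ?_
      rw [tp_mul, ← mulVec_mulVec, h τ, mulVec_smul, dotProduct_smul, hξ, smul_zero]
    rw [h3] at h2
    have h4 : RR F ξ = 0 := by
      rcases mul_eq_zero.1 h2.symm with h5 | h5
      · exact absurd h5 hk
      · exact h5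
    unfold RR at h4
    rw [Finset.prod_eq_zero_iff] at h4
    obtain ⟨σ, _, h5⟩ := h4
    exact ⟨σ, h5⟩)
  refine ⟨σ, a, ?_, ha⟩
  rintro rfl
  exact hv (by rw [ha, zero_smul])

end Pool.Agent.H945.Abs
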