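import Pool.Agent.H945.Abs3

/-!
# One-parameter groups fix the absolute lines
-/

set_option autoImplicit false
set_option linter.unusedSectionVars false

open Matrix MvPolynomial

namespace Pool.Agent.H945.Abs

open Pool.Agent.Y123.ST

variable {B κ : Type} [Fintype B] [DecidableEq B] [Fintype κ] [DecidableEq κ]
  {K : Subfield ℂ} {L : Type} [Field L] [Algebra K L] [FiniteDimensional K L]

/-- the elements of a one-parameter group which preserves the subtorsor stabilise the lines -/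
theorem AbsLine.fix {c : Matrix B B ℂ} (hc : IsUnit c) {α : (κ → B) → L} (hα : α ≠ 0)
    {F : (L →ₐ[K] ℂ) → (κ → B) → K} {s : (L →ₐ[K] ℂ) → ℂ} (h : AbsLine K c α F s) {U : ℂ → Matrix B B ℂ}
    (hU0 : U 0 = 1) (hU : ∀ x y, U (x + y) = U x * U y) (hUc : ∀ x, U x * c ∈ SS α F) (τ : L →ₐ[K] ℂ) (x : ℂ) :
    ∃ a : ℂ, a ≠ 0 ∧ tp κ (U x) *ᵥ inC (F τ) = a • inC (F τ) := by
  classical
  have hun : ∀ x, IsUnit (U x) := by
    intro x
    have h1 : U x * U (-x) = 1 := by rw [← hU, add_neg_cancel, hU0]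
    exact IsUnit.of_mul_eq_one _ h1
  have hne : inC (F τ) ≠ 0 := inC_ne (h.ne hc hα τ).1
  set k := Fintype.card (L →ₐ[K] ℂ) with hk
  -- one multiple stabilises
  have key : ∀ r : ℂ, ∃ e : ℕ, 1 ≤ e ∧ e ≤ k ∧ ∃ a : ℂ, a ≠ 0 ∧
      tp κ (U ((e : ℂ) * r)) *ᵥ inC (F τ) = a • inC (F τ) := by
    intro r
    choose σ a ha hσ using fun d : ℕ => h.perm hc hα (hun ((d : ℂ) * r)) (hUc _) τ
    obtain ⟨d, d', hdd, heq⟩ := Fintype.exists_ne_map_eq_of_card_lt (fun d : Fin (k + 1) => σ d) (by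
      rw [Fintype.card_fin]; omega)
    wlog hlt : (d : ℕ) < d' generalizing d d'
    · exact this d' d (Ne.symm hdd) heq.symm (by
        rcases lt_trichotomy (d : ℕ) d' with h1 | h1 | h1
        · exact absurd h1 hlt
        · exact absurd (Fin.ext h1) hdd
        · exact h1)
    have hd' := d'.2
    refine ⟨(d' : ℕ) - d, by omega, by omega, a d' / a d, div_ne_zero (ha _) (ha _), ?_⟩
    have h1 := hσ d
    have h2 := hσ d'
    rw [← heq] at h2
    have h3 : ((((d' : ℕ) - (d : ℕ) : ℕ) : ℂ)) * r = -(((d : ℕ) : ℂ) * r) + ((d' : ℕ) : ℂ) * r := by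
      rw [Nat.cast_sub hlt.le]
      ring
    have h4 : tp κ (U (-(((d : ℕ) : ℂ) * r))) *ᵥ inC (F (σ d)) = (a d)⁻¹ • inC (F τ) := by
      have h5 : tp κ (U (-(((d : ℕ) : ℂ) * r))) *ᵥ (tp κ (U (((d : ℕ) : ℂ) * r)) *ᵥ inC (F τ)) = inC (F τ) := by
        rw [mulVec_mulVec, ← tp_mul, ← hU, neg_add_cancel, hU0, tp_one, one_mulVec]
      rw [h1, mulVec_smul] at h5
      rw [← h5, smul_smul, inv_mul_cancel₀ (ha _), one_smul]
    rw [h3, hU, tp_mul, ← mulVec_mulVec, h2, mulVec_smul, h4, smul_smul, div_eq_mul_inv]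
  -- powers
  have pow : ∀ (r : ℂ) (a : ℂ), a ≠ 0 → tp κ (U r) *ᵥ inC (F τ) = a • inC (F τ) → ∀ j : ℕ,
      tp κ (U ((j : ℂ) * r)) *ᵥ inC (F τ) = a ^ j • inC (F τ) := by
    intro r a ha hr j
    induction j with
    | zero => rw [Nat.cast_zero, zero_mul, hU0, tp_one, one_mulVec, pow_zero, one_smul]
    | succ j ih =>
      rw [Nat.cast_succ, add_mul, one_mul, hU, tp_mul, ← mulVec_mulVec, hr, mulVec_smul, ih, smul_smul, pow_succ']
  obtain ⟨e, he1, hek, a, ha, h1⟩ := key (x / (k.factorial : ℂ))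
  obtain ⟨q, hq⟩ : e ∣ k.factorial := Nat.dvd_factorial (by omega) hek
  refine ⟨a ^ q, pow_ne_zero _ ha, ?_⟩
  have h2 := pow _ a ha h1 q
  have hf : (k.factorial : ℂ) ≠ 0 := by exact_mod_cast k.factorial_ne_zero
  have h3 : (q : ℂ) * ((e : ℂ) * (x / (k.factorial : ℂ))) = x := by
    have h4 : (k.factorial : ℂ) = (e : ℂ) * q := by exact_mod_cast hq
    rw [← mul_assoc, mul_comm (q : ℂ), ← h4]
    field_simp
  rw [h3] at h2
  exact h2

/-- polynomials for the entries of `tp (1 + x E) v` -/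
theorem tp_poly (E : Matrix B B ℂ) (v : (κ → B) → ℂ) (I : κ → B) :
    ∃ p : Polynomial ℂ, ∀ x : ℂ, p.eval x = (tp κ (1 + x • E) *ᵥ v) I := by
  refine ⟨∑ I', (∏ k, (Polynomial.C ((1 : Matrix B B ℂ) (I k) (I' k)) + Polynomial.X * Polynomial.C (E (I k) (I' k)))) *
    Polynomial.C (v I'), fun x => ?_⟩
  simp only [Polynomial.eval_finsetSum, Polynomial.eval_mul, Polynomial.eval_prod, Polynomial.eval_add,
    Polynomial.eval_C, Polynomial.eval_X, mulVec, dotProduct, tp, Matrix.of_apply, Matrix.add_apply, Matrix.smul_apply,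
    smul_eq_mul]

/-- unipotent one-parameter groups fix the vectors -/
theorem AbsLine.fixed {c : Matrix B B ℂ} (hc : IsUnit c) {α : (κ → B) → L} (hα : α ≠ 0)
    {F : (L →ₐ[K] ℂ) → (κ → B) → K} {s : (L →ₐ[K] ℂ) → ℂ} (h : AbsLine K c α F s) {E : Matrix B B ℂ}
    (hE : E * E = 0) (hUc : ∀ x : ℂ, (1 + x • E) * c ∈ SS α F) (τ : L →ₐ[K] ℂ) (x : ℂ) :
    tp κ (1 + x • E) *ᵥ inC (F τ) = inC (F τ) := by
  have hadd : ∀ x y : ℂ, (1 + (x + y) • E : Matrix B B ℂ) = (1 + x • E) * (1 + y • E) := by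
    intro x y
    rw [Matrix.add_mul, Matrix.mul_add, Matrix.mul_add, Matrix.one_mul, Matrix.one_mul, Matrix.mul_one,
      Matrix.smul_mul, Matrix.mul_smul, hE, smul_zero, smul_zero, add_smul]
    abel
  have h0 : (1 + (0 : ℂ) • E : Matrix B B ℂ) = 1 := by rw [zero_smul, add_zero]
  choose a ha haF using h.fix hc hα (U := fun x => 1 + x • E) h0 hadd hUc τ
  have hne : inC (F τ) ≠ 0 := inC_ne (h.ne hc hα τ).1
  obtain ⟨I, hI⟩ := Function.ne_iff.1 hne
  rw [Pi.zero_apply] at hI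
  obtain ⟨p, hp⟩ := tp_poly E (inC (F τ)) I
  have hpa : ∀ x, p.eval x = a x * inC (F τ) I := by
    intro x
    rw [hp]
    exact congrFun (haF x) I
  have hmul : ∀ x y, a (x + y) = a x * a y := by
    intro x y
    have h1 := haF (x + y)
    rw [hadd, tp_mul, ← mulVec_mulVec, haF y, mulVec_smul, haF x, smul_smul] at h1
    have h2 := congrFun h1 I
    rw [Pi.smul_apply, Pi.smul_apply, smul_eq_mul, smul_eq_mul] at h2
    have h3 := mul_right_cancel₀ hI h2
    rw [← h3, mul_comm]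
  have ha0 : a 0 = 1 := by
    have h1 := hmul 0 0
    rw [add_zero] at h1
    have h2 : a 0 * (a 0 - 1) = 0 := by linear_combination -h1
    rcases mul_eq_zero.1 h2 with h3 | h3
    · exact absurd h3 (ha 0)
    · linear_combination h3
  -- the polynomial is constant
  have hprod : p * p.comp (-Polynomial.X) = Polynomial.C (inC (F τ) I ^ 2) := by
    apply Polynomial.funext
    intro x
    rw [Polynomial.eval_mul, Polynomial.eval_comp, Polynomial.eval_neg, Polynomial.eval_X, Polynomial.eval_C, hpa, hpa]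
    have h1 := hmul x (-x)
    rw [add_neg_cancel, ha0] at h1
    linear_combination -(inC (F τ) I ^ 2) * h1
  have hunit : IsUnit p := by
    have h1 : IsUnit (p * p.comp (-Polynomial.X)) := by
      rw [hprod, Polynomial.isUnit_C]
      exact (IsUnit.mk0 _ hI).pow 2
    exact isUnit_of_mul_isUnit_left h1
  obtain ⟨r, _, hr⟩ := Polynomial.isUnit_iff.1 hunit
  have hax : a x = 1 := by
    have h1 := hpa x
    have h2 := hpa 0
    rw [← hr, Polynomial.eval_C] at h1 h2
    rw [ha0] at h2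
    have h3 : a x * inC (F τ) I = 1 * inC (F τ) I := by rw [← h1, ← h2]
    exact mul_right_cancel₀ hI h3
  have h1 := haF x
  rw [hax, one_smul] at h1
  exact h1

end Pool.Agent.H945.Abs
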