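import Pool.Agent.H945.Abs5

/-!
# Absolute lines on sums of polarised objects whose smallest subtorsor over `K` is the symplectic torsor
-/

set_option autoImplicit false
set_option linter.unusedSectionVars false

open Matrix

namespace Pool.Agent.H945.Abs

open Pool.Agent.TH127.PT Pool.Agent.Y118.HP Pool.Agent.Y123.ST

variable {n N : ℕ} {K : Subfield ℂ} {κ : Type} [Fintype κ] [DecidableEq κ] {m : ℕ}
  {L : Type} [Field L] [Algebra K L] [FiniteDimensional K L]

theorem single_sq (j : Fin N) (v : Fin n → ℂ) :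
    bd (Pi.single j (EE v) : Fin N → Matrix (Fin n) (Fin n) ℂ) * bd (Pi.single j (EE v)) = 0 := by
  rw [bd_mul]
  have h2 : (fun k => (Pi.single j (EE v) : Fin N → Matrix (Fin n) (Fin n) ℂ) k *
      (Pi.single j (EE v) : Fin N → Matrix (Fin n) (Fin n) ℂ) k) = 0 := by
    funext k
    by_cases h : k = j
    · subst h
      rw [Pi.single_eq_same, EE_sq]
      rfl
    · rw [Pi.single_eq_of_ne h, mul_zero]
      rfl
  rw [h2]
  exact blockDiagonal_zero

/-- invariance under the transvections implies invariance under the symplectic groups -/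
theorem TInv.all (hn : Even n) {F : (κ → Fin n × Fin N) → K} (h : TInv F) {g : Fin N → Matrix (Fin n) (Fin n) ℂ}
    (hg : ∀ j, g j ∈ SpS ℂ n) : tp κ (bd g) *ᵥ inC F = inC F := by
  have one : bd (1 : Fin N → Matrix (Fin n) (Fin n) ℂ) = 1 := blockDiagonal_one
  have h1 : ∀ j, ∀ A ∈ SpS ℂ n, tp κ (bd (sg j A)) *ᵥ inC F = inC F := by
    intro j A hA
    let S : Submonoid (Matrix (Fin n) (Fin n) ℂ) :=
      { carrier := {A | tp κ (bd (sg j A)) *ᵥ inC F = inC F}
        one_mem' := by
          have : sg j (1 : Matrix (Fin n) (Fin n) ℂ) = 1 := by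
            unfold sg
            exact Function.update_eq_self j (1 : Fin N → Matrix (Fin n) (Fin n) ℂ)
          show tp κ (bd (sg j 1)) *ᵥ inC F = inC F
          rw [this, one, tp_one, one_mulVec]
        mul_mem' := by
          intro a b ha hb
          have h1 : bd (sg j (a * b)) = bd (sg j a) * bd (sg j b) := by
            rw [bd_mul]
            congr 1
            funext k
            by_cases h : k = j
            · subst h
              rw [sg_same, sg_same, sg_same]
            · rw [sg_ne h, sg_ne h, sg_ne h, one_mul]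
          show tp κ (bd (sg j (a * b))) *ᵥ inC F = inC F
          change tp κ (bd (sg j a)) *ᵥ inC F = inC F at ha
          change tp κ (bd (sg j b)) *ᵥ inC F = inC F at hb
          rw [h1, tp_mul, ← mulVec_mulVec, hb, ha] }
    have hS : ∀ v s, TV v s ∈ S := by
      intro v s
      show tp κ (bd (sg j (TV v s))) *ᵥ inC F = inC F
      rw [bd_sg]
      exact h j v s
    exact sp_gen hn S hS A hA
  have key : ∀ s : Finset (Fin N), tp κ (bd (fun j => if j ∈ s then g j else 1)) *ᵥ inC F = inC F := by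
    intro s
    induction s using Finset.induction_on with
    | empty =>
      have : (fun j : Fin N => if j ∈ (∅ : Finset (Fin N)) then g j else 1) = 1 := by
        funext j
        simp
      rw [this, one, tp_one, one_mulVec]
    | insert j s hj ih =>
      have h2 : bd (fun k => if k ∈ insert j s then g k else 1) =
          bd (sg j (g j)) * bd (fun k => if k ∈ s then g k else 1) := by
        rw [bd_mul]
        congr 1
        funext k
        by_cases h : k = j
        · subst h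
          rw [sg_same, if_pos (Finset.mem_insert_self _ _), if_neg hj, mul_one]
        · rw [sg_ne h, one_mul]
          simp [Finset.mem_insert, h]
      rw [h2, tp_mul, ← mulVec_mulVec, ih, h1 j _ (hg j)]
  have h2 := key Finset.univ
  simpa using h2

theorem TInv.even (hn : Even n) {F : (κ → Fin n × Fin N) → K} (h : TInv F) (hF : F ≠ 0) : Even (Fintype.card κ) := by
  have h1 : tp κ (bd (fun _ : Fin N => (-1 : Matrix (Fin n) (Fin n) ℂ))) *ᵥ inC F = inC F := by
    refine h.all hn fun j => ?_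
    show (-1 : Matrix (Fin n) (Fin n) ℂ) * jm ℂ n * (-1 : Matrix (Fin n) (Fin n) ℂ)ᵀ = jm ℂ n
    rw [transpose_neg, transpose_one, neg_one_mul, Matrix.neg_mul, Matrix.mul_neg, Matrix.mul_one, neg_neg]
  have h2 : bd (fun _ : Fin N => (-1 : Matrix (Fin n) (Fin n) ℂ)) = -1 := by
    have : (fun _ : Fin N => (-1 : Matrix (Fin n) (Fin n) ℂ)) = -1 := rfl
    rw [this]
    show blockDiagonal (-1) = _
    rw [blockDiagonal_neg, blockDiagonal_one]
  have h3 : tp κ (-1 : Matrix (Fin n × Fin N) (Fin n × Fin N) ℂ) = ((-1 : ℂ) ^ Fintype.card κ) • 1 := by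
    rw [← tp_one (B := Fin n × Fin N) (κ := κ)]
    ext I I'
    simp only [tp, Matrix.of_apply, Matrix.smul_apply, Matrix.neg_apply, smul_eq_mul]
    rw [Finset.prod_neg, Finset.card_univ]
  rw [h2, h3, smul_mulVec, one_mulVec] at h1
  obtain ⟨I, hI⟩ := Function.ne_iff.1 (inC_ne hF)
  rw [Pi.zero_apply] at hI
  have h4 := congrFun h1 I
  rw [Pi.smul_apply, smul_eq_mul] at h4
  rcases Nat.even_or_odd (Fintype.card κ) with h5 | h5
  · exact h5
  · rw [h5.neg_one_pow] at h4
    exfalso
    apply hI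
    have : (2 : ℂ) * inC F I = 0 := by linear_combination -h4
    simpa using this

/-- combinations over `K` of products of polarisations are classes over `K` -/
theorem cls_of_spanK {Q c : Fin N → Matrix (Fin n) (Fin n) ℂ} {lam : ℂ} (hc : (c, lam) ∈ Tor Q)
    (hQ : ∀ j a b, Q j a b ∈ K) {F : (κ → Fin n × Fin N) → K}
    (h : F ∈ Submodule.span K {G | ∃ (e : Fin m × Fin 2 ≃ κ) (b : Fin m → Fin N), G = prK K n e b}) :
    ∃ a : (κ → Fin n × Fin N) → K, lam ^ m • inC F = tp κ (bd c) *ᵥ inC a := by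
  induction h using Submodule.span_induction with
  | mem G hG =>
    obtain ⟨e, b, rfl⟩ := hG
    obtain ⟨a, ha, h1⟩ := pr_cls hc hQ e b
    refine ⟨fun I => ⟨a I, ha I⟩, ?_⟩
    funext I
    have h2 := h1 I
    rw [Pi.smul_apply, smul_eq_mul]
    unfold inC prK mulVec dotProduct tp
    simp only [Matrix.of_apply]
    exact h2
  | zero =>
    refine ⟨0, ?_⟩
    have : (inC (0 : (κ → Fin n × Fin N) → K)) = 0 := by
      funext I
      unfold inC
      simp
    rw [this, smul_zero, mulVec_zero]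
  | add x y _ _ hx hy =>
    obtain ⟨a, h1⟩ := hx
    obtain ⟨a', h2⟩ := hy
    refine ⟨a + a', ?_⟩
    have h3 : ∀ u v : (κ → Fin n × Fin N) → K, inC (u + v) = inC u + inC v := by
      intro u v
      funext I
      unfold inC
      simp
    rw [h3, h3, smul_add, mulVec_add, h1, h2]
  | smul r x _ hx =>
    obtain ⟨a, h1⟩ := hx
    refine ⟨r • a, ?_⟩
    have h3 : ∀ u : (κ → Fin n × Fin N) → K, inC (r • u) = (r : ℂ) • inC u := by
      intro u
      funext I
      unfold inC
      simp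
    rw [h3, h3, mulVec_smul, ← h1, smul_comm]

/-- **The criterion.** If the smallest subtorsor over `K` is the symplectic torsor then the absolute lines are spanned by
combinations of products of polarisations. -/
theorem abs_crit (hn : Even n) {Q c : Fin N → Matrix (Fin n) (Fin n) ℂ} {lam : ℂ}
    (hQ : ∀ j a b, Q j a b ∈ K) (hlam : lam ≠ 0)
    (hc : ∀ j, c j * Q j * (c j)ᵀ = lam • (bm ℚ n).map (algebraMap ℚ ℂ))
    (hu : IsUnit (blockDiagonal c))
    (hΩ : ∀ T, SubT K T → blockDiagonal c ∈ T → TB Q ⊆ T)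
    {α : (κ → Fin n × Fin N) → L} (hα : α ≠ 0) {F : (L →ₐ[K] ℂ) → (κ → Fin n × Fin N) → K} {s : (L →ₐ[K] ℂ) → ℂ}
    (h : AbsLine K (blockDiagonal c) α F s) :
    ∃ (m : ℕ) (F₀ : (κ → Fin n × Fin N) → K) (x : L), Fintype.card κ = m * 2 ∧
      F₀ ∈ Submodule.span K {G | ∃ (e : Fin m × Fin 2 ≃ κ) (b : Fin m → Fin N), G = prK K n e b} ∧
      (∀ τ : L →ₐ[K] ℂ, s τ • inC (F τ) = (lam ^ m * τ x) • inC F₀) := by
  have hc' : (c, lam) ∈ Tor (fun j => (-1 / 2 : ℂ) • Q j) := ⟨hlam, fun j => rel_iff.1 (hc j)⟩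
  have hTB : TB Q ⊆ SS α F := hΩ _ (SS_sub hα fun τ => (h.ne hu hα τ).1) (h.mem hu hα)
  have hT : ∀ τ, TInv (F τ) := by
    intro τ j v x
    refine h.fixed hu hα (single_sq j v) (fun y => hTB ?_) τ x
    rw [← bd_sg]
    refine ⟨fun k => sg j (TV v y) k * c k, lam, hlam, ?_, fun k => ?_⟩
    · exact bd_mul _ _
    · have h1 := hc k
      have h2 : sg j (TV v y) k * jm ℂ n * (sg j (TV v y) k)ᵀ = jm ℂ n := sg_mem j v y k
      have h3 : sg j (TV v y) k * (bm ℚ n).map (algebraMap ℚ ℂ) * (sg j (TV v y) k)ᵀ =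
          (bm ℚ n).map (algebraMap ℚ ℂ) := by
        rw [bm_eq, Matrix.mul_smul, Matrix.smul_mul, h2]
      rw [transpose_mul]
      calc sg j (TV v y) k * c k * Q k * ((c k)ᵀ * (sg j (TV v y) k)ᵀ) =
          sg j (TV v y) k * (c k * Q k * (c k)ᵀ) * (sg j (TV v y) k)ᵀ := by simp only [Matrix.mul_assoc]
        _ = lam • (bm ℚ n).map (algebraMap ℚ ℂ) := by rw [h1, Matrix.mul_smul, Matrix.smul_mul, h3]
  obtain ⟨τ₀⟩ : Nonempty (L →ₐ[K] ℂ) := ⟨IsAlgClosed.lift⟩
  have hF0 := (h.ne hu hα τ₀).1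
  obtain ⟨m, hm⟩ := (hT τ₀).even hn hF0
  have hm' : Fintype.card κ = m * 2 := by omega
  have hspan := span_ofK hn hm' (hT τ₀)
  obtain ⟨a, ha⟩ := cls_of_spanK hc' (half_mem hQ) hspan
  have hlm : lam ^ m ≠ 0 := pow_ne_zero _ hlam
  have ha0 : a ≠ 0 := by
    rintro rfl
    have : (inC (0 : (κ → Fin n × Fin N) → K)) = 0 := by
      funext I
      unfold inC
      simp
    rw [this, mulVec_zero, smul_eq_zero] at ha
    rcases ha with h1 | h1
    · exact hlm h1
    · exact inC_ne hF0 h1
  have h1 : cj α τ₀ = (s τ₀ / lam ^ m) • inC a := by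
    apply tp_inj hu
    rw [h τ₀, mulVec_smul]
    change _ = _ • (tp κ (bd c) *ᵥ inC a)
    rw [← ha, smul_smul, div_mul_cancel₀ _ hlm]
  obtain ⟨I₀, hI₀⟩ := Function.ne_iff.1 ha0
  rw [Pi.zero_apply] at hI₀
  set x : L := α I₀ * (algebraMap K L (a I₀))⁻¹ with hx
  have hxτ : s τ₀ / lam ^ m = τ₀ x := by
    have h2 := congrFun h1 I₀
    rw [Pi.smul_apply, smul_eq_mul] at h2
    have h3 : τ₀ (algebraMap K L (a I₀)) = inC a I₀ := τ₀.commutes _
    have h4 : inC a I₀ ≠ 0 := by
      unfold inC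
      exact_mod_cast hI₀
    rw [hx, map_mul, map_inv₀, h3]
    change τ₀ (α I₀) = _ at h2
    rw [h2, mul_assoc, mul_inv_cancel₀ h4, mul_one]
  have hαx : ∀ I, α I = x * algebraMap K L (a I) := by
    intro I
    apply τ₀.injective
    have h2 := congrFun h1 I
    rw [Pi.smul_apply, smul_eq_mul, hxτ] at h2
    change τ₀ (α I) = _ at h2
    change τ₀ (α I) = τ₀ (x * algebraMap K L (a I))
    have h3 : τ₀ (x * algebraMap K L (a I)) = τ₀ x * τ₀ (algebraMap K L (a I)) := map_mul τ₀ _ _
    have h4 : τ₀ (algebraMap K L (a I)) = inC a I := τ₀.commutes (a I)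
    rw [h2, h3, h4]
  refine ⟨m, F τ₀, x, hm', hspan, fun τ => ?_⟩
  have h2 : cj α τ = τ x • inC a := by
    funext I
    rw [Pi.smul_apply, smul_eq_mul]
    change τ (α I) = _
    have h3 : τ (x * algebraMap K L (a I)) = τ x * τ (algebraMap K L (a I)) := map_mul τ _ _
    have h4 : τ (algebraMap K L (a I)) = inC a I := τ.commutes (a I)
    rw [hαx, h3, h4]
  rw [← h τ, h2, mulVec_smul]
  change τ x • (tp κ (bd c) *ᵥ inC a) = _
  rw [← ha, smul_smul, mul_comm]

end Pool.Agent.H945.Abs
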