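import Pool.Agent.H945.Obj1

/-!
# Absolute systems of de Rham-Betti subvarieties and subtorsors
-/

set_option autoImplicit false
set_option linter.unusedSectionVars false

open Matrix MvPolynomial

namespace Pool.Agent.H945.Obj

open Pool.Agent.Y123.ST (SubT eval_aut')
open Pool.Agent.TH119.MX Pool.Agent.TH119.DR

variable {B ι : Type} [Fintype B] [DecidableEq B] [Fintype ι] [DecidableEq ι] {K : Subfield ℂ}
  {ρ : Matrix B B ℂ → Matrix ι ι ℂ}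

theorem im_im (A A' : Matrix ι ι ℂ) (Z : Set (ι → ℂ)) : im A (im A' Z) = im (A * A') Z := by
  unfold im
  rw [Set.image_image]
  refine Set.image_congr fun v _ => ?_
  rw [mulVec_mulVec]

theorem im_one (Z : Set (ι → ℂ)) : im 1 Z = Z := by
  unfold im
  simp only [one_mulVec, Set.image_id']

theorem unit_inv {x : Matrix B B ℂ} (hx : IsUnit x) : IsUnit x⁻¹ := by
  rw [isUnit_iff_isUnit_det] at hx ⊢
  rw [det_nonsing_inv]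
  exact hx.ringInverse

theorem mul_inv' {x : Matrix B B ℂ} (hx : IsUnit x) : x * x⁻¹ = 1 :=
  mul_nonsing_inv x ((isUnit_iff_isUnit_det x).1 hx)

theorem inv_mul' {x : Matrix B B ℂ} (hx : IsUnit x) : x⁻¹ * x = 1 :=
  nonsing_inv_mul x ((isUnit_iff_isUnit_det x).1 hx)

namespace IsRep

theorem mul_inv (h : IsRep K ρ) {x : Matrix B B ℂ} (hx : IsUnit x) : ρ x * ρ x⁻¹ = 1 := by
  rw [← h.mul x x⁻¹ hx (unit_inv hx), mul_inv' hx, h.one]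

theorem inv_mul (h : IsRep K ρ) {x : Matrix B B ℂ} (hx : IsUnit x) : ρ x⁻¹ * ρ x = 1 := by
  rw [← h.mul x⁻¹ x (unit_inv hx) hx, inv_mul' hx, h.one]

theorem isUnit (h : IsRep K ρ) {x : Matrix B B ℂ} (hx : IsUnit x) : IsUnit (ρ x) :=
  IsUnit.of_mul_eq_one _ (h.mul_inv hx)

theorem map_aut (h : IsRep K ρ) {σ : ℂ ≃+* ℂ} (hσ : ∀ x ∈ K, σ x = x) {x : Matrix B B ℂ} (hx : IsUnit x) :
    ρ (x.map σ) = (ρ x).map σ := by
  ext i j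
  obtain ⟨d, p, hp⟩ := h.reg i j
  have hx' : IsUnit (x.map σ) := hx.map ((σ : ℂ →+* ℂ).mapMatrix (m := B))
  have h1 := hp x hx
  have h2 := hp _ hx'
  have h3 := congrArg σ h1
  rw [map_mul, map_pow, eval_aut'] at h3
  have h4 : (map (algebraMap K ℂ) p).map (σ : ℂ →+* ℂ) = map (algebraMap K ℂ) p := by
    rw [MvPolynomial.map_map]
    have h7 : (σ : ℂ →+* ℂ).comp (algebraMap K ℂ) = algebraMap K ℂ := RingHom.ext fun a => hσ _ a.2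
    rw [h7]
  have h5 : σ x.det = (x.map σ).det := by
    have := RingHom.map_det (σ : ℂ →+* ℂ) x
    exact this
  rw [h4, h5] at h3
  have h6 : (fun b : B × B => σ (x b.1 b.2)) = fun b => (x.map σ) b.1 b.2 := rfl
  rw [h6, ← h2] at h3
  have hd : (x.map σ).det ^ d ≠ 0 := pow_ne_zero _ ((isUnit_iff_isUnit_det _).1 hx').ne_zero
  exact (mul_left_cancel₀ hd h3).symm

theorem regular (h : IsRep K ρ) (i j : ι) : Reg (fun x => ρ x i j) := by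
  obtain ⟨d, p, hp⟩ := h.reg i j
  exact ⟨d, map (algebraMap K ℂ) p, hp⟩

end IsRep

theorem closed_im {A : Matrix ι ι ℂ} (hA : IsUnit A) {Z : Set (ι → ℂ)} (hZ : IsClosedSet Z) : IsClosedSet (im A Z) := by
  obtain ⟨S, rfl⟩ := hZ
  have key : ∀ (p : MvPolynomial ι ℂ) (v : ι → ℂ),
      eval v (bind₁ (fun i => ∑ j, C (A⁻¹ i j) * X j) p) = eval (A⁻¹ *ᵥ v) p := by
    intro p v
    rw [← coe_aeval_eq_eval, ← coe_aeval_eq_eval, RingHom.coe_coe, RingHom.coe_coe, aeval_bind₁]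
    congr 2
    funext i
    simp [mulVec, dotProduct]
  refine ⟨(bind₁ (fun i => ∑ j, C (A⁻¹ i j) * X j)) '' S, ?_⟩
  ext v
  constructor
  · rintro ⟨w, hw, rfl⟩ _ ⟨p, hp, rfl⟩
    rw [key, mulVec_mulVec, inv_mul' hA, one_mulVec]
    exact hw p hp
  · intro hv
    refine ⟨A⁻¹ *ᵥ v, fun p hp => ?_, ?_⟩
    · rw [← key]
      exact hv _ ⟨p, hp, rfl⟩
    · show A *ᵥ (A⁻¹ *ᵥ v) = v
      rw [mulVec_mulVec, mul_inv' hA, one_mulVec]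

/-- the set of the isomorphisms which map the members of `𝓩` to members of `𝓨` -/
def TT (ρ : Matrix B B ℂ → Matrix ι ι ℂ) (𝓩 𝓨 : Set (Set (ι → ℂ))) : Set (Matrix B B ℂ) :=
  {x | IsUnit x ∧ ∀ Z ∈ 𝓩, im (ρ x) Z ∈ 𝓨}

theorem clG_mem {M : Matrix B B ℂ → Matrix ι ι ℂ} (hM : ∀ i j, Reg (fun x => M x i j)) {Y : Set (ι → ℂ)}
    (hY : IsClosedSet Y) (z : ι → ℂ) : ClG {x | M x *ᵥ z ∈ Y} := by
  obtain ⟨S, rfl⟩ := hY
  have h1 : ClG (⋂ p : S, {x | eval (fun i => (M x *ᵥ z) i) (p : MvPolynomial ι ℂ) = 0}) := by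
    refine ClG.iInter fun p => ClG.zero (Reg.comp (φ := fun i x => (M x *ᵥ z) i) (fun i => ?_) _)
    unfold mulVec dotProduct
    exact Reg.sum _ fun j _ => (hM i j).mul (Reg.const (z j))
  refine h1.congr fun x _ => ?_
  simp only [Set.mem_iInter, Subtype.forall]
  rfl

theorem im_eq_iff (hρ : IsRep K ρ) {x : Matrix B B ℂ} (hx : IsUnit x) {Z Y : Set (ι → ℂ)} :
    im (ρ x) Z = Y ↔ (∀ z ∈ Z, ρ x *ᵥ z ∈ Y) ∧ ∀ y ∈ Y, ρ x⁻¹ *ᵥ y ∈ Z := by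
  constructor
  · rintro rfl
    refine ⟨fun z hz => ⟨z, hz, rfl⟩, ?_⟩
    rintro _ ⟨z, hz, rfl⟩
    show ρ x⁻¹ *ᵥ (ρ x *ᵥ z) ∈ Z
    rw [mulVec_mulVec, hρ.inv_mul hx, one_mulVec]
    exact hz
  · rintro ⟨h1, h2⟩
    apply Set.Subset.antisymm
    · rintro _ ⟨z, hz, rfl⟩
      exact h1 z hz
    · intro y hy
      refine ⟨_, h2 y hy, ?_⟩
      show ρ x *ᵥ (ρ x⁻¹ *ᵥ y) = y
      rw [mulVec_mulVec, hρ.mul_inv hx, one_mulVec]

theorem TT_closed (hρ : IsRep K ρ) {𝓩 𝓨 : Set (Set (ι → ℂ))} (h𝓨 : 𝓨.Finite) (hZ : ∀ Z ∈ 𝓩, IsClosedSet Z)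
    (hY : ∀ Y ∈ 𝓨, IsClosedSet Y) : ClG (TT ρ 𝓩 𝓨) := by
  have h1 : ClG (⋂ Z : 𝓩, ⋃ Y ∈ 𝓨, {x : Matrix B B ℂ | x ∈ (⋂ z : (Z : Set (ι → ℂ)), {x | ρ x *ᵥ z ∈ Y}) ∧
      x ∈ ⋂ y : (Y : Set (ι → ℂ)), {x | ρ x⁻¹ *ᵥ y ∈ (Z : Set (ι → ℂ))}}) := by
    refine ClG.iInter fun Z => ClG.biUnion h𝓨 fun Y hY' => ?_
    have h2 : ClG (⋂ z : (Z : Set (ι → ℂ)), {x | ρ x *ᵥ z ∈ Y}) :=
      ClG.iInter fun z => clG_mem (fun i j => hρ.regular i j) (hY Y hY') z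
    have h3 : ClG (⋂ y : (Y : Set (ι → ℂ)), {x | ρ x⁻¹ *ᵥ y ∈ (Z : Set (ι → ℂ))}) :=
      ClG.iInter fun y => clG_mem (M := fun x => ρ x⁻¹) (fun i j => (hρ.regular i j).inv) (hZ Z Z.2) y
    have h4 := ClG.iInter (T := Bool) (S := fun b => if b then (⋂ z : (Z : Set (ι → ℂ)), {x | ρ x *ᵥ z ∈ Y}) else
      (⋂ y : (Y : Set (ι → ℂ)), {x | ρ x⁻¹ *ᵥ y ∈ (Z : Set (ι → ℂ))})) (by
        intro b
        cases b
        · simpa using h3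
        · simpa using h2)
    refine h4.congr fun x _ => ?_
    rw [Set.mem_iInter, Bool.forall_bool, and_comm]
    exact Iff.rfl
  refine h1.congr fun x hx => ?_
  unfold TT
  rw [Set.mem_ofPred_eq, Set.mem_iInter]
  constructor
  · rintro ⟨_, h2⟩ ⟨Z, hZ'⟩
    rw [Set.mem_iUnion₂]
    refine ⟨_, h2 Z hZ', ?_⟩
    have h3 := (im_eq_iff hρ hx (Z := Z)).1 rfl
    refine ⟨?_, ?_⟩
    · rw [Set.mem_iInter]
      exact fun z => h3.1 z z.2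
    · rw [Set.mem_iInter]
      exact fun y => h3.2 y y.2
  · intro h2
    refine ⟨hx, fun Z hZ' => ?_⟩
    have h3 := h2 ⟨Z, hZ'⟩
    rw [Set.mem_iUnion₂] at h3
    obtain ⟨Y, hY', h4, h5⟩ := h3
    rw [Set.mem_iInter] at h4 h5
    have h6 := (im_eq_iff hρ hx (Z := Z) (Y := Y)).2 ⟨fun z hz => h4 ⟨z, hz⟩, fun y hy => h5 ⟨y, hy⟩⟩
    rw [h6]
    exact hY'

theorem im_inj {A : Matrix ι ι ℂ} (hA : IsUnit A) {Z Z' : Set (ι → ℂ)} (h : im A Z = im A Z') : Z = Z' := by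
  have h1 : im A⁻¹ (im A Z) = im A⁻¹ (im A Z') := by rw [h]
  rwa [im_im, im_im, inv_mul' hA, im_one, im_one] at h1

section abs

variable {𝓩 : Set (Set (ι → ℂ))} {c : Matrix B B ℂ}

theorem TT_onto (hρ : IsRep K ρ) (hf : 𝓩.Finite) (hc : IsUnit c) {y : Matrix B B ℂ} (hy : y ∈ TT ρ 𝓩 (im (ρ c) '' 𝓩)) :
    im (ρ y) '' 𝓩 = im (ρ c) '' 𝓩 := by
  refine Set.eq_of_subset_of_ncard_le ?_ ?_ (hf.image _)
  · rintro _ ⟨Z, hZ, rfl⟩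
    exact hy.2 Z hZ
  · rw [Set.ncard_image_of_injective _ fun Z Z' h => im_inj (hρ.isUnit hc) h,
      Set.ncard_image_of_injective _ fun Z Z' h => im_inj (hρ.isUnit hy.1) h]

theorem TT_torsor (hρ : IsRep K ρ) (hf : 𝓩.Finite) (hc : IsUnit c) {x y z : Matrix B B ℂ}
    (hx : x ∈ TT ρ 𝓩 (im (ρ c) '' 𝓩)) (hy : y ∈ TT ρ 𝓩 (im (ρ c) '' 𝓩)) (hz : z ∈ TT ρ 𝓩 (im (ρ c) '' 𝓩)) :
    x * y⁻¹ * z ∈ TT ρ 𝓩 (im (ρ c) '' 𝓩) := by
  refine ⟨(hx.1.mul (unit_inv hy.1)).mul hz.1, fun Z hZ => ?_⟩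
  have h1 : im (ρ z) Z ∈ im (ρ y) '' 𝓩 := by
    rw [TT_onto hρ hf hc hy]
    exact hz.2 Z hZ
  obtain ⟨Z', hZ', h2⟩ := h1
  rw [hρ.mul _ _ (hx.1.mul (unit_inv hy.1)) hz.1, hρ.mul _ _ hx.1 (unit_inv hy.1), ← im_im, ← im_im, ← h2,
    im_im (ρ y⁻¹), hρ.inv_mul hy.1, im_one]
  exact hx.2 Z' hZ'

theorem TT_aut (hρ : IsRep K ρ) (h : IsAbsolute K (ρ c) 𝓩) {σ : ℂ ≃+* ℂ} (hσ : ∀ x ∈ K, σ x = x)
    {x : Matrix B B ℂ} (hx : x ∈ TT ρ 𝓩 (im (ρ c) '' 𝓩)) : x.map σ ∈ TT ρ 𝓩 (im (ρ c) '' 𝓩) := by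
  refine ⟨hx.1.map ((σ : ℂ →+* ℂ).mapMatrix (m := B)), fun Z hZ => ?_⟩
  have hsym : ∀ x ∈ K, σ.symm x = x := by
    intro x hx
    rw [RingEquiv.symm_apply_eq, hσ x hx]
  have h1 := h.2.2.1 σ.symm hsym Z hZ
  have h2 := h.2.2.2 σ hσ _ (hx.2 _ h1)
  have h3 : (fun (v : ι → ℂ) i => σ (v i)) '' im (ρ x) ((fun (v : ι → ℂ) i => σ.symm (v i)) '' Z) =
      im (ρ (x.map σ)) Z := by
    unfold im
    rw [Set.image_image, Set.image_image, hρ.map_aut hσ hx.1]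
    refine Set.image_congr fun v _ => ?_
    funext i
    simp [mulVec, dotProduct]
  rw [h3] at h2
  exact h2

/-- the isomorphisms which map an absolute system to its image form a subtorsor over `K` -/
theorem TT_sub (hρ : IsRep K ρ) (hc : IsUnit c) (h : IsAbsolute K (ρ c) 𝓩) :
    SubT K (TT ρ 𝓩 (im (ρ c) '' 𝓩)) := by
  refine ⟨fun x hx y hy z hz => TT_torsor hρ h.1 hc hx hy hz, ?_⟩
  refine defined_over (TT_closed hρ (h.1.image _) h.2.1 ?_) (fun x hx => hx.1) fun σ hσ x hx => TT_aut hρ h hσ hx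
  rintro _ ⟨Z, hZ, rfl⟩
  exact closed_im (hρ.isUnit hc) (h.2.1 Z hZ)

theorem TT_self (hc : IsUnit c) : c ∈ TT ρ 𝓩 (im (ρ c) '' 𝓩) := ⟨hc, fun Z hZ => ⟨Z, hZ, rfl⟩⟩

theorem TT_perm (hρ : IsRep K ρ) (hc : IsUnit c) {g : Matrix B B ℂ} (hg : IsUnit g)
    (hgc : g * c ∈ TT ρ 𝓩 (im (ρ c) '' 𝓩)) {Y : Set (ι → ℂ)} (hY : Y ∈ im (ρ c) '' 𝓩) :
    im (ρ g) Y ∈ im (ρ c) '' 𝓩 := by
  obtain ⟨Z, hZ, rfl⟩ := hY
  have h1 := hgc.2 Z hZ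
  rw [hρ.mul _ _ hg hc, ← im_im] at h1
  exact h1

/-- one-parameter groups act trivially on finite sets -/
theorem TT_fix (hρ : IsRep K ρ) (hf : 𝓩.Finite) (hc : IsUnit c) {U : ℂ → Matrix B B ℂ} (hU0 : U 0 = 1)
    (hU : ∀ x y, U (x + y) = U x * U y) (hUc : ∀ x, U x * c ∈ TT ρ 𝓩 (im (ρ c) '' 𝓩)) {Y : Set (ι → ℂ)}
    (hY : Y ∈ im (ρ c) '' 𝓩) (x : ℂ) : im (ρ (U x)) Y = Y := by
  classical
  have hun : ∀ x, IsUnit (U x) := by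
    intro x
    have h1 : U x * U (-x) = 1 := by rw [← hU, add_neg_cancel, hU0]
    exact IsUnit.of_mul_eq_one _ h1
  have hf' : (im (ρ c) '' 𝓩).Finite := hf.image _
  have := hf'.fintype
  set k := Fintype.card {Y // Y ∈ im (ρ c) '' 𝓩} with hk
  have key : ∀ r : ℂ, ∃ e : ℕ, 1 ≤ e ∧ e ≤ k ∧ im (ρ (U ((e : ℂ) * r))) Y = Y := by
    intro r
    obtain ⟨d, d', hdd, heq⟩ := Fintype.exists_ne_map_eq_of_card_lt
      (fun d : Fin (k + 1) => (⟨im (ρ (U (((d : ℕ) : ℂ) * r))) Y, TT_perm hρ hc (hun _) (hUc _) hY⟩ :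
        (im (ρ c) '' 𝓩 : Set (Set (ι → ℂ))))) (by
      rw [Fintype.card_fin]; omega)
    wlog hlt : (d : ℕ) < d' generalizing d d'
    · exact this d' d (Ne.symm hdd) heq.symm (by
        rcases lt_trichotomy (d : ℕ) d' with h1 | h1 | h1
        · exact absurd h1 hlt
        · exact absurd (Fin.ext h1) hdd
        · exact h1)
    have hd' := d'.2
    refine ⟨(d' : ℕ) - d, by omega, by omega, ?_⟩
    have h1 : im (ρ (U (((d : ℕ) : ℂ) * r))) Y = im (ρ (U (((d' : ℕ) : ℂ) * r))) Y := congrArg Subtype.val heq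
    have h3 : ((((d' : ℕ) - (d : ℕ) : ℕ) : ℂ)) * r = -(((d : ℕ) : ℂ) * r) + ((d' : ℕ) : ℂ) * r := by
      rw [Nat.cast_sub hlt.le]
      ring
    rw [h3, hU, hρ.mul _ _ (hun _) (hun _), ← im_im, ← h1, im_im, ← hρ.mul _ _ (hun _) (hun _), ← hU, neg_add_cancel,
      hU0, hρ.one, im_one]
  have pow : ∀ (r : ℂ), im (ρ (U r)) Y = Y → ∀ j : ℕ, im (ρ (U ((j : ℂ) * r))) Y = Y := by
    intro r hr j
    induction j with
    | zero => rw [Nat.cast_zero, zero_mul, hU0, hρ.one, im_one]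
    | succ j ih =>
      rw [Nat.cast_succ, add_mul, one_mul, hU, hρ.mul _ _ (hun _) (hun _), ← im_im, hr, ih]
  obtain ⟨e, he1, hek, h1⟩ := key (x / (k.factorial : ℂ))
  obtain ⟨q, hq⟩ : e ∣ k.factorial := Nat.dvd_factorial (by omega) hek
  have h2 := pow _ h1 q
  have hfac : (k.factorial : ℂ) ≠ 0 := by exact_mod_cast k.factorial_ne_zero
  have h3 : (q : ℂ) * ((e : ℂ) * (x / (k.factorial : ℂ))) = x := by
    have h4 : (k.factorial : ℂ) = (e : ℂ) * q := by exact_mod_cast hq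
    rw [← mul_assoc, mul_comm (q : ℂ), ← h4]
    field_simp
  rw [h3] at h2
  exact h2

/-- **One-parameter groups which preserve the subtorsors over `K` through `c` stabilise the members of the absolute
systems.** -/
theorem abs_fix (hρ : IsRep K ρ) (hc : IsUnit c) (h : IsAbsolute K (ρ c) 𝓩) {U : ℂ → Matrix B B ℂ} (hU0 : U 0 = 1)
    (hU : ∀ x y, U (x + y) = U x * U y) (hUc : ∀ T, SubT K T → c ∈ T → ∀ x, U x * c ∈ T) {Z : Set (ι → ℂ)}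
    (hZ : Z ∈ 𝓩) (x : ℂ) : im (ρ (U x)) (im (ρ c) Z) = im (ρ c) Z :=
  TT_fix hρ h.1 hc hU0 hU (hUc _ (TT_sub hρ hc h) (TT_self hc)) ⟨Z, hZ, rfl⟩ x

end abs

end Pool.Agent.H945.Obj
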