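import Pool.Graph.R_seed8.Y123.GN.E8
import Pool.Agent.H945.Obj2

/-!
# Absolute systems and products of groups generated by unipotent one-parameter groups
-/

set_option autoImplicit false
set_option linter.unusedSectionVars false

open Matrix MvPolynomial

namespace Pool.Agent.H945.Blk

open Pool.Agent.H945.Obj
open Pool.Agent.Y123.GN (Nil Ug Ug_le em em_mem em_Ug EG EG_mul EG_one EGu EGu_val GG IG GB)
open Pool.Agent.Y123.ST (SubT)

section one

variable {M ι : Type} [Fintype M] [DecidableEq M] [Fintype ι] [DecidableEq ι] {K : Subfield ℂ}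
  {ρ : Matrix M M ℂ → Matrix ι ι ℂ} {𝓩 : Set (Set (ι → ℂ))} {c : Matrix M M ℂ}

/-- the members of absolute systems are stable under the unipotent one-parameter groups which preserve the subtorsors -/
theorem stab_Ug (hρ : IsRep K ρ) (hc : IsUnit c) (h : IsAbsolute K (ρ c) 𝓩) {V : Subgroup (Matrix M M ℂ)ˣ}
    (hV : ∀ T, SubT K T → c ∈ T → ∀ v ∈ V, (v : Matrix M M ℂ) * c ∈ T) {Z : Set (ι → ℂ)} (hZ : Z ∈ 𝓩)
    {g : (Matrix M M ℂ)ˣ} (hg : g ∈ Ug V) : im (ρ (g : Matrix M M ℂ)) (im (ρ c) Z) = im (ρ c) Z := by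
  unfold Ug at hg
  induction hg using Subgroup.closure_induction with
  | mem u hu =>
    obtain ⟨N, hN, t, hut⟩ := hu
    rw [hut]
    refine abs_fix hρ hc h (U := fun x => IsNilpotent.exp (x • N)) ?_ ?_ ?_ hZ t
    · show IsNilpotent.exp ((0 : ℂ) • N) = 1
      rw [zero_smul, IsNilpotent.exp_zero]
    · intro x y
      show IsNilpotent.exp ((x + y) • N) = _
      rw [add_smul]
      exact IsNilpotent.exp_add_of_commute ((Commute.refl N).smul_left x |>.smul_right y) (hN.1.smul x) (hN.1.smul y)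
    · intro T hT hcT x
      obtain ⟨v, hv, hv'⟩ := hN.2 x
      rw [← hv']
      exact hV T hT hcT v hv
  | one => rw [Units.val_one, hρ.one, im_one]
  | mul a b _ _ ha hb =>
    rw [Units.val_mul, hρ.mul _ _ a.isUnit b.isUnit, ← im_im, hb, ha]
  | inv a _ ha =>
    have h1 : im (ρ ((a⁻¹ : (Matrix M M ℂ)ˣ) : Matrix M M ℂ)) (im (ρ (a : Matrix M M ℂ)) (im (ρ c) Z)) = im (ρ c) Z := by
      rw [im_im, ← hρ.mul _ _ (a⁻¹).isUnit a.isUnit, Units.inv_mul, hρ.one, im_one]
    rw [ha] at h1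
    exact h1

end one

section blocks

variable {B₀ : Type} [Fintype B₀] [DecidableEq B₀] {k : ℕ} {n : Fin k → ℕ} {ι : Type} [Fintype ι] [DecidableEq ι]
  {K : Subfield ℂ} {ρ : Matrix (IG B₀ n) (IG B₀ n) ℂ → Matrix ι ι ℂ} {𝓩 : Set (Set (ι → ℂ))}
  {c : Matrix (IG B₀ n) (IG B₀ n) ℂ}

/-- products of elements of the groups `Ug (V i)` -/
theorem EGu_mem {V : ∀ i, Subgroup (Matrix (Fin (n i)) (Fin (n i)) ℂ)ˣ} {g : ∀ i, (Matrix (Fin (n i)) (Fin (n i)) ℂ)ˣ}
    (hg : ∀ i, g i ∈ Ug (V i)) : EGu B₀ n g ∈ Ug (GG B₀ V) := by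
  classical
  have key : ∀ S : Finset (Fin k), EGu B₀ n (fun j => if j ∈ S then g j else 1) ∈ Ug (GG B₀ V) := by
    intro S
    induction S using Finset.induction_on with
    | empty =>
      have h1 : (fun j => if j ∈ (∅ : Finset (Fin k)) then g j else 1) =
          (1 : ∀ i, (Matrix (Fin (n i)) (Fin (n i)) ℂ)ˣ) := by
        funext j
        simp
      rw [h1, map_one]
      exact one_mem _
    | insert i S hi ih =>
      have h0 : em B₀ i (g i) ∈ Ug (GG B₀ V) := em_Ug (Subgroup.mem_map_of_mem _ (hg i))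
      have h1 := mul_mem h0 ih
      have h2 : em B₀ i (g i) * EGu B₀ n (fun j => if j ∈ S then g j else 1) =
          EGu B₀ n (fun j => if j ∈ insert i S then g j else 1) := by
        show EGu B₀ n (Pi.mulSingle i (g i)) * _ = _
        rw [← map_mul]
        congr 1
        funext j
        rw [Pi.mul_apply]
        by_cases hj : j = i
        · subst hj
          rw [Pi.mulSingle_eq_same, if_neg hi, if_pos (Finset.mem_insert_self _ _), mul_one]
        · rw [Pi.mulSingle_eq_of_ne hj, one_mul]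
          by_cases hS : j ∈ S
          · rw [if_pos hS, if_pos (Finset.mem_insert_of_mem hS)]
          · rw [if_neg hS, if_neg (by rw [Finset.mem_insert]; tauto)]
      rwa [h2] at h1
  have h1 := key Finset.univ
  simpa using h1

/-- **products of groups** -/
theorem stab_blocks (hρ : IsRep K ρ) (hc : IsUnit c) (h : IsAbsolute K (ρ c) 𝓩)
    {V : ∀ i, Subgroup (Matrix (Fin (n i)) (Fin (n i)) ℂ)ˣ}
    (hV : ∀ T, SubT K T → c ∈ T → ∀ g : ∀ i, (Matrix (Fin (n i)) (Fin (n i)) ℂ)ˣ, (∀ i, g i ∈ V i) →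
      EG 1 (fun i => (g i : Matrix (Fin (n i)) (Fin (n i)) ℂ)) * c ∈ T) {Z : Set (ι → ℂ)} (hZ : Z ∈ 𝓩)
    {g : ∀ i, (Matrix (Fin (n i)) (Fin (n i)) ℂ)ˣ} (hg : ∀ i, g i ∈ Ug (V i)) :
    im (ρ (EG 1 fun i => (g i : Matrix (Fin (n i)) (Fin (n i)) ℂ))) (im (ρ c) Z) = im (ρ c) Z := by
  have h1 := stab_Ug hρ hc h (V := GG B₀ V) (by
    rintro T hT hcT _ ⟨v, hv, rfl⟩
    exact hV T hT hcT v fun i => hv i (Set.mem_univ i)) hZ (EGu_mem hg)
  exact h1

end blocks

end Pool.Agent.H945.Blk
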