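import Pool.Agent.H945.Blk1

/-!
# The full motivic group
-/

set_option autoImplicit false
set_option linter.unusedSectionVars false

open Matrix MvPolynomial

namespace Pool.Agent.H945.Blk

open Pool.Agent.H945.Obj
open Pool.Agent.Y123.GN (Nil Ug Ug_le em em_mem em_Ug EG EG_mul EG_one EGu EGu_val GG IG GB Spf Clf cl_perf sp_det1
  EG_block_unit)
open Pool.Agent.Y123.ST (SubT)

theorem subT_inter {K : Subfield ℂ} {M : Type} [Fintype M] [DecidableEq M] {S T : Set (Matrix M M ℂ)} (hS : SubT K S)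
    (hT : SubT K T) : SubT K (S ∩ T) := by
  obtain ⟨h1, I, h2⟩ := hS
  obtain ⟨h3, J, h4⟩ := hT
  refine ⟨fun x hx y hy z hz => ⟨h1 x hx.1 y hy.1 z hz.1, h3 x hx.2 y hy.2 z hz.2⟩, I ∪ J, fun x => ?_⟩
  rw [Set.mem_inter_iff, h2, h4]
  constructor
  · rintro ⟨⟨h5, h6⟩, _, h7⟩
    exact ⟨h5, fun p hp => hp.elim (h6 p) (h7 p)⟩
  · rintro ⟨h5, h6⟩
    exact ⟨⟨h5, fun p hp => h6 p (Or.inl hp)⟩, h5, fun p hp => h6 p (Or.inr hp)⟩

variable {B₀ : Type} [Fintype B₀] [DecidableEq B₀] {k : ℕ} {n : Fin k → ℕ} {ι : Type} [Fintype ι] [DecidableEq ι]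
  {K : Subfield ℂ} {ρ : Matrix (IG B₀ n) (IG B₀ n) ℂ → Matrix ι ι ℂ} {𝓩 : Set (Set (ι → ℂ))}
  {c : Matrix (IG B₀ n) (IG B₀ n) ℂ}

/-- the torus -/
noncomputable def tor (B₀ : Type) [Fintype B₀] [DecidableEq B₀] {k : ℕ} (n : Fin k → ℕ) (w : Fin k → ℤ) (y : ℂ) :
    Matrix (IG B₀ n) (IG B₀ n) ℂ :=
  EG (Complex.exp (2 * y) • (1 : Matrix B₀ B₀ ℂ)) fun j => Complex.exp (w j * y) • (1 : Matrix (Fin (n j)) (Fin (n j)) ℂ)

theorem tor_zero (w : Fin k → ℤ) : tor B₀ n w 0 = 1 := by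
  unfold tor
  simp only [mul_zero, Complex.exp_zero, one_smul]
  exact EG_one

theorem tor_add (w : Fin k → ℤ) (x y : ℂ) : tor B₀ n w (x + y) = tor B₀ n w x * tor B₀ n w y := by
  unfold tor
  rw [EG_mul]
  congr 1
  · rw [smul_mul_smul_comm, Matrix.one_mul, mul_add, Complex.exp_add]
  · funext j
    rw [smul_mul_smul_comm, Matrix.one_mul, mul_add, Complex.exp_add]

/-- the torsor of the isomorphisms which respect forms and determinants -/
def FTor (B₀ : Type) [Fintype B₀] [DecidableEq B₀] {k : ℕ} {n : Fin k → ℕ} (B Q : ∀ i, Matrix (Fin (n i)) (Fin (n i)) ℂ)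
    (w m : Fin k → ℤ) (δ : Fin k → ℂ) : Set (Matrix (IG B₀ n) (IG B₀ n) ℂ) :=
  {y | ∃ z : ℂ, z ≠ 0 ∧ ∃ X : ∀ i, Matrix (Fin (n i)) (Fin (n i)) ℂ, y = EG (z • 1) X ∧
    ∀ i, X i * Q i * (X i)ᵀ = z ^ (w i) • B i ∧ (Spf (B i) ∨ (X i).det = δ i * z ^ (m i))}

theorem tor_mul_mem {B Q : ∀ i, Matrix (Fin (n i)) (Fin (n i)) ℂ} {w m : Fin k → ℤ} {δ : Fin k → ℂ}
    (hm : ∀ i, 2 * m i = n i * w i) (hc : c ∈ FTor B₀ B Q w m δ) (y : ℂ) : tor B₀ n w y * c ∈ FTor B₀ B Q w m δ := by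
  obtain ⟨z, hz, X, rfl, hX⟩ := hc
  refine ⟨Complex.exp (2 * y) * z, mul_ne_zero (Complex.exp_ne_zero _) hz, fun j => Complex.exp (w j * y) • X j, ?_,
    fun i => ⟨?_, ?_⟩⟩
  · unfold tor
    rw [EG_mul]
    congr 1
    · rw [smul_mul_smul_comm, Matrix.one_mul]
    · funext j
      rw [Matrix.smul_mul, Matrix.one_mul]
  · rw [transpose_smul, Matrix.smul_mul, Matrix.smul_mul, Matrix.mul_smul, (hX i).1, smul_smul, smul_smul, mul_zpow,
      ← Complex.exp_int_mul, ← Complex.exp_add]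
    congr 3
    ring
  · rcases (hX i).2 with h | h
    · exact Or.inl h
    · right
      rw [det_smul, h, Fintype.card_fin, mul_zpow, ← Complex.exp_int_mul, ← Complex.exp_nat_mul]
      have h1 : (n i : ℂ) * (w i * y) = (m i : ℂ) * (2 * y) := by
        have h2 : (2 : ℂ) * m i = n i * w i := by exact_mod_cast hm i
        rw [← mul_assoc, ← h2]
        ring
      rw [h1]
      ring

/-- **the full motivic group** -/
theorem stab_full (hρ : IsRep K ρ) (hc : IsUnit c) (h : IsAbsolute K (ρ c) 𝓩)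
    {B Q : ∀ i, Matrix (Fin (n i)) (Fin (n i)) ℂ} (hB : ∀ i, Clf (B i))
    (hV : ∀ T, SubT K T → c ∈ T → ∀ g : ∀ i, (Matrix (Fin (n i)) (Fin (n i)) ℂ)ˣ, (∀ i, g i ∈ GB (B i)) →
      EG 1 (fun i => (g i : Matrix (Fin (n i)) (Fin (n i)) ℂ)) * c ∈ T) {w m : Fin k → ℤ} {δ : Fin k → ℂ}
    (hm : ∀ i, 2 * m i = n i * w i) (hS : SubT K (FTor B₀ B Q w m δ)) (hcS : c ∈ FTor B₀ B Q w m δ)
    (hmin : ∀ T, SubT K T → c ∈ T → T ⊆ FTor B₀ B Q w m δ → T = FTor B₀ B Q w m δ) {Z : Set (ι → ℂ)} (hZ : Z ∈ 𝓩)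
    {z : ℂ} (hz : z ≠ 0) {g : ∀ i, Matrix (Fin (n i)) (Fin (n i)) ℂ}
    (hg : ∀ i, g i * B i * (g i)ᵀ = z ^ (w i) • B i ∧ (Spf (B i) ∨ (g i).det = z ^ (m i))) :
    im (ρ (EG (z • 1) g)) (im (ρ c) Z) = im (ρ c) Z := by
  set x := Complex.log z / 2 with hx
  have hxz : Complex.exp (2 * x) = z := by
    rw [hx, mul_div_cancel₀ _ (two_ne_zero), Complex.exp_log hz]
  have h1 : ∀ y, im (ρ (tor B₀ n w y)) (im (ρ c) Z) = im (ρ c) Z := by
    intro y
    refine abs_fix hρ hc h (U := tor B₀ n w) (tor_zero w) (tor_add w) ?_ hZ y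
    intro T hT hcT y
    have h2 := hmin _ (subT_inter hT hS) ⟨hcT, hcS⟩ Set.inter_subset_right
    have h3 := tor_mul_mem hm hcS y
    rw [← h2] at h3
    exact h3.1
  have h2 : ∀ i, ((Complex.exp (w i * (-x)) • g i) * B i * (Complex.exp (w i * (-x)) • g i)ᵀ = B i) ∧
      (Complex.exp (w i * (-x)) • g i).det = 1 := by
    intro i
    have h3 : (Complex.exp (w i * (-x)) • g i) * B i * (Complex.exp (w i * (-x)) • g i)ᵀ = B i := by
      rw [transpose_smul, Matrix.smul_mul, Matrix.smul_mul, Matrix.mul_smul, (hg i).1, smul_smul, smul_smul, ← hxz,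
        ← Complex.exp_int_mul, ← Complex.exp_add, ← Complex.exp_add]
      have h4 : (w i : ℂ) * (-x) + (w i * (-x) + w i * (2 * x)) = 0 := by ring
      rw [← add_assoc] at h4
      rw [h4, Complex.exp_zero, one_smul]
    refine ⟨h3, ?_⟩
    rcases (hg i).2 with h5 | h5
    · exact sp_det1 h5 h3
    · rw [det_smul, h5, Fintype.card_fin, ← hxz, ← Complex.exp_int_mul, ← Complex.exp_nat_mul, ← Complex.exp_add]
      have h6 : (n i : ℂ) * (w i * (-x)) + m i * (2 * x) = 0 := by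
        have h2 : (2 : ℂ) * m i = n i * w i := by exact_mod_cast hm i
        have h3 : (m i : ℂ) * (2 * x) = (2 * m i) * x := by ring
        rw [h3, h2]
        ring
      rw [h6, Complex.exp_zero]
  have hu : ∀ i, IsUnit (Complex.exp (w i * (-x)) • g i) := fun i =>
    (Matrix.isUnit_iff_isUnit_det _).2 (by rw [(h2 i).2]; exact isUnit_one)
  have h3 := stab_blocks hρ hc h (V := fun i => GB (B i)) hV hZ (g := fun i => (hu i).unit) (fun i => by
    have h4 : (hu i).unit ∈ GB (B i) := ⟨(h2 i).2, (h2 i).1⟩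
    exact (Subgroup.commutator_le.2 fun a ha b hb => (Ug _).mul_mem ((Ug _).mul_mem ((Ug _).mul_mem ha hb)
      ((Ug _).inv_mem ha)) ((Ug _).inv_mem hb)) (cl_perf (hB i) h4))
  have h4 : EG (z • (1 : Matrix B₀ B₀ ℂ)) g =
      tor B₀ n w x * EG 1 fun i => ((hu i).unit : Matrix (Fin (n i)) (Fin (n i)) ℂ) := by
    unfold tor
    rw [EG_mul, hxz, Matrix.mul_one]
    congr 1
    funext i
    rw [IsUnit.unit_spec, smul_mul_smul_comm, ← Complex.exp_add, ← mul_add, add_neg_cancel, mul_zero, Complex.exp_zero,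
      one_smul, Matrix.one_mul]
  have h5 : IsUnit (tor B₀ n w x) := by
    have h6 : tor B₀ n w x * tor B₀ n w (-x) = 1 := by rw [← tor_add, add_neg_cancel, tor_zero]
    exact IsUnit.of_mul_eq_one _ h6
  have h6 : IsUnit (EG (1 : Matrix B₀ B₀ ℂ) fun i => ((hu i).unit : Matrix (Fin (n i)) (Fin (n i)) ℂ)) :=
    (EGu B₀ n fun i => (hu i).unit).isUnit
  rw [h4, hρ.mul _ _ h5 h6, ← im_im, h3, h1]

end Pool.Agent.H945.Blk
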