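import Pool.Agent.H945.Blk2

/-!
# Absolute lines are fixed pointwise by perfect groups
-/

set_option autoImplicit false
set_option linter.unusedSectionVars false

open Matrix MvPolynomial
open scoped commutatorElement

namespace Pool.Agent.H945.Blk

open Pool.Agent.H945.Obj
open Pool.Agent.Y123.GN (Nil Ug Ug_le em em_mem em_Ug EG EG_mul EG_one EGu EGu_val GG IG GB Spf Clf cl_perf sp_det1
  EG_block_unit)
open Pool.Agent.Y123.ST (SubT)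

section one

variable {M ι : Type} [Fintype M] [DecidableEq M] [Fintype ι] [DecidableEq ι] {K : Subfield ℂ}
  {ρ : Matrix M M ℂ → Matrix ι ι ℂ}

/-- the group of the elements which fix a vector -/
def fixer (hρ : IsRep K ρ) (v : ι → ℂ) : Subgroup (Matrix M M ℂ)ˣ where
  carrier := {u | ρ (u : Matrix M M ℂ) *ᵥ v = v}
  one_mem' := by
    show ρ ((1 : (Matrix M M ℂ)ˣ) : Matrix M M ℂ) *ᵥ v = v
    rw [Units.val_one, hρ.one, one_mulVec]
  mul_mem' := by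
    intro a b ha hb
    show ρ ((a * b : (Matrix M M ℂ)ˣ) : Matrix M M ℂ) *ᵥ v = v
    rw [Units.val_mul, hρ.mul _ _ a.isUnit b.isUnit, ← mulVec_mulVec, hb, ha]
  inv_mem' := by
    intro a ha
    show ρ ((a⁻¹ : (Matrix M M ℂ)ˣ) : Matrix M M ℂ) *ᵥ v = v
    have h1 : ρ ((a⁻¹ : (Matrix M M ℂ)ˣ) : Matrix M M ℂ) *ᵥ (ρ (a : Matrix M M ℂ) *ᵥ v) = v := by
      rw [mulVec_mulVec, ← hρ.mul _ _ (a⁻¹).isUnit a.isUnit, Units.inv_mul, hρ.one, one_mulVec]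
    rw [ha] at h1
    exact h1

/-- commutators of elements which stabilise a line fix its vectors -/
theorem comm_fix (hρ : IsRep K ρ) {v : ι → ℂ} {u w : (Matrix M M ℂ)ˣ} {a b : ℂ}
    (hu : ρ (u : Matrix M M ℂ) *ᵥ v = a • v) (hw : ρ (w : Matrix M M ℂ) *ᵥ v = b • v) : ⁅u, w⁆ ∈ fixer hρ v := by
  by_cases hv : v = 0
  · show ρ _ *ᵥ v = v
    rw [hv, mulVec_zero]
  have inv : ∀ {u : (Matrix M M ℂ)ˣ} {a : ℂ}, ρ (u : Matrix M M ℂ) *ᵥ v = a • v →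
      a ≠ 0 ∧ ρ ((u⁻¹ : (Matrix M M ℂ)ˣ) : Matrix M M ℂ) *ᵥ v = a⁻¹ • v := by
    intro u a hu
    have h1 : ρ ((u⁻¹ : (Matrix M M ℂ)ˣ) : Matrix M M ℂ) *ᵥ (ρ (u : Matrix M M ℂ) *ᵥ v) = v := by
      rw [mulVec_mulVec, ← hρ.mul _ _ (u⁻¹).isUnit u.isUnit, Units.inv_mul, hρ.one, one_mulVec]
    rw [hu, mulVec_smul] at h1
    have ha : a ≠ 0 := by
      rintro rfl
      rw [zero_smul] at h1
      exact hv h1.symm
    refine ⟨ha, ?_⟩
    calc ρ ((u⁻¹ : (Matrix M M ℂ)ˣ) : Matrix M M ℂ) *ᵥ v =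
        a⁻¹ • (a • (ρ ((u⁻¹ : (Matrix M M ℂ)ˣ) : Matrix M M ℂ) *ᵥ v)) := by
          rw [smul_smul, inv_mul_cancel₀ ha, one_smul]
      _ = a⁻¹ • v := by rw [h1]
  obtain ⟨ha, hu'⟩ := inv hu
  obtain ⟨hb, hw'⟩ := inv hw
  show ρ ((⁅u, w⁆ : (Matrix M M ℂ)ˣ) : Matrix M M ℂ) *ᵥ v = v
  rw [commutatorElement_def, Units.val_mul, hρ.mul _ _ (u * w * u⁻¹).isUnit (w⁻¹).isUnit, ← mulVec_mulVec, hw',
    mulVec_smul, Units.val_mul, hρ.mul _ _ (u * w).isUnit (u⁻¹).isUnit, ← mulVec_mulVec, hu', mulVec_smul,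
    Units.val_mul, hρ.mul _ _ u.isUnit w.isUnit, ← mulVec_mulVec, hw, mulVec_smul, hu, smul_smul, smul_smul, smul_smul]
  have h1 : b⁻¹ * a⁻¹ * b * a = 1 := by field_simp
  rw [h1, one_smul]

theorem perf_fix (hρ : IsRep K ρ) {v : ι → ℂ} {G : Subgroup (Matrix M M ℂ)ˣ}
    (h : ∀ u ∈ G, ∃ a : ℂ, ρ (u : Matrix M M ℂ) *ᵥ v = a • v) : ⁅G, G⁆ ≤ fixer hρ v := by
  refine Subgroup.commutator_le.2 fun u hu w hw => ?_
  obtain ⟨a, ha⟩ := h u hu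
  obtain ⟨b, hb⟩ := h w hw
  exact comm_fix hρ ha hb

/-- the image of a line -/
theorem im_line (A : Matrix ι ι ℂ) (α : ι → ℂ) :
    im A {v | ∃ z : ℂ, v = z • α} = {v | ∃ z : ℂ, v = z • (A *ᵥ α)} := by
  ext w
  constructor
  · rintro ⟨_, ⟨z, rfl⟩, rfl⟩
    exact ⟨z, mulVec_smul _ _ _⟩
  · rintro ⟨z, rfl⟩
    exact ⟨z • α, ⟨z, rfl⟩, mulVec_smul _ _ _⟩

end one

section blocks

variable {B₀ : Type} [Fintype B₀] [DecidableEq B₀] {k : ℕ} {n : Fin k → ℕ} {ι : Type} [Fintype ι] [DecidableEq ι]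
  {K : Subfield ℂ} {ρ : Matrix (IG B₀ n) (IG B₀ n) ℂ → Matrix ι ι ℂ} {𝓩 : Set (Set (ι → ℂ))}
  {c : Matrix (IG B₀ n) (IG B₀ n) ℂ}

theorem em_comm {V : ∀ i, Subgroup (Matrix (Fin (n i)) (Fin (n i)) ℂ)ˣ} {i : Fin k}
    {g : (Matrix (Fin (n i)) (Fin (n i)) ℂ)ˣ} (hg : g ∈ ⁅V i, V i⁆) : em B₀ i g ∈ ⁅GG B₀ V, GG B₀ V⁆ := by
  have h1 : (⁅V i, V i⁆).map (em B₀ i) ≤ ⁅GG B₀ V, GG B₀ V⁆ := by
    rw [Subgroup.map_commutator]
    refine Subgroup.commutator_mono ?_ ?_ <;>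
    · rintro _ ⟨u, hu, rfl⟩
      exact em_mem hu
  exact h1 (Subgroup.mem_map_of_mem _ hg)

/-- products of elements of the commutator groups -/
theorem EGu_comm {V : ∀ i, Subgroup (Matrix (Fin (n i)) (Fin (n i)) ℂ)ˣ}
    {g : ∀ i, (Matrix (Fin (n i)) (Fin (n i)) ℂ)ˣ} (hg : ∀ i, g i ∈ ⁅V i, V i⁆) :
    EGu B₀ n g ∈ ⁅GG B₀ V, GG B₀ V⁆ := by
  classical
  have key : ∀ S : Finset (Fin k), EGu B₀ n (fun j => if j ∈ S then g j else 1) ∈ ⁅GG B₀ V, GG B₀ V⁆ := by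
    intro S
    induction S using Finset.induction_on with
    | empty =>
      have h1 : (fun j => if j ∈ (∅ : Finset (Fin k)) then g j else 1) =
          (1 : ∀ i, (Matrix (Fin (n i)) (Fin (n i)) ℂ)ˣ) := by
        funext j
        simp
      rw [h1, map_one]
      exact one_mem _
    | insert i S hi ih =>
      have h1 := mul_mem (em_comm (B₀ := B₀) (hg i)) ih
      have h2 : em B₀ i (g i) * EGu B₀ n (fun j => if j ∈ S then g j else 1) =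
          EGu B₀ n (fun j => if j ∈ insert i S then g j else 1) := by
        show EGu B₀ n (Pi.mulSingle i (g i)) * _ = _
        rw [← map_mul]
        congr 1
        funext j
        rw [Pi.mul_apply]
        by_cases hj : j = i
        · subst hj
          rw [Pi.mulSingle_eq_same, if_neg hi, if_pos (Finset.mem_insert_self _ _), mul_one]
        · rw [Pi.mulSingle_eq_of_ne hj, one_mul]
          by_cases hS : j ∈ S
          · rw [if_pos hS, if_pos (Finset.mem_insert_of_mem hS)]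
          · rw [if_neg hS, if_neg (by rw [Finset.mem_insert]; tauto)]
      rwa [h2] at h1
  have h1 := key Finset.univ
  simpa using h1

/-- **the vectors of absolute lines are invariant under the classical groups** -/
theorem line_blocks (hρ : IsRep K ρ) (hc : IsUnit c) (h : IsAbsolute K (ρ c) 𝓩)
    {B : ∀ i, Matrix (Fin (n i)) (Fin (n i)) ℂ} (hB : ∀ i, Clf (B i))
    (hV : ∀ T, SubT K T → c ∈ T → ∀ g : ∀ i, (Matrix (Fin (n i)) (Fin (n i)) ℂ)ˣ, (∀ i, g i ∈ GB (B i)) →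
      EG 1 (fun i => (g i : Matrix (Fin (n i)) (Fin (n i)) ℂ)) * c ∈ T) {α : ι → ℂ}
    (hZ : {v | ∃ z : ℂ, v = z • α} ∈ 𝓩) {g : ∀ i, (Matrix (Fin (n i)) (Fin (n i)) ℂ)ˣ} (hg : ∀ i, g i ∈ GB (B i)) :
    ρ (EG 1 fun i => (g i : Matrix (Fin (n i)) (Fin (n i)) ℂ)) *ᵥ (ρ c *ᵥ α) = ρ c *ᵥ α := by
  have hU : ∀ i, GB (B i) ≤ Ug (GB (B i)) := fun i => (cl_perf (hB i)).trans
    (Subgroup.commutator_le.2 fun a ha b hb => (Ug _).mul_mem ((Ug _).mul_mem ((Ug _).mul_mem ha hb)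
      ((Ug _).inv_mem ha)) ((Ug _).inv_mem hb))
  have hP : ∀ i, GB (B i) ≤ ⁅GB (B i), GB (B i)⁆ := fun i => (cl_perf (hB i)).trans
    (Subgroup.commutator_mono (Ug_le _) (Ug_le _))
  have h1 : ⁅GG B₀ (fun i => GB (B i)), GG B₀ (fun i => GB (B i))⁆ ≤ fixer hρ (ρ c *ᵥ α) := by
    refine perf_fix hρ ?_
    rintro _ ⟨v, hv, rfl⟩
    have h2 := stab_blocks hρ hc h (V := fun i => GB (B i)) hV hZ (g := v) fun i => hU i (hv i (Set.mem_univ i))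
    rw [im_line, im_line] at h2
    have h3 : ρ (EG 1 fun i => (v i : Matrix (Fin (n i)) (Fin (n i)) ℂ)) *ᵥ (ρ c *ᵥ α) ∈
        {w | ∃ z : ℂ, w = z • (ρ c *ᵥ α)} := by
      rw [← h2]
      exact ⟨1, (one_smul _ _).symm⟩
    exact h3
  exact h1 (EGu_comm fun i => hP i (hg i))

end blocks

end Pool.Agent.H945.Blk
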