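import Pool.Agent.H945.ObjDefs
import Pool.Graph.R_seed8.TH119.MX.Gal
import Pool.Graph.R_seed8.Y123.ST.Out

/-!
# Closed subsets of the general linear group which are stable under the automorphisms of `ℂ` over `K`
-/

set_option autoImplicit false
set_option linter.unusedSectionVars false

open Matrix MvPolynomial

namespace Pool.Agent.H945.Obj

open Pool.Agent.Y123.ST (SubT eval_aut')
open Pool.Agent.TH119.MX Pool.Agent.TH119.DR

variable {B ι : Type} [Fintype B] [DecidableEq B] [Fintype ι] [DecidableEq ι] {K : Subfield ℂ}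

/-- the entries of a matrix as a point -/
def pt (x : Matrix B B ℂ) : B × B → ℂ := fun b => x b.1 b.2

/-- regular functions on the general linear group -/
def Reg (φ : Matrix B B ℂ → ℂ) : Prop :=
  ∃ (d : ℕ) (p : MvPolynomial (B × B) ℂ), ∀ x : Matrix B B ℂ, IsUnit x → x.det ^ d * φ x = eval (pt x) p

theorem det_poly : ∃ p : MvPolynomial (B × B) ℂ, ∀ x : Matrix B B ℂ, eval (pt x) p = x.det := by
  refine ⟨(Matrix.of fun i j => (X (i, j) : MvPolynomial (B × B) ℂ)).det, fun x => ?_⟩
  rw [RingHom.map_det]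
  congr 1
  ext i j
  simp [pt]

theorem adj_poly (i j : B) : ∃ p : MvPolynomial (B × B) ℂ, ∀ x : Matrix B B ℂ, eval (pt x) p = x.adjugate i j := by
  refine ⟨(Matrix.of fun i j => (X (i, j) : MvPolynomial (B × B) ℂ)).adjugate i j, fun x => ?_⟩
  have h1 := RingHom.map_adjugate (eval (pt x)) (Matrix.of fun i j => (X (i, j) : MvPolynomial (B × B) ℂ))
  have h2 : (eval (pt x)).mapMatrix (Matrix.of fun i j => (X (i, j) : MvPolynomial (B × B) ℂ)) = x := by
    ext i j
    simp [pt]
  rw [h2] at h1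
  have h3 := congrFun (congrFun h1 i) j
  rw [← h3]
  rfl

namespace Reg

theorem const (a : ℂ) : Reg (fun _ : Matrix B B ℂ => a) := ⟨0, C a, fun x _ => by simp⟩

theorem poly (p : MvPolynomial (B × B) ℂ) : Reg (fun x => eval (pt x) p) := ⟨0, p, fun x _ => by simp⟩

theorem mul {φ ψ : Matrix B B ℂ → ℂ} (h1 : Reg φ) (h2 : Reg ψ) : Reg (fun x => φ x * ψ x) := by
  obtain ⟨d, p, hp⟩ := h1
  obtain ⟨e, q, hq⟩ := h2
  refine ⟨d + e, p * q, fun x hx => ?_⟩
  rw [map_mul, ← hp x hx, ← hq x hx]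
  ring

theorem add {φ ψ : Matrix B B ℂ → ℂ} (h1 : Reg φ) (h2 : Reg ψ) : Reg (fun x => φ x + ψ x) := by
  obtain ⟨d, p, hp⟩ := h1
  obtain ⟨e, q, hq⟩ := h2
  obtain ⟨D, hD⟩ := det_poly (B := B)
  refine ⟨d + e, D ^ e * p + D ^ d * q, fun x hx => ?_⟩
  rw [map_add, map_mul, map_mul, map_pow, map_pow, hD, ← hp x hx, ← hq x hx]
  ring

theorem sum {T : Type} (s : Finset T) {φ : T → Matrix B B ℂ → ℂ} (h : ∀ t ∈ s, Reg (φ t)) :
    Reg (fun x => ∑ t ∈ s, φ t x) := by
  classical
  induction s using Finset.induction_on with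
  | empty => simpa using const (B := B) 0
  | insert t s ht ih =>
    have h1 : (fun x => ∑ u ∈ insert t s, φ u x) = fun x => φ t x + ∑ u ∈ s, φ u x := by
      funext x
      rw [Finset.sum_insert ht]
    rw [h1]
    exact (h t (Finset.mem_insert_self _ _)).add (ih fun u hu => h u (Finset.mem_insert_of_mem hu))

/-- polynomials in regular functions are regular -/
theorem comp {T : Type} {φ : T → Matrix B B ℂ → ℂ} (h : ∀ t, Reg (φ t)) (p : MvPolynomial T ℂ) :
    Reg (fun x => eval (fun t => φ t x) p) := by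
  induction p using MvPolynomial.induction_on with
  | C a => simpa using const (B := B) a
  | add p q hp hq =>
    have := hp.add hq
    simpa only [map_add] using this
  | mul_X p t hp =>
    have := hp.mul (h t)
    simpa only [map_mul, eval_X] using this

theorem pow {φ : Matrix B B ℂ → ℂ} (h : Reg φ) (n : ℕ) : Reg (fun x => φ x ^ n) := by
  induction n with
  | zero => simpa using const (B := B) 1
  | succ n ih =>
    have := ih.mul h
    simpa only [pow_succ] using this

theorem congr {φ ψ : Matrix B B ℂ → ℂ} (h : Reg φ) (h1 : ∀ x, IsUnit x → ψ x = φ x) : Reg ψ := by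
  obtain ⟨d, p, hp⟩ := h
  exact ⟨d, p, fun x hx => by rw [h1 x hx]; exact hp x hx⟩

theorem det : Reg (fun x : Matrix B B ℂ => x.det) := by
  obtain ⟨D, hD⟩ := det_poly (B := B)
  exact ⟨0, D, fun x _ => by rw [pow_zero, one_mul, hD]⟩

theorem inv_entry (i j : B) : Reg (fun x : Matrix B B ℂ => x⁻¹ i j) := by
  obtain ⟨p, hp⟩ := adj_poly i j
  refine ⟨1, p, fun x hx => ?_⟩
  have hd : IsUnit x.det := (isUnit_iff_isUnit_det x).1 hx
  show x.det ^ 1 * (x⁻¹) i j = _
  rw [pow_one, hp, inv_def, Matrix.smul_apply, smul_eq_mul, Ring.inverse_eq_inv', ← mul_assoc,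
    mul_inv_cancel₀ hd.ne_zero, one_mul]

/-- composition with the inverse -/
theorem inv {φ : Matrix B B ℂ → ℂ} (h : Reg φ) : Reg (fun x => φ x⁻¹) := by
  obtain ⟨d, p, hp⟩ := h
  have h1 : Reg (fun x : Matrix B B ℂ => x.det ^ d * eval (fun t : B × B => x⁻¹ t.1 t.2) p) :=
    (det.pow d).mul (comp (fun t : B × B => inv_entry t.1 t.2) p)
  refine h1.congr fun x hx => ?_
  have hd : IsUnit x.det := (isUnit_iff_isUnit_det x).1 hx
  have hx' : IsUnit x⁻¹ := by
    rw [isUnit_iff_isUnit_det, det_nonsing_inv]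
    exact hd.ringInverse
  have h2 := hp x⁻¹ hx'
  change _ = eval (fun t : B × B => x⁻¹ t.1 t.2) p at h2
  rw [← h2, det_nonsing_inv, Ring.inverse_eq_inv', ← mul_assoc, ← mul_pow, mul_inv_cancel₀ hd.ne_zero, one_pow,
    one_mul]

end Reg

/-- closed in the general linear group -/
def ClG (S : Set (Matrix B B ℂ)) : Prop :=
  ∃ I : Set (MvPolynomial (B × B) ℂ), ∀ x, IsUnit x → (x ∈ S ↔ ∀ p ∈ I, eval (pt x) p = 0)

namespace ClG

theorem zero {φ : Matrix B B ℂ → ℂ} (h : Reg φ) : ClG {x | φ x = 0} := by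
  obtain ⟨d, p, hp⟩ := h
  refine ⟨{p}, fun x hx => ?_⟩
  have hd : x.det ≠ 0 := ((isUnit_iff_isUnit_det x).1 hx).ne_zero
  simp only [Set.mem_ofPred_eq, Set.mem_singleton_iff, forall_eq]
  rw [← hp x hx, mul_eq_zero, or_iff_right (pow_ne_zero _ hd)]

theorem iInter {T : Sort*} {S : T → Set (Matrix B B ℂ)} (h : ∀ t, ClG (S t)) : ClG (⋂ t, S t) := by
  choose I hI using h
  refine ⟨⋃ t, I t, fun x hx => ?_⟩
  simp only [Set.mem_iInter, Set.mem_iUnion]
  constructor
  · rintro h1 p ⟨t, ht⟩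
    exact (hI t x hx).1 (h1 t) p ht
  · intro h1 t
    exact (hI t x hx).2 fun p hp => h1 p ⟨t, hp⟩

theorem empty : ClG (∅ : Set (Matrix B B ℂ)) := ⟨{1}, fun x _ => by simp⟩

theorem union {S T : Set (Matrix B B ℂ)} (h1 : ClG S) (h2 : ClG T) : ClG (S ∪ T) := by
  obtain ⟨I, hI⟩ := h1
  obtain ⟨J, hJ⟩ := h2
  refine ⟨{r | ∃ p ∈ I, ∃ q ∈ J, r = p * q}, fun x hx => ?_⟩
  constructor
  · rintro (h | h) r ⟨p, hp, q, hq, rfl⟩
    · rw [map_mul, (hI x hx).1 h p hp, zero_mul]
    · rw [map_mul, (hJ x hx).1 h q hq, mul_zero]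
  · intro h
    by_contra hcon
    rw [Set.mem_union, not_or, hI x hx, hJ x hx] at hcon
    push Not at hcon
    obtain ⟨⟨p, hp, hp0⟩, ⟨q, hq, hq0⟩⟩ := hcon
    have h3 := h (p * q) ⟨p, hp, q, hq, rfl⟩
    rw [map_mul] at h3
    rcases mul_eq_zero.1 h3 with h4 | h4
    · exact hp0 h4
    · exact hq0 h4

theorem biUnion {T : Type} {s : Set T} (hs : s.Finite) {S : T → Set (Matrix B B ℂ)} (h : ∀ t ∈ s, ClG (S t)) :
    ClG (⋃ t ∈ s, S t) := by
  induction s, hs using Set.Finite.induction_on with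
  | empty => simpa using empty (B := B)
  | @insert t s _ _ ih =>
    rw [Set.biUnion_insert]
    exact (h t (Set.mem_insert _ _)).union (ih fun u hu => h u (Set.mem_insert_of_mem _ hu))

theorem congr {S T : Set (Matrix B B ℂ)} (h : ClG S) (h1 : ∀ x, IsUnit x → (x ∈ T ↔ x ∈ S)) : ClG T := by
  obtain ⟨I, hI⟩ := h
  exact ⟨I, fun x hx => (h1 x hx).trans (hI x hx)⟩

end ClG

/-- A closed subset of the general linear group which is stable under the automorphisms of `ℂ` over `K` is given by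
polynomials over `K`. -/
theorem defined_over {S : Set (Matrix B B ℂ)} (hS : ClG S) (hu : ∀ x ∈ S, IsUnit x)
    (hσ : ∀ σ : ℂ ≃+* ℂ, (∀ x ∈ K, σ x = x) → ∀ x ∈ S, x.map σ ∈ S) :
    ∃ I : Set (MvPolynomial (B × B) K), ∀ x : Matrix B B ℂ, x ∈ S ↔
      IsUnit x ∧ ∀ p ∈ I, eval (fun b => x b.1 b.2) (map (algebraMap K ℂ) p) = 0 := by
  classical
  obtain ⟨I, hI⟩ := hS
  refine ⟨{p | ∀ x ∈ S, eval (fun b => x b.1 b.2) (map (algebraMap K ℂ) p) = 0}, fun x => ⟨fun hx => ⟨hu x hx,
    fun p hp => hp x hx⟩, fun hx => ?_⟩⟩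
  rw [hI x hx.1]
  intro f hf
  have hfS : ∀ y ∈ S, eval (pt y) f = 0 := fun y hy => (hI y (hu y hy)).1 hy f hf
  -- the space of the polynomials with the monomials of `f` which vanish on `S`
  let pl : (f.support → ℂ) →ₗ[ℂ] MvPolynomial (B × B) ℂ :=
    { toFun := fun v => ∑ m : f.support, monomial (m : B × B →₀ ℕ) (v m)
      map_add' := fun v w => by
        simp only [Pi.add_apply, map_add, Finset.sum_add_distrib]
      map_smul' := fun a v => by
        simp only [Pi.smul_apply, RingHom.id_apply, Finset.smul_sum, smul_monomial] }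
  let W : Submodule ℂ (f.support → ℂ) :=
    { carrier := {v | ∀ y ∈ S, eval (pt y) (pl v) = 0}
      zero_mem' := fun y _ => by rw [map_zero, map_zero]
      add_mem' := fun {v w} hv hw y hy => by rw [map_add, map_add, hv y hy, hw y hy, add_zero]
      smul_mem' := fun a v hv y hy => by
        rw [map_smul, smul_eval, hv y hy, mul_zero] }
  have hWd : DefOver K W := by
    refine defOver_of_aut W fun σ hσK v hv => ?_
    intro y hy
    have hsym : ∀ x ∈ K, σ.symm x = x := by
      intro x hx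
      rw [RingEquiv.symm_apply_eq, hσK x hx]
    have h1 := hv (y.map σ.symm) (hσ _ hsym y hy)
    have h2 := eval_aut' σ (pl v) (pt (y.map σ.symm))
    rw [h1, map_zero] at h2
    have h3 : (fun b => σ (pt (y.map σ.symm) b)) = pt y := by
      funext b
      simp [pt]
    rw [h3] at h2
    have h4 : (pl v).map (σ : ℂ →+* ℂ) = pl fun m => σ (v m) := by
      simp only [pl, LinearMap.coe_mk, AddHom.coe_mk, map_sum, map_monomial]
      rfl
    rw [h4] at h2
    exact h2.symm
  have hfW : (fun m : f.support => f.coeff m) ∈ W := by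
    intro y hy
    have h1 : pl (fun m : f.support => f.coeff m) = f := by
      simp only [pl, LinearMap.coe_mk, AddHom.coe_mk]
      conv_rhs => rw [f.as_sum]
      exact Finset.sum_coe_sort f.support (fun m => monomial m (f.coeff m))
    rw [h1]
    exact hfS y hy
  have key : ∀ w ∈ Submodule.span ℂ {w | w ∈ W ∧ ∀ a, w a ∈ K}, eval (pt x) (pl w) = 0 := by
    intro w hw
    induction hw using Submodule.span_induction with
    | mem w hw =>
      obtain ⟨h1, h2⟩ := hw
      have h3 : pl w = map (algebraMap K ℂ) (∑ m : f.support, monomial (m : B × B →₀ ℕ) (⟨w m, h2 m⟩ : K)) := by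
        simp only [pl, LinearMap.coe_mk, AddHom.coe_mk, map_sum, map_monomial]
        rfl
      rw [h3]
      refine hx.2 _ fun y hy => ?_
      rw [← h3]
      exact h1 y hy
    | zero => rw [map_zero, map_zero]
    | add v w _ _ hv hw => rw [map_add, map_add, hv, hw, add_zero]
    | smul a v _ hv => rw [map_smul, smul_eval, hv, mul_zero]
  have h1 := key _ (hWd hfW)
  have h2 : pl (fun m : f.support => f.coeff m) = f := by
    simp only [pl, LinearMap.coe_mk, AddHom.coe_mk]
    conv_rhs => rw [f.as_sum]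
    exact Finset.sum_coe_sort f.support (fun m => monomial m (f.coeff m))
  rw [h2] at h1
  exact h1

end Pool.Agent.H945.Obj
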