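import Pool.Agent.H945.Obj2
import Pool.Agent.H945.Abs6

/-!
# Adding the Tate objects: subtorsors through `(1, 2 π i, c)`
-/

set_option autoImplicit false
set_option linter.unusedSectionVars false

open Matrix MvPolynomial

namespace Pool.Agent.H945.Obj

open Pool.Agent.TH127.PT Pool.Agent.Y118.HP Pool.Agent.Y123.ST

variable {n N : ℕ} {K : Subfield ℂ}

/-- the sum of the objects with the comparison isomorphisms `1`, `μ` and `x` -/
def ext {B : Type} (μ : ℂ) (x : Matrix B B ℂ) : Matrix (Fin 2 ⊕ B) (Fin 2 ⊕ B) ℂ :=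
  fromBlocks (diagonal ![1, μ]) 0 0 x

section ext

variable {B : Type} [Fintype B] [DecidableEq B]

theorem ext_mul (μ ν : ℂ) (x y : Matrix B B ℂ) : ext μ x * ext ν y = ext (μ * ν) (x * y) := by
  unfold ext
  rw [fromBlocks_multiply]
  simp only [Matrix.mul_zero, Matrix.zero_mul, add_zero, zero_add, diagonal_mul_diagonal]
  congr 2
  funext i
  fin_cases i <;> simp

theorem ext_one : ext 1 (1 : Matrix B B ℂ) = 1 := by
  unfold ext
  have h1 : (![1, 1] : Fin 2 → ℂ) = fun _ => 1 := by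
    funext i
    fin_cases i <;> rfl
  rw [h1, diagonal_one, fromBlocks_one]

theorem ext_unit {μ : ℂ} (hμ : μ ≠ 0) {x : Matrix B B ℂ} (hx : IsUnit x) : IsUnit (ext μ x) := by
  refine IsUnit.of_mul_eq_one (ext μ⁻¹ x⁻¹) ?_
  rw [ext_mul, mul_inv_cancel₀ hμ, mul_inv' hx, ext_one]

theorem ext_inv {μ : ℂ} (hμ : μ ≠ 0) {x : Matrix B B ℂ} (hx : IsUnit x) : (ext μ x)⁻¹ = ext μ⁻¹ x⁻¹ := by
  refine inv_eq_right_inv ?_
  rw [ext_mul, mul_inv_cancel₀ hμ, mul_inv' hx, ext_one]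

end ext

theorem bdm (X Y : Fin N → Matrix (Fin n) (Fin n) ℂ) :
    blockDiagonal X * blockDiagonal Y = blockDiagonal (fun j => X j * Y j) := (blockDiagonal_mul X Y).symm

/-- the multiplier, as a function of the matrix -/
noncomputable def mm (Q : Fin N → Matrix (Fin n) (Fin n) ℂ) (e e' : Fin n × Fin N)
    (x : Matrix (Fin n × Fin N) (Fin n × Fin N) ℂ) : ℂ :=
  (1 / 2) * ∑ p, ∑ q, x e p * blockDiagonal Q p q * x e' q

theorem bd_K {Q : Fin N → Matrix (Fin n) (Fin n) ℂ} (hQ : ∀ j a b, Q j a b ∈ K) (p q : Fin n × Fin N) :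
    blockDiagonal Q p q ∈ K := by
  rw [blockDiagonal_apply]
  split_ifs
  · exact hQ _ _ _
  · exact K.zero_mem

theorem TB_rel {Q : Fin N → Matrix (Fin n) (Fin n) ℂ} {X : Fin N → Matrix (Fin n) (Fin n) ℂ} {μ : ℂ}
    (h : ∀ j, X j * Q j * (X j)ᵀ = μ • (bm ℚ n).map (algebraMap ℚ ℂ)) :
    blockDiagonal X * blockDiagonal Q * (blockDiagonal X)ᵀ = μ • blockDiagonal (fun _ : Fin N => (bm ℚ n).map (algebraMap ℚ ℂ)) := by
  rw [bdm]
  have h1 : (blockDiagonal X)ᵀ = blockDiagonal fun j => (X j)ᵀ := blockDiagonal_transpose X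
  rw [h1, bdm]
  have h2 : (fun j => X j * Q j * (X j)ᵀ) = μ • fun _ : Fin N => (bm ℚ n).map (algebraMap ℚ ℂ) := by
    funext j
    rw [h j]
    rfl
  rw [h2]
  exact blockDiagonal_smul μ _

theorem mm_eq (hn : 1 < n) (j₀ : Fin N) {Q : Fin N → Matrix (Fin n) (Fin n) ℂ} {X : Fin N → Matrix (Fin n) (Fin n) ℂ}
    {μ : ℂ} (h : ∀ j, X j * Q j * (X j)ᵀ = μ • (bm ℚ n).map (algebraMap ℚ ℂ)) :
    mm Q (⟨0, by omega⟩, j₀) (⟨1, hn⟩, j₀) (blockDiagonal X) = μ := by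
  have h1 := congrFun (congrFun (TB_rel h) (⟨0, by omega⟩, j₀)) (⟨1, hn⟩, j₀)
  have h2 : (blockDiagonal X * blockDiagonal Q * (blockDiagonal X)ᵀ) (⟨0, by omega⟩, j₀) (⟨1, hn⟩, j₀) =
      ∑ p, ∑ q, blockDiagonal X (⟨0, by omega⟩, j₀) p * blockDiagonal Q p q * blockDiagonal X (⟨1, hn⟩, j₀) q := by
    rw [Matrix.mul_apply, Finset.sum_comm]
    refine Finset.sum_congr rfl fun q _ => ?_
    rw [Matrix.mul_apply, Finset.sum_mul]
    rfl
  unfold mm
  rw [← h2, h1, Matrix.smul_apply, smul_eq_mul, blockDiagonal_apply, if_pos rfl, Matrix.map_apply]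
  unfold bm
  rw [Matrix.of_apply, if_pos (Or.inr rfl)]
  simp
  ring

/-- the entries of `ext` as polynomials -/
noncomputable def extP (Q : Fin n × Fin N → Fin n × Fin N → K) (e e' : Fin n × Fin N) :
    (Fin 2 ⊕ Fin n × Fin N) × (Fin 2 ⊕ Fin n × Fin N) → MvPolynomial ((Fin n × Fin N) × (Fin n × Fin N)) K
  | (Sum.inl i, Sum.inl j) => if i = j then (if i = 0 then 1 else
      C (1 / 2) * ∑ p, ∑ q, X (e, p) * C (Q p q) * X (e', q)) else 0
  | (Sum.inr a, Sum.inr b) => X (a, b)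
  | (Sum.inl _, Sum.inr _) => 0
  | (Sum.inr _, Sum.inl _) => 0

theorem extP_eval {Q : Fin N → Matrix (Fin n) (Fin n) ℂ} (hQ : ∀ j a b, Q j a b ∈ K) (e e' : Fin n × Fin N)
    (x : Matrix (Fin n × Fin N) (Fin n × Fin N) ℂ) (b : (Fin 2 ⊕ Fin n × Fin N) × (Fin 2 ⊕ Fin n × Fin N)) :
    eval (fun b => x b.1 b.2) (map (algebraMap K ℂ) (extP (fun p q => ⟨blockDiagonal Q p q, bd_K hQ p q⟩) e e' b)) =
      ext (mm Q e e' x) x b.1 b.2 := by
  obtain ⟨b, b'⟩ := b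
  rcases b with i | a <;> rcases b' with j | a'
  · by_cases hij : i = j
    · subst hij
      simp only [extP, if_true, ext, fromBlocks_apply₁₁, diagonal_apply_eq]
      fin_cases i
      · simp
      · simp only [Fin.mk_one, Fin.isValue, one_ne_zero, if_false, map_mul, map_C, map_sum, map_X, eval_C, eval_X]
        unfold mm
        simp
        rfl
    · simp [extP, ext, hij]
  · simp [extP, ext]
  · simp [extP, ext]
  · simp [extP, ext]

theorem ext_min (hn : Even n) (hn0 : 0 < n) (hN : 0 < N) {Q c : Fin N → Matrix (Fin n) (Fin n) ℂ} {lam : ℂ}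
    (hQ : ∀ j a b, Q j a b ∈ K) (hlam : lam ≠ 0)
    (hc : ∀ j, c j * Q j * (c j)ᵀ = lam • (bm ℚ n).map (algebraMap ℚ ℂ))
    (hΩ : Om K (blockDiagonal c) (TB Q)) {T : Set (Matrix (Fin 2 ⊕ Fin n × Fin N) (Fin 2 ⊕ Fin n × Fin N) ℂ)}
    (hT : SubT K T) (hcT : ext lam (blockDiagonal c) ∈ T) (X : Fin N → Matrix (Fin n) (Fin n) ℂ) (μ : ℂ) (hμ : μ ≠ 0)
    (hX : ∀ j, X j * Q j * (X j)ᵀ = μ • (bm ℚ n).map (algebraMap ℚ ℂ)) : ext μ (blockDiagonal X) ∈ T := by
  have hn1 : 1 < n := by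
    obtain ⟨k, hk⟩ := hn
    omega
  let j₀ : Fin N := ⟨0, hN⟩
  set e : Fin n × Fin N := (⟨0, by omega⟩, j₀) with he
  set e' : Fin n × Fin N := (⟨1, hn1⟩, j₀) with he'
  have hmm : ∀ (X : Fin N → Matrix (Fin n) (Fin n) ℂ) (μ : ℂ),
      (∀ j, X j * Q j * (X j)ᵀ = μ • (bm ℚ n).map (algebraMap ℚ ℂ)) → mm Q e e' (blockDiagonal X) = μ :=
    fun X μ h => mm_eq hn1 j₀ h
  have hbm : (bm ℚ n).map (algebraMap ℚ ℂ) ≠ 0 := by
    intro h0
    have h1 := congrFun (congrFun h0 ⟨0, by omega⟩) ⟨1, hn1⟩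
    rw [Matrix.map_apply] at h1
    unfold bm at h1
    rw [Matrix.of_apply, if_pos (Or.inr rfl)] at h1
    simp at h1
  have hTu : ∀ x ∈ TB Q, IsUnit x := by
    intro x hx
    obtain ⟨_, I, hI⟩ := hΩ.1
    exact ((hI x).1 hx).1
  obtain ⟨hTt, IT, hIT⟩ := hT
  obtain ⟨hBt, IB, hIB⟩ := hΩ.1
  have hmul : ∀ x ∈ TB Q, ∀ y ∈ TB Q, ∀ z ∈ TB Q,
      mm Q e e' (x * y⁻¹ * z) = mm Q e e' x * (mm Q e e' y)⁻¹ * mm Q e e' z ∧ mm Q e e' x ≠ 0 := by
    intro x hx y hy z hz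
    have hxyz := hBt x hx y hy z hz
    have hxu := hTu x hx
    have hyu := hTu y hy
    obtain ⟨X, μx, hμx, rfl, hX⟩ := hx
    obtain ⟨Y, μy, hμy, rfl, hY⟩ := hy
    obtain ⟨Z, μz, hμz, rfl, hZ⟩ := hz
    obtain ⟨V, μv, hμv, hVe, hV⟩ := hxyz
    rw [hVe, hmm X μx hX, hmm Y μy hY, hmm Z μz hZ, hmm V μv hV]
    refine ⟨?_, hμx⟩
    have h1 := TB_rel hV
    rw [← hVe] at h1
    have hx1 := TB_rel hX
    have hy1 := TB_rel hY
    have hz1 := TB_rel hZ
    set BM := blockDiagonal (fun _ : Fin N => (bm ℚ n).map (algebraMap ℚ ℂ)) with hBM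
    have hy2 : (blockDiagonal Y)⁻¹ * BM * ((blockDiagonal Y)⁻¹)ᵀ = μy⁻¹ • blockDiagonal Q := by
      have h2 : BM = μy⁻¹ • (blockDiagonal Y * blockDiagonal Q * (blockDiagonal Y)ᵀ) := by
        rw [hy1, smul_smul, inv_mul_cancel₀ hμy, one_smul]
      rw [h2, Matrix.mul_smul, Matrix.smul_mul]
      congr 1
      have h3 : (blockDiagonal Y)ᵀ * ((blockDiagonal Y)⁻¹)ᵀ = 1 := by
        rw [← transpose_mul, inv_mul' hyu, transpose_one]
      calc (blockDiagonal Y)⁻¹ * (blockDiagonal Y * blockDiagonal Q * (blockDiagonal Y)ᵀ) * ((blockDiagonal Y)⁻¹)ᵀ = ((blockDiagonal Y)⁻¹ * blockDiagonal Y) * blockDiagonal Q * ((blockDiagonal Y)ᵀ * ((blockDiagonal Y)⁻¹)ᵀ) := by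
            simp only [Matrix.mul_assoc]
        _ = blockDiagonal Q := by rw [inv_mul' hyu, h3, Matrix.one_mul, Matrix.mul_one]
    have h4 : blockDiagonal X * (blockDiagonal Y)⁻¹ * blockDiagonal Z * blockDiagonal Q * (blockDiagonal X * (blockDiagonal Y)⁻¹ * blockDiagonal Z)ᵀ = (μx * μy⁻¹ * μz) • BM := by
      calc blockDiagonal X * (blockDiagonal Y)⁻¹ * blockDiagonal Z * blockDiagonal Q * (blockDiagonal X * (blockDiagonal Y)⁻¹ * blockDiagonal Z)ᵀ =
          blockDiagonal X * ((blockDiagonal Y)⁻¹ * (blockDiagonal Z * blockDiagonal Q * (blockDiagonal Z)ᵀ) * ((blockDiagonal Y)⁻¹)ᵀ) * (blockDiagonal X)ᵀ := by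
            simp only [transpose_mul, Matrix.mul_assoc]
        _ = blockDiagonal X * ((blockDiagonal Y)⁻¹ * (μz • BM) * ((blockDiagonal Y)⁻¹)ᵀ) * (blockDiagonal X)ᵀ := by rw [hz1]
        _ = μz • (blockDiagonal X * ((blockDiagonal Y)⁻¹ * BM * ((blockDiagonal Y)⁻¹)ᵀ) * (blockDiagonal X)ᵀ) := by
            rw [Matrix.mul_smul, Matrix.smul_mul, Matrix.mul_smul, Matrix.smul_mul]
        _ = μz • (μy⁻¹ • (blockDiagonal X * blockDiagonal Q * (blockDiagonal X)ᵀ)) := by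
            rw [hy2, Matrix.mul_smul, Matrix.smul_mul]
        _ = (μx * μy⁻¹ * μz) • BM := by
            rw [hx1, smul_smul, smul_smul]
            congr 1
            ring
    rw [h4] at h1
    have hBM0 : BM ≠ 0 := by
      intro h0
      apply hbm
      ext r s
      have h5 := congrFun (congrFun h0 (r, j₀)) (s, j₀)
      rw [hBM, blockDiagonal_apply, if_pos rfl] at h5
      exact h5
    have h6 : (μx * μy⁻¹ * μz - μv) • BM = 0 := by rw [sub_smul, h1, sub_self]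
    rcases smul_eq_zero.1 h6 with h7 | h7
    · exact (sub_eq_zero.1 h7).symm
    · exact absurd h7 hBM0
  set T' : Set (Matrix (Fin n × Fin N) (Fin n × Fin N) ℂ) := {x | x ∈ TB Q ∧ ext (mm Q e e' x) x ∈ T} with hT'
  have hsub : SubT K T' := by
    refine ⟨?_, IB ∪ (fun p => bind₁ (extP (fun p q => ⟨blockDiagonal Q p q, bd_K hQ p q⟩) e e') p) '' IT, fun x => ?_⟩
    · rintro x ⟨hx, hxT⟩ y ⟨hy, hyT⟩ z ⟨hz, hzT⟩
      refine ⟨hBt x hx y hy z hz, ?_⟩
      have h1 := hTt _ hxT _ hyT _ hzT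
      rw [ext_inv (hmul y hy y hy y hy).2 (hTu y hy), ext_mul, ext_mul, ← (hmul x hx y hy z hz).1] at h1
      exact h1
    · have key : ∀ p : MvPolynomial ((Fin 2 ⊕ Fin n × Fin N) × (Fin 2 ⊕ Fin n × Fin N)) K,
          eval (fun b => x b.1 b.2) (map (algebraMap K ℂ)
            (bind₁ (extP (fun p q => ⟨blockDiagonal Q p q, bd_K hQ p q⟩) e e') p)) =
          eval (fun b => ext (mm Q e e' x) x b.1 b.2) (map (algebraMap K ℂ) p) := by
        intro p
        have h1 : (fun b : (Fin 2 ⊕ Fin n × Fin N) × (Fin 2 ⊕ Fin n × Fin N) => ext (mm Q e e' x) x b.1 b.2) =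
            fun b => eval (fun b => x b.1 b.2) (map (algebraMap K ℂ)
              (extP (fun p q => ⟨blockDiagonal Q p q, bd_K hQ p q⟩) e e' b)) := by
          funext b
          exact (extP_eval hQ e e' x b).symm
        rw [h1, map_bind₁, eval_map]
        induction p using MvPolynomial.induction_on with
        | C a => simp
        | add p q hp hq => simp only [map_add, eval₂_add, hp, hq]
        | mul_X p b hp => simp only [map_mul, eval₂_mul, hp, map_X, bind₁_X_right, eval₂_X]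
      constructor
      · rintro ⟨hx, hxT⟩
        refine ⟨hTu x hx, ?_⟩
        rintro p (hp | ⟨p, hp, rfl⟩)
        · exact ((hIB x).1 hx).2 p hp
        · rw [key]
          exact ((hIT _).1 hxT).2 p hp
      · rintro ⟨hx, hp⟩
        have hxB : x ∈ TB Q := (hIB x).2 ⟨hx, fun p hp' => hp p (Or.inl hp')⟩
        refine ⟨hxB, (hIT _).2 ⟨ext_unit (hmul x hxB x hxB x hxB).2 hx, fun p hp' => ?_⟩⟩
        rw [← key]
        exact hp _ (Or.inr ⟨p, hp', rfl⟩)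
  have hcT' : blockDiagonal c ∈ T' := by
    refine ⟨⟨c, lam, hlam, rfl, hc⟩, ?_⟩
    rw [hmm c lam hc]
    exact hcT
  have hXT : blockDiagonal X ∈ T' := hΩ.2.2 T' hsub hcT' ⟨X, μ, hμ, rfl, hX⟩
  have := hXT.2
  rw [hmm X μ hX] at this
  exact this

end Pool.Agent.H945.Obj
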