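import Pool.Agent.H945.Obj3

/-!
# Stability of the members of the absolute systems under the group of the similitudes
-/

set_option autoImplicit false
set_option linter.unusedSectionVars false

open Matrix MvPolynomial

namespace Pool.Agent.H945.Obj

open Pool.Agent.TH127.PT Pool.Agent.Y118.HP Pool.Agent.Y123.ST

variable {n N : ℕ} {K : Subfield ℂ} {ι : Type} [Fintype ι] [DecidableEq ι]
  {ρ : Matrix (Fin 2 ⊕ Fin n × Fin N) (Fin 2 ⊕ Fin n × Fin N) ℂ → Matrix ι ι ℂ}

/-- the form -/
noncomputable abbrev BM (n : ℕ) : Matrix (Fin n) (Fin n) ℂ := (bm ℚ n).map (algebraMap ℚ ℂ)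

theorem sp_iff {g : Matrix (Fin n) (Fin n) ℂ} {μ : ℂ} : g * BM n * gᵀ = μ • BM n ↔ g * jm ℂ n * gᵀ = μ • jm ℂ n := by
  unfold BM
  rw [bm_eq, Matrix.mul_smul, Matrix.smul_mul, smul_comm μ]
  constructor
  · intro h
    exact smul_right_injective _ (by norm_num : (-2 : ℂ) ≠ 0) h
  · intro h
    rw [h]

theorem sp_unit (hn : Even n) {g : Matrix (Fin n) (Fin n) ℂ} (hg : g * jm ℂ n * gᵀ = jm ℂ n) : IsUnit g := by
  rw [isUnit_iff_isUnit_det]
  have h1 := congrArg Matrix.det hg
  rw [det_mul, det_mul, det_transpose] at h1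
  have hd : (jm ℂ n).det ≠ 0 := jm_det hn
  refine isUnit_iff_ne_zero.2 fun h0 => ?_
  rw [h0, zero_mul, zero_mul] at h1
  exact hd h1.symm

theorem bd_unit {X : Fin N → Matrix (Fin n) (Fin n) ℂ} (hX : ∀ j, IsUnit (X j)) : IsUnit (blockDiagonal X) := by
  rw [isUnit_iff_isUnit_det, det_blockDiagonal]
  exact IsUnit.prod_univ_iff.2 fun j => (isUnit_iff_isUnit_det _).1 (hX j)

section main

variable (hn : Even n) (hn0 : 0 < n) (hN : 0 < N) {Q c : Fin N → Matrix (Fin n) (Fin n) ℂ} {lam : ℂ}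
  (hQ : ∀ j a b, Q j a b ∈ K) (hlam : lam ≠ 0) (hc : ∀ j, c j * Q j * (c j)ᵀ = lam • BM n)
  (hu : IsUnit (blockDiagonal c)) (hΩ : Om K (blockDiagonal c) (TB Q))

include hn hn0 hN hQ hlam hc hΩ in
theorem mem_T {T : Set (Matrix (Fin 2 ⊕ Fin n × Fin N) (Fin 2 ⊕ Fin n × Fin N) ℂ)} (hT : SubT K T)
    (hcT : ext lam (blockDiagonal c) ∈ T) {g : Fin N → Matrix (Fin n) (Fin n) ℂ} {μ : ℂ} (hμ : μ ≠ 0)
    (hg : ∀ j, g j * BM n * (g j)ᵀ = μ • BM n) : ext μ (blockDiagonal g) * ext lam (blockDiagonal c) ∈ T := by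
  rw [ext_mul, bdm]
  refine ext_min hn hn0 hN hQ hlam hc hΩ hT hcT (fun j => g j * c j) (μ * lam) (mul_ne_zero hμ hlam) fun j => ?_
  calc g j * c j * Q j * (g j * c j)ᵀ = g j * (c j * Q j * (c j)ᵀ) * (g j)ᵀ := by
        rw [transpose_mul]
        simp only [Matrix.mul_assoc]
    _ = (μ * lam) • BM n := by
        rw [hc j, Matrix.mul_smul, Matrix.smul_mul, hg j, smul_smul, mul_comm]

variable (hρ : IsRep K ρ) {𝓩 : Set (Set (ι → ℂ))} (h : IsAbsolute K (ρ (ext lam (blockDiagonal c))) 𝓩)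
  {Z : Set (ι → ℂ)} (hZ : Z ∈ 𝓩)

include hn hn0 hN hQ hlam hc hu hΩ hρ h hZ

theorem stab_one {U : ℂ → Matrix (Fin 2 ⊕ Fin n × Fin N) (Fin 2 ⊕ Fin n × Fin N) ℂ} (hU0 : U 0 = 1)
    (hU : ∀ x y, U (x + y) = U x * U y) (hU' : ∀ x, ∃ (g : Fin N → Matrix (Fin n) (Fin n) ℂ) (μ : ℂ), μ ≠ 0 ∧
      U x = ext μ (blockDiagonal g) ∧ ∀ j, g j * BM n * (g j)ᵀ = μ • BM n) (x : ℂ) :
    im (ρ (U x)) (im (ρ (ext lam (blockDiagonal c))) Z) = im (ρ (ext lam (blockDiagonal c))) Z := by
  refine abs_fix hρ (ext_unit hlam hu) h hU0 hU (fun T hT hcT x => ?_) hZ x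
  obtain ⟨g, μ, hμ, h1, h2⟩ := hU' x
  rw [h1]
  exact mem_T hn hn0 hN hQ hlam hc hΩ hT hcT hμ h2

theorem stab_tv (j : Fin N) (v : Fin n → ℂ) (x : ℂ) :
    im (ρ (ext 1 (blockDiagonal (sg j (TV v x))))) (im (ρ (ext lam (blockDiagonal c))) Z) =
      im (ρ (ext lam (blockDiagonal c))) Z := by
  have hb : ∀ s : ℂ, (blockDiagonal (sg j (TV v s)) : Matrix (Fin n × Fin N) (Fin n × Fin N) ℂ) =
      1 + s • blockDiagonal (Pi.single j (EE v)) := fun s => bd_sg j v s
  have hE : (blockDiagonal (Pi.single j (EE v)) : Matrix (Fin n × Fin N) (Fin n × Fin N) ℂ) *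
      blockDiagonal (Pi.single j (EE v)) = 0 := Abs.single_sq j v
  refine stab_one hn hn0 hN hQ hlam hc hu hΩ hρ h hZ (U := fun s => ext 1 (blockDiagonal (sg j (TV v s)))) ?_ ?_ ?_ x
  · show ext 1 (blockDiagonal (sg j (TV v 0))) = 1
    rw [hb, zero_smul, add_zero, ext_one]
  · intro s t
    show ext 1 (blockDiagonal (sg j (TV v (s + t)))) = ext 1 (blockDiagonal (sg j (TV v s))) *
      ext 1 (blockDiagonal (sg j (TV v t)))
    rw [ext_mul, one_mul, hb, hb, hb]
    congr 1
    rw [Matrix.add_mul, Matrix.mul_add, Matrix.mul_add, Matrix.one_mul, Matrix.one_mul, Matrix.mul_one,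
      Matrix.smul_mul, Matrix.mul_smul, hE, smul_zero, smul_zero, add_smul]
    abel
  · intro s
    refine ⟨_, 1, one_ne_zero, rfl, fun k => ?_⟩
    rw [sp_iff, one_smul]
    exact sg_mem j v s k

theorem stab_scalar (x : ℂ) :
    im (ρ (ext (Complex.exp (2 * x)) (Complex.exp x • 1))) (im (ρ (ext lam (blockDiagonal c))) Z) =
      im (ρ (ext lam (blockDiagonal c))) Z := by
  refine stab_one hn hn0 hN hQ hlam hc hu hΩ hρ h hZ (U := fun s => ext (Complex.exp (2 * s)) (Complex.exp s • 1))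
    ?_ ?_ ?_ x
  · show ext (Complex.exp (2 * 0)) (Complex.exp 0 • 1) = 1
    rw [mul_zero, Complex.exp_zero, one_smul, ext_one]
  · intro s t
    show ext (Complex.exp (2 * (s + t))) (Complex.exp (s + t) • 1) =
      ext (Complex.exp (2 * s)) (Complex.exp s • 1) * ext (Complex.exp (2 * t)) (Complex.exp t • 1)
    rw [ext_mul, mul_add, Complex.exp_add, Complex.exp_add, Matrix.smul_mul, Matrix.one_mul, smul_smul]
  · intro s
    refine ⟨fun _ => Complex.exp s • 1, Complex.exp (2 * s), Complex.exp_ne_zero _, ?_, fun j => ?_⟩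
    · have h1 : (blockDiagonal fun _ : Fin N => Complex.exp s • (1 : Matrix (Fin n) (Fin n) ℂ)) =
          Complex.exp s • 1 := by
        have h2 : (fun _ : Fin N => Complex.exp s • (1 : Matrix (Fin n) (Fin n) ℂ)) = Complex.exp s • 1 := rfl
        rw [h2, blockDiagonal_smul, blockDiagonal_one]
      rw [h1]
    · rw [transpose_smul, transpose_one, Matrix.smul_mul, Matrix.one_mul, Matrix.smul_mul, Matrix.mul_smul,
        Matrix.mul_one, smul_smul, ← Complex.exp_add]
      congr 2
      ring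

/-- **The members of the absolute systems are stable under the group of the similitudes.** -/
theorem stab_all {g : Fin N → Matrix (Fin n) (Fin n) ℂ} {μ : ℂ} (hμ : μ ≠ 0)
    (hg : ∀ j, g j * BM n * (g j)ᵀ = μ • BM n) :
    im (ρ (ext μ (blockDiagonal g))) (im (ρ (ext lam (blockDiagonal c))) Z) =
      im (ρ (ext lam (blockDiagonal c))) Z := by
  set Y := im (ρ (ext lam (blockDiagonal c))) Z with hY
  have one : (blockDiagonal (fun _ => 1 : Fin N → Matrix (Fin n) (Fin n) ℂ)) = 1 := blockDiagonal_one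
  -- one block
  have h1 : ∀ j, ∀ A ∈ SpS ℂ n, IsUnit (blockDiagonal (sg j A) : Matrix (Fin n × Fin N) (Fin n × Fin N) ℂ) ∧
      im (ρ (ext 1 (blockDiagonal (sg j A)))) Y = Y := by
    intro j A hA
    let S : Submonoid (Matrix (Fin n) (Fin n) ℂ) :=
      { carrier := {A | IsUnit (blockDiagonal (sg j A) : Matrix (Fin n × Fin N) (Fin n × Fin N) ℂ) ∧
          im (ρ (ext 1 (blockDiagonal (sg j A)))) Y = Y}
        one_mem' := by
          have h2 : sg j (1 : Matrix (Fin n) (Fin n) ℂ) = fun _ => 1 := by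
            unfold sg
            exact Function.update_eq_self j (fun _ => 1 : Fin N → Matrix (Fin n) (Fin n) ℂ)
          show IsUnit (blockDiagonal (sg j (1 : Matrix (Fin n) (Fin n) ℂ)) : Matrix (Fin n × Fin N) (Fin n × Fin N) ℂ) ∧
            im (ρ (ext 1 (blockDiagonal (sg j 1)))) Y = Y
          rw [h2, one, ext_one, hρ.one, im_one]
          exact ⟨isUnit_one, rfl⟩
        mul_mem' := by
          intro a b ha hb
          have h2 : blockDiagonal (sg j (a * b)) = (blockDiagonal (sg j a) * blockDiagonal (sg j b) :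
              Matrix (Fin n × Fin N) (Fin n × Fin N) ℂ) := by
            rw [bdm]
            congr 1
            funext k
            by_cases hk : k = j
            · subst hk
              rw [sg_same, sg_same, sg_same]
            · rw [sg_ne hk, sg_ne hk, sg_ne hk, one_mul]
          show IsUnit (blockDiagonal (sg j (a * b)) : Matrix (Fin n × Fin N) (Fin n × Fin N) ℂ) ∧
            im (ρ (ext 1 (blockDiagonal (sg j (a * b))))) Y = Y
          change IsUnit (blockDiagonal (sg j a) : Matrix (Fin n × Fin N) (Fin n × Fin N) ℂ) ∧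
            im (ρ (ext 1 (blockDiagonal (sg j a)))) Y = Y at ha
          change IsUnit (blockDiagonal (sg j b) : Matrix (Fin n × Fin N) (Fin n × Fin N) ℂ) ∧
            im (ρ (ext 1 (blockDiagonal (sg j b)))) Y = Y at hb
          have h3 := ext_mul 1 1 (blockDiagonal (sg j a) : Matrix (Fin n × Fin N) (Fin n × Fin N) ℂ)
            (blockDiagonal (sg j b))
          rw [one_mul] at h3
          rw [h2]
          refine ⟨ha.1.mul hb.1, ?_⟩
          rw [← h3, hρ.mul _ _ (ext_unit one_ne_zero ha.1) (ext_unit one_ne_zero hb.1), ← im_im, hb.2, ha.2] }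
    have hS : ∀ v s, TV v s ∈ S := by
      intro v s
      refine ⟨bd_unit fun k => sp_unit hn (sg_mem j v s k), ?_⟩
      exact stab_tv hn hn0 hN hQ hlam hc hu hΩ hρ h hZ j v s
    exact sp_gen hn S hS A hA
  -- all blocks
  have h2 : ∀ g : Fin N → Matrix (Fin n) (Fin n) ℂ, (∀ j, g j ∈ SpS ℂ n) →
      im (ρ (ext 1 (blockDiagonal g))) Y = Y := by
    intro g hg
    have key : ∀ s : Finset (Fin N), IsUnit (blockDiagonal fun j => if j ∈ s then g j else 1) ∧
        im (ρ (ext 1 (blockDiagonal fun j => if j ∈ s then g j else 1))) Y = Y := by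
      intro s
      induction s using Finset.induction_on with
      | empty =>
        have h3 : (fun j : Fin N => if j ∈ (∅ : Finset (Fin N)) then g j else 1) = fun _ => 1 := by
          funext j
          simp
        rw [h3, one, ext_one, hρ.one, im_one]
        exact ⟨isUnit_one, rfl⟩
      | insert j s hj ih =>
        have h4 : (blockDiagonal fun k => if k ∈ insert j s then g k else 1) =
            blockDiagonal (sg j (g j)) * blockDiagonal fun k => if k ∈ s then g k else 1 := by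
          rw [bdm]
          congr 1
          funext k
          by_cases hk : k = j
          · subst hk
            rw [sg_same, if_pos (Finset.mem_insert_self _ _), if_neg hj, mul_one]
          · rw [sg_ne hk, one_mul]
            simp [Finset.mem_insert, hk]
        have h5 := h1 j (g j) (hg j)
        have h6 := ext_mul 1 1 (blockDiagonal (sg j (g j)) : Matrix (Fin n × Fin N) (Fin n × Fin N) ℂ)
          (blockDiagonal fun k => if k ∈ s then g k else 1)
        rw [one_mul] at h6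
        rw [h4]
        refine ⟨h5.1.mul ih.1, ?_⟩
        rw [← h6, hρ.mul _ _ (ext_unit one_ne_zero h5.1) (ext_unit one_ne_zero ih.1), ← im_im, ih.2, h5.2]
    have h3 := (key Finset.univ).2
    simpa using h3
  -- scalars
  obtain ⟨w, hw⟩ : ∃ w : ℂ, Complex.exp (2 * w) = μ := by
    refine ⟨Complex.log μ / 2, ?_⟩
    rw [mul_div_cancel₀ _ (two_ne_zero), Complex.exp_log hμ]
  have hw' : Complex.exp (-w) * Complex.exp w = 1 := by
    rw [← Complex.exp_add, neg_add_cancel, Complex.exp_zero]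
  set g' : Fin N → Matrix (Fin n) (Fin n) ℂ := fun j => Complex.exp (-w) • g j with hg'
  have hg'S : ∀ j, g' j ∈ SpS ℂ n := by
    intro j
    show Complex.exp (-w) • g j * jm ℂ n * (Complex.exp (-w) • g j)ᵀ = jm ℂ n
    rw [transpose_smul, Matrix.smul_mul, Matrix.smul_mul, Matrix.mul_smul, sp_iff.1 (hg j), smul_smul, smul_smul,
      ← hw, ← Complex.exp_add, ← Complex.exp_add]
    have : -w + -w + 2 * w = 0 := by ring
    rw [this, Complex.exp_zero, one_smul]
  have h3 : ext μ (blockDiagonal g) = ext (Complex.exp (2 * w)) (Complex.exp w • 1) * ext 1 (blockDiagonal g') := by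
    rw [ext_mul, mul_one, hw]
    congr 1
    rw [Matrix.smul_mul, Matrix.one_mul]
    have h4 : blockDiagonal g' = Complex.exp (-w) • blockDiagonal g := blockDiagonal_smul (Complex.exp (-w)) g
    rw [h4, smul_smul, mul_comm, hw', one_smul]
  have hu1 : IsUnit (ext (Complex.exp (2 * w)) (Complex.exp w • 1) :
      Matrix (Fin 2 ⊕ Fin n × Fin N) (Fin 2 ⊕ Fin n × Fin N) ℂ) := by
    refine ext_unit (Complex.exp_ne_zero _) (IsUnit.of_mul_eq_one (Complex.exp (-w) • 1) ?_)
    rw [Matrix.smul_mul, Matrix.one_mul, smul_smul, mul_comm, hw', one_smul]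
  have hu2 : IsUnit (ext 1 (blockDiagonal g')) := ext_unit one_ne_zero (bd_unit fun j => sp_unit hn (hg'S j))
  rw [h3, hρ.mul _ _ hu1 hu2, ← im_im, h2 g' hg'S]
  exact stab_scalar hn hn0 hN hQ hlam hc hu hΩ hρ h hZ w

end main

end Pool.Agent.H945.Obj
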