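import Pool.Agent.H945.Obj4

/-!
# Absolute lines are spanned by algebraic classes
-/

set_option autoImplicit false
set_option linter.unusedSectionVars false

open Matrix

namespace Pool.Agent.H945.Obj

open Pool.Agent.TH127.PT Pool.Agent.Y118.HP Pool.Agent.Y123.ST Pool.Agent.H945.Abs

variable {n N : ℕ} {K : Subfield ℂ} {κ : Type} [Fintype κ] [DecidableEq κ] {B : Type} [Fintype B] [DecidableEq B]

theorem tp_rep : IsRep K (tp κ : Matrix B B ℂ → Matrix (κ → B) (κ → B) ℂ) where
  one := tp_one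
  mul x y _ _ := tp_mul x y
  reg I J := ⟨0, ∏ k, MvPolynomial.X (I k, J k), fun x _ => by
    rw [pow_zero, one_mul, map_prod, map_prod]
    simp only [MvPolynomial.map_X, MvPolynomial.eval_X]
    rfl⟩

/-- unipotent one-parameter groups fix their eigenvectors -/
theorem uni_fixed {E : Matrix B B ℂ} (hE : E * E = 0) {v : (κ → B) → ℂ} (hv : v ≠ 0)
    (h : ∀ x : ℂ, ∃ a : ℂ, tp κ (1 + x • E) *ᵥ v = a • v) (x : ℂ) : tp κ (1 + x • E) *ᵥ v = v := by
  have hadd : ∀ x y : ℂ, (1 + (x + y) • E : Matrix B B ℂ) = (1 + x • E) * (1 + y • E) := by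
    intro x y
    rw [Matrix.add_mul, Matrix.mul_add, Matrix.mul_add, Matrix.one_mul, Matrix.one_mul, Matrix.mul_one,
      Matrix.smul_mul, Matrix.mul_smul, hE, smul_zero, smul_zero, add_smul]
    abel
  choose a haF using h
  obtain ⟨I, hI⟩ := Function.ne_iff.1 hv
  rw [Pi.zero_apply] at hI
  obtain ⟨p, hp⟩ := tp_poly E v I
  have hpa : ∀ x, p.eval x = a x * v I := by
    intro x
    rw [hp]
    exact congrFun (haF x) I
  have hmul : ∀ x y, a (x + y) = a x * a y := by
    intro x y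
    have h1 := haF (x + y)
    rw [hadd, tp_mul, ← mulVec_mulVec, haF y, mulVec_smul, haF x, smul_smul] at h1
    have h2 := congrFun h1 I
    rw [Pi.smul_apply, Pi.smul_apply, smul_eq_mul, smul_eq_mul] at h2
    have h3 := mul_right_cancel₀ hI h2
    rw [← h3, mul_comm]
  have ha0 : a 0 = 1 := by
    have h1 := haF 0
    rw [zero_smul, add_zero, tp_one, one_mulVec] at h1
    have h2 := congrFun h1 I
    rw [Pi.smul_apply, smul_eq_mul] at h2
    have h3 : (a 0 - 1) * v I = 0 := by rw [sub_mul, ← h2, one_mul, sub_self]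
    rcases mul_eq_zero.1 h3 with h4 | h4
    · exact sub_eq_zero.1 h4
    · exact absurd h4 hI
  have hprod : p * p.comp (-Polynomial.X) = Polynomial.C (v I ^ 2) := by
    apply Polynomial.funext
    intro x
    rw [Polynomial.eval_mul, Polynomial.eval_comp, Polynomial.eval_neg, Polynomial.eval_X, Polynomial.eval_C, hpa, hpa]
    have h1 := hmul x (-x)
    rw [add_neg_cancel, ha0] at h1
    linear_combination -(v I ^ 2) * h1
  have hunit : IsUnit p := by
    have h1 : IsUnit (p * p.comp (-Polynomial.X)) := by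
      rw [hprod, Polynomial.isUnit_C]
      exact (IsUnit.mk0 _ hI).pow 2
    exact isUnit_of_mul_isUnit_left h1
  obtain ⟨r, _, hr⟩ := Polynomial.isUnit_iff.1 hunit
  have hax : a x = 1 := by
    have h1 := hpa x
    have h2 := hpa 0
    rw [← hr, Polynomial.eval_C] at h1 h2
    rw [ha0] at h2
    have h3 : a x * v I = 1 * v I := by rw [← h1, ← h2]
    exact mul_right_cancel₀ hI h3
  have h1 := haF x
  rw [hax, one_smul] at h1
  exact h1

/-- a linear retraction of `ℂ` onto a subfield -/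
theorem exists_retr (F : Subfield ℂ) : ∃ π : ℂ →ₗ[F] F, ∀ x : F, π (x : ℂ) = x := by
  let j : F →ₗ[F] ℂ := Algebra.linearMap F ℂ
  have hj : LinearMap.ker j = ⊥ := LinearMap.ker_eq_bot.2 (algebraMap F ℂ).injective
  obtain ⟨π, hπ⟩ := j.exists_leftInverse_of_injective hj
  exact ⟨π, fun x => LinearMap.congr_fun hπ x⟩

/-- a complex tensor as a tensor over the whole field -/
def toTop (v : (κ → Fin n × Fin N) → ℂ) : (κ → Fin n × Fin N) → (⊤ : Subfield ℂ) := fun I => ⟨v I, trivial⟩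

theorem inC_toTop (v : (κ → Fin n × Fin N) → ℂ) : inC (toTop v) = v := rfl

/-- **Absolute lines are algebraic.** -/
theorem line_alg (hn : Even n) {Q c : Fin N → Matrix (Fin n) (Fin n) ℂ} {lam : ℂ}
    (hQ : ∀ j a b, Q j a b ∈ K) (hlam : lam ≠ 0) (hc : ∀ j, c j * Q j * (c j)ᵀ = lam • BM n)
    (hu : IsUnit (blockDiagonal c)) (hΩ : Om K (blockDiagonal c) (TB Q))
    {𝓩 : Set (Set ((κ → Fin n × Fin N) → ℂ))} (h : IsAbsolute K (tp κ (blockDiagonal c)) 𝓩) (F : Subfield ℂ)
    (hKF : K ≤ F) {α : (κ → Fin n × Fin N) → F} (hα : α ≠ 0)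
    (hZ : {v | ∃ z : ℂ, v = z • inC α} ∈ 𝓩) :
    ∃ (m : ℕ) (F₀ : (κ → Fin n × Fin N) → F), Fintype.card κ = m * 2 ∧
      F₀ ∈ Submodule.span F {G | ∃ (e : Fin m × Fin 2 ≃ κ) (b : Fin m → Fin N), G = prK F n e b} ∧
      tp κ (blockDiagonal c) *ᵥ inC α = lam ^ m • inC F₀ := by
  classical
  have hc' : (c, lam) ∈ Tor (fun j => (-1 / 2 : ℂ) • Q j) := ⟨hlam, fun j => rel_iff.1 (hc j)⟩
  set v : (κ → Fin n × Fin N) → ℂ := tp κ (blockDiagonal c) *ᵥ inC α with hv
  have hv0 : v ≠ 0 := by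
    intro h0
    apply inC_ne hα
    apply tp_inj hu
    rw [← hv, h0, mulVec_zero]
  have hline : im (tp κ (blockDiagonal c)) {v | ∃ z : ℂ, v = z • inC α} = {w | ∃ z : ℂ, w = z • v} := by
    ext w
    constructor
    · rintro ⟨_, ⟨z, rfl⟩, rfl⟩
      exact ⟨z, mulVec_smul _ _ _⟩
    · rintro ⟨z, rfl⟩
      exact ⟨z • inC α, ⟨z, rfl⟩, mulVec_smul _ _ _⟩
  -- transvections
  have hT : TInv (toTop v) := by
    intro j w x
    rw [inC_toTop]
    refine uni_fixed (single_sq j w) hv0 (fun y => ?_) x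
    have hb : ∀ s : ℂ, (1 + s • blockDiagonal (Pi.single j (EE w)) : Matrix (Fin n × Fin N) (Fin n × Fin N) ℂ) =
        blockDiagonal (sg j (TV w s)) := fun s => (bd_sg j w s).symm
    have hE := single_sq (n := n) (N := N) j w
    have h1 := abs_fix (ρ := tp κ) tp_rep hu h (U := fun s => 1 + s • bd (Pi.single j (EE w)))
      (by rw [zero_smul, add_zero]) (by
        intro s t
        rw [Matrix.add_mul, Matrix.mul_add, Matrix.mul_add, Matrix.one_mul, Matrix.one_mul, Matrix.mul_one,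
          Matrix.smul_mul, Matrix.mul_smul, hE, smul_zero, smul_zero, add_smul]
        abel) (by
        intro T hT hcT s
        refine hΩ.2.2 T hT hcT ?_
        refine ⟨fun k => sg j (TV w s) k * c k, lam, hlam, ?_, fun k => ?_⟩
        · show (1 + s • blockDiagonal (Pi.single j (EE w))) * blockDiagonal c = _
          rw [hb]
          exact bdm _ _
        · have h2 : sg j (TV w s) k * jm ℂ n * (sg j (TV w s) k)ᵀ = jm ℂ n := sg_mem j w s k
          have h3 : sg j (TV w s) k * BM n * (sg j (TV w s) k)ᵀ = (1 : ℂ) • BM n := by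
            rw [sp_iff, one_smul]
            exact h2
          calc sg j (TV w s) k * c k * Q k * (sg j (TV w s) k * c k)ᵀ =
              sg j (TV w s) k * (c k * Q k * (c k)ᵀ) * (sg j (TV w s) k)ᵀ := by
                rw [transpose_mul]
                simp only [Matrix.mul_assoc]
            _ = lam • BM n := by rw [hc k, Matrix.mul_smul, Matrix.smul_mul, h3, one_smul]) hZ y
    rw [hline] at h1
    have h2 : tp κ (1 + y • bd (Pi.single j (EE w))) *ᵥ v ∈ {w | ∃ z : ℂ, w = z • v} := by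
      rw [← h1]
      exact ⟨v, ⟨1, (one_smul _ _).symm⟩, rfl⟩
    exact h2
  have hne : toTop v ≠ 0 := by
    intro h0
    apply hv0
    have h1 := congrArg inC h0
    rw [inC_toTop] at h1
    rw [h1]
    funext I
    unfold inC
    simp
  obtain ⟨m, hm⟩ := hT.even hn hne
  have hm' : Fintype.card κ = m * 2 := by omega
  have hspan := span_ofK hn hm' hT
  have hrange : {G : (κ → Fin n × Fin N) → (⊤ : Subfield ℂ) | ∃ (e : Fin m × Fin 2 ≃ κ) (b : Fin m → Fin N),
      G = prK ⊤ n e b} = Set.range fun p : (Fin m × Fin 2 ≃ κ) × (Fin m → Fin N) => prK ⊤ n p.1 p.2 := by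
    ext G
    constructor
    · rintro ⟨e, b, rfl⟩
      exact ⟨(e, b), rfl⟩
    · rintro ⟨⟨e, b⟩, rfl⟩
      exact ⟨e, b, rfl⟩
  rw [hrange, Submodule.mem_span_range_iff_exists_fun] at hspan
  obtain ⟨z, hz⟩ := hspan
  have hlm : lam ^ m ≠ 0 := pow_ne_zero _ hlam
  have hvz : ∀ I, v I = ∑ p, (z p : ℂ) * ((pr n p.1 p.2 I : ℚ) : ℂ) := by
    intro I
    have h1 := congrFun hz I
    rw [Finset.sum_apply] at h1
    have h2 := congrArg (Subtype.val) h1
    change _ = v I at h2
    rw [← h2]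
    push_cast
    rfl
  choose a haK ha using fun p : (Fin m × Fin 2 ≃ κ) × (Fin m → Fin N) => pr_cls hc' (half_mem hQ) p.1 p.2
  have hαz : ∀ I, (α I : ℂ) = ∑ p, (z p : ℂ) * (lam ^ m)⁻¹ * a p I := by
    have h1 : inC α = fun I => ∑ p, (z p : ℂ) * (lam ^ m)⁻¹ * a p I := by
      apply tp_inj hu
      rw [← hv]
      funext I
      rw [hvz]
      unfold mulVec dotProduct
      simp only [Finset.mul_sum]
      rw [Finset.sum_comm]
      refine Finset.sum_congr rfl fun p _ => ?_
      have h2 := ha p I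
      have h3 : ∑ x, tp κ (blockDiagonal c) I x * ((z p : ℂ) * (lam ^ m)⁻¹ * a p x) =
          (z p : ℂ) * (lam ^ m)⁻¹ * ∑ x, tp κ (blockDiagonal c) I x * a p x := by
        rw [Finset.mul_sum]
        refine Finset.sum_congr rfl fun x _ => ?_
        ring
      have h4 : ∑ x, tp κ (blockDiagonal c) I x * a p x = lam ^ m * ((pr n p.1 p.2 I : ℚ) : ℂ) := by
        rw [h2]
        rfl
      rw [h3, h4]
      field_simp
    intro I
    exact congrFun h1 I
  obtain ⟨π, hπ⟩ := exists_retr F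
  let y : (Fin m × Fin 2 ≃ κ) × (Fin m → Fin N) → F := fun p => π ((z p : ℂ) * (lam ^ m)⁻¹)
  have hαy : ∀ I, (α I : ℂ) = ∑ p, (y p : ℂ) * a p I := by
    intro I
    have h1 := congrArg π (hαz I)
    rw [hπ, map_sum] at h1
    rw [h1]
    push_cast
    refine Finset.sum_congr rfl fun p _ => ?_
    have h2 : (z p : ℂ) * (lam ^ m)⁻¹ * a p I = (⟨a p I, hKF (haK p I)⟩ : F) • ((z p : ℂ) * (lam ^ m)⁻¹) := by
      rw [Algebra.smul_def, mul_comm]
      rfl
    rw [h2, map_smul, smul_eq_mul]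
    push_cast
    ring
  refine ⟨m, ∑ p, y p • prK F n p.1 p.2, hm', ?_, ?_⟩
  · exact Submodule.sum_mem _ fun p _ => Submodule.smul_mem _ _ (Submodule.subset_span ⟨p.1, p.2, rfl⟩)
  · funext I
    rw [Pi.smul_apply, smul_eq_mul]
    have h1 : inC (∑ p, y p • prK F n p.1 p.2) I = ∑ p, (y p : ℂ) * ((pr n p.1 p.2 I : ℚ) : ℂ) := by
      unfold inC
      rw [Finset.sum_apply]
      push_cast
      rfl
    rw [h1, Finset.mul_sum]
    change (tp κ (blockDiagonal c) *ᵥ inC α) I = _
    unfold mulVec dotProduct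
    have h2 : ∀ x, inC α x = ∑ p, (y p : ℂ) * a p x := hαy
    simp only [h2, Finset.mul_sum]
    rw [Finset.sum_comm]
    refine Finset.sum_congr rfl fun p _ => ?_
    have h4 : ∑ x, tp κ (blockDiagonal c) I x * a p x = lam ^ m * ((pr n p.1 p.2 I : ℚ) : ℂ) := by
      rw [ha p I]
      rfl
    calc ∑ x, tp κ (blockDiagonal c) I x * ((y p : ℂ) * a p x) =
        (y p : ℂ) * ∑ x, tp κ (blockDiagonal c) I x * a p x := by
          rw [Finset.mul_sum]
          refine Finset.sum_congr rfl fun x _ => ?_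
          ring
      _ = lam ^ m * ((y p : ℂ) * ((pr n p.1 p.2 I : ℚ) : ℂ)) := by rw [h4]; ring

end Pool.Agent.H945.Obj
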