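import Mathlib

/-!
# Absolute systems of de Rham-Betti subvarieties: definitions
-/

set_option autoImplicit false

open Matrix MvPolynomial

namespace Pool.Agent.H945.Obj

variable {B ι : Type} [Fintype B] [DecidableEq B] [Fintype ι] [DecidableEq ι]

/-- An algebraic representation over `K` of the group of the invertible `B × B` matrices: the entries of `ρ x` are
polynomials over `K` in the entries of `x` and in `1 / det x`. -/
structure IsRep (K : Subfield ℂ) (ρ : Matrix B B ℂ → Matrix ι ι ℂ) : Prop where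
  one : ρ 1 = 1
  mul : ∀ x y, IsUnit x → IsUnit y → ρ (x * y) = ρ x * ρ y
  reg : ∀ i j, ∃ (d : ℕ) (p : MvPolynomial (B × B) K), ∀ x : Matrix B B ℂ, IsUnit x →
    x.det ^ d * ρ x i j = eval (fun b => x b.1 b.2) (map (algebraMap K ℂ) p)

/-- the image of a set of vectors under a matrix -/
def im (A : Matrix ι ι ℂ) (Z : Set (ι → ℂ)) : Set (ι → ℂ) := (fun v => A *ᵥ v) '' Z

/-- closed subvarieties of the affine space: sets of common zeros of polynomials with complex coefficients -/
def IsClosedSet (Z : Set (ι → ℂ)) : Prop := ∃ S : Set (MvPolynomial ι ℂ), Z = {v | ∀ p ∈ S, eval v p = 0}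

/-- A set `𝓩` of subsets of the affine space is stable under the automorphisms of `ℂ` over `K` (which act on the
coordinates). -/
def IsGaloisStable (K : Subfield ℂ) (𝓩 : Set (Set (ι → ℂ))) : Prop :=
  ∀ σ : ℂ ≃+* ℂ, (∀ x ∈ K, σ x = x) → ∀ Z ∈ 𝓩, (fun v i => σ (v i)) '' Z ∈ 𝓩

/-- `𝓩` is a finite set of closed subvarieties which is Galois-stable over `K`, and the set of the images of the
members of `𝓩` under the isomorphism `A` is Galois-stable over `K` too. -/
def IsAbsolute (K : Subfield ℂ) (A : Matrix ι ι ℂ) (𝓩 : Set (Set (ι → ℂ))) : Prop :=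
  𝓩.Finite ∧ (∀ Z ∈ 𝓩, IsClosedSet Z) ∧ IsGaloisStable K 𝓩 ∧ IsGaloisStable K (im A '' 𝓩)

end Pool.Agent.H945.Obj
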