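import Pool.Agent.H945.OmDefs

/-!
# 1-motives: the main theorem of the library, for all abelian varieties for which the periods generate the Lie algebra
-/

set_option autoImplicit false

open Matrix Pool.Agent.Y102 Pool.Agent.W516.DR Pool.Agent.H204R3.GP

noncomputable section

namespace Pool.Agent.H945.Om

variable {g : ℕ} {R : Type} [Fintype R] [DecidableEq R] {J : Type} [Fintype J] [DecidableEq J] (A : AbVar g)

theorem entry_eq (a b : Fin (2 * g)) : (∑ k, (A.η a k * A.lam b k - A.η b k * A.lam a k)) / (2 * Real.pi * Complex.I) =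
    ((A.om (A.bas a) (A.bas b) : ℚ) : ℂ) := by
  rw [A.om_pairing]
  simp only [A.eta_bas, A.per_bas]

theorem columns_eq (Z : J → Fin (2 * g) → ℂ) :
    columns A Z = Pool.Agent.X306.AV.tz A (Matrix.of fun j a => Z j a) := by
  ext i j
  change ∑ a, ∑ b, Z j a * (Pi.single i 1 : Fin (2 * g) → ℂ) b * _ = ∑ a, Z j a * ((A.om (A.bas a) (A.bas i) : ℚ) : ℂ)
  refine Finset.sum_congr rfl fun a _ => ?_
  rw [Finset.sum_eq_single i]
  · rw [Pi.single_eq_same, mul_one, entry_eq]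
  · intro b _ hb
    rw [Pi.single_eq_of_ne hb, mul_zero, zero_mul]
  · intro h
    exact absurd (Finset.mem_univ _) h

theorem riemann_rat (v w : Fin (2 * g) → ℚ) :
    riemann A (fun a => (v a : ℂ)) (fun a => (w a : ℂ)) = ((A.om v w : ℚ) : ℂ) := by
  unfold riemann
  have h1 : ∀ w : Fin (2 * g) → ℚ, w = ∑ a, w a • A.bas a := by
    intro w
    conv_lhs => rw [← A.bas.sum_repr w]
    rfl
  have h2 : A.om v w = ∑ a, ∑ b, v a * (w b * A.om (A.bas a) (A.bas b)) := by
    conv_lhs => rw [h1 v]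
    rw [map_sum, LinearMap.sum_apply]
    refine Finset.sum_congr rfl fun a _ => ?_
    rw [map_smul, LinearMap.smul_apply]
    conv_lhs => rw [h1 w]
    rw [map_sum, smul_eq_mul, Finset.mul_sum]
    refine Finset.sum_congr rfl fun b _ => ?_
    rw [map_smul, smul_eq_mul]
  rw [h2, Rat.cast_sum]
  refine Finset.sum_congr rfl fun a _ => ?_
  rw [Rat.cast_sum]
  refine Finset.sum_congr rfl fun b _ => ?_
  rw [entry_eq, Rat.cast_mul, Rat.cast_mul]
  ring

theorem rel_iff (u : R → Fin g → ℂ) (q : J → Fin g → ℂ) (Y : R → Fin (2 * g) → ℂ) (Z : J → Fin (2 * g) → ℂ) :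
    IsRelated A u q Y Z ↔ Pool.Agent.X306.AV.RelN A u q (Sum.elim Y Z) := Iff.rfl

theorem commutators_eq (u : R → Fin g → ℂ) (q : J → Fin g → ℂ) :
    commutators A u q = Pool.Agent.X306.AV.CmS A u q := by
  have hcast : ∀ (Y : R → Fin (2 * g) → ℚ) (Z : J → Fin (2 * g) → ℚ),
      (Sum.elim (fun r a => ((Y r a : ℚ) : ℂ)) (fun j a => ((Z j a : ℚ) : ℂ)) : R ⊕ J → Fin (2 * g) → ℂ) =
      fun s a => ((Sum.elim Y Z s a : ℚ) : ℂ) := by
    intro Y Z
    funext s a
    rcases s with s | s <;> rfl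
  unfold commutators Pool.Agent.X306.AV.CmS
  congr 1
  ext c
  constructor
  · rintro ⟨Y, Y', Z, Z', h, h', rfl⟩
    refine ⟨Sum.elim Y Z, Sum.elim Y' Z', ?_, ?_, ?_⟩
    · rw [← hcast]
      exact h
    · rw [← hcast]
      exact h'
    · ext r j
      change riemann A _ _ - riemann A _ _ = ((A.om (Z' j) (Y r) - A.om (Z j) (Y' r) : ℚ) : ℂ)
      rw [riemann_rat, riemann_rat, Rat.cast_sub]
  · rintro ⟨N, N', h, h', rfl⟩
    refine ⟨fun r => N (Sum.inl r), fun r => N' (Sum.inl r), fun j => N (Sum.inr j), fun j => N' (Sum.inr j), ?_, ?_, ?_⟩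
    · rw [rel_iff, hcast]
      refine (congrArg (Pool.Agent.X306.AV.RelN A u q) ?_).mp h
      funext s a
      rcases s with s | s <;> rfl
    · rw [rel_iff, hcast]
      refine (congrArg (Pool.Agent.X306.AV.RelN A u q) ?_).mp h'
      funext s a
      rcases s with s | s <;> rfl
    · ext r j
      change ((A.om (N' (Sum.inr j)) (N (Sum.inl r)) - A.om (N (Sum.inr j)) (N' (Sum.inl r)) : ℚ) : ℂ) =
        riemann A _ _ - riemann A _ _
      rw [riemann_rat, riemann_rat, Rat.cast_sub]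

theorem PA_eq : abelianPeriods A = Pool.Agent.X306.AV.PA A := by
  ext i j
  change Sum.elim (fun k => A.lam i k) (fun k => A.η i k) (split g j) = A.dR (split g j) (A.bas i)
  rcases split g j with k | k
  · change A.lam i k = A.per (A.bas i) k
    rw [A.per_bas]
  · change A.η i k = A.eta (A.bas i) k
    rw [A.eta_bas]

theorem coordinates_eq (u e : R → Fin g → ℂ) (q f : J → Fin g → ℂ) :
    Sum.elim (coordinates A u e) (coordinates A q f) = Pool.Agent.X306.AV.Nm A u e q f := by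
  funext s
  rcases s with r | j
  · change (fun j => Sum.elim (u r) (e r) (split g j)) ᵥ* (abelianPeriods A)⁻¹ = _
    rw [PA_eq]
    rfl
  · change (fun i => Sum.elim (q j) (f j) (split g i)) ᵥ* (abelianPeriods A)⁻¹ = _
    rw [PA_eq]
    rfl

theorem logarithm_eq (u e : R → Fin g → ℂ) (q f : J → Fin g → ℂ) (L : Matrix R J ℂ) :
    logarithm u e q f L = Pool.Agent.X306.AV.ell A u e q f L := by
  have h1 : (2 * Real.pi * Complex.I : ℂ) • (Pool.Agent.X306.AV.yM (Pool.Agent.X306.AV.Nm A u e q f) *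
      Pool.Agent.X306.AV.tz A (Pool.Agent.X306.AV.zM (Pool.Agent.X306.AV.Nm A u e q f))) =
      (Matrix.of fun r s => Pool.Agent.X306.AV.UU (u r) (e r) ((Pool.Agent.X306.AV.eqv g).symm s)) *
        Pool.Agent.X306.AV.sw
          (Matrix.of fun j s => Pool.Agent.X306.AV.UU (q j) (f j) ((Pool.Agent.X306.AV.eqv g).symm s)) := by
    rw [← Pool.Agent.X306.AV.yM_PA (A := A) (q := q) (f := f), ← Pool.Agent.X306.AV.zM_PA (A := A) (u := u) (e := e),
      Matrix.mul_assoc, Pool.Agent.X306.AV.PA_sw, Matrix.mul_smul]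
  ext r j
  have h2 := congrFun (congrFun h1 r) j
  rw [Matrix.smul_apply, smul_eq_mul, Matrix.mul_apply (M := Matrix.of fun r s => Pool.Agent.X306.AV.UU (u r) (e r)
    ((Pool.Agent.X306.AV.eqv g).symm s)), Pool.Agent.X306.AV.sum_eqv] at h2
  have h3 : ∑ k, (f j k * u r k - e r k * q j k) = ∑ k, (Matrix.of fun r s => Pool.Agent.X306.AV.UU (u r) (e r)
      ((Pool.Agent.X306.AV.eqv g).symm s)) r (Pool.Agent.X306.AV.eqv g (Sum.inl k)) * Pool.Agent.X306.AV.sw
      (Matrix.of fun j s => Pool.Agent.X306.AV.UU (q j) (f j) ((Pool.Agent.X306.AV.eqv g).symm s))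
        (Pool.Agent.X306.AV.eqv g (Sum.inl k)) j + ∑ k, (Matrix.of fun r s => Pool.Agent.X306.AV.UU (u r) (e r)
      ((Pool.Agent.X306.AV.eqv g).symm s)) r (Pool.Agent.X306.AV.eqv g (Sum.inr k)) * Pool.Agent.X306.AV.sw
      (Matrix.of fun j s => Pool.Agent.X306.AV.UU (q j) (f j) ((Pool.Agent.X306.AV.eqv g).symm s))
        (Pool.Agent.X306.AV.eqv g (Sum.inr k)) j := by
    rw [← Finset.sum_add_distrib]
    refine Finset.sum_congr rfl fun k _ => ?_
    simp only [Pool.Agent.X306.AV.sw, Matrix.of_apply, Equiv.symm_apply_apply, Sum.elim_inl, Sum.elim_inr,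
      Pool.Agent.X306.AV.UU]
    ring
  change L r j - (1 / 2) * ∑ k, (f j k * u r k - e r k * q j k) = L r j - ((2 * Real.pi * Complex.I) / 2) * _
  rw [h3, ← h2]
  ring

theorem main_of_le (A : AbVar g) (hA : A.NA ≤ Pool.Agent.X306.AV.mm A)
    (F : IntermediateField ℚ ℂ) (hF : DefinedOver A F) (u e : R → Fin g → ℂ)
    (hu : ∀ r, u r ∈ points A F) (q f : J → Fin g → ℂ) (hq : ∀ j, q j ∈ points A F)
    (hn : IsRelated A u q (coordinates A u e) (coordinates A q f)) (L : Matrix R J ℂ)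
    (T : Set (Matrix (Idx g R J) (Idx g R J) ℂ)) (hT : IsTorsor T) (hG : GroupOverQ T)
    (hc : periodMatrix A u e q f L ∈ T) :
    -- 1: arbitrary `L`
    (∀ W ∈ motivicLie A u q {s | IsCentral A u q s.1 ∧
        IsAlgebraic ℚ (pairing s.1 (logarithm u e q f L) - (s.2 : ℂ) * (2 * Real.pi * Complex.I))},
      ∀ x ∈ T, NormedSpace.exp W * x ∈ T) ∧
    -- 2: the 1-motives over the algebraic numbers
    ((∀ χ, IsCentral A u q χ → IsAlgebraic ℚ (Complex.exp (pairing χ (logarithm u e q f L)))) →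
      ∀ W ∈ motivicLie A u q {s | IsCentral A u q s.1 ∧
        pairing s.1 (logarithm u e q f L) = (s.2 : ℂ) * (2 * Real.pi * Complex.I)},
      ∀ x ∈ T, NormedSpace.exp W * x ∈ T) := by
  have hT' : Pool.Agent.TH127.PT.IsSubtorsor Pool.Agent.W245.EB.QB T := by
    obtain ⟨h1, I, h2, h3⟩ := hT
    exact ⟨fun x hx => ((h3 x).1 hx).1, h1, I, fun p hp m => Pool.Agent.W245.EB.mem_QB.2 (h2 p hp m), h3⟩
  have hG' : Pool.Agent.X306.RL.GDef Pool.Agent.X306.EM.QQ T := by
    obtain ⟨I, hI1, hI2⟩ := hG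
    exact ⟨I, fun p hp m => by
      obtain ⟨q, hq⟩ := hI1 p hp m
      exact Pool.Agent.X306.EM.mem_QQ.2 ⟨q, hq.symm⟩, hI2⟩
  have hblock : ∀ X z μ Y w κ, block (g := g) (R := R) (J := J) X z μ Y w κ =
      Pool.Agent.X306.AV.sm (X, z, μ, Y, w) κ := fun X z μ Y w κ => rfl
  have hthird : thirdPeriods A q f = Pool.Agent.X306.AV.PA A * Pool.Agent.X306.AV.sw
      (Matrix.of fun j s => Pool.Agent.X306.AV.UU (q j) (f j) ((Pool.Agent.X306.AV.eqv g).symm s)) := by
    ext i j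
    rw [Matrix.mul_apply, Pool.Agent.X306.AV.sum_eqv]
    change ∑ k, (f j k * A.lam i k - A.η i k * q j k) =
      ∑ k, Pool.Agent.X306.AV.PA A i (Pool.Agent.X306.AV.eqv g (Sum.inl k)) * Sum.elim
        (fun k => Pool.Agent.X306.AV.UU (q j) (f j) ((Pool.Agent.X306.AV.eqv g).symm (Pool.Agent.X306.AV.eqv g (Sum.inr k))))
        (fun k => -Pool.Agent.X306.AV.UU (q j) (f j) ((Pool.Agent.X306.AV.eqv g).symm (Pool.Agent.X306.AV.eqv g (Sum.inl k))))
        ((Pool.Agent.X306.AV.eqv g).symm (Pool.Agent.X306.AV.eqv g (Sum.inl k))) +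
      ∑ k, Pool.Agent.X306.AV.PA A i (Pool.Agent.X306.AV.eqv g (Sum.inr k)) * Sum.elim
        (fun k => Pool.Agent.X306.AV.UU (q j) (f j) ((Pool.Agent.X306.AV.eqv g).symm (Pool.Agent.X306.AV.eqv g (Sum.inr k))))
        (fun k => -Pool.Agent.X306.AV.UU (q j) (f j) ((Pool.Agent.X306.AV.eqv g).symm (Pool.Agent.X306.AV.eqv g (Sum.inl k))))
        ((Pool.Agent.X306.AV.eqv g).symm (Pool.Agent.X306.AV.eqv g (Sum.inr k)))
    simp only [Equiv.symm_apply_apply, Sum.elim_inl, Sum.elim_inr, Pool.Agent.X306.AV.PA_inl,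
      Pool.Agent.X306.AV.PA_inr, A.per_bas, A.eta_bas, Pool.Agent.X306.AV.UU]
    rw [← Finset.sum_add_distrib]
    refine Finset.sum_congr rfl fun k _ => ?_
    ring
  have hpm : periodMatrix A u e q f L = Pool.Agent.X306.AV.sm (Pool.Agent.X306.AV.prS u e q f L A) 1 := by
    unfold periodMatrix
    rw [hblock, PA_eq, hthird]
    rfl
  rw [hpm] at hc
  have hn' : Pool.Agent.X306.AV.RelN A u q (Pool.Agent.X306.AV.Nm A u e q f) := by
    rw [← coordinates_eq]
    exact (rel_iff A u q _ _).1 hn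
  have hE : Pool.Agent.X306.AV.EndAlg A := by
    rintro m ⟨Q, hQ⟩
    obtain ⟨b, hb, h1⟩ := hF.deRham Q m hQ
    rw [PA_eq] at h1
    exact ⟨b, hb, h1⟩
  have hF' : Pool.Agent.X306.AV.Fld A F := ⟨hF.numberField, hF.differentials, hF.add, hF.endo⟩
  have hNA : A.NA ≤ Pool.Agent.X306.AV.L0 (Pool.Agent.X306.AV.gR A u q T) := by
    obtain ⟨hsplit, s, hs⟩ := Pool.Agent.X306.AV.shapeO hT' hG' hc hF' hu hq hE hn'
    exact hA.trans (Pool.Agent.X306.AV.mm_L0 hT' hG' hc hF' hu hq hE hn' hs)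
  have main : ∀ W ∈ motivicLie A u q {s | IsCentral A u q s.1 ∧
        IsAlgebraic ℚ (pairing s.1 (logarithm u e q f L) - (s.2 : ℂ) * (2 * Real.pi * Complex.I))},
      ∀ x ∈ T, NormedSpace.exp W * x ∈ T := by
    rintro _ ⟨X, Z, μ, Y, w, hX, hYZ, hw, rfl⟩ x hx
    have h1 := Pool.Agent.X306.AV.mainLie hT' hG' hc hF' hu hq hE hn' hNA (X := X) (μ := μ) hX
      ((rel_iff A u q Y Z).1 hYZ) (w := w) (fun χ h1 n h2 => by
        refine hw (χ, n) ⟨fun c hc' => h1 c (by rwa [commutators_eq] at hc'), ?_⟩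
        rw [logarithm_eq A]
        exact h2) hx
    rw [hblock, columns_eq]
    exact h1
  refine ⟨main, ?_⟩
  rintro halg _ ⟨X, Z, μ, Y, w, hX, hYZ, hw, rfl⟩ x hx
  refine main _ ⟨X, Z, μ, Y, w, hX, hYZ, fun s hs => hw s ⟨hs.1, ?_⟩, rfl⟩ x hx
  have h1 : Complex.exp (pairing s.1 (logarithm u e q f L) - (s.2 : ℂ) * (2 * Real.pi * Complex.I)) =
      Complex.exp (pairing s.1 (logarithm u e q f L)) := by
    rw [Complex.exp_sub, Complex.exp_int_mul_two_pi_mul_I, div_one]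
  by_contra hne
  refine Pool.Agent.H340R2.LW.transcendental_cexp _ hs.2 (sub_ne_zero.2 hne) ?_
  rw [h1]
  exact halg s.1 hs.1

end Pool.Agent.H945.Om
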