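import Pool.Agent.H945.Rf5

/-!
# Motives in the tensor category of an abelian variety of spin type with a conjugation which is a reflection
-/

set_option autoImplicit false
set_option linter.unusedSectionVars false
set_option maxHeartbeats 1000000

open Module Function TensorProduct Matrix

noncomputable section

namespace Pool.Agent.H945.Rf

open Pool.Agent.Y102 Pool.Agent.W516.DR Pool.Agent.H204R3.GP Pool.Agent.W516.KC Pool.Agent.H204R3.SP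
  Pool.Agent.TH119.MX Pool.Agent.R917 Pool.Agent.N208.AM Pool.Agent.N208.AD Pool.Agent.N208.TS Pool.Agent.N113.ME

variable {g : ℕ}

/-- The data: a coloured Clifford system on `H_1(A, ℂ)` and a rational automorphism which acts by a reflection on the
vectors of each colour. -/
structure Dat (A : AbVar g) (F : A.H1 ≃ₗ[ℚ] A.H1) {N k : ℕ} (E : Fin N → Matrix (Fin (2 * g)) (Fin (2 * g)) ℂ)
    (c : Fin N → Fin k) (ε : Fin N → ℂ) : Prop where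
  sq : ∀ i, E i * E i = 1
  anti : ∀ i j, i ≠ j → E i * E j = -(E j * E i)
  size : ∀ i, 5 ≤ (Finset.univ.filter fun j => c j = c i).card
  le : Submodule.span ℂ {Y | ∃ X ∈ A.NA, Y = toC X} ≤ Submodule.span ℂ {Y | ∃ i j, i ≠ j ∧ c i = c j ∧ Y = E i * E j}
  gen : ∀ i j, c i = c j → E i * E j ∈
    Algebra.adjoin ℂ (Submodule.span ℂ {Y | ∃ X ∈ A.NA, Y = toC X} : Set (Matrix (Fin (2 * g)) (Fin (2 * g)) ℂ))
  eps : ∀ i, ε i * ε i = 1
  conj : ∀ i j, i ≠ j → c i = c j → toC (F : A.H1 →ₗ[ℚ] A.H1) * (E i * E j) =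
      (ε i * ε j) • (E i * E j * toC (F : A.H1 →ₗ[ℚ] A.H1))
  refl : ∀ s, (∃ i, c i = s) → ∃ o, c o = s ∧ ∀ i j, i ≠ j → c i = s → c j = s →
      ε i * ε j = if i = o ∨ j = o then -1 else 1

variable {A : AbVar g} {F : A.H1 ≃ₗ[ℚ] A.H1} {N k : ℕ} {E : Fin N → Matrix (Fin (2 * g)) (Fin (2 * g)) ℂ}
  {c : Fin N → Fin k} {ε : Fin N → ℂ}

/-- the operators -/
abbrev opE (E : Fin N → Matrix (Fin (2 * g)) (Fin (2 * g)) ℂ) : Fin N → Module.End ℂ (ℂ ⊗[ℚ] (Fin (2 * g) → ℚ)) :=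
  fun i => matE (2 * g) (E i)

theorem Dat.ce (d : Dat A F E c ε) : SP.CE (opE E) := ⟨fun i => by
  rw [← map_mul, d.sq, map_one], fun i j hij => by
  rw [← map_mul, d.anti i j hij, map_neg, map_mul]⟩

theorem map_so : (Submodule.span ℂ {Y | ∃ i j, i ≠ j ∧ c i = c j ∧ Y = E i * E j}).map (matE (2 * g)).toLinearMap =
    SP.soC (opE E) c := by
  rw [Submodule.map_span]
  unfold SP.soC
  congr 1
  ext Y
  constructor
  · rintro ⟨_, ⟨i, j, a, b, rfl⟩, rfl⟩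
    exact ⟨i, j, a, b, map_mul (matE (2 * g)) _ _⟩
  · rintro ⟨i, j, a, b, rfl⟩
    exact ⟨_, ⟨i, j, a, b, rfl⟩, map_mul (matE (2 * g)) _ _⟩

theorem Dat.le' (d : Dat A F E c ε) : cx A.NA ≤ SP.soC (opE E) c := by
  rw [← map_lie, ← map_so]
  exact Submodule.map_mono d.le

theorem Dat.gen' (d : Dat A F E c ε) (i j : Fin N) (hij : c i = c j) : opE E i * opE E j ∈
    Algebra.adjoin ℂ (cx A.NA : Set (Module.End ℂ (ℂ ⊗[ℚ] A.H1))) := by
  have h1 : ∀ x ∈ Algebra.adjoin ℂ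
      (Submodule.span ℂ {Y | ∃ X ∈ A.NA, Y = toC X} : Set (Matrix (Fin (2 * g)) (Fin (2 * g)) ℂ)),
      matE (2 * g) x ∈ Algebra.adjoin ℂ ((Submodule.span ℂ {Y | ∃ X ∈ A.NA, Y = toC X}).map
        (matE (2 * g)).toLinearMap : Set (Module.End ℂ (ℂ ⊗[ℚ] A.H1))) := by
    intro x hx
    induction hx using Algebra.adjoin_induction with
    | mem x hx => exact Algebra.subset_adjoin ⟨x, hx, rfl⟩
    | algebraMap r =>
      rw [AlgEquiv.commutes]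
      exact Subalgebra.algebraMap_mem _ r
    | add x y _ _ hx hy => rw [map_add]; exact Subalgebra.add_mem _ hx hy
    | mul x y _ _ hx hy => rw [map_mul]; exact Subalgebra.mul_mem _ hx hy
  have h2 := h1 _ (d.gen i j hij)
  rw [map_lie, map_mul] at h2
  exact h2

/-- The generated algebra of a full subalgebra. -/
theorem Dat.gen_full (d : Dat A F E c ε) {𝔥 : Submodule ℚ (Module.End ℚ A.H1)} (h : A.Full 𝔥) (i j : Fin N)
    (hij : c i = c j) : opE E i * opE E j ∈ Algebra.adjoin ℂ (cx 𝔥 : Set (Module.End ℂ (ℂ ⊗[ℚ] A.H1))) := by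
  refine (Algebra.adjoin_le ?_ : Algebra.adjoin ℂ (cx A.NA : Set (Module.End ℂ (ℂ ⊗[ℚ] A.H1))) ≤ _) (d.gen' i j hij)
  intro x hx
  exact h.cx_adjoin x hx

theorem bc_conj (X : Module.End ℚ A.H1) : LinearMap.baseChange ℂ (F.symm : A.H1 →ₗ[ℚ] A.H1) *
    (X.baseChange ℂ * LinearMap.baseChange ℂ (F : A.H1 →ₗ[ℚ] A.H1) : Module.End ℂ (ℂ ⊗[ℚ] A.H1)) =
      LinearMap.baseChange ℂ ((F.symm : A.H1 →ₗ[ℚ] A.H1) ∘ₗ X ∘ₗ (F : A.H1 →ₗ[ℚ] A.H1)) := by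
  rw [LinearMap.baseChange_comp, LinearMap.baseChange_comp]
  rfl

/-- **Full subalgebras which are stable under the conjugation are everything.** -/
theorem Dat.rigid (d : Dat A F E c ε) {𝔥 : Submodule ℚ (Module.End ℚ A.H1)} (h : A.Full 𝔥)
    (hst : ∀ X ∈ 𝔥, (F.symm : A.H1 →ₗ[ℚ] A.H1) ∘ₗ X ∘ₗ (F : A.H1 →ₗ[ℚ] A.H1) ∈ 𝔥)
    [Nontrivial (ℂ ⊗[ℚ] A.H1)] : SP.soC (opE E) c ≤ cx 𝔥 := by
  set f : Module.End ℂ (ℂ ⊗[ℚ] A.H1) := LinearMap.baseChange ℂ (F : A.H1 →ₗ[ℚ] A.H1) with hf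
  set f' : Module.End ℂ (ℂ ⊗[ℚ] A.H1) := LinearMap.baseChange ℂ (F.symm : A.H1 →ₗ[ℚ] A.H1) with hf'
  have hff : f' * f = 1 := by
    have h3 : f' * f = LinearMap.baseChange ℂ ((F.symm : A.H1 →ₗ[ℚ] A.H1) ∘ₗ (F : A.H1 →ₗ[ℚ] A.H1)) :=
      (LinearMap.baseChange_comp _ _).symm
    rw [h3]
    have h4 : (F.symm : A.H1 →ₗ[ℚ] A.H1) ∘ₗ (F : A.H1 →ₗ[ℚ] A.H1) = LinearMap.id := by
      ext x
      simp
    rw [h4, LinearMap.baseChange_id]
    rfl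
  refine refl_col d.ce d.size (cx 𝔥) ((cx_mono h.le).trans d.le') h.cx_br' (d.gen_full h)
    (LinearMap.mulLeft ℂ f' ∘ₗ LinearMap.mulRight ℂ f) ?_ ε ?_ d.refl
  · intro x hx
    refine Submodule.span_induction (p := fun x _ => (LinearMap.mulLeft ℂ f' ∘ₗ LinearMap.mulRight ℂ f) x ∈ cx 𝔥)
      ?_ ?_ ?_ ?_ hx
    · rintro _ ⟨P, hP, rfl⟩
      rw [LinearMap.comp_apply, LinearMap.mulRight_apply, LinearMap.mulLeft_apply, hf, hf', bc_conj]
      exact bc_mem (hst P hP)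
    · rw [map_zero]
      exact zero_mem _
    · intro a b _ _ ha hb
      rw [map_add]
      exact add_mem ha hb
    · intro r a _ ha
      rw [map_smul]
      exact Submodule.smul_mem _ _ ha
  · intro i j hij hcij
    have h3 := congrArg (matE (2 * g)) (d.conj i j hij hcij)
    have h7 : matE (2 * g) (toC (F : A.H1 →ₗ[ℚ] A.H1)) = f := matE_toC _
    rw [map_mul, map_smul, map_mul (matE (2 * g)) (E i * E j), h7, map_mul] at h3
    have h4 : f * (opE E i * opE E j) = (ε i * ε j) • (opE E i * opE E j * f) := h3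
    have h5 : (ε i * ε j) * (ε i * ε j) = 1 := by
      rw [mul_mul_mul_comm, d.eps, d.eps, one_mul]
    have h6 : opE E i * opE E j * f = (ε i * ε j) • (f * (opE E i * opE E j)) := by
      rw [h4, smul_smul, h5, one_smul]
    rw [LinearMap.comp_apply, LinearMap.mulRight_apply, LinearMap.mulLeft_apply, h6, mul_smul_comm, ← mul_assoc,
      hff, one_mul]

/-- The square of the conjugation is central. -/
theorem Dat.sq_comm (d : Dat A F E c ε) {X : Module.End ℚ A.H1} (hX : X ∈ A.NA) :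
    (F : A.H1 →ₗ[ℚ] A.H1) ∘ₗ (F : A.H1 →ₗ[ℚ] A.H1) ∘ₗ X = X ∘ₗ (F : A.H1 →ₗ[ℚ] A.H1) ∘ₗ (F : A.H1 →ₗ[ℚ] A.H1) := by
  set f : Module.End ℂ (ℂ ⊗[ℚ] A.H1) := LinearMap.baseChange ℂ (F : A.H1 →ₗ[ℚ] A.H1) with hf
  have key : ∀ x ∈ SP.soC (opE E) c, f * (f * x) = x * (f * f) := by
    intro x hx
    refine Submodule.span_induction (p := fun x _ => f * (f * x) = x * (f * f)) ?_ ?_ ?_ ?_ hx
    · rintro _ ⟨i, j, hij, hcij, rfl⟩
      have h3 := congrArg (matE (2 * g)) (d.conj i j hij hcij)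
      have h7 : matE (2 * g) (toC (F : A.H1 →ₗ[ℚ] A.H1)) = f := matE_toC _
      rw [map_mul, map_smul, map_mul (matE (2 * g)) (E i * E j), h7, map_mul] at h3
      have h4 : f * (opE E i * opE E j) = (ε i * ε j) • (opE E i * opE E j * f) := h3
      have h5 : (ε i * ε j) * (ε i * ε j) = 1 := by
        rw [mul_mul_mul_comm, d.eps, d.eps, one_mul]
      rw [h4, mul_smul_comm, ← mul_assoc, h4, smul_mul_assoc, smul_smul, h5, one_smul, mul_assoc]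
    · rw [mul_zero, mul_zero, zero_mul]
    · intro a b _ _ ha hb
      rw [mul_add, mul_add, ha, hb, add_mul]
    · intro r a _ ha
      rw [mul_smul_comm, mul_smul_comm, ha, smul_mul_assoc]
  have h1 := key _ (d.le' (bc_mem hX))
  have h2 : LinearMap.baseChange ℂ ((F : A.H1 →ₗ[ℚ] A.H1) ∘ₗ (F : A.H1 →ₗ[ℚ] A.H1) ∘ₗ X) =
      LinearMap.baseChange ℂ (X ∘ₗ (F : A.H1 →ₗ[ℚ] A.H1) ∘ₗ (F : A.H1 →ₗ[ℚ] A.H1)) := by
    rw [LinearMap.baseChange_comp, LinearMap.baseChange_comp, LinearMap.baseChange_comp, LinearMap.baseChange_comp]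
    exact h1
  have h3 : ((F : A.H1 →ₗ[ℚ] A.H1) ∘ₗ (F : A.H1 →ₗ[ℚ] A.H1) ∘ₗ X -
      X ∘ₗ (F : A.H1 →ₗ[ℚ] A.H1) ∘ₗ (F : A.H1 →ₗ[ℚ] A.H1)) ∈ (⊥ : Submodule ℚ (Module.End ℚ A.H1)) := by
    refine mem_of_bc ?_
    rw [LinearMap.baseChange_sub, h2, sub_self]
    exact Submodule.zero_mem _
  exact sub_eq_zero.1 ((Submodule.mem_bot ℚ).1 h3)

section mot

variable {B : Fin g ⊕ Fin g → Fin g ⊕ Fin g → ℂ} (hB : ∀ i j, IsAlgebraic ℚ (B i j))
  (hF : ∀ i γ, starRingEnd ℂ (A.dR i γ) = ∑ j, B i j * A.dR j (F γ))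

include hB hF

/-- All full subalgebras which contain the logarithmic derivatives of the periods are everything. -/
theorem Dat.all (d : Dat A F E c ε) {𝔮 : Submodule ℚ (Module.End ℚ A.H1)} (hle : 𝔮 ≤ A.NA)
    (hbr : ∀ X ∈ 𝔮, ∀ Y ∈ 𝔮, X * Y - Y * X ∈ 𝔮)
    (h0 : ∀ (D : Derivation QBar ℂ ℂ) (lam : ℂ →ₗ[ℚ] ℚ), X0 A.basis tau D lam ∈ 𝔮) : A.NA ≤ 𝔮 := by
  rcases subsingleton_or_nontrivial (ℂ ⊗[ℚ] A.H1) with hs | hnt
  · intro X _
    refine mem_of_bc ?_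
    have : X.baseChange ℂ = 0 := by
      ext x
      exact Subsingleton.elim _ _
    rw [this]
    exact Submodule.zero_mem _
  let 𝔮' : Submodule ℚ (Module.End ℚ A.H1) := 𝔮 ⊓ 𝔮.comap (F.symm.conj : Module.End ℚ A.H1 →ₗ[ℚ] Module.End ℚ A.H1)
  have hc : ∀ X : Module.End ℚ A.H1, F.symm.conj X = (F.symm : A.H1 →ₗ[ℚ] A.H1) ∘ₗ X ∘ₗ (F : A.H1 →ₗ[ℚ] A.H1) := by
    intro X
    rfl
  have hmem : ∀ X, X ∈ 𝔮' ↔ X ∈ 𝔮 ∧ (F.symm : A.H1 →ₗ[ℚ] A.H1) ∘ₗ X ∘ₗ (F : A.H1 →ₗ[ℚ] A.H1) ∈ 𝔮 := fun X => Iff.rfl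
  have hful : A.Full 𝔮' := by
    refine full_of_X0 A (fun X hX => hle hX.1) (fun X hX Y hY => ?_) fun D lam => ?_
    · refine (hmem _).2 ⟨hbr X hX.1 Y hY.1, ?_⟩
      have h1 := hbr _ ((hmem X).1 hX).2 _ ((hmem Y).1 hY).2
      have h2 : ((F.symm : A.H1 →ₗ[ℚ] A.H1) ∘ₗ X ∘ₗ (F : A.H1 →ₗ[ℚ] A.H1)) *
          ((F.symm : A.H1 →ₗ[ℚ] A.H1) ∘ₗ Y ∘ₗ (F : A.H1 →ₗ[ℚ] A.H1)) -
          ((F.symm : A.H1 →ₗ[ℚ] A.H1) ∘ₗ Y ∘ₗ (F : A.H1 →ₗ[ℚ] A.H1)) *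
          ((F.symm : A.H1 →ₗ[ℚ] A.H1) ∘ₗ X ∘ₗ (F : A.H1 →ₗ[ℚ] A.H1)) =
          (F.symm : A.H1 →ₗ[ℚ] A.H1) ∘ₗ (X * Y - Y * X) ∘ₗ (F : A.H1 →ₗ[ℚ] A.H1) := by
        refine LinearMap.ext fun v => ?_
        simp [LinearMap.sub_apply, Module.End.mul_apply]
      rw [h2] at h1
      exact h1
    · refine (hmem _).2 ⟨h0 D lam, ?_⟩
      rw [X0_conj A F hB hF]
      exact h0 _ _
  have h2 : ∀ X ∈ 𝔮', (F.symm : A.H1 →ₗ[ℚ] A.H1) ∘ₗ X ∘ₗ (F : A.H1 →ₗ[ℚ] A.H1) ∈ 𝔮' := by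
    intro X hX
    refine (hmem _).2 ⟨((hmem X).1 hX).2, ?_⟩
    have h3 := d.sq_comm (hle hX.1)
    have h4 : (F.symm : A.H1 →ₗ[ℚ] A.H1) ∘ₗ ((F.symm : A.H1 →ₗ[ℚ] A.H1) ∘ₗ X ∘ₗ (F : A.H1 →ₗ[ℚ] A.H1)) ∘ₗ
        (F : A.H1 →ₗ[ℚ] A.H1) = X := by
      refine LinearMap.ext fun v => ?_
      have h5 := LinearMap.congr_fun h3 v
      simp only [LinearMap.comp_apply, LinearEquiv.coe_coe] at h5 ⊢
      rw [← h5, LinearEquiv.symm_apply_apply, LinearEquiv.symm_apply_apply]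
    rw [h4]
    exact hX.1
  have h3 := d.rigid hful h2
  intro X hX
  have h4 : X ∈ 𝔮' := mem_of_bc (h3 (d.le' (bc_mem hX)))
  exact h4.1

/-- The complex Lie algebra is the whole orthogonal one. -/
theorem Dat.eq_so (d : Dat A F E c ε) [Nontrivial (ℂ ⊗[ℚ] A.H1)] : cx A.NA = SP.soC (opE E) c := by
  refine le_antisymm d.le' ?_
  have h1 := d.rigid A.full_LA fun X hX => LA_conj A F hB hF hX
  exact h1.trans (cx_mono A.LA_le_NA)

/-- The Lie algebra is perfect. -/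
theorem Dat.perf (d : Dat A F E c ε) : ∀ X ∈ A.NA, X ∈ der A.NA := by
  rcases subsingleton_or_nontrivial (ℂ ⊗[ℚ] A.H1) with hs | hnt
  · intro X _
    refine mem_of_bc ?_
    have : X.baseChange ℂ = 0 := by
      ext x
      exact Subsingleton.elim _ _
    rw [this]
    exact Submodule.zero_mem _
  · refine perfect_of ?_
    rw [d.eq_so hB hF]
    exact SP.soC_perfect d.ce fun i => le_trans (by norm_num) (d.size i)

variable {s n : ℕ} {r : Fin s → ℕ} {b : Fin n → Ten A r} {w : Fin s → ℤ}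
  {P : Matrix (Fin n) (Fin n) ℂ} {Wt : Matrix (Fin n) (Fin n) ℚ}
  {H : Set (Matrix (Fin n) (Fin n) ℂ)} {J : Matrix (Fin n) (Fin n) ℝ}

/-- The circle and the weights are in every group which contains the periods of a motive. -/
theorem Dat.all_B (d : Dat A F E c ε) (h : Mot w b P) (hW : WRel w b Wt) (hH : PtM P H)
    (hN : RelR b AbVar.JJ J) {z : ℂ} (hz : z ≠ 0) :
    NormedSpace.exp (KK Wt J z) ∈ H ∧ HRel w b z (NormedSpace.exp (KK Wt J z)) := by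
  have hq := qM_full h hW hH
  have hper := d.perf hB hF
  have hle : A.NA ≤ qM b Wt H := by
    refine d.all hB hF hq.le hq.br fun D lam => ?_
    have h0 : X0 A.basis tau D lam ∈ A.NA := A.LA_le_NA (by
      rw [AbVar.LA_eq]
      exact X0_mem A.basis AbVar.tau_ne D lam)
    obtain ⟨N, hN⟩ := h.st _ h0
    exact ⟨h0, N, hN, _, log_mem h hH D lam hN hW⟩
  have h5 : J ∈ spR b (dq b Wt H : Set (Module.End ℚ A.H1)) := by
    obtain ⟨N', hN', t, X, M, h1, h2⟩ := exists_J h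
    have h3 : J = N' := hN.uniq h.li hN'
    subst h3
    have h4 : J ∈ spR b (A.NA : Set (Module.End ℚ A.H1)) := by
      rw [h2]
      exact Submodule.sum_mem _ fun k _ => Submodule.smul_mem _ _ (mem_spR (h1 k).1 (h1 k).2)
    refine spR_mono ?_ h4
    intro X hX
    have h6 := hper X hX
    have h7 : der A.NA ≤ dq b Wt H := by
      unfold dq der
      exact Submodule.span_mono fun _ ⟨X, hX, Y, hY, e⟩ => ⟨X, hle hX, Y, hle hY, e⟩
    exact h7 h6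
  refine ⟨exp_mem hH.grp fun d => ?_, hrel_exp hW hN hz⟩
  unfold KK
  exact ((Wt_mem h hW hH (noCentre_of_perfect h hper) d).smul _).add ((stab_spR h hW h5 d).smul _)

end mot

end Pool.Agent.H945.Rf
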