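import Pool.Agent.H945.Sf3

/-!
# The Lefschetz Lie algebra is contained in all Lie algebras which contain the logarithmic derivatives of the periods
-/

set_option autoImplicit false
set_option linter.unusedSectionVars false
set_option linter.unusedVariables false
set_option linter.unusedSimpArgs false
set_option maxHeartbeats 1000000

open Module Function TensorProduct Matrix

noncomputable section

namespace Pool.Agent.H945.Sf

open Pool.Agent.R912 Pool.Agent.R912.Q Pool.Agent.Y102 Pool.Agent.W516.DR Pool.Agent.H204R3.GP Pool.Agent.W516.KC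
  Pool.Agent.H204R3.SP Pool.Agent.W5h25.AS Pool.Agent.H945.Rf Pool.Agent.R917 Pool.Agent.N208.AM
  Pool.Agent.N113.ME

variable {g : ℕ} {A : AbVar g}

/-- The hypothesis on the eigenspaces of dimension four on which the endomorphisms act by scalars. -/
def HasConj (A : AbVar g) : Prop := ∀ c : Module.End ℚ A.H1 → ℂ, finrank ℂ (ceig A c) = 4 →
  (∀ P ∈ A.EA, ∃ r : ℂ, ∀ u ∈ ceig A c, P.baseChange ℂ u = r • u) →
    ∃ F : Module.End ℚ A.H1, IsConj A F ∧ (∀ P ∈ ZC A, F * P = P * F) ∧ (∀ u v, A.om (F u) v = A.om u (F v)) ∧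
      ∃ u ∈ ceig A c, F.baseChange ℂ (F.baseChange ℂ u) ≠ 0

/-- The part of a Lie algebra which is stable under a conjugation. -/
def stabF (𝔮 : Submodule ℚ (Module.End ℚ A.H1)) (F : Module.End ℚ A.H1) : Submodule ℚ (Module.End ℚ A.H1) where
  carrier := {X | X ∈ 𝔮 ∧ ∃ Y ∈ 𝔮, X * F = F * Y ∧ Y * F = F * X}
  zero_mem' := ⟨𝔮.zero_mem, 0, 𝔮.zero_mem, by rw [zero_mul, mul_zero], by rw [zero_mul, mul_zero]⟩
  add_mem' := by
    rintro X X' ⟨h1, Y, hY, h2, h3⟩ ⟨h1', Y', hY', h2', h3'⟩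
    exact ⟨𝔮.add_mem h1 h1', Y + Y', 𝔮.add_mem hY hY', by rw [add_mul, mul_add, h2, h2'],
      by rw [add_mul, mul_add, h3, h3']⟩
  smul_mem' := by
    rintro c X ⟨h1, Y, hY, h2, h3⟩
    exact ⟨𝔮.smul_mem c h1, c • Y, 𝔮.smul_mem c hY, by rw [smul_mul_assoc, mul_smul_comm, h2],
      by rw [smul_mul_assoc, mul_smul_comm, h3]⟩

theorem stabF_full {𝔮 : Submodule ℚ (Module.End ℚ A.H1)} (hle : 𝔮 ≤ A.NA) (hbr : ∀ X ∈ 𝔮, ∀ Y ∈ 𝔮, X * Y - Y * X ∈ 𝔮)
    (h0 : ∀ (D : Derivation QBar ℂ ℂ) (lam : ℂ →ₗ[ℚ] ℚ), X0 A.basis tau D lam ∈ 𝔮) {F : Module.End ℚ A.H1}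
    (hF : IsConj A F) : A.Full (stabF 𝔮 F) := by
  refine full_of_X0 A (fun X hX => hle hX.1) ?_ fun D lam => ?_
  · rintro X ⟨h1, Y, hY, h2, h3⟩ X' ⟨h1', Y', hY', h2', h3'⟩
    refine ⟨hbr X h1 X' h1', Y * Y' - Y' * Y, hbr Y hY Y' hY', ?_, ?_⟩
    · rw [sub_mul, mul_sub, mul_assoc X X', h2', ← mul_assoc X, h2, mul_assoc X' X, h2, ← mul_assoc X', h2', mul_assoc,
        mul_assoc]
    · rw [sub_mul, mul_sub, mul_assoc Y Y', h3', ← mul_assoc Y, h3, mul_assoc Y' Y, h3, ← mul_assoc Y', h3', mul_assoc,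
        mul_assoc]
  · refine ⟨h0 D lam, _, h0 (dconj D) (lconj lam), hF.X0_F D lam, ?_⟩
    rw [hF.X0_F, IsConj.dconj_dconj, IsConj.lconj_lconj]

theorem cx_stabF {𝔮 : Submodule ℚ (Module.End ℚ A.H1)} {F : Module.End ℚ A.H1} :
    ∀ x ∈ cx (stabF 𝔮 F), ∃ y ∈ cx (stabF 𝔮 F), x * F.baseChange ℂ = F.baseChange ℂ * y ∧
      y * F.baseChange ℂ = F.baseChange ℂ * x := by
  intro x hx
  induction hx using Submodule.span_induction with
  | mem x hx =>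
    obtain ⟨X, ⟨h1, Y, hY, h2, h3⟩, rfl⟩ := hx
    refine ⟨Y.baseChange ℂ, bc_mem ⟨hY, X, h1, h3, h2⟩, ?_, ?_⟩
    · rw [← bc_mul, ← bc_mul, h2]
    · rw [← bc_mul, ← bc_mul, h3]
  | zero => exact ⟨0, Submodule.zero_mem _, by rw [zero_mul, mul_zero], by rw [zero_mul, mul_zero]⟩
  | add x x' _ _ hx hx' =>
    obtain ⟨y, hy, h1, h2⟩ := hx
    obtain ⟨y', hy', h1', h2'⟩ := hx'
    exact ⟨y + y', Submodule.add_mem _ hy hy', by rw [add_mul, mul_add, h1, h1'], by rw [add_mul, mul_add, h2, h2']⟩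
  | smul c x _ hx =>
    obtain ⟨y, hy, h1, h2⟩ := hx
    exact ⟨c • y, Submodule.smul_mem _ c hy, by rw [smul_mul_assoc, mul_smul_comm, h1],
      by rw [smul_mul_assoc, mul_smul_comm, h2]⟩

theorem excl (hZ : NoTypeIV A) (hE : ∀ c, finrank ℂ (ceig A c) ≤ 4) (hC : HasConj A)
    {𝔮 : Submodule ℚ (Module.End ℚ A.H1)} (hle : 𝔮 ≤ A.NA) (hbr : ∀ X ∈ 𝔮, ∀ Y ∈ 𝔮, X * Y - Y * X ∈ 𝔮)
    (h0 : ∀ (D : Derivation QBar ℂ ℂ) (lam : ℂ →ₗ[ℚ] ℚ), X0 A.basis tau D lam ∈ 𝔮) :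
    Excl (cx 𝔮) (omC A) := by
  have hful := full_of_X0 A hle hbr h0
  have H := hyp4_full hZ hE hful
  intro N hN h4
  have hN' := irr_tr hful A.full_LA hN
  obtain ⟨c, hc⟩ := pk_le_ceig hN'
  have hNc : N = ceig A c := Submodule.eq_of_le_of_finrank_le (le_PK.trans hc) (by rw [h4]; exact hE c)
  have hEA : ∀ P ∈ A.EA, P.baseChange ℂ ∈ comL (cx 𝔮) := by
    intro P hP
    refine comL_le A.full_LA hful fun y hy => ?_
    exact cx_commutes A (S := A.LA) (T := A.EA) (fun X hX Y hY => hY X hX) y hy _ (bc_mem hP)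
  have hsc : ∀ P ∈ A.EA, ∃ r : ℂ, ∀ u ∈ N, P.baseChange ℂ u = r • u := fun P hP =>
    schur hN (hEA P hP) (k_stab H hN h4 _ (hEA P hP))
  obtain ⟨F, hF, hFZ, hFs, u0, hu0, hne⟩ := hC c (by rw [← hNc, h4]) fun P hP => by
    rw [← hNc]
    exact hsc P hP
  rw [← hNc] at hu0
  have hFN : ∀ u ∈ N, F.baseChange ℂ u ∈ N := by
    intro u hu
    rw [hNc] at hu ⊢
    intro P hP
    have h1 : P.baseChange ℂ * F.baseChange ℂ = F.baseChange ℂ * P.baseChange ℂ := by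
      rw [← bc_mul, ← bc_mul, hFZ P hP]
    have h2 := LinearMap.congr_fun h1 u
    rw [Module.End.mul_apply, Module.End.mul_apply, hu P hP, map_smul] at h2
    exact h2
  obtain ⟨r, hr⟩ := hsc _ hF.sq_mem
  have hr' : ∀ u ∈ N, F.baseChange ℂ (F.baseChange ℂ u) = r • u := by
    intro u hu
    rw [← hr u hu, bc_mul, Module.End.mul_apply]
  have hful' := stabF_full hle hbr h0 hF
  refine ⟨cx (stabF 𝔮 F), cx_mono fun X hX => hX.1, irr_tr hful hful' hN, F.baseChange ℂ, r, hFN, ?_, ?_, hr', ?_,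
    cx_stabF⟩
  · exact omC_adj hFs
  · rintro rfl
    exact hne (by rw [hr' _ hu0, zero_smul])
  · intro s hs
    obtain ⟨J, hJ, hJJ, hJF⟩ := IsConj.exists_J' A
    have hJN : ∀ u ∈ N, J u ∈ N := Pool.Agent.Y102.SP.kil_adj _ N hN.stab _ (hful.cx_adjoin J (cx_mono A.MA_le_NA hJ))
    have h1 := LinearMap.congr_fun (hJF F hF) u0
    rw [LinearMap.add_apply, Module.End.mul_apply, Module.End.mul_apply, hs _ hu0, hs _ (hJN _ hu0), map_smul,
      LinearMap.zero_apply, ← add_smul] at h1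
    rcases smul_eq_zero.1 h1 with h2 | h2
    · have h3 : s = 0 := by linear_combination (1 / 2) * h2
      apply hne
      rw [hs _ hu0, h3, zero_smul, map_zero]
    · have h3 := LinearMap.congr_fun hJJ u0
      rw [Module.End.mul_apply, h2, map_zero, LinearMap.neg_apply, Module.End.one_apply, eq_comm, neg_eq_zero] at h3
      apply hne
      rw [h3, map_zero, map_zero]

/-- **The Lefschetz Lie algebra is contained in each Lie algebra which contains the logarithmic derivatives.** -/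
theorem lef_le (hZ : NoTypeIV A) (hE : ∀ c, finrank ℂ (ceig A c) ≤ 4) (hC : HasConj A)
    {𝔮 : Submodule ℚ (Module.End ℚ A.H1)} (hle : 𝔮 ≤ A.NA) (hbr : ∀ X ∈ 𝔮, ∀ Y ∈ 𝔮, X * Y - Y * X ∈ 𝔮)
    (h0 : ∀ (D : Derivation QBar ℂ ℂ) (lam : ℂ →ₗ[ℚ] ℚ), X0 A.basis tau D lam ∈ 𝔮) {X : Module.End ℚ A.H1}
    (hX1 : IsSkew A.om X) (hX2 : ∀ Q ∈ A.EA, X * Q = Q * X) : X ∈ 𝔮 := by
  have hful := full_of_X0 A hle hbr h0
  refine mem_of_bc ?_
  rcases subsingleton_or_nontrivial (ℂ ⊗[ℚ] A.H1) with hs | hnt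
  · have : X.baseChange ℂ = 0 := LinearMap.ext fun u => Subsingleton.elim _ _
    rw [this]
    exact Submodule.zero_mem _
  have hadj : X ∈ Algebra.adjoin ℚ (A.LA : Set (Module.End ℚ A.H1)) :=
    mem_adjoin_of_comm A.semi_LA fun P hP => hX2 P hP
  have hadj0 := bc_adjoin hadj
  have hadj' : X.baseChange ℂ ∈ Algebra.adjoin ℂ (cx 𝔮 : Set (Module.End ℂ (ℂ ⊗[ℚ] A.H1))) := by
    refine (Algebra.adjoin_le ?_ : Algebra.adjoin ℂ (cx A.LA : Set (Module.End ℂ (ℂ ⊗[ℚ] A.H1))) ≤ _) hadj0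
    intro x hx
    exact hful.cx_adjoin x (cx_mono A.full_LA.le hx)
  refine main' (hyp4_full hZ hE hful) (excl hZ hE hC hle hbr h0) ?_ ?_ ?_
  · intro P hP
    exact Pool.Agent.Y102.SP.kil_adj _ P hP _ hadj'
  · exact fun K hK => adj_comL hadj' K hK
  · exact skew_ext A.om (omC A) (omC_tmul A) hX1

/-- All de Rham-Betti classes are annihilated by the Lefschetz Lie algebra. -/
theorem drb_kills (hZ : NoTypeIV A) (hE : ∀ c, finrank ℂ (ceig A c) ≤ 4) (hC : HasConj A) {m : ℕ}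
    {φ : MultilinearMap ℚ (fun _ : Fin m × Fin 2 => A.H1) ℚ} (hφ : IsDeRhamBettiForm QBar A.dR tau m φ)
    {X : Module.End ℚ A.H1} (hX1 : IsSkew A.om X) (hX2 : ∀ Q ∈ A.EA, X * Q = Q * X) : Kills X φ := by
  have h1 : X ∈ A.LA := by
    refine lef_le hZ hE hC A.LA_le_NA (fun X hX Y hY => A.LA_bracket hX hY) (fun D lam => ?_) hX1 hX2
    rw [AbVar.LA_eq]
    exact X0_mem A.basis AbVar.tau_ne D lam
  exact A.kills_of_mem hφ h1

theorem drb_hodge (hZ : NoTypeIV A) (hE : ∀ c, finrank ℂ (ceig A c) ≤ 4) (hC : HasConj A) {m : ℕ}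
    {φ : MultilinearMap ℚ (fun _ : Fin m × Fin 2 => A.H1) ℚ} (hφ : IsDeRhamBettiForm QBar A.dR tau m φ) :
    IsHodgeTensor (A.per : A.H1 →+ (Fin g → ℂ)) φ :=
  hodge_of_kills _ A.isRationalStructure _ fun Z hZ' =>
    drb_kills hZ hE hC hφ (A.NA_skew (A.MA_le_NA hZ')) fun Q hQ => A.NA_comm (A.MA_le_NA hZ') hQ

end Pool.Agent.H945.Sf
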