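import Pool.Agent.H945.OmDefs
import Pool.Agent.H945.Sf4
import Pool.Agent.H945.Rf6

/-!
# The Lie algebra generated by the periods of abelian varieties of the two types
-/

set_option autoImplicit false
set_option linter.unusedSectionVars false
set_option linter.unusedVariables false
set_option maxHeartbeats 1000000

open Matrix Module TensorProduct

noncomputable section

namespace Pool.Agent.H945.Om

open Pool.Agent.Y102 Pool.Agent.W516.DR Pool.Agent.H204R3.GP

variable {g : ℕ} {A : AbVar g}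

/-! ## Rows and the tensor product -/

/-- The identification of the rows with the elements of `ℂ ⊗ H_1(A, ℚ)`. -/
def Phi (A : AbVar g) : (Fin (2 * g) → ℂ) ≃ₗ[ℂ] (ℂ ⊗[ℚ] A.H1) :=
  ((Algebra.TensorProduct.basis ℂ (Pi.basisFun ℚ (Fin (2 * g)))).equivFun).symm

theorem matE_Phi (X : Matrix (Fin (2 * g)) (Fin (2 * g)) ℂ) (v : Fin (2 * g) → ℂ) :
    matE (2 * g) X (Phi A v) = Phi A (X *ᵥ v) := by
  set b := Algebra.TensorProduct.basis ℂ (Pi.basisFun ℚ (Fin (2 * g))) with hb
  have h1 : LinearMap.toMatrix b b (matE (2 * g) X) = X := (LinearMap.toMatrixAlgEquiv b).apply_symm_apply X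
  have h2 := LinearMap.toMatrix_mulVec_repr b b (matE (2 * g) X) (Phi A v)
  rw [h1] at h2
  have h3 : (b.repr (Phi A v) : Fin (2 * g) → ℂ) = v := b.equivFun.apply_symm_apply v
  rw [h3] at h2
  have h4 : Phi A (X *ᵥ v) = b.equivFun.symm (b.repr (matE (2 * g) X (Phi A v))) := by
    rw [← h2]
    rfl
  rw [h4]
  exact (b.equivFun.symm_apply_apply _).symm

theorem row_toC (X : Module.End ℚ A.H1) : (rowMatrix A X)ᵀ = toC X := rfl

theorem Phi_row (X : Module.End ℚ A.H1) (v : Fin (2 * g) → ℂ) :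
    X.baseChange ℂ (Phi A v) = Phi A (v ᵥ* rowMatrix A X) := by
  rw [← matE_toC, ← row_toC, matE_Phi]
  rw [← Matrix.vecMul_transpose, Matrix.transpose_transpose]

theorem mem_cen (P : Module.End ℚ A.H1) : P ∈ R912.ZC A ↔ IsEndomorphism A P ∧ Commutes A P :=
  ⟨fun h => ⟨A.mem_EA.1 h.1, fun Q hQ => h.2 Q (A.mem_EA.2 hQ)⟩,
    fun h => ⟨A.mem_EA.2 h.1, fun Q hQ => h.2 Q (A.mem_EA.1 hQ)⟩⟩

theorem mem_cE {c : Module.End ℚ A.H1 → ℂ} {v : Fin (2 * g) → ℂ} :
    v ∈ centralEigenspace A c ↔ ∀ P, IsEndomorphism A P → Commutes A P → v ᵥ* rowMatrix A P = c P • v := by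
  unfold centralEigenspace
  simp only [Submodule.mem_iInf, LinearMap.mem_ker, Matrix.vecMulLinear_apply, Matrix.vecMul_sub, sub_eq_zero,
    Matrix.vecMul_smul, Matrix.vecMul_one]
  exact ⟨fun h P h1 h2 => h P ⟨h1, h2⟩, fun h P hP => h P hP.1 hP.2⟩

theorem ceig_Phi (c : Module.End ℚ A.H1 → ℂ) :
    W5h25.AS.ceig A c = (centralEigenspace A c).map (Phi A : (Fin (2 * g) → ℂ) →ₗ[ℂ] (ℂ ⊗[ℚ] A.H1)) := by
  ext u
  obtain ⟨v, rfl⟩ := (Phi A).surjective u
  have h1 : Phi A v ∈ (centralEigenspace A c).map (Phi A : (Fin (2 * g) → ℂ) →ₗ[ℂ] (ℂ ⊗[ℚ] A.H1)) ↔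
      v ∈ centralEigenspace A c := by
    constructor
    · rintro ⟨w, hw, hw'⟩
      have : w = v := (Phi A).injective hw'
      rwa [← this]
    · exact fun h => ⟨v, h, rfl⟩
  rw [h1, mem_cE]
  constructor
  · intro h P h2 h3
    have h4 : P.baseChange ℂ (Phi A v) = c P • Phi A v := h P ((mem_cen P).2 ⟨h2, h3⟩)
    rw [Phi_row, ← map_smul] at h4
    exact (Phi A).injective h4
  · intro h P hP
    have h2 := (mem_cen P).1 hP
    rw [Phi_row, h P h2.1 h2.2, map_smul]

theorem finrank_ceig (c : Module.End ℚ A.H1 → ℂ) :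
    finrank ℂ (W5h25.AS.ceig A c) = finrank ℂ (centralEigenspace A c) := by
  rw [ceig_Phi]
  exact (LinearEquiv.finrank_map_eq (Phi A) _)

/-! ## The first type -/

theorem SmallType.hasConj (h : SmallType A) : Sf.HasConj A := by
  intro c h4 hs
  rw [finrank_ceig] at h4
  rw [ceig_Phi] at hs ⊢
  obtain ⟨F, hF⟩ := h.conjugations c h4 fun P hP => by
    obtain ⟨r, hr⟩ := hs P (A.mem_EA.2 hP)
    refine ⟨r, fun u hu => (Phi A).injective ?_⟩
    rw [← Phi_row, map_smul]
    exact hr _ ⟨u, hu, rfl⟩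
  obtain ⟨u, hu, hne⟩ := hF.nonzero
  refine ⟨F, ⟨hF.conjugation.antilinear, hF.conjugation.periods⟩, fun P hP => ?_, hF.selfAdjoint, Phi A u, ⟨u, hu, rfl⟩, ?_⟩
  · have h2 := (mem_cen P).1 hP
    exact hF.central P h2.1 h2.2
  · rw [Phi_row, Phi_row]
    exact fun h0 => hne ((Phi A).map_eq_zero_iff.1 h0)

theorem SmallType.noIV (h : SmallType A) : R912.NoTypeIV A := fun P hP hc hs =>
  h.noTypeIV P (A.mem_EA.1 hP) (fun Q hQ => hc Q (A.mem_EA.2 hQ)) hs

theorem SmallType.dim (h : SmallType A) (c : Module.End ℚ A.H1 → ℂ) : finrank ℂ (W5h25.AS.ceig A c) ≤ 4 := by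
  rw [finrank_ceig]
  exact h.dimension c

theorem SmallType.le_mm (h : SmallType A) {X : Module.End ℚ A.H1} (h1 : IsSkewSymmetric A X) (h2 : Commutes A X) :
    X ∈ Pool.Agent.X306.AV.mm A :=
  Sf.lef_le h.noIV h.dim h.hasConj Pool.Agent.X306.AV.full_mm.le Pool.Agent.X306.AV.full_mm.br
    (fun D lam => Pool.Agent.X306.AV.X0_mm D lam) h1 fun Q hQ => h2 Q (A.mem_EA.1 hQ)

theorem SmallType.NA_le (h : SmallType A) : A.NA ≤ Pool.Agent.X306.AV.mm A := fun X hX =>
  h.le_mm (A.NA_skew hX) fun Q hQ => A.NA_comm hX (A.mem_EA.2 hQ)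

/-- For the first type the Lie algebra is the Lie algebra of the Lefschetz group. -/
theorem SmallType.lie_iff (h : SmallType A) (X : Module.End ℚ A.H1) :
    InLie A X ↔ IsSkewSymmetric A X ∧ Commutes A X := by
  have h1 : InLie A X ↔ X ∈ A.NA := Iff.rfl
  rw [h1]
  exact ⟨fun hX => ⟨A.NA_skew hX, fun Q hQ => A.NA_comm hX (A.mem_EA.2 hQ)⟩, fun hX =>
    Pool.Agent.X306.AV.full_mm.le (h.le_mm hX.1 hX.2)⟩

/-! ## The second type -/

theorem span_transpose (S : Set (Matrix (Fin (2 * g)) (Fin (2 * g)) ℂ)) {X : Matrix (Fin (2 * g)) (Fin (2 * g)) ℂ}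
    (h : X ∈ Submodule.span ℂ S) : Xᵀ ∈ Submodule.span ℂ {Y | Yᵀ ∈ S} := by
  induction h using Submodule.span_induction with
  | mem x hx => exact Submodule.subset_span (by rwa [Set.mem_ofPred_eq, Matrix.transpose_transpose])
  | zero => rw [Matrix.transpose_zero]; exact Submodule.zero_mem _
  | add x y _ _ hx hy => rw [Matrix.transpose_add]; exact Submodule.add_mem _ hx hy
  | smul a x _ hx => rw [Matrix.transpose_smul]; exact Submodule.smul_mem _ _ hx

theorem lie_toC (X : Matrix (Fin (2 * g)) (Fin (2 * g)) ℂ) :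
    X ∈ Submodule.span ℂ {Y | ∃ X ∈ A.NA, Y = toC X} ↔ Xᵀ ∈ lieC A := by
  constructor
  · intro h
    have h1 := span_transpose _ h
    refine (Submodule.span_mono ?_) h1
    rintro Y ⟨Z, hZ, hY⟩
    refine ⟨Z, hZ, ?_⟩
    rw [← Matrix.transpose_transpose Y, hY, ← row_toC, Matrix.transpose_transpose]
  · intro h
    have h1 := span_transpose _ h
    rw [Matrix.transpose_transpose] at h1
    refine (Submodule.span_mono ?_) h1
    rintro Y ⟨Z, hZ, hY⟩
    refine ⟨Z, hZ, ?_⟩
    rw [← row_toC, ← hY, Matrix.transpose_transpose]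

theorem adj_transpose {S : Set (Matrix (Fin (2 * g)) (Fin (2 * g)) ℂ)} {X : Matrix (Fin (2 * g)) (Fin (2 * g)) ℂ}
    (h : X ∈ Algebra.adjoin ℂ S) : Xᵀ ∈ Algebra.adjoin ℂ {Y | Yᵀ ∈ S} := by
  induction h using Algebra.adjoin_induction with
  | mem x hx => exact Algebra.subset_adjoin (by rwa [Set.mem_ofPred_eq, Matrix.transpose_transpose])
  | algebraMap r =>
    have h1 : (algebraMap ℂ (Matrix (Fin (2 * g)) (Fin (2 * g)) ℂ) r)ᵀ = algebraMap ℂ _ r := by
      rw [Algebra.algebraMap_eq_smul_one, Matrix.transpose_smul, Matrix.transpose_one]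
    rw [h1]
    exact Subalgebra.algebraMap_mem _ r
  | add x y _ _ hx hy => rw [Matrix.transpose_add]; exact Subalgebra.add_mem _ hx hy
  | mul x y _ _ hx hy => rw [Matrix.transpose_mul]; exact Subalgebra.mul_mem _ hy hx

theorem row_mul (X Y : Module.End ℚ A.H1) : toC X * toC Y = toC (X * Y) := by
  apply (matE (2 * g)).injective
  rw [map_mul, matE_toC, matE_toC, matE_toC]
  exact (LinearMap.baseChange_comp _ _).symm

theorem toC_one : toC (1 : Module.End ℚ A.H1) = 1 := by
  apply (matE (2 * g)).injective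
  rw [map_one, matE_toC]
  exact LinearMap.baseChange_id

theorem ReflectionType.NA_le {F : Module.End ℚ A.H1} {N k : ℕ} {E : Fin N → EndC A} {c : Fin N → Fin k}
    {o : Fin k → Fin N} (h : ReflectionType A F E c o) : A.NA ≤ Pool.Agent.X306.AV.mm A := by
  -- the inverse
  let G : A.H1 ≃ₗ[ℚ] A.H1 := (LinearEquiv.ofBijective F h.bijective).symm
  have hGF : (G : A.H1 →ₗ[ℚ] A.H1) * F = 1 := LinearMap.ext fun v =>
    (LinearEquiv.ofBijective F h.bijective).symm_apply_apply v
  have hFG : F * (G : A.H1 →ₗ[ℚ] A.H1) = 1 := LinearMap.ext fun v =>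
    (LinearEquiv.ofBijective F h.bijective).apply_symm_apply v
  obtain ⟨b, hb, hFb⟩ := h.conjugation.periods
  have hG : ∀ i γ, starRingEnd ℂ (A.dR i γ) = ∑ j, b i j * A.dR j (G γ) := by
    intro i γ
    rw [← hFb i (G γ)]
    congr 2
    exact (LinearMap.congr_fun hFG γ).symm
  have c1 : toC (G : A.H1 →ₗ[ℚ] A.H1) * toC F = 1 := by rw [row_mul, hGF, toC_one]
  have c2 : toC F * toC (G : A.H1 →ₗ[ℚ] A.H1) = 1 := by rw [row_mul, hFG, toC_one]
  have d : H945.Rf.Dat A G (fun i => (E i)ᵀ) c fun i => if i = o (c i) then -1 else 1 :=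
    { sq := fun i => by rw [← Matrix.transpose_mul, h.sq, Matrix.transpose_one]
      anti := fun i j hij => by
        rw [← Matrix.transpose_mul, ← Matrix.transpose_mul, h.anti j i hij.symm, Matrix.transpose_neg]
      size := fun i => h.size (c i)
      le := by
        intro X hX
        have h1 := h.le ((lie_toC X).1 hX)
        have h2 := span_transpose _ h1
        rw [Matrix.transpose_transpose] at h2
        refine (Submodule.span_mono ?_) h2
        rintro Y ⟨i, j, hij, hcij, hY⟩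
        refine ⟨j, i, hij.symm, hcij.symm, ?_⟩
        rw [← Matrix.transpose_mul, ← hY, Matrix.transpose_transpose]
      gen := fun i j hij => by
        have h1 := adj_transpose (h.generates j i hij.symm)
        rw [Matrix.transpose_mul] at h1
        refine (Algebra.adjoin_mono ?_) h1
        intro Y hY
        exact (lie_toC Y).2 hY
      eps := fun i => by
        split_ifs <;> ring
      conj := fun i j hij hcij => by
        have h1 := congrArg Matrix.transpose (h.reflection j i hij.symm hcij.symm)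
        rw [Matrix.transpose_mul, Matrix.transpose_mul, row_toC] at h1
        have h2 : (E i)ᵀ * (E j)ᵀ * toC F = ((if i = o (c i) then (-1 : ℂ) else 1) *
            (if j = o (c j) then (-1 : ℂ) else 1)) • (toC F * ((E i)ᵀ * (E j)ᵀ)) := by
          rw [h1, ← hcij]
          have h4 : (E j * E i * rowMatrix A F)ᵀ = toC F * ((E i)ᵀ * (E j)ᵀ) := by
            rw [Matrix.transpose_mul, Matrix.transpose_mul, row_toC]
          by_cases hi : i = o (c i)
          · have hj : j ≠ o (c i) := fun h3 => hij (hi.trans h3.symm)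
            rw [if_pos (Or.inr hi), if_pos hi, if_neg hj, mul_one, neg_one_smul, Matrix.transpose_neg, h4]
          · by_cases hj : j = o (c i)
            · rw [if_pos (Or.inl hj), if_neg hi, if_pos hj, one_mul, neg_one_smul, Matrix.transpose_neg, h4]
            · rw [if_neg (by tauto), if_neg hi, if_neg hj, one_mul, one_smul, h4]
        have h5 : toC (G : A.H1 →ₗ[ℚ] A.H1) * ((E i)ᵀ * (E j)ᵀ * toC F) * toC (G : A.H1 →ₗ[ℚ] A.H1) =
            toC (G : A.H1 →ₗ[ℚ] A.H1) * (((if i = o (c i) then (-1 : ℂ) else 1) *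
              (if j = o (c j) then (-1 : ℂ) else 1)) • (toC F * ((E i)ᵀ * (E j)ᵀ))) *
              toC (G : A.H1 →ₗ[ℚ] A.H1) := by rw [h2]
        rw [mul_smul_comm, smul_mul_assoc, ← mul_assoc (toC (G : A.H1 →ₗ[ℚ] A.H1)) (toC F), c1, one_mul,
          mul_assoc (toC (G : A.H1 →ₗ[ℚ] A.H1)), mul_assoc ((E i)ᵀ * (E j)ᵀ), c2, mul_one] at h5
        exact h5
      refl := fun s _ => by
        refine ⟨o s, h.centre s, fun i j hij hi hj => ?_⟩
        simp only [hi, hj]
        by_cases h1 : i = o s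
        · have h3 : j ≠ o s := fun h3 => hij (h1.trans h3.symm)
          simp [h1, h3]
        · by_cases h2 : j = o s
          · simp [h1, h2]
          · simp [h1, h2] }
  exact d.all hb hG Pool.Agent.X306.AV.full_mm.le Pool.Agent.X306.AV.full_mm.br
    (fun D lam => Pool.Agent.X306.AV.X0_mm D lam)

theorem HasType.NA_le (h : HasType A) : A.NA ≤ Pool.Agent.X306.AV.mm A := by
  rcases h with h | ⟨F, N, k, E, c, o, h⟩
  · exact h.NA_le
  · exact h.NA_le

end Pool.Agent.H945.Om
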