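import Pool.Graph.R_pool_sql_team_seeded_64922ed1.X306.AV.UB

/-!
# 1-motives and complex conjugation: definitions
-/

set_option autoImplicit false

open Matrix Pool.Agent.Y102 Pool.Agent.W516.DR Pool.Agent.H204R3.GP

noncomputable section

namespace Pool.Agent.H945.Om

/-- The rows (Betti side): the `2g` cycles of `A`, lifted to `G`, the circles of the torus, and the paths from `0` to the
points of `G`. The columns (de Rham side) have the same indices. -/
abbrev Idx (g : ℕ) (R J : Type) : Type := (Fin (2 * g) ⊕ J) ⊕ R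

variable {g : ℕ} {R : Type} [Fintype R] [DecidableEq R] {J : Type} [Fintype J] [DecidableEq J]

/-- The block matrix `(X, z, 0; 0, μ, 0; Y, w, κ)`. -/
def block (X : Matrix (Fin (2 * g)) (Fin (2 * g)) ℂ) (z : Matrix (Fin (2 * g)) J ℂ) (μ : ℂ)
    (Y : Matrix R (Fin (2 * g)) ℂ) (w : Matrix R J ℂ) (κ : ℂ) : Matrix (Idx g R J) (Idx g R J) ℂ :=
  fromBlocks (fromBlocks X z 0 (μ • 1)) 0 (fromCols Y w) (κ • 1)

/-- The index set `Fin (2 * g)` of the de Rham basis of `A`: first the `g` differentials `d z_k` of the first kind, then the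
`g` differentials `d (∂_k log θ₀)` of the second kind. -/
def split (g : ℕ) : Fin (2 * g) ≃ Fin g ⊕ Fin g := (finCongr (two_mul g)).trans finSumFinEquiv.symm

variable (A : AbVar g)

/-- The period matrix of `A`. -/
def abelianPeriods : Matrix (Fin (2 * g)) (Fin (2 * g)) ℂ :=
  Matrix.of fun i j => Sum.elim (fun k => A.lam i k) (fun k => A.η i k) (split g j)

/-- The periods of the differentials of the third kind. -/
def thirdPeriods (q f : J → Fin g → ℂ) : Matrix (Fin (2 * g)) J ℂ :=
  Matrix.of fun i j => ∑ k, (f j k * A.lam i k - A.η i k * q j k)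

/-- The period matrix of `M`. -/
def periodMatrix (u e : R → Fin g → ℂ) (q f : J → Fin g → ℂ) (L : Matrix R J ℂ) : Matrix (Idx g R J) (Idx g R J) ℂ :=
  block (abelianPeriods A) (thirdPeriods A q f) (2 * Real.pi * Complex.I)
    (Matrix.of fun r j => Sum.elim (u r) (e r) (split g j)) L 1

/-- The Riemann form on `H_1(A, ℂ)`, in the basis `lam`. -/
def riemann (v w : Fin (2 * g) → ℂ) : ℂ :=
  ∑ a, ∑ b, v a * w b * ((∑ k, (A.η a k * A.lam b k - A.η b k * A.lam a k)) / (2 * Real.pi * Complex.I))

/-- The columns `γ ↦ ω(Z_j, γ)`, for the cycles `γ` of the basis. -/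
def columns (Z : J → Fin (2 * g) → ℂ) : Matrix (Fin (2 * g)) J ℂ := Matrix.of fun i j => riemann A (Z j) (Pi.single i 1)

/-- The lattice of periods of `A`. -/
def lattice : Submodule ℤ (Fin g → ℂ) := Submodule.span ℤ (Set.range A.lam)

/-- The inverse image in `ℂ^g` of `A(F)`. -/
def points (F : IntermediateField ℚ ℂ) : Set (Fin g → ℂ) := {z | ∃ i, A.θ i z ≠ 0 ∧ ∀ j, A.θ j z / A.θ i z ∈ F}

/-- `A`, with its embedding and its endomorphisms, is defined over the number field `F`. -/
structure DefinedOver (F : IntermediateField ℚ ℂ) : Prop where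
  numberField : FiniteDimensional ℚ F
  /-- the invariant differentials `d z_k` are defined over `F` -/
  differentials : ∀ k i j, ∃ a : Fin (A.N + 1) → Fin (A.N + 1) → ℂ, (∀ p q, a p q ∈ F) ∧
    ∀ z, A.θ i z * pd k (A.θ j) z - A.θ j z * pd k (A.θ i) z = ∑ p, ∑ q, a p q * (A.θ p z * A.θ q z)
  /-- the sum of two points over `F` is a point over `F` -/
  add : ∀ z ∈ points A F, ∀ w ∈ points A F, z + w ∈ points A F
  /-- the endomorphisms are defined over `F` -/
  endo : ∀ Q : (Fin g → ℂ) →ₗ[ℂ] (Fin g → ℂ), (∀ w ∈ lattice A, Q w ∈ lattice A) → ∀ z ∈ points A F, Q z ∈ points A F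
  /-- the endomorphisms (with matrix `m` for the basis `lam` of the lattice) act on the de Rham cohomology by matrices with
  algebraic entries -/
  deRham : ∀ (Q : (Fin g → ℂ) →ₗ[ℂ] (Fin g → ℂ)) (m : Matrix (Fin (2 * g)) (Fin (2 * g)) ℤ),
    (∀ j, Q (A.lam j) = ∑ i, (m j i : ℂ) • A.lam i) → ∃ b : Matrix (Fin (2 * g)) (Fin (2 * g)) ℂ,
      (∀ i j, IsAlgebraic ℚ (b i j)) ∧ m.map (Int.cast : ℤ → ℂ) * abelianPeriods A = abelianPeriods A * b

/-- The family `(Y, Z)` of elements of `H_1(A, ℂ)` satisfies all relations `∑ E_r Y_r + ∑ E'_j Z_j = 0` with `E_r, E'_j ∈ End A`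
and `∑ E_r P_r + ∑ E'_j Q_j = 0` (`m` are the matrices of the endomorphisms for the basis `lam` of the lattice). -/
def IsRelated (u : R → Fin g → ℂ) (q : J → Fin g → ℂ) (Y : R → Fin (2 * g) → ℂ) (Z : J → Fin (2 * g) → ℂ) : Prop :=
  ∀ (E : R ⊕ J → (Fin g → ℂ) →ₗ[ℂ] (Fin g → ℂ)) (m : R ⊕ J → Matrix (Fin (2 * g)) (Fin (2 * g)) ℤ),
    (∀ s j, E s (A.lam j) = ∑ i, (m s j i : ℂ) • A.lam i) → ∑ s, E s (Sum.elim u q s) ∈ lattice A →
      ∀ i, ∑ s, ∑ j, Sum.elim Y Z s j * (m s j i : ℂ) = 0

/-- The complex span of the commutators `ω(Z'_j, Y_r) - ω(Z_j, Y'_r)`, for rational families `(Y, Z)`, `(Y', Z')` which satisfy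
the relations. -/
def commutators (u : R → Fin g → ℂ) (q : J → Fin g → ℂ) : Submodule ℂ (Matrix R J ℂ) :=
  Submodule.span ℂ {c | ∃ (Y Y' : R → Fin (2 * g) → ℚ) (Z Z' : J → Fin (2 * g) → ℚ),
    IsRelated A u q (fun r a => Y r a) (fun j a => Z j a) ∧ IsRelated A u q (fun r a => Y' r a) (fun j a => Z' j a) ∧
    c = Matrix.of fun r j =>
      riemann A (fun a => Z' j a) (fun a => Y r a) - riemann A (fun a => Z j a) (fun a => Y' r a)}

/-- The coordinates in `H_1(A, ℂ)` of the vectors `(u_r, e_r)`: the rows `y_r` with `y_r (abelianPeriods A) = (u_r, e_r)`. -/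
def coordinates {S : Type} (u e : S → Fin g → ℂ) : S → Fin (2 * g) → ℂ :=
  fun r => (fun j => Sum.elim (u r) (e r) (split g j)) ᵥ* (abelianPeriods A)⁻¹

/-- The numbers `ℓ_{rj}`: the part of weight `-2` of the logarithm of the period matrix, times `2πi`. -/
def logarithm (u e : R → Fin g → ℂ) (q f : J → Fin g → ℂ) (L : Matrix R J ℂ) : Matrix R J ℂ :=
  Matrix.of fun r j => L r j - (1 / 2) * ∑ k, (f j k * u r k - e r k * q j k)

/-- The sum of the `χ_{rj} w_{rj}`. -/
def pairing (χ : Matrix R J ℤ) (w : Matrix R J ℂ) : ℂ := ∑ r, ∑ j, (χ r j : ℂ) * w r j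

/-- The integral matrices which are zero on the commutators. -/
def IsCentral (u : R → Fin g → ℂ) (q : J → Fin g → ℂ) (χ : Matrix R J ℤ) : Prop :=
  ∀ c ∈ commutators A u q, pairing χ c = 0

/-- The multilinear forms in `2m` variables in the rational homology. -/
abbrev Form (m : ℕ) : Type := MultilinearMap ℚ (fun _ : Fin m × Fin 2 => A.H1) ℚ

/-- `φ` is a de Rham-Betti class in `H^1(A) ^ {⊗ 2m} (m)`. -/
def IsDRB {m : ℕ} (φ : Form A m) : Prop :=
  IsDeRhamBettiForm QBar A.dR (2 * Real.pi * Complex.I) m φ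

/-- `φ` is a Hodge class in `H^1(A) ^ {⊗ 2m} (m)`. -/
def IsHodge {m : ℕ} (φ : Form A m) : Prop := IsHodgeTensor (A.per : A.H1 →+ (Fin g → ℂ)) φ

/-- The endomorphism `X` annihilates the form `φ` (as a derivation). -/
def Annihilates {m : ℕ} (X : Module.End ℚ A.H1) (φ : Form A m) : Prop :=
  ∀ v, ∑ k, φ (Function.update v k (X (v k))) = 0

/-- `X` is in the Lie algebra `𝔤`: it annihilates all classes that are Hodge classes and de Rham-Betti classes. -/
def InLie (X : Module.End ℚ A.H1) : Prop :=
  ∀ (m : ℕ) (φ : Form A m), IsHodge A φ → IsDRB A φ → Annihilates A X φ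

/-- The complex matrices acting (from the right) on the rows in `H_1(A, ℂ)`, for the basis `lam` of the lattice. -/
abbrev EndC (_ : AbVar g) : Type := Matrix (Fin (2 * g)) (Fin (2 * g)) ℂ

/-- The matrix of an endomorphism of `H_1(A, ℚ)`: its rows are the images of the basis vectors. -/
def rowMatrix (X : Module.End ℚ A.H1) : EndC A := Matrix.of fun i j => ((X (Pi.single i 1) j : ℚ) : ℂ)

/-- The complex Lie algebra `𝔤 ⊗ ℂ`. -/
def lieC : Submodule ℂ (EndC A) := Submodule.span ℂ {Y | ∃ X, InLie A X ∧ Y = rowMatrix A X}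

/-! ### Endomorphisms and the common eigenspaces of the centre -/

/-- The endomorphisms of `A`, up to isogeny: the endomorphisms of `H_1(A, ℚ)` which respect the de Rham cohomology over
`ℚ̄`. (By a theorem of Bost, proved in the library as `Pool.Agent.Y102.AbVar.hodge_end`, these are the elements of
`End(A) ⊗ ℚ`.) -/
def IsEndomorphism (P : Module.End ℚ A.H1) : Prop := IsDeRhamBettiEnd QBar A.dR P

/-- `X` commutes with the endomorphisms of `A`. -/
def Commutes (X : Module.End ℚ A.H1) : Prop := ∀ P, IsEndomorphism A P → X * P = P * X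

/-- `X` is skew-symmetric for the polarization. -/
def IsSkewSymmetric (X : Module.End ℚ A.H1) : Prop := ∀ u v, A.om (X u) v + A.om u (X v) = 0

/-- The common eigenspace in `H_1(A, ℂ)` (rows) of the central endomorphisms `P`, with the eigenvalues `c P`. -/
def centralEigenspace (c : Module.End ℚ A.H1 → ℂ) : Submodule ℂ (Fin (2 * g) → ℂ) :=
  ⨅ (P : Module.End ℚ A.H1) (_ : IsEndomorphism A P ∧ Commutes A P),
    LinearMap.ker (rowMatrix A P - c P • 1).vecMulLinear

/-! ### Conjugations -/

/-- `F` is given by complex conjugation and a homomorphism from the complex conjugate of `A` to `A`: it is antilinear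
on the tangent space, and the complex conjugates of the periods `A.dR i (F γ)` of `F γ` are linear combinations of the periods
of `γ` with algebraic coefficients which do not depend on `γ`. -/
structure IsConjugation (F : Module.End ℚ A.H1) : Prop where
  antilinear : ∃ M : Fin g → Fin g → ℂ, ∀ γ i, A.per (F γ) i = ∑ j, M i j * starRingEnd ℂ (A.per γ j)
  periods : ∃ b : Fin g ⊕ Fin g → Fin g ⊕ Fin g → ℂ, (∀ i j, IsAlgebraic ℚ (b i j)) ∧
    ∀ i γ, starRingEnd ℂ (A.dR i (F γ)) = ∑ j, b i j * A.dR j γ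

/-- The conjugation `F` is usable for the eigenspace of `c`: it commutes with the central endomorphisms, is self-adjoint
for the polarization, and `F²` is not zero on the eigenspace. -/
structure IsConjugationFor (c : Module.End ℚ A.H1 → ℂ) (F : Module.End ℚ A.H1) : Prop where
  conjugation : IsConjugation A F
  central : ∀ P, IsEndomorphism A P → Commutes A P → F * P = P * F
  selfAdjoint : ∀ u v, A.om (F u) v = A.om u (F v)
  nonzero : ∃ u ∈ centralEigenspace A c, (u ᵥ* rowMatrix A F) ᵥ* rowMatrix A F ≠ 0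

/-- All endomorphisms of `A` act by scalars on the common eigenspace of the centre. -/
def IsScalar (c : Module.End ℚ A.H1 → ℂ) : Prop :=
  ∀ P, IsEndomorphism A P → ∃ r : ℂ, ∀ u ∈ centralEigenspace A c, u ᵥ* rowMatrix A P = r • u

/-- **The first type.** There is no factor of type IV, the common eigenspaces of the centre have dimension at most four,
and for those of dimension four with scalar endomorphisms there are conjugations. -/
structure SmallType : Prop where
  noTypeIV : ∀ P, IsEndomorphism A P → Commutes A P → IsSkewSymmetric A P → P = 0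
  dimension : ∀ c, Module.finrank ℂ (centralEigenspace A c) ≤ 4
  conjugations : ∀ c, Module.finrank ℂ (centralEigenspace A c) = 4 → IsScalar A c →
    ∃ F : Module.End ℚ A.H1, IsConjugationFor A c F

/-- **The second type.** The `E i` are anticommuting endomorphisms of `H_1(A, ℂ)` with square one; the colour of `E i` is
`c i`, and each colour is used at least five times. The Lie algebra `𝔤 ⊗ ℂ` is contained in the span of the products of two
different `E i` of the same colour and generates an associative algebra which contains these products. The conjugation `F` acts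
on the space spanned by the `E i` of colour `σ` as the reflection with respect to `E (o σ)`, up to sign. -/
structure ReflectionType (F : Module.End ℚ A.H1) {N k : ℕ} (E : Fin N → EndC A) (c : Fin N → Fin k)
    (o : Fin k → Fin N) : Prop where
  sq : ∀ i, E i * E i = 1
  anti : ∀ i j, i ≠ j → E i * E j = -(E j * E i)
  size : ∀ σ, 5 ≤ (Finset.univ.filter fun i => c i = σ).card
  le : lieC A ≤ Submodule.span ℂ {Y | ∃ i j, i ≠ j ∧ c i = c j ∧ Y = E i * E j}
  generates : ∀ i j, c i = c j → E i * E j ∈ Algebra.adjoin ℂ (lieC A : Set (EndC A))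
  conjugation : IsConjugation A F
  bijective : Function.Bijective F
  centre : ∀ σ, c (o σ) = σ
  reflection : ∀ i j, i ≠ j → c i = c j → rowMatrix A F * (E i * E j) =
    if i = o (c i) ∨ j = o (c i) then -(E i * E j * rowMatrix A F) else E i * E j * rowMatrix A F

/-- `A` is of the first or of the second type. -/
def HasType : Prop := SmallType A ∨
  ∃ (F : Module.End ℚ A.H1) (N k : ℕ) (E : Fin N → EndC A) (c : Fin N → Fin k) (o : Fin k → Fin N),
    ReflectionType A F E c o

/-! ### The Lie algebra of the motivic Galois group, torsors -/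

/-- The Lie algebra given by a set `S` of pairs `(χ, n)`: all block matrices `(X, z, 0; 0, μ, 0; Y, w, 0)` such that `X - μ / 2` is
in `𝔤 ⊗ ℂ`, `z` is `columns A Z`, `(Y, Z)` satisfies the relations and `∑ χ_{rj} w_{rj} = n μ` for all `(χ, n)` in `S`. -/
def motivicLie (u : R → Fin g → ℂ) (q : J → Fin g → ℂ) (S : Set (Matrix R J ℤ × ℤ)) :
    Set (Matrix (Idx g R J) (Idx g R J) ℂ) :=
  {W | ∃ X Z μ Y w, X - (μ / 2) • 1 ∈ lieC A ∧ IsRelated A u q Y Z ∧
    (∀ s ∈ S, pairing s.1 w = s.2 * μ) ∧ W = block X (columns A Z) μ (Matrix.of Y) w 0}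

variable {B : Type} [Fintype B] [DecidableEq B]

/-- `T` is the set of the complex points of a subtorsor over the algebraic numbers: a set of invertible matrices, closed
under `x y⁻¹ z`, defined by polynomials with algebraic coefficients. -/
def IsTorsor (T : Set (Matrix B B ℂ)) : Prop :=
  (∀ x ∈ T, ∀ y ∈ T, ∀ z ∈ T, x * y⁻¹ * z ∈ T) ∧
  ∃ I : Set (MvPolynomial (B × B) ℂ), (∀ p ∈ I, ∀ m, IsAlgebraic ℚ (p.coeff m)) ∧
    ∀ x : Matrix B B ℂ, x ∈ T ↔ IsUnit x ∧ ∀ p ∈ I, MvPolynomial.eval (fun b => x b.1 b.2) p = 0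

/-- The group of the matrices `x y⁻¹`, `x, y ∈ T`, is defined by polynomials with rational coefficients. -/
def GroupOverQ (T : Set (Matrix B B ℂ)) : Prop :=
  ∃ I : Set (MvPolynomial (B × B) ℂ), (∀ p ∈ I, ∀ m, ∃ q : ℚ, p.coeff m = q) ∧
    ∀ g : Matrix B B ℂ, (∃ x ∈ T, ∃ y ∈ T, g = x * y⁻¹) ↔ IsUnit g ∧
      ∀ p ∈ I, MvPolynomial.eval (fun b => g b.1 b.2) p = 0

end Pool.Agent.H945.Om
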