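import Pool.Graph.R_seed8.Y102.V15

/-!
# Clifford systems: orthonormal bases of subspaces, and volume elements of stable subspaces
-/

set_option autoImplicit false
set_option linter.unusedSectionVars false
set_option maxHeartbeats 1000000

open Module

namespace Pool.Agent.H945.Rf

open Pool.Agent.Y102.SP

variable {U : Type} [AddCommGroup U] [Module ℂ U] [FiniteDimensional ℂ U] [Nontrivial U]

theorem bil_one_inj {a b : ℂ} (h : a • (1 : Module.End ℂ U) = b • (1 : Module.End ℂ U)) : a = b := by
  obtain ⟨u, hu⟩ := exists_ne (0 : U)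
  have h1 := LinearMap.congr_fun h u
  simp only [LinearMap.smul_apply, Module.End.one_apply] at h1
  by_contra hne
  have h2 : (a - b) • u = 0 := by rw [sub_smul, h1, sub_self]
  rcases smul_eq_zero.1 h2 with h3 | h3
  · exact hne (sub_eq_zero.1 h3)
  · exact hu h3

/-- Orthonormal bases of nondegenerate subspaces. -/
theorem exists_on {n : ℕ} {E : Fin n → Module.End ℂ U} (hE : CE E) (P : Submodule ℂ (Module.End ℂ U))
    (hP : P ≤ VE E) (hnd : ∀ u ∈ P, (∀ v ∈ P, bil u v = 0) → u = 0) :
    ∃ (q : ℕ) (u : Fin q → Module.End ℂ U), CE u ∧ VE u = P := by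
  classical
  set B : LinearMap.BilinForm ℂ P := (BilB (U := U)).domRestrict₁₂ P P with hB
  have hBa : ∀ x y : P, B x y = bil (x : Module.End ℂ U) (y : Module.End ℂ U) := fun x y => rfl
  have hs : LinearMap.IsSymm B := ⟨fun x y => by
    rw [RingHom.id_apply, hBa, hBa, bil_comm]⟩
  have : Invertible (2 : ℂ) := invertibleOfNonzero two_ne_zero
  obtain ⟨v, hv⟩ := LinearMap.BilinForm.exists_orthogonal_basis (B := B) hs
  have horth : ∀ i j, i ≠ j → bil (v i : Module.End ℂ U) (v j : Module.End ℂ U) = 0 := by
    intro i j hij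
    have h1 := hv hij
    exact h1
  have hself : ∀ i, bil (v i : Module.End ℂ U) (v i : Module.End ℂ U) ≠ 0 := by
    intro i h0
    have h1 : (v i : Module.End ℂ U) = 0 := by
      refine hnd _ (v i).2 fun w hw => ?_
      have h2 : ∀ w : P, B (v i) w = 0 := by
        intro w
        rw [← v.sum_repr w, map_sum]
        refine Finset.sum_eq_zero fun j _ => ?_
        rw [map_smul, hBa]
        by_cases hij : i = j
        · rw [← hij, h0, smul_zero]
        · rw [horth i j hij, smul_zero]
      exact h2 ⟨w, hw⟩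
    exact v.ne_zero i (Subtype.ext h1)
  choose s hs2 using fun i => IsAlgClosed.exists_pow_nat_eq
    (bil (v i : Module.End ℂ U) (v i : Module.End ℂ U) / 2) (n := 2) (by norm_num)
  have hs0 : ∀ i, s i ≠ 0 := by
    intro i h0
    have h1 := hs2 i
    rw [h0] at h1
    have h2 : bil (v i : Module.End ℂ U) (v i : Module.End ℂ U) = 0 := by
      have h3 : (0 : ℂ) ^ 2 = 0 := by norm_num
      rw [h3] at h1
      linear_combination (-2) * h1
    exact hself i h2
  have hmul : ∀ i j, (v i : Module.End ℂ U) * (v j : Module.End ℂ U) + (v j : Module.End ℂ U) * (v i : Module.End ℂ U) =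
      bil (v i : Module.End ℂ U) (v j : Module.End ℂ U) • (1 : Module.End ℂ U) := fun i j =>
    Cl_anti3 hE (hP (v i).2) (hP (v j).2)
  refine ⟨finrank ℂ P, fun i => (s i)⁻¹ • (v i : Module.End ℂ U), ⟨fun i => ?_, fun i j hij => ?_⟩, ?_⟩
  · have h1 := hmul i i
    rw [← two_smul ℂ] at h1
    have h2 : (v i : Module.End ℂ U) * (v i : Module.End ℂ U) = (s i ^ 2) • (1 : Module.End ℂ U) := by
      rw [hs2]
      calc (v i : Module.End ℂ U) * (v i : Module.End ℂ U) =
          (2⁻¹ : ℂ) • ((2 : ℂ) • ((v i : Module.End ℂ U) * (v i : Module.End ℂ U))) := by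
            rw [smul_smul, inv_mul_cancel₀ two_ne_zero, one_smul]
        _ = _ := by
          rw [h1, smul_smul]
          congr 1
          ring
    rw [smul_mul_smul_comm, h2, smul_smul]
    have h3 : (s i)⁻¹ * (s i)⁻¹ * s i ^ 2 = 1 := by
      field_simp [hs0 i]
    rw [h3, one_smul]
  · have h1 := hmul i j
    rw [horth i j hij, zero_smul] at h1
    rw [smul_mul_smul_comm, smul_mul_smul_comm, eq_neg_of_add_eq_zero_left h1, smul_neg, mul_comm (s i)⁻¹]
  · unfold VE
    refine le_antisymm (Submodule.span_le.2 ?_) ?_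
    · rintro _ ⟨i, rfl⟩
      exact P.smul_mem _ (v i).2
    · intro x hx
      have h1 := v.sum_repr ⟨x, hx⟩
      have h2 := congrArg (fun y : P => (y : Module.End ℂ U)) h1
      simp only [Submodule.coe_sum, Submodule.coe_smul] at h2
      rw [← h2]
      refine Submodule.sum_mem _ fun i _ => Submodule.smul_mem _ _ ?_
      have h3 : (v i : Module.End ℂ U) = s i • ((s i)⁻¹ • (v i : Module.End ℂ U)) := by
        rw [smul_smul, mul_inv_cancel₀ (hs0 i), one_smul]
      rw [h3]
      exact Submodule.smul_mem _ _ (Submodule.subset_span ⟨i, rfl⟩)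

/-- The product of an orthonormal family. -/
noncomputable def vol {q : ℕ} (u : Fin q → Module.End ℂ U) : Module.End ℂ U := (List.ofFn u).prod

theorem list_comm {z : Module.End ℂ U} (l : List (Module.End ℂ U)) (h : ∀ a ∈ l, a * z = z * a) : l.prod * z = z * l.prod := by
  induction l with
  | nil => simp
  | cons a l ih =>
    rw [List.prod_cons, mul_assoc, ih fun b hb => h b (List.mem_cons_of_mem _ hb), ← mul_assoc, h a List.mem_cons_self,
      mul_assoc]

/-- moving an element which anticommutes with all members of a list -/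
theorem list_anti {z : Module.End ℂ U} (l : List (Module.End ℂ U)) (h : ∀ a ∈ l, z * a = -(a * z)) :
    z * l.prod = (-1 : ℂ) ^ l.length • (l.prod * z) := by
  induction l with
  | nil => simp
  | cons a l ih =>
    rw [List.prod_cons, ← mul_assoc, h a List.mem_cons_self, neg_mul, mul_assoc,
      ih fun b hb => h b (List.mem_cons_of_mem _ hb), List.length_cons, pow_succ, mul_smul_comm, ← mul_assoc, mul_neg_one,
      neg_smul]

/-- the square of a product of anticommuting elements with square one -/
theorem list_sq (l : List (Module.End ℂ U)) (h1 : ∀ a ∈ l, a * a = 1) (h2 : l.Pairwise fun a b => a * b = -(b * a)) :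
    ∃ c : ℂ, (c = 1 ∨ c = -1) ∧ l.prod * l.prod = c • (1 : Module.End ℂ U) := by
  induction l with
  | nil => exact ⟨1, Or.inl rfl, by simp⟩
  | cons a l ih =>
    rw [List.pairwise_cons] at h2
    obtain ⟨c, hc, h3⟩ := ih (fun b hb => h1 b (List.mem_cons_of_mem _ hb)) h2.2
    have h4 := list_anti l h2.1
    refine ⟨(-1) ^ l.length * c, ?_, ?_⟩
    · rcases neg_one_pow_eq_or ℂ l.length with h5 | h5 <;> rcases hc with rfl | rfl <;> rw [h5] <;> norm_num
    · have h6 : l.prod * a = (-1 : ℂ) ^ l.length • (a * l.prod) := by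
        rw [h4, smul_smul, ← mul_pow]
        norm_num
      rw [List.prod_cons]
      calc a * l.prod * (a * l.prod) = a * (l.prod * a) * l.prod := by noncomm_ring
        _ = (-1 : ℂ) ^ l.length • (a * a * (l.prod * l.prod)) := by
          rw [h6, mul_smul_comm, smul_mul_assoc]
          simp only [mul_assoc]
        _ = _ := by
          rw [h1 a List.mem_cons_self, h3, one_mul, smul_smul]

theorem vol_sq {q : ℕ} {u : Fin q → Module.End ℂ U} (hu : CE u) :
    ∃ c : ℂ, c ≠ 0 ∧ vol u * vol u = c • (1 : Module.End ℂ U) := by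
  obtain ⟨c, hc, h⟩ := list_sq (List.ofFn u) (by
    intro a ha
    obtain ⟨i, rfl⟩ := List.mem_ofFn.1 ha
    exact hu.sq i) (by
    rw [List.pairwise_ofFn]
    intro i j hij
    exact hu.anti i j hij.ne)
  refine ⟨c, ?_, h⟩
  rcases hc with rfl | rfl <;> norm_num

theorem vol_move {q : ℕ} {u : Fin q → Module.End ℂ U} (hu : CE u) (i : Fin q) :
    u i * vol u = -(-1 : ℂ) ^ q • (vol u * u i) := by
  have h1 := ColGen_move hu i (List.finRange q)
  have h2 : ColGenW u (List.finRange q) = vol u := by
    unfold ColGenW vol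
    rw [List.ofFn_eq_map]
  have h3 : ∀ l : List (Fin q), l.Nodup → i ∈ l → ColGenS i l = -(-1 : ℂ) ^ l.length := by
    intro l
    induction l with
    | nil => intro _ h; exact absurd h List.not_mem_nil
    | cons a l ih =>
      intro hn hi
      rw [List.nodup_cons] at hn
      rw [ColGenS_cons]
      by_cases h : a = i
      · subst h
        rw [if_pos rfl, one_mul, ColGenS_notMem hn.1, List.length_cons, pow_succ]
        ring
      · rw [if_neg h, ih hn.2 ((List.mem_cons.1 hi).resolve_left fun h' => h h'.symm), List.length_cons, pow_succ]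
        ring
  rw [h2, h3 _ (List.nodup_finRange q) (List.mem_finRange i), List.length_finRange] at h1
  exact h1

theorem vol_anti {q : ℕ} {u : Fin q → Module.End ℂ U} {z : Module.End ℂ U} (hz : ∀ i, z * u i = -(u i * z)) :
    z * vol u = (-1 : ℂ) ^ q • (vol u * z) := by
  have h1 := list_anti (z := z) (List.ofFn u) (by
    intro a ha
    obtain ⟨i, rfl⟩ := List.mem_ofFn.1 ha
    exact hz i)
  rw [List.length_ofFn] at h1
  exact h1

/-- The volume element of a nondegenerate space of vectors which is stable under an endomorphism commutes with it. -/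
theorem vol_comm {q : ℕ} {u : Fin q → Module.End ℂ U} (hu : CE u) {x : Module.End ℂ U}
    (hx : ∀ v ∈ VE u, x * v - v * x ∈ VE u) : x * vol u = vol u * x := by
  obtain ⟨c, hc, hsq⟩ := vol_sq hu
  set ω := vol u with hω
  set ε : ℂ := -(-1 : ℂ) ^ q with hε
  have hε2 : ε * ε = 1 := by
    rw [hε]
    rcases neg_one_pow_eq_or ℂ q with h5 | h5 <;> rw [h5] <;> norm_num
  have hmv : ∀ v ∈ VE u, v * ω = ε • (ω * v) := by
    intro v hv
    refine Submodule.span_induction (p := fun v _ => v * ω = ε • (ω * v)) ?_ ?_ ?_ ?_ hv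
    · rintro _ ⟨i, rfl⟩
      exact vol_move hu i
    · simp
    · intro a b _ _ ha hb
      rw [add_mul, ha, hb, mul_add, smul_add]
    · intro c a _ ha
      rw [smul_mul_assoc, ha, mul_smul_comm, smul_comm]
  set d := x * ω - ω * x with hd
  have h1 : ∀ v ∈ VE u, v * d = ε • (d * v) := by
    intro v hv
    have h2 := hmv v hv
    have h3 := hmv _ (hx v hv)
    have e1 : v * d = x * (v * ω) - (x * v - v * x) * ω - v * ω * x := by
      rw [hd]
      noncomm_ring
    rw [e1, h3, h2, hd]
    simp only [mul_sub, sub_mul, smul_sub, mul_smul_comm, smul_mul_assoc, ← mul_assoc]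
    abel
  have h4 : ∀ v ∈ VE u, v * (ω * d) = (ω * d) * v := by
    intro v hv
    rw [← mul_assoc, hmv v hv, smul_mul_assoc, mul_assoc, h1 v hv, mul_smul_comm, smul_smul, hε2, one_smul, mul_assoc]
  have h5 : ω * (ω * d) = (ω * d) * ω := by
    refine list_comm (z := ω * d) (List.ofFn u) ?_
    intro a ha
    obtain ⟨i, rfl⟩ := List.mem_ofFn.1 ha
    exact h4 _ (Submodule.subset_span ⟨i, rfl⟩)
  have inj : ∀ a b : Module.End ℂ U, ω * a = ω * b → a = b := by
    intro a b hab
    have h6 : ω * (ω * a) = ω * (ω * b) := by rw [hab]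
    rw [← mul_assoc, ← mul_assoc, hsq, smul_mul_assoc, smul_mul_assoc, one_mul, one_mul] at h6
    exact smul_right_injective _ hc h6
  have h6 : ω * d = d * ω := inj _ _ (by rw [h5, mul_assoc])
  have h7 : d * ω + ω * d = 0 := by
    have e2 : d * ω + ω * d = x * (ω * ω) - ω * ω * x := by
      rw [hd]
      noncomm_ring
    rw [e2, hsq, mul_smul_comm, smul_mul_assoc, mul_one, one_mul, sub_self]
  rw [← h6, ← two_smul ℂ] at h7
  have h8 : ω * d = 0 := (smul_eq_zero.1 h7).resolve_left two_ne_zero
  have h9 : d = 0 := inj _ _ (by rw [h8, mul_zero])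
  exact sub_eq_zero.1 h9

end Pool.Agent.H945.Rf
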