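import Pool.Agent.H945.Rf1

/-!
# Lie subalgebras of `so(n)` which generate the even Clifford algebra and are stable under a reflection
-/

set_option autoImplicit false
set_option linter.unusedSectionVars false
set_option maxHeartbeats 1000000

open Module

namespace Pool.Agent.H945.Rf

open Pool.Agent.Y102.SP

variable {U : Type} [AddCommGroup U] [Module ℂ U] [FiniteDimensional ℂ U] [Nontrivial U]

/-- anticommuting operators with square zero have a common kernel -/
theorem common_ker {m : ℕ} (f : Fin m → Module.End ℂ U) (h : ∀ i j, f i * f j + f j * f i = 0) :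
    ∃ s : U, s ≠ 0 ∧ ∀ i, f i s = 0 := by
  induction m with
  | zero =>
    obtain ⟨s, hs⟩ := exists_ne (0 : U)
    exact ⟨s, hs, fun i => i.elim0⟩
  | succ m ih =>
    obtain ⟨s, hs, hk⟩ := ih (fun i => f i.castSucc) fun i j => h _ _
    by_cases h1 : f (Fin.last m) s = 0
    · refine ⟨s, hs, fun i => ?_⟩
      refine Fin.lastCases h1 (fun i => hk i) i
    · refine ⟨f (Fin.last m) s, h1, fun i => ?_⟩
      refine Fin.lastCases ?_ (fun i => ?_) i
      · have h2 := LinearMap.congr_fun (h (Fin.last m) (Fin.last m)) s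
        have h3 : (2 : ℂ) • f (Fin.last m) (f (Fin.last m) s) = 0 := by
          rw [two_smul]
          exact h2
        exact (smul_eq_zero.1 h3).resolve_left two_ne_zero
      · have h2 := LinearMap.congr_fun (h i.castSucc (Fin.last m)) s
        have h3 : f i.castSucc (f (Fin.last m) s) + f (Fin.last m) (f i.castSucc s) = 0 := h2
        rw [hk i, map_zero, add_zero] at h3
        exact h3

variable {n : ℕ} {E : Fin n → Module.End ℂ U}

/-- the vectors which anticommute with `E o` -/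
def Vo (E : Fin n → Module.End ℂ U) (o : Fin n) : Submodule ℂ (Module.End ℂ U) where
  carrier := {v | v ∈ VE E ∧ E o * v = -(v * E o)}
  zero_mem' := ⟨zero_mem _, by simp⟩
  add_mem' := by
    rintro a b ⟨ha, ha'⟩ ⟨hb, hb'⟩
    exact ⟨add_mem ha hb, by rw [mul_add, ha', hb', add_mul, neg_add]⟩
  smul_mem' := by
    rintro c a ⟨ha, ha'⟩
    exact ⟨Submodule.smul_mem _ c ha, by rw [mul_smul_comm, ha', smul_mul_assoc, smul_neg]⟩

theorem mem_Vo {o : Fin n} {v : Module.End ℂ U} : v ∈ Vo E o ↔ v ∈ VE E ∧ E o * v = -(v * E o) := Iff.rfl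

theorem E_mem_Vo (hE : CE E) {o j : Fin n} (h : j ≠ o) : E j ∈ Vo E o :=
  ⟨Submodule.subset_span ⟨j, rfl⟩, hE.anti o j h.symm⟩

/-- the vectors `w` with `E o w` in the Lie algebra -/
def Wo (E : Fin n → Module.End ℂ U) (o : Fin n) (𝔥 : Submodule ℂ (Module.End ℂ U)) : Submodule ℂ (Module.End ℂ U) :=
  Vo E o ⊓ 𝔥.comap (LinearMap.mulLeft ℂ (E o))

theorem mem_Wo {o : Fin n} {𝔥 : Submodule ℂ (Module.End ℂ U)} {v : Module.End ℂ U} :
    v ∈ Wo E o 𝔥 ↔ v ∈ Vo E o ∧ E o * v ∈ 𝔥 := Iff.rfl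

/-- the vectors orthogonal to `Wo` -/
def Uo (E : Fin n → Module.End ℂ U) (o : Fin n) (𝔥 : Submodule ℂ (Module.End ℂ U)) : Submodule ℂ (Module.End ℂ U) where
  carrier := {v | v ∈ Vo E o ∧ ∀ w ∈ Wo E o 𝔥, w * v + v * w = 0}
  zero_mem' := ⟨zero_mem _, by simp⟩
  add_mem' := by
    rintro a b ⟨ha, ha'⟩ ⟨hb, hb'⟩
    refine ⟨add_mem ha hb, fun w hw => ?_⟩
    have h1 := ha' w hw
    have h2 := hb' w hw
    have h3 : w * (a + b) + (a + b) * w = (w * a + a * w) + (w * b + b * w) := by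
      rw [mul_add, add_mul]; abel
    rw [h3, h1, h2, add_zero]
  smul_mem' := by
    rintro c a ⟨ha, ha'⟩
    refine ⟨Submodule.smul_mem _ c ha, fun w hw => ?_⟩
    rw [mul_smul_comm, smul_mul_assoc, ← smul_add, ha' w hw, smul_zero]

theorem mem_Uo {o : Fin n} {𝔥 : Submodule ℂ (Module.End ℂ U)} {v : Module.End ℂ U} :
    v ∈ Uo E o 𝔥 ↔ v ∈ Vo E o ∧ ∀ w ∈ Wo E o 𝔥, w * v + v * w = 0 := Iff.rfl

section lie

variable (hE : CE E) (o : Fin n) {𝔥 : Submodule ℂ (Module.End ℂ U)} (h𝔥 : 𝔥 ≤ soE E)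
  (hbr : ∀ x ∈ 𝔥, ∀ y ∈ 𝔥, x * y - y * x ∈ 𝔥) (hθ : ∀ x ∈ 𝔥, E o * x * E o ∈ 𝔥)

include hE h𝔥 hbr hθ

/-- the parts of an element of the Lie algebra -/
theorem parts {x : Module.End ℂ U} (hx : x ∈ 𝔥) : ∃ y w, y ∈ 𝔥 ∧ E o * y = y * E o ∧ w ∈ Wo E o 𝔥 ∧ x = y + E o * w := by
  have sq := hE.sq o
  set y := (2⁻¹ : ℂ) • (x + E o * x * E o) with hy
  set z := (2⁻¹ : ℂ) • (x - E o * x * E o) with hz
  have hz𝔥 : z ∈ 𝔥 := Submodule.smul_mem _ _ (sub_mem hx (hθ x hx))
  have hza : E o * z = -(z * E o) := by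
    rw [hz, mul_smul_comm, smul_mul_assoc, ← smul_neg]
    congr 1
    have e1 : E o * (x - E o * x * E o) = E o * x - E o * E o * x * E o := by noncomm_ring
    have e2 : (x - E o * x * E o) * E o = x * E o - E o * x * (E o * E o) := by noncomm_ring
    rw [e1, e2, sq, one_mul, mul_one]
    abel
  have hst : z * E o - E o * z ∈ VE E := soE_stab hE (h𝔥 hz𝔥) (Submodule.subset_span ⟨o, rfl⟩)
  refine ⟨y, E o * z, Submodule.smul_mem _ _ (add_mem hx (hθ x hx)), ?_, ⟨⟨?_, ?_⟩, ?_⟩, ?_⟩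
  · rw [hy, mul_smul_comm, smul_mul_assoc]
    congr 1
    have e1 : E o * (x + E o * x * E o) = E o * x + E o * E o * x * E o := by noncomm_ring
    have e2 : (x + E o * x * E o) * E o = x * E o + E o * x * (E o * E o) := by noncomm_ring
    rw [e1, e2, sq, one_mul, mul_one]
    abel
  · have h1 : z * E o = -(E o * z) := by rw [hza, neg_neg]
    rw [h1] at hst
    have h2 : E o * z = (-2⁻¹ : ℂ) • (-(E o * z) - E o * z) := by
      module
    rw [h2]
    exact Submodule.smul_mem _ _ hst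
  · rw [hza, mul_neg, neg_mul, neg_neg, ← mul_assoc, hza]
    simp
  · show E o * (E o * z) ∈ 𝔥
    rw [← mul_assoc, sq, one_mul]
    exact hz𝔥
  · rw [← mul_assoc, sq, one_mul, hy, hz]
    module

omit hbr hθ in
theorem Wo_stab {y : Module.End ℂ U} (hy : y ∈ 𝔥) (hyo : E o * y = y * E o)
    (hbr : ∀ x ∈ 𝔥, ∀ y ∈ 𝔥, x * y - y * x ∈ 𝔥) {w : Module.End ℂ U} (hw : w ∈ Wo E o 𝔥) :
    y * w - w * y ∈ Wo E o 𝔥 := by
  obtain ⟨⟨hw1, hw2⟩, hw3⟩ := hw
  refine ⟨⟨soE_stab hE (h𝔥 hy) hw1, ?_⟩, ?_⟩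
  · calc E o * (y * w - w * y) = E o * y * w - E o * w * y := by noncomm_ring
      _ = y * (E o * w) - E o * w * y := by rw [hyo, mul_assoc]
      _ = y * (-(w * E o)) - -(w * E o) * y := by rw [hw2]
      _ = -(y * w * E o) + w * (E o * y) := by noncomm_ring
      _ = -((y * w - w * y) * E o) := by rw [hyo]; noncomm_ring
  · show E o * (y * w - w * y) ∈ 𝔥
    have h1 := hbr y hy _ hw3
    have h2 : E o * (y * w - w * y) = y * (LinearMap.mulLeft ℂ (E o) w) - (LinearMap.mulLeft ℂ (E o) w) * y := by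
      rw [LinearMap.mulLeft_apply]
      calc E o * (y * w - w * y) = E o * y * w - E o * w * y := by noncomm_ring
        _ = _ := by rw [hyo, mul_assoc]
    rw [h2]
    exact h1

theorem Uo_stab {x : Module.End ℂ U} (hx : x ∈ 𝔥) {u : Module.End ℂ U} (hu : u ∈ Uo E o 𝔥) :
    x * u - u * x ∈ Uo E o 𝔥 := by
  obtain ⟨y, w, hy, hyo, hw, rfl⟩ := parts hE o h𝔥 hbr hθ hx
  have h1 := hu.2 w hw
  have h2 : E o * w * u - u * (E o * w) = 0 := by
    have h3 : u * E o = -(E o * u) := by rw [hu.1.2, neg_neg]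
    calc E o * w * u - u * (E o * w) = E o * (w * u) - u * E o * w := by noncomm_ring
      _ = E o * (w * u + u * w) := by rw [h3]; noncomm_ring
      _ = 0 := by rw [h1, mul_zero]
  have h3 : (y + E o * w) * u - u * (y + E o * w) = y * u - u * y := by
    calc (y + E o * w) * u - u * (y + E o * w) = (y * u - u * y) + (E o * w * u - u * (E o * w)) := by noncomm_ring
      _ = _ := by rw [h2, add_zero]
  rw [h3]
  refine ⟨⟨soE_stab hE (h𝔥 hy) hu.1.1, ?_⟩, fun v hv => ?_⟩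
  · have hu2 := hu.1.2
    calc E o * (y * u - u * y) = E o * y * u - E o * u * y := by noncomm_ring
      _ = y * (E o * u) - E o * u * y := by rw [hyo, mul_assoc]
      _ = y * (-(u * E o)) - -(u * E o) * y := by rw [hu2]
      _ = -(y * u * E o) + u * (E o * y) := by noncomm_ring
      _ = -((y * u - u * y) * E o) := by rw [hyo]; noncomm_ring
  · have h4 := hu.2 v hv
    have h5 := hu.2 _ (Wo_stab hE o h𝔥 hy hyo hbr hv)
    calc v * (y * u - u * y) + (y * u - u * y) * v =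
        (y * (v * u + u * v) - (v * u + u * v) * y) - ((y * v - v * y) * u + u * (y * v - v * y)) := by noncomm_ring
      _ = 0 := by rw [h4, h5]; simp

/-- the radical is stable -/
theorem R_stab {x : Module.End ℂ U} (hx : x ∈ 𝔥) {r : Module.End ℂ U} (hr : r ∈ Wo E o 𝔥 ⊓ Uo E o 𝔥) :
    x * r - r * x ∈ Wo E o 𝔥 ⊓ Uo E o 𝔥 := by
  refine ⟨?_, Uo_stab hE o h𝔥 hbr hθ hx hr.2⟩
  obtain ⟨y, w, hy, hyo, hw, rfl⟩ := parts hE o h𝔥 hbr hθ hx
  have h1 := hr.2.2 w hw
  have h2 : E o * w * r - r * (E o * w) = 0 := by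
    have h3 : r * E o = -(E o * r) := by rw [hr.2.1.2, neg_neg]
    calc E o * w * r - r * (E o * w) = E o * (w * r) - r * E o * w := by noncomm_ring
      _ = E o * (w * r + r * w) := by rw [h3]; noncomm_ring
      _ = 0 := by rw [h1, mul_zero]
  have h3 : (y + E o * w) * r - r * (y + E o * w) = y * r - r * y := by
    calc (y + E o * w) * r - r * (y + E o * w) = (y * r - r * y) + (E o * w * r - r * (E o * w)) := by noncomm_ring
      _ = _ := by rw [h2, add_zero]
  rw [h3]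
  exact Wo_stab hE o h𝔥 hy hyo hbr hr.1

theorem case_A (gen : ∀ i j, E i * E j ∈ Algebra.adjoin ℂ (𝔥 : Set (Module.End ℂ U))) :
    Wo E o 𝔥 ⊓ Uo E o 𝔥 = ⊥ := by
  set R := Wo E o 𝔥 ⊓ Uo E o 𝔥 with hR
  have hanti : ∀ r ∈ R, ∀ r' ∈ R, r * r' + r' * r = 0 := fun r hr r' hr' => hr'.2.2 r hr.1
  let b := Module.finBasis ℂ R
  obtain ⟨s, hs, hk⟩ := common_ker (fun i => (b i : Module.End ℂ U)) fun i j => hanti _ (b i).2 _ (b j).2
  let S : Submodule ℂ U :=
    { carrier := {s | ∀ r ∈ R, r s = 0}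
      zero_mem' := fun r _ => map_zero r
      add_mem' := fun {a b} ha hb r hr => by rw [map_add, ha r hr, hb r hr, add_zero]
      smul_mem' := fun c a ha r hr => by rw [map_smul, ha r hr, smul_zero] }
  have hsS : s ∈ S := by
    intro r hr
    have h1 := b.sum_repr ⟨r, hr⟩
    have h2 := congrArg (fun y : R => (y : Module.End ℂ U) s) h1
    simp only [Submodule.coe_sum, Submodule.coe_smul, LinearMap.sum_apply, LinearMap.smul_apply] at h2
    rw [← h2]
    refine Finset.sum_eq_zero fun i _ => ?_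
    rw [hk i, smul_zero]
  have hst : ∀ x ∈ (𝔥 : Set (Module.End ℂ U)), ∀ t ∈ S, x t ∈ S := by
    intro x hx t ht r hr
    have h1 := R_stab hE o h𝔥 hbr hθ hx hr
    have h2 := ht _ h1
    have h3 : x (r t) - r (x t) = 0 := h2
    rw [ht r hr, map_zero, zero_sub, neg_eq_zero] at h3
    exact h3
  have hadj := kil_adj (𝔥 : Set (Module.End ℂ U)) S hst
  rw [eq_bot_iff]
  intro e he
  rw [Submodule.mem_bot]
  refine hE.clif.nondeg e he.1.1.1 ?_
  have key : ∀ j, bil e (E j) = 0 := by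
    intro j
    have h0 := Cl_anti2 hE j he.1.1.1
    have hs0 : e s = 0 := hsS e he
    by_cases hj : j = o
    · subst hj
      rw [he.1.1.2] at h0
      rw [add_neg_cancel] at h0
      have h1 := bil_one_inj (U := U) (a := 0) (b := bil e (E j)) (by rw [zero_smul, h0])
      exact h1.symm
    · have h1 := hadj _ (gen o j) s hsS e he
      have h2 : e * E o = -(E o * e) := by rw [he.1.1.2, neg_neg]
      have h3 : e ((E o * E j) s) = -(E o (e (E j s))) := by
        have h4 := LinearMap.congr_fun h2 (E j s)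
        exact h4
      rw [h3, neg_eq_zero] at h1
      have h5 : E o (E o (e (E j s))) = e (E j s) := LinearMap.congr_fun (hE.sq o) _
      rw [h1, map_zero] at h5
      have h6 := LinearMap.congr_fun h0 s
      have h7 : e (E j s) + E j (e s) = bil e (E j) • s := h6
      rw [← h5, hs0, map_zero, add_zero] at h7
      exact (smul_eq_zero.1 h7.symm).resolve_right hs
  intro w hw
  refine Submodule.span_induction (p := fun w _ => bil e w = 0) ?_ ?_ ?_ ?_ hw
  · rintro _ ⟨j, rfl⟩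
    exact key j
  · rw [bil_comm, Cl_bil_zero]
  · intro a b _ _ ha hb
    rw [bil_add_right, ha, hb, add_zero]
  · intro c a _ ha
    rw [bil_smul_right, ha, mul_zero]

omit h𝔥 hbr hθ in
/-- the decomposition of a vector -/
theorem vec_parts {v : Module.End ℂ U} (hv : v ∈ VE E) :
    ∃ v' ∈ Vo E o, ∃ c : ℂ, v = v' + c • E o := by
  have sq := hE.sq o
  have hE2 : E o ∈ VE E := Submodule.subset_span ⟨o, rfl⟩
  have h1 := Cl_anti3 hE hv hE2
  refine ⟨v - (2⁻¹ * bil v (E o)) • E o, ⟨sub_mem hv (Submodule.smul_mem _ _ hE2), ?_⟩, 2⁻¹ * bil v (E o), by abel⟩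
  have h2 : E o * v = bil v (E o) • (1 : Module.End ℂ U) - v * E o := by
    rw [← h1]; abel
  rw [mul_sub, h2, sub_mul, mul_smul_comm, smul_mul_assoc, sq]
  module

omit h𝔥 hbr hθ in
theorem Vo_nondeg {v : Module.End ℂ U} (hv : v ∈ Vo E o) (h : ∀ w ∈ Vo E o, bil v w = 0) : v = 0 := by
  refine hE.clif.nondeg v hv.1 fun w hw => ?_
  obtain ⟨w', hw', c, rfl⟩ := vec_parts hE o hw
  have h0 := Cl_anti2 hE o hv.1
  rw [hv.2, add_neg_cancel] at h0
  have h1 := bil_one_inj (U := U) (a := 0) (b := bil v (E o)) (by rw [zero_smul, h0])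
  rw [bil_add_right, bil_smul_right, h w' hw', ← h1, mul_zero, add_zero]

omit h𝔥 hbr hθ in
theorem ortho_iff {v w : Module.End ℂ U} (hv : v ∈ VE E) (hw : w ∈ VE E) : v * w + w * v = 0 ↔ bil v w = 0 := by
  rw [Cl_anti3 hE hv hw]
  constructor
  · intro h
    exact bil_one_inj (U := U) (by rw [h, zero_smul])
  · intro h
    rw [h, zero_smul]

omit h𝔥 hbr hθ in
theorem compl (hd : Wo E o 𝔥 ⊓ Uo E o 𝔥 = ⊥) : ∀ v ∈ Vo E o, ∃ w ∈ Wo E o 𝔥, ∃ u ∈ Uo E o 𝔥, v = w + u := by
  set B : LinearMap.BilinForm ℂ (Vo E o) := (BilB (U := U)).domRestrict₁₂ (Vo E o) (Vo E o) with hB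
  have hBa : ∀ x y : Vo E o, B x y = bil (x : Module.End ℂ U) (y : Module.End ℂ U) := fun x y => rfl
  have hrefl : B.IsRefl := fun x y h => by
    rw [hBa, bil_comm]
    exact h
  let W : Submodule ℂ (Vo E o) := (Wo E o 𝔥).comap (Vo E o).subtype
  have horth : ∀ v : Vo E o, v ∈ B.orthogonal W ↔ (v : Module.End ℂ U) ∈ Uo E o 𝔥 := by
    intro v
    rw [LinearMap.BilinForm.mem_orthogonal_iff]
    constructor
    · intro h
      refine ⟨v.2, fun w hw => ?_⟩
      have h1 := h ⟨w, hw.1⟩ hw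
      exact (ortho_iff hE hw.1.1 v.2.1).2 h1
    · intro h w hw
      exact (ortho_iff hE w.2.1 v.2.1).1 (h.2 w hw)
  have hdis : Disjoint W (B.orthogonal W) := by
    rw [disjoint_iff, eq_bot_iff]
    intro v hv
    have h1 : (v : Module.End ℂ U) ∈ Wo E o 𝔥 ⊓ Uo E o 𝔥 := ⟨hv.1, (horth v).1 hv.2⟩
    rw [hd, Submodule.mem_bot] at h1
    rw [Submodule.mem_bot]
    exact Subtype.ext h1
  have hc := (LinearMap.BilinForm.isCompl_orthogonal_iff_disjoint hrefl).2 hdis
  intro v hv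
  have h1 : (⟨v, hv⟩ : Vo E o) ∈ W ⊔ B.orthogonal W := by
    rw [hc.sup_eq_top]
    exact Submodule.mem_top
  obtain ⟨w, hw, u, hu, h2⟩ := Submodule.mem_sup.1 h1
  exact ⟨w, hw, u, (horth u).1 hu, (congrArg Subtype.val h2).symm⟩

theorem case_B (gen : ∀ i j, E i * E j ∈ Algebra.adjoin ℂ (𝔥 : Set (Module.End ℂ U)))
    (hd : Wo E o 𝔥 ⊓ Uo E o 𝔥 = ⊥) : Uo E o 𝔥 = ⊥ := by
  by_contra hne
  have hle : Uo E o 𝔥 ≤ VE E := fun u hu => hu.1.1
  obtain ⟨q, u, hu, hVu⟩ := exists_on hE (Uo E o 𝔥) hle (by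
    intro v hv h
    refine Vo_nondeg hE o hv.1 fun w hw => ?_
    obtain ⟨a, ha, b, hb, rfl⟩ := compl hE o hd w hw
    rw [bil_add_right, h b hb, add_zero, bil_comm]
    exact (ortho_iff hE ha.1.1 hv.1.1).1 (hv.2 a ha))
  have hq : ∃ i : Fin q, True := by
    by_contra hcon
    push Not at hcon
    apply hne
    rw [← hVu, eq_bot_iff]
    unfold VE
    rw [Submodule.span_le]
    rintro _ ⟨i, rfl⟩
    exact (hcon i).elim
  obtain ⟨i, -⟩ := hq
  have hcomm : ∀ x ∈ 𝔥, x * vol u = vol u * x := by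
    intro x hx
    refine vol_comm hu fun v hv => ?_
    rw [hVu] at hv ⊢
    exact Uo_stab hE o h𝔥 hbr hθ hx hv
  have hadj : ∀ x ∈ Algebra.adjoin ℂ (𝔥 : Set (Module.End ℂ U)), x * vol u = vol u * x := by
    intro x hx
    induction hx using Algebra.adjoin_induction with
    | mem x hx => exact hcomm x hx
    | algebraMap r => exact Algebra.commutes r _
    | add x y _ _ hx hy => rw [add_mul, mul_add, hx, hy]
    | mul x y _ _ hx hy => rw [mul_assoc, hy, ← mul_assoc, hx, mul_assoc]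
  have hui : u i ∈ Uo E o 𝔥 := by
    rw [← hVu]
    exact Submodule.subset_span ⟨i, rfl⟩
  have h1 := hadj _ (adjoin_mul 𝔥 gen (E o) (Submodule.subset_span ⟨o, rfl⟩) (u i) hui.1.1)
  have h2 := vol_move hu i
  have h3 := vol_anti (z := E o) (u := u) (fun j => by
    have h4 : u j ∈ Uo E o 𝔥 := by
      rw [← hVu]
      exact Submodule.subset_span ⟨j, rfl⟩
    exact h4.1.2)
  have h4 : ((-1 : ℂ) ^ q) * ((-1 : ℂ) ^ q) = 1 := by
    rw [← mul_pow]
    norm_num
  have h5 : E o * u i * vol u = -(vol u * (E o * u i)) := by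
    rw [mul_assoc, h2, mul_smul_comm, ← mul_assoc, h3, smul_mul_assoc, smul_smul, neg_mul, h4, neg_one_smul, mul_assoc]
  rw [h5] at h1
  have h6 : (2 : ℂ) • (vol u * (E o * u i)) = 0 := by
    rw [two_smul]
    nth_rewrite 1 [← h1]
    rw [neg_add_cancel]
  have h7 : vol u * (E o * u i) = 0 := (smul_eq_zero.1 h6).resolve_left two_ne_zero
  obtain ⟨c, hc, hsq⟩ := vol_sq hu
  have h8 : vol u * (vol u * (E o * u i)) = 0 := by rw [h7, mul_zero]
  rw [← mul_assoc, hsq, smul_mul_assoc, one_mul] at h8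
  have h9 : E o * u i = 0 := (smul_eq_zero.1 h8).resolve_left hc
  have h10 : E o * (E o * u i) * u i = 0 := by rw [h9, mul_zero, zero_mul]
  rw [← mul_assoc, hE.sq, one_mul, hu.sq] at h10
  exact one_ne_zero h10

/-- **A Lie algebra of skew endomorphisms which generates the even Clifford algebra and is stable under a reflection is the
whole orthogonal Lie algebra.** -/
theorem refl_main (gen : ∀ i j, E i * E j ∈ Algebra.adjoin ℂ (𝔥 : Set (Module.End ℂ U))) : soE E ≤ 𝔥 := by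
  have hd := case_A hE o h𝔥 hbr hθ gen
  have hU := case_B hE o h𝔥 hbr hθ gen hd
  have hW : ∀ j, j ≠ o → E o * E j ∈ 𝔥 := by
    intro j hj
    obtain ⟨w, hw, u, hu, h⟩ := compl hE o hd (E j) (E_mem_Vo hE hj)
    rw [hU, Submodule.mem_bot] at hu
    rw [hu, add_zero] at h
    rw [h]
    exact hw.2
  have hoo : ∀ j, j ≠ o → E j * E o ∈ 𝔥 := by
    intro j hj
    rw [hE.anti j o hj]
    exact neg_mem (hW j hj)
  refine Submodule.span_le.2 ?_
  rintro _ ⟨i, j, hij, rfl⟩
  by_cases hi : i = o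
  · subst hi
    exact hW j hij.symm
  by_cases hj : j = o
  · subst hj
    exact hoo i hi
  have h1 := hbr _ (hW i hi) _ (hW j hj)
  have h2 : E o * E i * (E o * E j) - E o * E j * (E o * E i) = (-2 : ℂ) • (E i * E j) := by
    have e1 : E i * E o = -(E o * E i) := hE.anti i o hi
    have e2 : E j * E o = -(E o * E j) := hE.anti j o hj
    calc E o * E i * (E o * E j) - E o * E j * (E o * E i)
        = E o * (E i * E o) * E j - E o * (E j * E o) * E i := by noncomm_ring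
      _ = -(E o * E o * (E i * E j)) + E o * E o * (E j * E i) := by rw [e1, e2]; noncomm_ring
      _ = -(E i * E j) + E j * E i := by rw [hE.sq, one_mul, one_mul]
      _ = _ := by
        rw [hE.anti j i (Ne.symm hij)]
        module
  rw [h2] at h1
  have h3 := Submodule.smul_mem 𝔥 (-2⁻¹ : ℂ) h1
  rw [smul_smul] at h3
  norm_num at h3
  exact h3

end lie

end Pool.Agent.H945.Rf
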