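import Pool.Agent.H945.Rf3

/-!
# Complex conjugation and the Lie algebra of the de Rham-Betti classes
-/

set_option autoImplicit false
set_option linter.unusedSectionVars false
set_option maxHeartbeats 1000000

open Module Function TensorProduct

noncomputable section

namespace Pool.Agent.H945.Rf

open Pool.Agent.Y102 Pool.Agent.W516.DR Pool.Agent.H204R3.GP Pool.Agent.W516.KC Pool.Agent.H204R3.SP

theorem alg_conj {z : ℂ} (h : IsAlgebraic ℚ z) : IsAlgebraic ℚ (starRingEnd ℂ z) := by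
  obtain ⟨p, hp, h1⟩ := h
  refine ⟨p, hp, ?_⟩
  have h2 := Polynomial.aeval_algHom_apply (Complex.conjAe.toAlgHom.restrictScalars ℚ) z p
  have h3 : (Complex.conjAe.toAlgHom.restrictScalars ℚ) z = starRingEnd ℂ z := rfl
  rw [h3] at h2
  rw [h2, h1, map_zero]

variable {g : ℕ} (A : AbVar g) (F : A.H1 ≃ₗ[ℚ] A.H1) {B : Fin g ⊕ Fin g → Fin g ⊕ Fin g → ℂ}
  (hB : ∀ i j, IsAlgebraic ℚ (B i j))
  (hF : ∀ i γ, starRingEnd ℂ (A.dR i γ) = ∑ j, B i j * A.dR j (F γ))

include hB hF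

/-- The image of a de Rham-Betti class under conjugation is a de Rham-Betti class. -/
theorem drb_conj {m : ℕ} {φ : MultilinearMap ℚ (fun _ : Fin m × Fin 2 => A.H1) ℚ}
    (h : IsDeRhamBettiForm QBar A.dR tau m φ) :
    IsDeRhamBettiForm QBar A.dR tau m (φ.compLinearMap fun _ => (F.symm : A.H1 →ₗ[ℚ] A.H1)) := by
  classical
  obtain ⟨a, ha⟩ := h
  have halg : ∀ J' : Fin m × Fin 2 → Fin g ⊕ Fin g, IsAlgebraic ℚ
      ((-1) ^ m * ∑ J, starRingEnd ℂ (algebraMap QBar ℂ (a J)) * ∏ l, B (J l) (J' l)) := by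
    intro J'
    have h1 : ((-1) ^ m * ∑ J, starRingEnd ℂ (algebraMap QBar ℂ (a J)) * ∏ l, B (J l) (J' l)) ∈
        algebraicClosure ℚ ℂ := by
      refine mul_mem (pow_mem (neg_mem (one_mem _)) _) (sum_mem fun J _ => mul_mem ?_ (prod_mem fun l _ => ?_))
      · exact mem_algebraicClosure_iff.2 (alg_conj (QBar.alg _))
      · exact mem_algebraicClosure_iff.2 (hB _ _)
    exact mem_algebraicClosure_iff.1 h1
  refine ⟨fun J' => ⟨_, mem_algebraicClosure_iff.2 (halg J')⟩, fun v => ?_⟩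
  have h1 := congrArg (starRingEnd ℂ) (ha fun l => F.symm (v l))
  have hτ : starRingEnd ℂ tau = -tau := by
    unfold tau
    rw [map_mul, map_mul, Complex.conj_I, Complex.conj_ofReal, mul_neg]
    rw [show (starRingEnd ℂ) (2 : ℂ) = 2 from map_ofNat (starRingEnd ℂ) 2]
  rw [map_mul, map_pow, hτ, map_sum] at h1
  have h2 : starRingEnd ℂ (algebraMap ℚ ℂ (φ fun l => F.symm (v l))) = algebraMap ℚ ℂ (φ fun l => F.symm (v l)) := by
    simp
  rw [h2] at h1
  have h3 : ∀ J : Fin m × Fin 2 → Fin g ⊕ Fin g, starRingEnd ℂ (algebraMap QBar ℂ (a J) * ∏ l, A.dR (J l) (F.symm (v l))) =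
      ∑ J' : Fin m × Fin 2 → Fin g ⊕ Fin g,
        starRingEnd ℂ (algebraMap QBar ℂ (a J)) * ((∏ l, B (J l) (J' l)) * ∏ l, A.dR (J' l) (v l)) := by
    intro J
    rw [map_mul, map_prod, ← Finset.mul_sum]
    congr 1
    have h4 : ∀ l, starRingEnd ℂ (A.dR (J l) (F.symm (v l))) = ∑ j, B (J l) j * A.dR j (v l) := by
      intro l
      rw [hF, LinearEquiv.apply_symm_apply]
    rw [Finset.prod_congr rfl fun l _ => h4 l, Finset.prod_univ_sum, Fintype.piFinset_univ]
    refine Finset.sum_congr rfl fun J' _ => ?_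
    rw [Finset.prod_mul_distrib]
  rw [Finset.sum_congr rfl fun J _ => h3 J, Finset.sum_comm] at h1
  have h5 : tau ^ m * algebraMap ℚ ℂ (φ fun l => F.symm (v l)) = (-1) ^ m * ((-tau) ^ m *
      algebraMap ℚ ℂ (φ fun l => F.symm (v l))) := by
    rw [← mul_assoc, ← mul_pow]
    congr 2
    ring
  show tau ^ m * algebraMap ℚ ℂ (φ fun l => F.symm (v l)) = _
  rw [h5, h1, Finset.mul_sum]
  refine Finset.sum_congr rfl fun J' _ => ?_
  show _ = ((-1) ^ m * ∑ J, starRingEnd ℂ (algebraMap QBar ℂ (a J)) * ∏ l, B (J l) (J' l)) * _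
  rw [mul_assoc, Finset.sum_mul]
  congr 1
  refine Finset.sum_congr rfl fun J _ => ?_
  ring

/-- The Lie algebra of the de Rham-Betti classes is normalised by conjugation. -/
theorem LA_conj {X : Module.End ℚ A.H1} (hX : X ∈ A.LA) :
    (F.symm : A.H1 →ₗ[ℚ] A.H1) ∘ₗ X ∘ₗ (F : A.H1 →ₗ[ℚ] A.H1) ∈ A.LA := by
  intro m φ hφ v
  have h1 := hX m _ (drb_conj A F hB hF hφ) fun k => F (v k)
  rw [← h1]
  refine Finset.sum_congr rfl fun k _ => ?_
  rw [MultilinearMap.compLinearMap_apply]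
  congr 1
  funext l
  by_cases hl : l = k
  · subst hl
    rw [update_self, update_self]
    rfl
  · rw [update_of_ne hl, update_of_ne hl]
    simp

/-- **The Lie algebra of the de Rham-Betti classes is everything** if conjugation is a reflection on each of the spaces of
vectors of dimension at least five. -/
theorem NA_le_LA {N k : ℕ} {E : Fin N → Matrix (Fin (2 * g)) (Fin (2 * g)) ℂ} {c : Fin N → Fin k}
    (hc : ∀ i, 5 ≤ (Finset.univ.filter fun j => c j = c i).card)
    (h1 : ∀ i, E i * E i = 1) (h2 : ∀ i j, i ≠ j → E i * E j = -(E j * E i))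
    (hl : Submodule.span ℂ {Y | ∃ X ∈ A.NA, Y = toC X} =
      Submodule.span ℂ {Y | ∃ i j, i ≠ j ∧ c i = c j ∧ Y = E i * E j})
    (ε : Fin N → ℂ) (hε1 : ∀ i, ε i * ε i = 1)
    (hε : ∀ i j, i ≠ j → c i = c j → toC (F : A.H1 →ₗ[ℚ] A.H1) * (E i * E j) =
      (ε i * ε j) • (E i * E j * toC (F : A.H1 →ₗ[ℚ] A.H1)))
    (href : ∀ s, (∃ i, c i = s) → ∃ o, c o = s ∧ ∀ i j, i ≠ j → c i = s → c j = s →
      ε i * ε j = if i = o ∨ j = o then -1 else 1) : A.NA ≤ A.LA := by
  intro X hX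
  have hful := A.full_LA
  refine mem_of_bc ?_
  rcases subsingleton_or_nontrivial (ℂ ⊗[ℚ] A.H1) with hs | hn
  · have : X.baseChange ℂ = 0 := by
      ext x
      exact Subsingleton.elim _ _
    rw [this]
    exact Submodule.zero_mem _
  · have hE : SP.CE fun i => matE (2 * g) (E i) := ⟨fun i => by
      rw [← map_mul, h1, map_one], fun i j hij => by
      rw [← map_mul, h2 i j hij, map_neg, map_mul]⟩
    have hl' : cx A.NA = SP.soC (fun i => matE (2 * g) (E i)) c := by
      rw [← map_lie, hl, Submodule.map_span]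
      unfold SP.soC
      congr 1
      ext Y
      constructor
      · rintro ⟨_, ⟨i, j, a, b, rfl⟩, rfl⟩
        exact ⟨i, j, a, b, map_mul (matE (2 * g)) _ _⟩
      · rintro ⟨i, j, a, b, rfl⟩
        exact ⟨_, ⟨i, j, a, b, rfl⟩, map_mul (matE (2 * g)) _ _⟩
    set f : Module.End ℂ (ℂ ⊗[ℚ] A.H1) := LinearMap.baseChange ℂ (F : A.H1 →ₗ[ℚ] A.H1) with hf
    set f' : Module.End ℂ (ℂ ⊗[ℚ] A.H1) := LinearMap.baseChange ℂ (F.symm : A.H1 →ₗ[ℚ] A.H1) with hf'
    have hff : f' * f = 1 := by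
      have h3 : f' * f = LinearMap.baseChange ℂ ((F.symm : A.H1 →ₗ[ℚ] A.H1) ∘ₗ (F : A.H1 →ₗ[ℚ] A.H1)) :=
        (LinearMap.baseChange_comp _ _).symm
      rw [h3]
      have h4 : (F.symm : A.H1 →ₗ[ℚ] A.H1) ∘ₗ (F : A.H1 →ₗ[ℚ] A.H1) = LinearMap.id := by
        ext x
        simp
      rw [h4, LinearMap.baseChange_id]
      rfl
    refine refl_col hE hc (cx A.LA) (hl' ▸ cx_mono hful.le) hful.cx_br' ?_
      (LinearMap.mulLeft ℂ f' ∘ₗ LinearMap.mulRight ℂ f) ?_ ε ?_ href (hl' ▸ bc_mem hX)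
    · intro i j hij
      by_cases h3 : i = j
      · subst h3
        rw [hE.sq]
        exact Subalgebra.one_mem _
      · refine hful.cx_adjoin _ ?_
        rw [hl']
        exact Submodule.subset_span ⟨i, j, h3, hij, rfl⟩
    · intro x hx
      refine Submodule.span_induction (p := fun x _ => (LinearMap.mulLeft ℂ f' ∘ₗ LinearMap.mulRight ℂ f) x ∈ cx A.LA)
        ?_ ?_ ?_ ?_ hx
      · rintro _ ⟨P, hP, rfl⟩
        have h3 : (LinearMap.mulLeft ℂ f' ∘ₗ LinearMap.mulRight ℂ f) (P.baseChange ℂ) =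
            LinearMap.baseChange ℂ ((F.symm : A.H1 →ₗ[ℚ] A.H1) ∘ₗ P ∘ₗ (F : A.H1 →ₗ[ℚ] A.H1)) := by
          rw [LinearMap.comp_apply, LinearMap.mulRight_apply, LinearMap.mulLeft_apply, LinearMap.baseChange_comp,
            LinearMap.baseChange_comp]
          rfl
        rw [h3]
        exact bc_mem (LA_conj A F hB hF hP)
      · rw [map_zero]
        exact zero_mem _
      · intro a b _ _ ha hb
        rw [map_add]
        exact add_mem ha hb
      · intro r a _ ha
        rw [map_smul]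
        exact Submodule.smul_mem _ _ ha
    · intro i j hij hcij
      have h3 := congrArg (matE (2 * g)) (hε i j hij hcij)
      have h7 : matE (2 * g) (toC (F : A.H1 →ₗ[ℚ] A.H1)) = f := matE_toC _
      rw [map_mul, map_smul, map_mul (matE (2 * g)) (E i * E j), h7, map_mul] at h3
      have h4 : f * (matE (2 * g) (E i) * matE (2 * g) (E j)) =
          (ε i * ε j) • (matE (2 * g) (E i) * matE (2 * g) (E j) * f) := h3
      have h5 : (ε i * ε j) * (ε i * ε j) = 1 := by
        rw [mul_mul_mul_comm, hε1, hε1, one_mul]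
      have h6 : matE (2 * g) (E i) * matE (2 * g) (E j) * f =
          (ε i * ε j) • (f * (matE (2 * g) (E i) * matE (2 * g) (E j))) := by
        rw [h4, smul_smul, h5, one_smul]
      rw [LinearMap.comp_apply, LinearMap.mulRight_apply, LinearMap.mulLeft_apply, h6, mul_smul_comm, ← mul_assoc,
        hff, one_mul]

end Pool.Agent.H945.Rf
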