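import Pool.Agent.H945.Rf4
import Pool.Graph.R_pool_sql_team_seeded_63374d34.N113.ME.Core

/-!
# Complex conjugation and the logarithmic derivatives of the periods
-/

set_option autoImplicit false
set_option linter.unusedSectionVars false
set_option maxHeartbeats 1000000

open Module Function TensorProduct

noncomputable section

namespace Pool.Agent.H945.Rf

open Pool.Agent.Y102 Pool.Agent.W516.DR Pool.Agent.H204R3.GP Pool.Agent.W516.KC Pool.Agent.H204R3.SP Pool.Agent.R917
  Pool.Agent.N208.AM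

/-- The conjugate of an algebraic number. -/
def qconj (a : QBar) : QBar := ⟨starRingEnd ℂ (algebraMap QBar ℂ a), mem_algebraicClosure_iff.2 (alg_conj (QBar.alg a))⟩

theorem qconj_eq (a : QBar) : algebraMap QBar ℂ (qconj a) = starRingEnd ℂ (algebraMap QBar ℂ a) := rfl

/-- The conjugate of a derivation. -/
def dconj (D : Derivation QBar ℂ ℂ) : Derivation QBar ℂ ℂ :=
  Derivation.mk' { toFun := fun z => starRingEnd ℂ (D (starRingEnd ℂ z))
                   map_add' := fun a b => by rw [map_add, map_add, map_add]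
                   map_smul' := fun a z => by
                    rw [RingHom.id_apply, Algebra.smul_def, map_mul, ← qconj_eq, ← Algebra.smul_def, Derivation.map_smul,
                      Algebra.smul_def, map_mul, qconj_eq, Complex.conj_conj, ← Algebra.smul_def] }
    fun a b => by
      show starRingEnd ℂ (D (starRingEnd ℂ (a * b))) = a • starRingEnd ℂ (D (starRingEnd ℂ b)) +
        b • starRingEnd ℂ (D (starRingEnd ℂ a))
      rw [map_mul, Derivation.leibniz, map_add, smul_eq_mul, smul_eq_mul, map_mul, map_mul, Complex.conj_conj,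
        Complex.conj_conj, smul_eq_mul, smul_eq_mul]

theorem dconj_apply (D : Derivation QBar ℂ ℂ) (z : ℂ) : dconj D z = starRingEnd ℂ (D (starRingEnd ℂ z)) := rfl

/-- The composition of a linear function with conjugation. -/
def lconj (lam : ℂ →ₗ[ℚ] ℚ) : ℂ →ₗ[ℚ] ℚ := lam ∘ₗ ((Complex.conjAe.toLinearMap).restrictScalars ℚ)

theorem lconj_apply (lam : ℂ →ₗ[ℚ] ℚ) (z : ℂ) : lconj lam z = lam (starRingEnd ℂ z) := rfl

theorem conj_tau : starRingEnd ℂ tau = -tau := by
  unfold tau
  rw [map_mul, map_mul, Complex.conj_I, Complex.conj_ofReal, mul_neg]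
  rw [show (starRingEnd ℂ) (2 : ℂ) = 2 from map_ofNat (starRingEnd ℂ) 2]

variable {g : ℕ} (A : AbVar g) (F : A.H1 ≃ₗ[ℚ] A.H1) {B : Fin g ⊕ Fin g → Fin g ⊕ Fin g → ℂ}
  (hB : ∀ i j, IsAlgebraic ℚ (B i j))
  (hF : ∀ i γ, starRingEnd ℂ (A.dR i γ) = ∑ j, B i j * A.dR j (F γ))

include hB hF

/-- The logarithmic derivative for the conjugate derivation. -/
theorem XX_conj (D : Derivation QBar ℂ ℂ) (v : A.H1) : XX A.basis (dconj D) ((1 : ℂ) ⊗ₜ[ℚ] v) =
    ∑ m, starRingEnd ℂ (qc A D (F v) m) ⊗ₜ[ℚ] F.symm (A.bas m) := by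
  have hB' : ∀ j i, ∀ z : ℂ, D (B j i * z) = B j i * D z := by
    intro j i z
    have h1 : B j i * z = (⟨B j i, mem_algebraicClosure_iff.2 (hB j i)⟩ : QBar) • z := by
      rw [Algebra.smul_def]
      rfl
    rw [h1, Derivation.map_smul, Algebra.smul_def]
    rfl
  refine ext_etaL A.basis fun j => ?_
  rw [etaL_XX_one, A.coe_basis, dconj_apply, hF, map_sum, map_sum, map_sum]
  have h1 : ∀ m, etaL A.basis j (starRingEnd ℂ (qc A D (F v) m) ⊗ₜ[ℚ] F.symm (A.bas m)) =
      ∑ i, starRingEnd ℂ (B j i) * (starRingEnd ℂ (qc A D (F v) m) * starRingEnd ℂ (A.dR i (A.bas m))) := by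
    intro m
    rw [etaL_tmul, A.coe_basis]
    have h2 := congrArg (starRingEnd ℂ) (hF j (F.symm (A.bas m)))
    rw [Complex.conj_conj, map_sum, LinearEquiv.apply_symm_apply] at h2
    rw [h2, Finset.mul_sum]
    refine Finset.sum_congr rfl fun i _ => ?_
    rw [map_mul]
    ring
  rw [Finset.sum_congr rfl fun m _ => h1 m, Finset.sum_comm]
  refine Finset.sum_congr rfl fun i _ => ?_
  rw [hB', der_qc, map_mul, map_sum, Finset.mul_sum]
  refine Finset.sum_congr rfl fun m _ => ?_
  rw [map_mul]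

/-- **The components of the logarithmic derivatives are permuted by conjugation.** -/
theorem X0_conj (D : Derivation QBar ℂ ℂ) (lam : ℂ →ₗ[ℚ] ℚ) :
    (F.symm : A.H1 →ₗ[ℚ] A.H1) ∘ₗ (X0 A.basis tau D lam) ∘ₗ (F : A.H1 →ₗ[ℚ] A.H1) =
      X0 A.basis tau (dconj D) (lconj lam) := by
  refine LinearMap.ext fun v => ?_
  show F.symm (X0 A.basis tau D lam (F v)) = _
  rw [X0_apply, X0_apply, XX_conj A F hB hF, XX_qc, map_sub, map_sum, map_sum, map_smul, LinearEquiv.symm_apply_apply,
    map_sum]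
  congr 1
  · refine Finset.sum_congr rfl fun m _ => ?_
    rw [cmp_tmul, cmp_tmul, lconj_apply, Complex.conj_conj, map_smul]
  · congr 1
    have e1 : starRingEnd ℂ (dconj D tau / (2 * tau)) = D tau / (2 * tau) := by
      rw [dconj_apply, conj_tau, D.map_neg, map_neg, map_div₀, map_neg, Complex.conj_conj,
        map_mul (starRingEnd ℂ) 2 tau, conj_tau, show (starRingEnd ℂ) (2 : ℂ) = 2 from map_ofNat (starRingEnd ℂ) 2]
      ring
    rw [lconj_apply, e1]

end Pool.Agent.H945.Rf
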