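import Pool.Graph.R_pool_sql_team_seeded_9f66d723.W5h25.AS.StepA

/-!
# Irreducible symplectic subspaces of dimension four and a symmetric operator which normalises the Lie algebra

The third symmetric power for `sl(2)` is excluded.
-/

set_option autoImplicit false
set_option linter.unusedSectionVars false
set_option linter.unusedVariables false
set_option linter.unusedSimpArgs false
set_option maxHeartbeats 1000000

open Module Pool.Agent.R912 Pool.Agent.R912.Q Pool.Agent.Y102.SP Pool.Agent.W5h25.AS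

namespace Pool.Agent.H945.Sf

attribute [local instance 100] LieRing.ofAssociativeRing

variable {U : Type} [AddCommGroup U] [Module ℂ U] [FiniteDimensional ℂ U]
  {T : Type} [AddCommGroup T] [Module ℂ T] {L : Submodule ℂ (Module.End ℂ U)}

theorem mem_span4 {a b c d u : U} (h : u ∈ Submodule.span ℂ ({a, b, c, d} : Set U)) :
    ∃ p q r s : ℂ, u = p • a + q • b + r • c + s • d := by
  rw [Submodule.mem_span_insert] at h
  obtain ⟨p, z, hz, rfl⟩ := h
  rw [Submodule.mem_span_insert] at hz
  obtain ⟨q, z, hz, rfl⟩ := hz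
  rw [Submodule.mem_span_insert] at hz
  obtain ⟨r, z, hz, rfl⟩ := hz
  rw [Submodule.mem_span_singleton] at hz
  obtain ⟨s, rfl⟩ := hz
  exact ⟨p, q, r, s, by module⟩

section Sym

variable {S : RS L T} {N : Submodule ℂ U} {ω : U →ₗ[ℂ] U →ₗ[ℂ] ℂ}
  {φ : Module.Dual ℂ T →ₗ[ℚ] ℚ} {lam mu : Module.Dual ℂ T} {a b c d : U}

/-- A symmetric operator on a symplectic space of dimension four is a root of a polynomial of degree two. -/
theorem sym_quadratic (al : ∀ u v, ω u v = -ω v u) (W : W4 S ω N φ lam mu a b c d) {w : Module.End ℂ U}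
    (hN : ∀ u ∈ N, w u ∈ N) (hw : ∀ u v, ω (w u) v = ω u (w v)) :
    ∃ p q : ℂ, ∀ u ∈ N, w (w u) = p • w u + q • u := by
  have zz : ∀ u, ω u u = 0 := fun u => by
    have := al u u
    linear_combination (1 / 2) * this
  have wz : ∀ u, ω (w u) u = 0 := fun u => by
    have h1 := hw u u
    rw [al u (w u)] at h1
    linear_combination (1 / 2) * h1
  have hda : ω d a = -ω a d := al d a
  have hcb : ω c b = -ω b c := al c b
  have hba : ω b a = 0 := by rw [al, W.ab, neg_zero]
  have hca : ω c a = 0 := by rw [al, W.ac, neg_zero]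
  have hdb : ω d b = 0 := by rw [al, W.bd, neg_zero]
  have hdc : ω d c = 0 := by rw [al, W.cd, neg_zero]
  have had := W.ad
  have hbc := W.bc
  obtain ⟨a1, a2, a3, a4, ha⟩ := mem_span4 (W.span (hN a W.ma))
  obtain ⟨b1, b2, b3, b4, hb⟩ := mem_span4 (W.span (hN b W.mb))
  obtain ⟨c1, c2, c3, c4, hc⟩ := mem_span4 (W.span (hN c W.mc))
  obtain ⟨d1, d2, d3, d4, hd⟩ := mem_span4 (W.span (hN d W.md))
  have e1 := wz a
  have e2 := wz b
  have e3 := wz c
  have e4 := wz d
  have e5 := hw a b
  have e6 := hw a c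
  have e7 := hw a d
  have e8 := hw b c
  have e9 := hw b d
  have e10 := hw c d
  simp only [ha, hb, hc, hd, map_add, map_smul, LinearMap.add_apply, LinearMap.smul_apply, smul_eq_mul, zz, hda, hcb,
    hba, hca, hdb, hdc, W.ab, W.ac, W.bd, W.cd, mul_zero, add_zero, zero_add] at e1 e2 e3 e4 e5 e6 e7 e8 e9 e10
  have a4z : a4 = 0 := by
    have : a4 * ω a d = 0 := by linear_combination -e1
    exact (mul_eq_zero.1 this).resolve_right had
  have b3z : b3 = 0 := by
    have : b3 * ω b c = 0 := by linear_combination -e2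
    exact (mul_eq_zero.1 this).resolve_right hbc
  have c2z : c2 = 0 := (mul_eq_zero.1 e3).resolve_right hbc
  have d1z : d1 = 0 := (mul_eq_zero.1 e4).resolve_right had
  have h14 : a1 = d4 := mul_right_cancel₀ had e7
  have h23 : b2 = c3 := mul_right_cancel₀ hbc e8
  obtain ⟨k, hk⟩ : ∃ k, ω a d = k * ω b c := ⟨ω a d / ω b c, by field_simp⟩
  have hk0 : k ≠ 0 := by
    rintro rfl
    rw [zero_mul] at hk
    exact had hk
  have h1 : a3 = -(k * b4) := by
    refine mul_right_cancel₀ hbc ?_
    rw [hk] at e5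
    linear_combination -e5
  have h2 : a2 = k * c4 := by
    refine mul_right_cancel₀ hbc ?_
    rw [hk] at e6
    linear_combination e6
  have h3 : d3 = k * b1 := by
    refine mul_right_cancel₀ hbc ?_
    rw [hk] at e9
    linear_combination -e9
  have h4 : d2 = -(k * c1) := by
    refine mul_right_cancel₀ hbc ?_
    rw [hk] at e10
    linear_combination e10
  subst a4z b3z c2z d1z h14 h23 h1 h2 h3 h4
  refine ⟨a1 + b2, k * c4 * b1 - k * b4 * c1 - a1 * b2, fun u hu => ?_⟩
  obtain ⟨p, q, r, s, rfl⟩ := mem_span4 (W.span hu)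
  simp only [ha, hb, hc, hd, map_add, map_smul]
  module

/-- The action of the Lie algebra in the case of the third symmetric power. -/
theorem act_of_I (W : W4 S ω N φ lam mu a b c d) (hm : mu + mu ∈ S.R.Φ) (hl : lam = mu + mu + mu)
    {x : Module.End ℂ U} (hx : x ∈ L) : ∃ p q r : ℂ, ∀ u ∈ N, x u = p • S.ι (S.h (mu + mu)) u + q • S.e (mu + mu) u +
      r • S.e (-(mu + mu)) u := by
  have hNs : Stab L N := W.irr.stab
  have hmm : S.R.pr (mu + mu) mu = 1 := by
    have := S.R.two _ hm
    rw [map_add] at this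
    linarith
  have hW : ∀ χ ∈ wts S N, χ = lam ∨ χ = mu ∨ χ = -mu ∨ χ = -lam := by
    intro χ hχ
    rw [W.w] at hχ
    simpa only [Set.mem_insert_iff, Set.mem_singleton_iff] using hχ
  have hq : ∀ χ ∈ wts S N, ∃ q : ℚ, χ = q • (mu + mu) := by
    intro χ hχ
    rcases hW χ hχ with rfl | rfl | rfl | rfl
    · exact ⟨3 / 2, by rw [hl]; module⟩
    · exact ⟨1 / 2, by module⟩
    · exact ⟨-1 / 2, by module⟩
    · exact ⟨-3 / 2, by rw [hl]; module⟩
  -- the Cartan part
  have hmu : mu ∈ wts S N := by rw [W.w]; simp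
  have hmh : mu (S.h (mu + mu)) = 1 := by
    rw [pr_eq hm hmu, hmm]
    norm_num
  have hT : ∀ t, ∀ u ∈ N, S.ι t u = mu t • S.ι (S.h (mu + mu)) u := by
    intro t u hu
    obtain ⟨p, q, r, s, rfl⟩ := mem_span4 (W.span hu)
    simp only [map_add, map_smul, W.wa _, W.wb _, W.wc _, W.wd _, LinearMap.neg_apply, hl, LinearMap.add_apply, hmh]
    module
  have key : x ∈ LinearMap.range S.ι ⊔ Submodule.span ℂ (S.e '' S.R.Φ) := S.span hx
  obtain ⟨y, hy, z, hz, rfl⟩ := Submodule.mem_sup.1 key
  obtain ⟨t, rfl⟩ := hy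
  have hz' : ∃ q r : ℂ, ∀ u ∈ N, z u = q • S.e (mu + mu) u + r • S.e (-(mu + mu)) u := by
    clear hx key
    induction hz using Submodule.span_induction with
    | mem z hz =>
      obtain ⟨γ, hγ, rfl⟩ := hz
      by_cases ha : Act S γ N
      · rcases rank_one hNs hm hq hγ ha with rfl | rfl
        · exact ⟨1, 0, fun u _ => by rw [one_smul, zero_smul, add_zero]⟩
        · exact ⟨0, 1, fun u _ => by rw [one_smul, zero_smul, zero_add]⟩
      · exact ⟨0, 0, fun u hu => by rw [(kill_of_not_act W.irr hγ ha u hu).1, zero_smul, zero_smul, add_zero]⟩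
    | zero => exact ⟨0, 0, fun u _ => by simp⟩
    | add y z _ _ hy hz =>
      obtain ⟨q, r, h⟩ := hy
      obtain ⟨q', r', h'⟩ := hz
      exact ⟨q + q', r + r', fun u hu => by rw [LinearMap.add_apply, h u hu, h' u hu]; module⟩
    | smul k z _ hz =>
      obtain ⟨q, r, h⟩ := hz
      exact ⟨k * q, k * r, fun u hu => by rw [LinearMap.smul_apply, h u hu]; module⟩
  obtain ⟨q, r, h⟩ := hz'
  exact ⟨mu t, q, r, fun u hu => by rw [LinearMap.add_apply, hT t u hu, h u hu, add_assoc]⟩

/-- An element whose square is a scalar acts as zero. -/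
theorem zero_of_sq (al : ∀ u v, ω u v = -ω v u) (W : W4 S ω N φ lam mu a b c d) (hm : mu + mu ∈ S.R.Φ)
    (hl : lam = mu + mu + mu) {x : Module.End ℂ U} (hx : x ∈ L) {k : ℂ} (hk : ∀ u ∈ N, x (x u) = k • u) :
    ∀ u ∈ N, x u = 0 := by
  have zz : ∀ u, ω u u = 0 := fun u => by
    have := al u u
    linear_combination (1 / 2) * this
  have hNs : Stab L N := W.irr.stab
  have hn := S.R.neg _ hm
  have hmm : S.R.pr (mu + mu) mu = 1 := by
    have := S.R.two _ hm
    rw [map_add] at this
    linarith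
  have hmu : mu ∈ wts S N := by rw [W.w]; simp
  have hmh : mu (S.h (mu + mu)) = 1 := by
    rw [pr_eq hm hmu, hmm]
    norm_num
  obtain ⟨p, q, r, h⟩ := act_of_I W hm hl hx
  -- raising and lowering
  have hp := W.pos
  have hlt := W.lt
  have hW : ∀ χ ∈ wts S N, χ = lam ∨ χ = mu ∨ χ = -mu ∨ χ = -lam := by
    intro χ hχ
    rw [W.w] at hχ
    simpa only [Set.mem_insert_iff, Set.mem_singleton_iff] using hχ
  obtain ⟨e1, h1⟩ := W.sa _ (hNs _ (S.emem _ hm) _ W.mb) (wt_mem hm W.wb (by rw [hl]))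
  obtain ⟨e2, h2⟩ := W.sb _ (hNs _ (S.emem _ hm) _ W.mc) (wt_mem hm W.wc (by abel))
  obtain ⟨e3, h3⟩ := W.sc _ (hNs _ (S.emem _ hm) _ W.md) (wt_mem hm W.wd (by rw [hl]; abel))
  obtain ⟨f1, k1⟩ := W.sb _ (hNs _ (S.emem _ hn) _ W.ma) (wt_mem hn W.wa (by rw [hl]; abel))
  obtain ⟨f2, k2⟩ := W.sc _ (hNs _ (S.emem _ hn) _ W.mb) (wt_mem hn W.wb (by abel))
  obtain ⟨f3, k3⟩ := W.sd _ (hNs _ (S.emem _ hn) _ W.mc) (wt_mem hn W.wc (by rw [hl]; abel))
  have he : e3 ≠ 0 ∧ e2 ≠ 0 ∧ e1 ≠ 0 := by
    have h4 := S.uinj hn W.wd W.d0 (n := 3) (by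
      rw [S.R.pneg _ hm, hl, map_neg, map_add, map_add, hmm]; norm_num) (k := 3) le_rfl
    rw [neg_neg] at h4
    have h5 : ((S.e (mu + mu)) ^ 3) d = S.e (mu + mu) (S.e (mu + mu) (S.e (mu + mu) d)) := by
      rw [pow_succ, pow_succ, pow_one]; rfl
    rw [h5, h3, map_smul, h2, map_smul, map_smul, h1, smul_smul, smul_smul] at h4
    refine ⟨?_, ?_, ?_⟩ <;> rintro rfl <;> simp at h4
  have hf : f1 ≠ 0 ∧ f2 ≠ 0 ∧ f3 ≠ 0 := by
    have h4 := S.uinj hm W.wa W.a0 (n := 3) (by
      rw [hl, map_add, map_add, hmm]; norm_num) (k := 3) le_rfl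
    have h5 : ((S.e (-(mu + mu))) ^ 3) a =
        S.e (-(mu + mu)) (S.e (-(mu + mu)) (S.e (-(mu + mu)) a)) := by
      rw [pow_succ, pow_succ, pow_one]; rfl
    rw [h5, k1, map_smul, k2, map_smul, map_smul, k3, smul_smul, smul_smul] at h4
    refine ⟨?_, ?_, ?_⟩ <;> rintro rfl <;> simp at h4
  have ea : S.e (mu + mu) a = 0 := by
    refine zero_of hNs hm W.ma W.wa ?_
    intro hχ
    rcases hW _ hχ with h5 | h5 | h5 | h5 <;>
    · have h6 := congrArg φ h5
      simp only [map_add, map_neg, hl] at h6 hlt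
      linarith
  have fd : S.e (-(mu + mu)) d = 0 := by
    refine zero_of hNs hn W.md W.wd ?_
    intro hχ
    rcases hW _ hχ with h5 | h5 | h5 | h5 <;>
    · have h6 := congrArg φ h5
      simp only [map_add, map_neg, hl] at h6 hlt
      linarith
  have ha : S.ι (S.h (mu + mu)) a = (3 : ℂ) • a := by
    rw [W.wa, hl, LinearMap.add_apply, LinearMap.add_apply, hmh]
    norm_num
  have hb : S.ι (S.h (mu + mu)) b = b := by rw [W.wb, hmh, one_smul]
  have hc : S.ι (S.h (mu + mu)) c = -c := by rw [W.wc, LinearMap.neg_apply, hmh, neg_one_smul]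
  have hd : S.ι (S.h (mu + mu)) d = (-3 : ℂ) • d := by
    rw [W.wd, hl, LinearMap.neg_apply, LinearMap.add_apply, LinearMap.add_apply, hmh]
    norm_num
  have xa : x a = (3 * p) • a + (r * f1) • b := by
    rw [h a W.ma, ha, ea, k1]
    module
  have xb : x b = (q * e1) • a + p • b + (r * f2) • c := by
    rw [h b W.mb, hb, h1, k2]
    module
  have xc : x c = (q * e2) • b + (-p) • c + (r * f3) • d := by
    rw [h c W.mc, hc, h2, k3]
    module
  have xd : x d = (q * e3) • c + (-(3 * p)) • d := by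
    rw [h d W.md, hd, h3, fd]
    module
  have hba : ω b a = 0 := by rw [al, W.ab, neg_zero]
  have hca : ω c a = 0 := by rw [al, W.ac, neg_zero]
  have hdb : ω d b = 0 := by rw [al, W.bd, neg_zero]
  have hdc : ω d c = 0 := by rw [al, W.cd, neg_zero]
  have hq : q = 0 := by
    have h6 := congrArg (fun v => ω v d) (hk c W.mc)
    simp only [xc, xa, xb, xd, map_add, map_smul, LinearMap.add_apply, LinearMap.smul_apply, smul_eq_mul, zz, W.ab,
      W.ac, W.bd, W.cd, mul_zero, add_zero, zero_add] at h6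
    have h7 : q * q * (e2 * e1 * ω a d) = 0 := by linear_combination h6
    have h8 := (mul_eq_zero.1 h7).resolve_right (mul_ne_zero (mul_ne_zero he.2.1 he.2.2) W.ad)
    exact mul_self_eq_zero.1 h8
  have hr : r = 0 := by
    have h6 := congrArg (fun v => ω a v) (hk b W.mb)
    simp only [xc, xa, xb, xd, map_add, map_smul, LinearMap.add_apply, LinearMap.smul_apply, smul_eq_mul, zz, W.ab,
      W.ac, W.bd, W.cd, mul_zero, add_zero, zero_add] at h6
    have h7 : r * r * (f2 * f3 * ω a d) = 0 := by linear_combination h6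
    have h8 := (mul_eq_zero.1 h7).resolve_right (mul_ne_zero (mul_ne_zero hf.2.1 hf.2.2) W.ad)
    exact mul_self_eq_zero.1 h8
  subst hq hr
  have hp0 : p = 0 := by
    have h6 := congrArg (fun v => ω v d) (hk a W.ma)
    have h7 := congrArg (fun v => ω v c) (hk b W.mb)
    simp only [xc, xa, xb, xd, map_add, map_smul, LinearMap.add_apply, LinearMap.smul_apply, smul_eq_mul, zz, W.ab,
      W.ac, W.bd, W.cd, mul_zero, add_zero, zero_add, zero_mul] at h6 h7
    have h8 : 9 * (p * p) = k := mul_right_cancel₀ W.ad (by linear_combination h6)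
    have h9 : p * p = k := mul_right_cancel₀ W.bc (by linear_combination h7)
    have h10 : p * p = 0 := by linear_combination (1 / 8) * h8 - (1 / 8) * h9
    exact mul_self_eq_zero.1 h10
  subst hp0
  intro u hu
  rw [h u hu, zero_smul, zero_smul, zero_smul, add_zero, add_zero]

/-- **The third symmetric power is excluded** by a symmetric operator, not a scalar and with a scalar square, which
normalises the restriction of a subalgebra which is still irreducible. -/
theorem not_I (al : ∀ u v, ω u v = -ω v u) (sk : ∀ x ∈ L, ∀ u v, ω (x u) v + ω u (x v) = 0)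
    (W : W4 S ω N φ lam mu a b c d) (hm : mu + mu ∈ S.R.Φ) (hl : lam = mu + mu + mu)
    {L' : Submodule ℂ (Module.End ℂ U)} (hL' : L' ≤ L) (hirr : IrrSub L' N) {f : Module.End ℂ U}
    (hfN : ∀ u ∈ N, f u ∈ N) (hfs : ∀ u v, ω (f u) v = ω u (f v)) {r : ℂ} (hr : r ≠ 0)
    (hf2 : ∀ u ∈ N, f (f u) = r • u) (hns : ∀ s : ℂ, ¬ ∀ u ∈ N, f u = s • u)
    (hc : ∀ x ∈ L', ∃ y ∈ L', x * f = f * y ∧ y * f = f * x) : False := by
  have hfinj : ∀ u ∈ N, f u = 0 → u = 0 := by
    intro u hu h
    have h1 := hf2 u hu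
    rw [h, map_zero] at h1
    exact (smul_eq_zero.1 h1.symm).resolve_left hr
  have hcomm : ∀ x ∈ L', ∀ u ∈ N, x (f u) = f (x u) := by
    intro x hx
    obtain ⟨y, hy, h1, h2⟩ := hc x hx
    have hz : x - y ∈ L' := L'.sub_mem hx hy
    have hzf : ∀ u, f ((x - y) u) = -((x - y) (f u)) := by
      intro u
      have h3 := LinearMap.congr_fun h1 u
      have h4 := LinearMap.congr_fun h2 u
      rw [Module.End.mul_apply, Module.End.mul_apply] at h3 h4
      rw [LinearMap.sub_apply, LinearMap.sub_apply, map_sub, ← h3, ← h4]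
      abel
    have hzN : ∀ u ∈ N, (x - y) u ∈ N := fun u hu => hirr.stab _ hz u hu
    set z := x - y with hzdef
    have hzL : z ∈ L := hL' hz
    -- the symmetric operator f z
    have hws : ∀ u v, ω ((f * z) u) v = ω u ((f * z) v) := by
      intro u v
      rw [Module.End.mul_apply, Module.End.mul_apply, hfs, hzf v]
      have h3 := sk z hzL u (f v)
      rw [map_neg]
      linear_combination h3
    obtain ⟨p, q, hpq⟩ := sym_quadratic (w := f * z) al W (fun u hu => hfN _ (hzN u hu)) hws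
    have hzz : ∃ k : ℂ, ∀ u ∈ N, z (z u) = k • u := by
      have hsq : ∀ u ∈ N, (f * z) ((f * z) u) = -(r • z (z u)) := by
        intro u hu
        have h4 := hzf (z u)
        rw [Module.End.mul_apply, Module.End.mul_apply]
        have h5 : z (f (z u)) = -f (z (z u)) := by rw [h4, neg_neg]
        rw [h5, map_neg, hf2 _ (hzN _ (hzN u hu))]
      have hanti : ∀ u, f ((f * z) u) = -((f * z) (f u)) := by
        intro u
        rw [Module.End.mul_apply, Module.End.mul_apply, hzf u, map_neg]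
      have key : ∀ u ∈ N, p • (f * z) u = 0 := by
        intro u hu
        have h4 := congrArg f (hpq u hu)
        have h5 := hpq (f u) (hfN u hu)
        have h6 : f ((f * z) ((f * z) u)) = (f * z) ((f * z) (f u)) := by
          have h7 : (f * z) (f u) = -f ((f * z) u) := by rw [hanti, neg_neg]
          rw [hanti, h7, map_neg]
        rw [map_add, map_smul, map_smul, h6, h5, hanti] at h4
        have h7 : (2 * p) • (f * z) (f u) = 0 := by
          have h8 : p • (f * z) (f u) = p • -(f * z) (f u) := by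
            have := h4
            exact add_right_cancel this
          rw [mul_smul, two_smul]
          nth_rewrite 1 [h8]
          rw [smul_neg, neg_add_cancel]
        have h8 : (f * z) (f u) = -f ((f * z) u) := by rw [hanti, neg_neg]
        rw [h8, smul_neg, neg_eq_zero, ← map_smul] at h7
        have h9 := hfinj _ (N.smul_mem _ (hfN _ (hzN u hu))) h7
        rw [mul_smul] at h9
        exact (smul_eq_zero.1 h9).resolve_left (by norm_num)
      refine ⟨-(r⁻¹ * q), fun u hu => ?_⟩
      have h4 := hpq u hu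
      rw [key u hu, zero_add, hsq u hu] at h4
      have h5 : z (z u) = r⁻¹ • (r • z (z u)) := by rw [smul_smul, inv_mul_cancel₀ hr, one_smul]
      rw [h5, neg_eq_iff_eq_neg.1 h4]
      module
    obtain ⟨k, hk⟩ := hzz
    have h0 := zero_of_sq al W hm hl hzL hk
    intro u hu
    have h3 := LinearMap.congr_fun h1 u
    rw [Module.End.mul_apply, Module.End.mul_apply] at h3
    have h4 := h0 u hu
    rw [hzdef, LinearMap.sub_apply, sub_eq_zero] at h4
    rw [h3, h4]
  -- Schur
  obtain ⟨s, hs⟩ : ∃ s : ℂ, s * s = r := by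
    obtain ⟨s, hs⟩ := IsAlgClosed.exists_pow_nat_eq r (n := 2) (by norm_num)
    exact ⟨s, by rw [← hs, pow_two]⟩
  let P : Submodule ℂ U :=
    { carrier := {u | u ∈ N ∧ f u = s • u}
      zero_mem' := ⟨N.zero_mem, by rw [map_zero, smul_zero]⟩
      add_mem' := fun {u v} hu hv => ⟨N.add_mem hu.1 hv.1, by rw [map_add, hu.2, hv.2, smul_add]⟩
      smul_mem' := fun t u hu => ⟨N.smul_mem t hu.1, by rw [map_smul, hu.2, smul_comm]⟩ }
  by_cases hP : P = ⊥
  · refine hns (-s) fun u hu => ?_
    have h1 : f u + s • u ∈ P := by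
      refine ⟨N.add_mem (hfN u hu) (N.smul_mem s hu), ?_⟩
      rw [map_add, map_smul, hf2 u hu, ← hs]
      module
    rw [hP, Submodule.mem_bot] at h1
    rw [neg_smul]
    exact eq_neg_of_add_eq_zero_left h1
  · have h1 := hirr.irr P (fun u hu => hu.1) (fun x hx u hu => ⟨hirr.stab x hx u hu.1, by
      rw [← hcomm x hx u hu.1, hu.2, map_smul]⟩) hP
    refine hns s fun u hu => ?_
    rw [← h1] at hu
    exact hu.2

end Sym

end Pool.Agent.H945.Sf
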