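import Pool.Agent.H945.Sf1
import Pool.Graph.R_pool_sql_team_seeded_9f66d723.W5h25.AS.Main

/-!
# The Lie algebra contains the Lefschetz Lie algebra if the third symmetric power is excluded
-/

set_option autoImplicit false
set_option linter.unusedSectionVars false
set_option linter.unusedVariables false
set_option linter.unusedSimpArgs false
set_option maxHeartbeats 1000000

open Module Pool.Agent.R912 Pool.Agent.R912.Q Pool.Agent.Y102.SP Pool.Agent.W5h25.AS

namespace Pool.Agent.H945.Sf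

attribute [local instance 100] LieRing.ofAssociativeRing

variable {U : Type} [AddCommGroup U] [Module ℂ U] [FiniteDimensional ℂ U]
  {T : Type} [AddCommGroup T] [Module ℂ T] {L : Submodule ℂ (Module.End ℂ U)}
  {ω : U →ₗ[ℂ] U →ₗ[ℂ] ℂ}

/-- A symmetric operator which is not a scalar, has a scalar square and normalises a subalgebra, on the irreducible
subspaces of dimension four. -/
def Excl (L : Submodule ℂ (Module.End ℂ U)) (ω : U →ₗ[ℂ] U →ₗ[ℂ] ℂ) : Prop :=
  ∀ N : Submodule ℂ U, IrrSub L N → finrank ℂ N = 4 → ∃ L' : Submodule ℂ (Module.End ℂ U), L' ≤ L ∧ IrrSub L' N ∧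
    ∃ (f : Module.End ℂ U) (r : ℂ), (∀ u ∈ N, f u ∈ N) ∧ (∀ u v, ω (f u) v = ω u (f v)) ∧ r ≠ 0 ∧
      (∀ u ∈ N, f (f u) = r • u) ∧ (∀ s : ℂ, ¬ ∀ u ∈ N, f u = s • u) ∧
      ∀ x ∈ L', ∃ y ∈ L', x * f = f * y ∧ y * f = f * x

/-- **The symplectic Lie algebras of the irreducible subspaces of dimension four.** -/
theorem stepA' (H : Hyp4 L ω) (hE : Excl L ω) (S : RS L T) {N : Submodule ℂ U} (hN : IrrSub L N)
    (h4 : finrank ℂ N = 4) : ∀ v ∈ N, ∀ w ∈ N, tau ω v w ∈ L := by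
  obtain ⟨φ, hφ⟩ := exists_phi S
  obtain ⟨lam, mu, a, b, c, d, W, hcl⟩ := cls4 H hφ hN h4
  obtain ⟨hF, had⟩ : Frame L a b c d ∧ tau ω a d ∈ L := by
    rcases hcl with ⟨hm, hl⟩ | hII
    · obtain ⟨L', hL', hirr, f, r, h1, h2, h3, h4, h5, h6⟩ := hE N hN h4
      exact (not_I H.alt H.skew W hm hl hL' hirr h1 h2 h3 h4 h5 h6).elim
    · exact ⟨frame_II W hII, tau_II H hφ W h4 hII⟩
  obtain ⟨e, he, f, hf, e1, e2, e3, f1, f2, f3, e10, e20, e30, f10, f20, f30, ea, eb, ec, ed,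
    fa, fb, fc, fd⟩ := hF
  exact gen H.alt (fun X hX Y hY => H.br X hX Y hY) he hf (H.skew e he) (H.skew f hf)
    e10 e20 e30 f10 f20 f30 ea eb ec ed fa fb fc fd W.ab W.cd W.ad W.bc had W.span

theorem supp4' (H : Hyp4 L ω) (hE : Excl L ω) (S : RS L T) {N : Submodule ℂ U} (hN : IrrSub L N)
    (h4 : finrank ℂ N = 4) {X : Module.End ℂ U} (hX : Cl L ω X) (hX0 : ∀ u ∈ oP ω N, X u = 0) : X ∈ L := by
  have F := frm4 H hN h4
  obtain ⟨e, w, hG⟩ := exists_gb (ω := ω) S hN F (m := 2) (by omega) (by omega) 0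
  exact supp_mem H.alt (stepA' H hE S hN h4) hG.cb (H.sup_oP F.nd).1 hX.sk
    (hX.st N hN.stab (k_stab H hN h4)) hX0

/-- sums of irreducible subspaces of dimension four -/
theorem main4' (H : Hyp4 L ω) (hE : Excl L ω) (S : RS L T) (n : ℕ) :
    ∀ P : Submodule ℂ U, finrank ℂ P ≤ n → Stab L P → (∀ x ∈ comL L, ∀ u ∈ P, x u ∈ P) →
      (∀ D, IrrSub L D → D ≤ P → finrank ℂ D = 4) → ∀ X : Module.End ℂ U, Cl L ω X →
      (∀ u ∈ oP ω P, X u = 0) → X ∈ L := by
  induction n with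
  | zero =>
    intro P hP hPL hPK h4 X hX hX0
    have hb : P = ⊥ := Submodule.finrank_eq_zero.1 (by omega)
    have h0 : X = 0 := by
      refine LinearMap.ext fun u => ?_
      refine hX0 u fun v hv => ?_
      rw [hb, Submodule.mem_bot] at hv
      rw [hv, map_zero, LinearMap.zero_apply]
    rw [h0]
    exact L.zero_mem
  | succ n ih =>
    intro P hP hPL hPK h4 X hX hX0
    by_cases hb : P = ⊥
    · exact ih P (by rw [hb, finrank_bot]; omega) hPL hPK h4 X hX hX0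
    obtain ⟨N, hN, hNP⟩ := exists_irrSub_le hPL hb
    have hN4 := h4 N hN hNP
    have hNK := k_stab H hN hN4
    have hnd := H.abs N hN.stab hNK
    obtain ⟨p, hp, hpN, hpω⟩ := projG hN.stab H.skew (B := ω)
      (fun x hx u _ v _ => H.skew x hx u v) hnd
    have hpadj : ∀ u v, ω (p u) v = ω u (p v) := by
      intro u v
      rw [← hpω _ (hpN u) v, H.alt u (p v), ← hpω _ (hpN v) u, ← H.alt]
    have hp0 : ∀ u ∈ oP ω N, p u = 0 := by
      intro u hu
      refine hnd _ (hpN u) fun v hv => ?_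
      rw [hpω v hv]
      exact hu v hv
    have hp1 : ∀ u ∈ N, p u = u := by
      intro u hu
      rw [← sub_eq_zero]
      refine hnd _ (N.sub_mem (hpN u) hu) fun v hv => ?_
      rw [map_sub, hpω v hv, sub_self]
    have hXp : ∀ u, X (p u) = p (X u) := by
      intro u
      have h1 : u ∈ N ⊔ oP ω N := by rw [(H.sup_oP hnd).1]; trivial
      obtain ⟨a, ha, c, hc, rfl⟩ := Submodule.mem_sup.1 h1
      rw [map_add, map_add, map_add, map_add, hp1 a ha, hp0 c hc, map_zero, add_zero,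
        hp1 _ (hX.st N hN.stab hNK a ha),
        hp0 _ (hX.st _ (H.oP_L hN.stab) (H.oP_K hNK) c hc), add_zero]
    have hX1 : Cl L ω (X * p) := by
      refine ⟨fun Q hQ hQ' u hu => ?_, fun u v => ?_⟩
      · exact hX.st Q hQ hQ' _ (hQ' p hp u hu)
      · rw [Module.End.mul_apply, Module.End.mul_apply, hXp u, hpadj]
        exact hX.sk u (p v)
    have hmem1 : X * p ∈ L := by
      refine supp4' H hE S hN hN4 hX1 fun u hu => ?_
      rw [Module.End.mul_apply, hp0 u hu, map_zero]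
    obtain ⟨s1, s2, s3⟩ := H.split (H.abs P hPL hPK) hNP hnd
    have hmem2 : X - X * p ∈ L := by
      refine ih (P ⊓ oP ω N) (by omega)
        (fun x hx u hu => ⟨hPL x hx u hu.1, H.oP_L hN.stab x hx u hu.2⟩)
        (fun x hx u hu => ⟨hPK x hx u hu.1, H.oP_K hNK x hx u hu.2⟩)
        (fun D hD hDP => h4 D hD (hDP.trans inf_le_left)) _ (hX.sub hX1) fun u hu => ?_
      rw [LinearMap.sub_apply, Module.End.mul_apply, ← map_sub]
      refine hX0 _ fun v hv => ?_
      rw [← s1] at hv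
      obtain ⟨v', hv', n', hn', rfl⟩ := Submodule.mem_sup.1 hv
      rw [map_add, LinearMap.add_apply, map_sub, map_sub, hu v' hv', hpω n' hn', sub_self,
        add_zero, zero_sub, neg_eq_zero, H.alt, hv'.2 _ (hpN u), neg_zero]
    have h1 := L.add_mem hmem1 hmem2
    rwa [add_sub_cancel] at h1

/-- **The abstract theorem.** -/
theorem main' (H : Hyp4 L ω) (hE : Excl L ω) [Nontrivial U] {X : Module.End ℂ U}
    (hX1 : ∀ P : Submodule ℂ U, (∀ x ∈ L, ∀ u ∈ P, x u ∈ P) → ∀ u ∈ P, X u ∈ P)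
    (hX2 : ∀ K : Module.End ℂ U, (∀ x ∈ L, x * K = K * x) → X * K = K * X)
    (hX3 : ∀ u v, ω (X u) v + ω u (X v) = 0) : X ∈ L := by
  obtain ⟨T, i1, i2, ⟨S⟩⟩ := exists_rs_of_killing H.br fun 𝔩 h𝔩 => H.isKilling 𝔩 h𝔩
  obtain ⟨P, hP⟩ : ∃ P, P = sSup {D : Submodule ℂ U | IrrSub L D ∧ finrank ℂ D = 2} := ⟨_, rfl⟩
  have hle : ∀ D, IrrSub L D → finrank ℂ D = 2 → D ≤ P := fun D hD h2 => by
    rw [hP]; exact le_sSup ⟨hD, h2⟩
  have hst : ∀ x : Module.End ℂ U, (∀ D, IrrSub L D → finrank ℂ D = 2 → ∀ u ∈ D, x u ∈ P) →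
      ∀ u ∈ P, x u ∈ P := by
    intro x hx u hu
    have h1 : P ≤ P.comap x := by
      conv_lhs => rw [hP]
      exact sSup_le fun D hD u hu => hx D hD.1 hD.2 u hu
    exact h1 hu
  have hPL : Stab L P := fun x hx => hst x fun D hD h2 u hu =>
    hle D hD h2 (hD.stab x hx u hu)
  have hPK : ∀ x ∈ comL L, ∀ u ∈ P, x u ∈ P := fun x hx => hst x fun D hD h2 u hu => by
    by_cases h0 : D.map x = ⊥
    · have h1 : x u ∈ D.map x := ⟨u, hu, rfl⟩
      rw [h0, Submodule.mem_bot] at h1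
      rw [h1]
      exact P.zero_mem
    · obtain ⟨h3, h4⟩ := hD.map hx h0
      exact hle _ h3 (h4.trans h2) ⟨u, hu, rfl⟩
  have hPnd := H.abs P hPL hPK
  obtain ⟨hs1, hs2⟩ := H.sup_oP hPnd
  -- the dimensions
  have hP2 : ∀ D, IrrSub L D → D ≤ P → finrank ℂ D = 2 := by
    intro D hD hDP
    rcases dim24 H hD with h | h
    · exact h
    · exfalso
      have hDK := k_stab H hD h
      have h1 : P ≤ oP ω D := by
        rw [hP]
        refine sSup_le fun E hE => ?_
        rcases H.dich hE.1 hD.stab hDK with h2 | h2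
        · exfalso
          have h3 := hD.irr E h2 hE.1.stab hE.1.ne
          have h4 := hE.2
          rw [h3, h] at h4
          norm_num at h4
        · exact h2
      apply hD.ne
      rw [eq_bot_iff, ← (H.sup_oP (H.abs D hD.stab hDK)).2]
      exact le_inf le_rfl (hDP.trans h1)
  have hP4 : ∀ D, IrrSub L D → D ≤ oP ω P → finrank ℂ D = 4 := by
    intro D hD hDP
    rcases dim24 H hD with h | h
    · exfalso
      apply hD.ne
      rw [eq_bot_iff, ← hs2]
      exact le_inf (hle D hD h) hDP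
    · exact h
  -- the part of dimension two
  obtain ⟨n, hn⟩ : Even (finrank ℂ P) := by
    let β : P →ₗ[ℂ] P →ₗ[ℂ] ℂ := (LinearMap.lcomp ℂ ℂ P.subtype) ∘ₗ ω ∘ₗ P.subtype
    have hβ : ∀ u v : P, β u v = ω u.1 v.1 := fun u v => rfl
    refine even_of_alt β (fun u v => ?_) fun u hu => ?_
    · rw [hβ, hβ, H.alt]
    · exact Subtype.ext (hPnd _ u.2 fun v hv => hu ⟨v, hv⟩)
  obtain ⟨e, w, hG⟩ := H.decomp S 0 n P hPL hPnd hP2 (by omega)
  obtain ⟨x, hx, hxX⟩ := hG.two (fun i j hij => by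
    have : i.val = j.val := by omega
    exact Fin.ext this) H.alt H.skew H.br hX1 hX2 hX3
  have hXC : Cl L ω X := ⟨fun Q hQ _ => hX1 Q hQ, hX3⟩
  have hxC : Cl L ω x := ⟨fun Q hQ _ => hQ x hx, H.skew x hx⟩
  have h1 : X - x ∈ L := by
    refine main4' H hE S _ (oP ω P) le_rfl (H.oP_L hPL) (H.oP_K hPK) hP4 _ (hXC.sub hxC)
      fun u hu => ?_
    have h2 : u ∈ P := by
      have h3 : u ∈ P ⊔ oP ω P := by rw [hs1]; trivial
      obtain ⟨a, ha, c, hc, rfl⟩ := Submodule.mem_sup.1 h3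
      have h4 : c = 0 := by
        refine H.abs _ (H.oP_L hPL) (H.oP_K hPK) c hc fun v hv => ?_
        have h5 := hu v hv
        rw [map_add, H.alt v a, hv a ha, neg_zero, zero_add] at h5
        exact h5
      rw [h4, add_zero]
      exact ha
    rw [LinearMap.sub_apply, hxX u h2, sub_self]
  have h2 := L.add_mem h1 hx
  rwa [sub_add_cancel] at h2

end Pool.Agent.H945.Sf
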