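import Pool.Agent.H945.Sf2
import Pool.Agent.H945.Rf5
import Pool.Graph.R_pool_sql_team_seeded_9f66d723.W5h25.AS.AV

/-!
# Homomorphisms from the conjugate abelian variety, and the Lefschetz Lie algebra
-/

set_option autoImplicit false
set_option linter.unusedSectionVars false
set_option linter.unusedVariables false
set_option linter.unusedSimpArgs false
set_option maxHeartbeats 1000000

open Module Function TensorProduct Matrix

noncomputable section

namespace Pool.Agent.H945.Sf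

open Pool.Agent.R912 Pool.Agent.R912.Q Pool.Agent.Y102 Pool.Agent.W516.DR Pool.Agent.H204R3.GP Pool.Agent.W516.KC
  Pool.Agent.H204R3.SP Pool.Agent.W5h25.AS Pool.Agent.H945.Rf Pool.Agent.R917 Pool.Agent.N208.AM
  Pool.Agent.N113.ME

variable {g : ℕ} {A : AbVar g}

/-! ## Full subalgebras -/

theorem irr_tr {𝔥 𝔥' : Submodule ℚ (Module.End ℚ A.H1)} (h : A.Full 𝔥) (h' : A.Full 𝔥')
    {N : Submodule ℂ (ℂ ⊗[ℚ] A.H1)} (hN : IrrSub (cx 𝔥) N) : IrrSub (cx 𝔥') N where
  ne := hN.ne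
  stab := fun x hx => Pool.Agent.Y102.SP.kil_adj _ N hN.stab x (h.cx_adjoin x (cx_mono h'.le hx))
  irr := fun P hP hst => hN.irr P hP fun x hx =>
    Pool.Agent.Y102.SP.kil_adj _ P hst x (h'.cx_adjoin x (cx_mono h.le hx))

theorem comL_le {𝔥 𝔥' : Submodule ℚ (Module.End ℚ A.H1)} (h : A.Full 𝔥) (h' : A.Full 𝔥') :
    comL (cx 𝔥) ≤ comL (cx 𝔥') := fun k hk x hx => adj_comL (h.cx_adjoin x (cx_mono h'.le hx)) k hk

theorem comL_eq {𝔥 𝔥' : Submodule ℚ (Module.End ℚ A.H1)} (h : A.Full 𝔥) (h' : A.Full 𝔥') :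
    comL (cx 𝔥) = comL (cx 𝔥') := le_antisymm (comL_le h h') (comL_le h' h)

theorem hyp4_full (hZ : NoTypeIV A) (hE : ∀ c, finrank ℂ (ceig A c) ≤ 4) {𝔥 : Submodule ℚ (Module.End ℚ A.H1)}
    (h : A.Full 𝔥) : Hyp4 (cx 𝔥) (omC A) where
  br := h.cx_br'
  skew := omC_skew A fun X hX => A.NA_skew (h.le hX)
  alt := omC_anti A
  nd := hZ.thyp0.nd
  abs := fun P h1 h2 => hZ.thyp0.abs P
    (fun x hx => Pool.Agent.Y102.SP.kil_adj _ P h1 x (h.cx_adjoin x (cx_mono A.full_LA.le hx)))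
    (fun x hx => h2 x (comL_le A.full_LA h hx))
  even' := fun N hN => hZ.thyp.even' N (irr_tr h A.full_LA hN)
  pk := fun N hN => by
    have h1 := (hyp4 hZ hE).pk N (irr_tr h A.full_LA hN)
    unfold PK at h1 ⊢
    rwa [comL_eq h A.full_LA]

theorem schur {U : Type} [AddCommGroup U] [Module ℂ U] [FiniteDimensional ℂ U] {L : Submodule ℂ (Module.End ℂ U)}
    {N : Submodule ℂ U} (hN : IrrSub L N) {k : Module.End ℂ U} (hk : k ∈ comL L) (hkN : ∀ u ∈ N, k u ∈ N) :
    ∃ r : ℂ, ∀ u ∈ N, k u = r • u := by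
  have : Nontrivial N := Submodule.nontrivial_iff_ne_bot.2 hN.ne
  obtain ⟨r, hr⟩ := Module.End.exists_eigenvalue (k.restrict hkN)
  obtain ⟨v, hv⟩ := hr.exists_hasEigenvector
  have hv1 : k v.1 = r • v.1 := congrArg Subtype.val hv.apply_eq_smul
  have h1 := hN.irr (N ⊓ LinearMap.ker (k - r • 1)) inf_le_left
    (fun x hx u hu => ⟨hN.stab x hx u hu.1, by
      have h2 : (k - r • 1) u = 0 := hu.2
      rw [LinearMap.sub_apply, LinearMap.smul_apply, Module.End.one_apply, sub_eq_zero] at h2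
      rw [SetLike.mem_coe, LinearMap.mem_ker, LinearMap.sub_apply, LinearMap.smul_apply,
        Module.End.one_apply, sub_eq_zero]
      have h3 := LinearMap.congr_fun (hk x hx) u
      rw [Module.End.mul_apply, Module.End.mul_apply, h2, map_smul] at h3
      exact h3.symm⟩) (by
    intro hb
    have h2 : v.1 ∈ N ⊓ LinearMap.ker (k - r • 1) := by
      refine ⟨v.2, ?_⟩
      rw [SetLike.mem_coe, LinearMap.mem_ker, LinearMap.sub_apply, LinearMap.smul_apply,
        Module.End.one_apply, hv1, sub_self]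
    rw [hb, Submodule.mem_bot] at h2
    exact hv.2 (Subtype.ext h2))
  refine ⟨r, fun u hu => ?_⟩
  rw [← h1] at hu
  have h2 : (k - r • 1) u = 0 := hu.2
  rwa [LinearMap.sub_apply, LinearMap.smul_apply, Module.End.one_apply, sub_eq_zero] at h2

/-! ## Homomorphisms from the conjugate abelian variety -/

/-- `F` is given by complex conjugation and a homomorphism from the complex conjugate of `A` to `A`. -/
structure IsConj (A : AbVar g) (F : Module.End ℚ A.H1) : Prop where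
  anti : ∃ M : Fin g → Fin g → ℂ, ∀ γ i, A.per (F γ) i = ∑ j, M i j * starRingEnd ℂ (A.per γ j)
  dR : ∃ b : Fin g ⊕ Fin g → Fin g ⊕ Fin g → ℂ, (∀ i j, IsAlgebraic ℚ (b i j)) ∧
    ∀ i γ, starRingEnd ℂ (A.dR i (F γ)) = ∑ j, b i j * A.dR j γ

namespace IsConj

variable {F : Module.End ℚ A.H1} (h : IsConj A F)
include h

theorem sq_mem : F * F ∈ A.EA := by
  obtain ⟨b, hb, hF⟩ := h.dR
  refine A.mem_EA.2 ?_
  have halg : ∀ i k, IsAlgebraic ℚ (∑ j, starRingEnd ℂ (b i j) * b j k) := by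
    intro i k
    have h1 : (∑ j, starRingEnd ℂ (b i j) * b j k) ∈ algebraicClosure ℚ ℂ :=
      sum_mem fun j _ => mul_mem (mem_algebraicClosure_iff.2 (alg_conj (hb i j))) (mem_algebraicClosure_iff.2 (hb j k))
    exact mem_algebraicClosure_iff.1 h1
  refine ⟨fun i k => ⟨_, mem_algebraicClosure_iff.2 (halg i k)⟩, fun i w => ?_⟩
  have h1 := congrArg (starRingEnd ℂ) (hF i (F w))
  rw [Complex.conj_conj, map_sum] at h1
  rw [Module.End.mul_apply, h1]
  have h2 : ∀ j, starRingEnd ℂ (b i j * A.dR j (F w)) = ∑ k, starRingEnd ℂ (b i j) * b j k * A.dR k w := by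
    intro j
    rw [map_mul, hF, Finset.mul_sum]
    exact Finset.sum_congr rfl fun k _ => by ring
  rw [Finset.sum_congr rfl fun j _ => h2 j, Finset.sum_comm]
  refine Finset.sum_congr rfl fun k _ => ?_
  show _ = (∑ j, starRingEnd ℂ (b i j) * b j k) * A.dR k w
  rw [Finset.sum_mul]

theorem XX_F (D : Derivation QBar ℂ ℂ) (v : A.H1) : XX A.basis D ((1 : ℂ) ⊗ₜ[ℚ] F v) =
    ∑ m, starRingEnd ℂ (qc A (dconj D) v m) ⊗ₜ[ℚ] F (A.bas m) := by
  obtain ⟨b, hb, hF⟩ := h.dR
  have hB' : ∀ j i, ∀ z : ℂ, dconj D (b j i * z) = b j i * dconj D z := by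
    intro j i z
    have h1 : b j i * z = (⟨b j i, mem_algebraicClosure_iff.2 (hb j i)⟩ : QBar) • z := by
      rw [Algebra.smul_def]
      rfl
    rw [h1, Derivation.map_smul, Algebra.smul_def]
    rfl
  refine ext_etaL A.basis fun j => ?_
  rw [etaL_XX_one, A.coe_basis, map_sum]
  have e1 : D (A.dR j (F v)) = starRingEnd ℂ (dconj D (starRingEnd ℂ (A.dR j (F v)))) := by
    rw [dconj_apply, Complex.conj_conj, Complex.conj_conj]
  have h1 : ∀ m, etaL A.basis j (starRingEnd ℂ (qc A (dconj D) v m) ⊗ₜ[ℚ] F (A.bas m)) =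
      ∑ i, starRingEnd ℂ (b j i) * (starRingEnd ℂ (qc A (dconj D) v m) * starRingEnd ℂ (A.dR i (A.bas m))) := by
    intro m
    rw [etaL_tmul, A.coe_basis]
    have h2 := congrArg (starRingEnd ℂ) (hF j (A.bas m))
    rw [Complex.conj_conj, map_sum] at h2
    rw [h2, Finset.mul_sum]
    refine Finset.sum_congr rfl fun i _ => ?_
    rw [map_mul]
    ring
  rw [e1, hF, map_sum, map_sum, Finset.sum_congr rfl fun m _ => h1 m, Finset.sum_comm]
  refine Finset.sum_congr rfl fun i _ => ?_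
  rw [hB', der_qc, map_mul, map_sum, Finset.mul_sum]
  refine Finset.sum_congr rfl fun m _ => ?_
  rw [map_mul]

theorem X0_F (D : Derivation QBar ℂ ℂ) (lam : ℂ →ₗ[ℚ] ℚ) :
    X0 A.basis tau D lam * F = F * X0 A.basis tau (dconj D) (lconj lam) := by
  refine LinearMap.ext fun v => ?_
  rw [Module.End.mul_apply, Module.End.mul_apply, X0_apply, X0_apply, h.XX_F, XX_qc, map_sub, map_sum, map_sum,
    map_smul, map_sum]
  congr 1
  · refine Finset.sum_congr rfl fun m _ => ?_
    rw [cmp_tmul, cmp_tmul, map_smul, lconj_apply]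
  · congr 1
    have e1 : starRingEnd ℂ (dconj D tau / (2 * tau)) = D tau / (2 * tau) := by
      rw [dconj_apply, conj_tau, D.map_neg, map_neg, map_div₀, map_neg, Complex.conj_conj,
        map_mul (starRingEnd ℂ) 2 tau, conj_tau, show (starRingEnd ℂ) (2 : ℂ) = 2 from map_ofNat (starRingEnd ℂ) 2]
      ring
    rw [lconj_apply, e1]

theorem ext_I (u : Fin g → ℂ) : A.ext F (Complex.I • u) = -(Complex.I • A.ext F u) := by
  obtain ⟨M, hM⟩ := h.anti
  let G : (Fin g → ℂ) →ₗ[ℝ] (Fin g → ℂ) :=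
    { toFun := fun u i => ∑ j, M i j * starRingEnd ℂ (u j)
      map_add' := fun u v => by
        funext i
        rw [Pi.add_apply, ← Finset.sum_add_distrib]
        exact Finset.sum_congr rfl fun j _ => by rw [Pi.add_apply, map_add, mul_add]
      map_smul' := fun r u => by
        funext i
        rw [Pi.smul_apply, RingHom.id_apply, Finset.smul_sum]
        refine Finset.sum_congr rfl fun j _ => ?_
        rw [Pi.smul_apply, Complex.real_smul, map_mul, Complex.conj_ofReal, Complex.real_smul]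
        ring }
  have hG : A.ext F = G := A.ext_per fun w => by
    rw [A.ext_apply]
    funext i
    exact hM w i
  rw [hG]
  funext i
  show ∑ j, M i j * starRingEnd ℂ (Complex.I • u j) = -(Complex.I • ∑ j, M i j * starRingEnd ℂ (u j))
  rw [Finset.smul_sum, ← Finset.sum_neg_distrib]
  refine Finset.sum_congr rfl fun j _ => ?_
  rw [smul_eq_mul, smul_eq_mul, map_mul, Complex.conj_I]
  ring

theorem cmpE_anti (f : ℝ →ₗ[ℚ] ℚ) : A.cmpE f AbVar.JJ * F + F * A.cmpE f AbVar.JJ = 0 := by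
  refine LinearMap.ext fun w => ?_
  rw [LinearMap.add_apply, Module.End.mul_apply, Module.End.mul_apply, AbVar.cmpE_apply, AbVar.cmpE_apply,
    ← AbVar.cmp_ext, AbVar.JJ_apply, AbVar.JJ_apply, h.ext_I, A.ext_apply, map_neg, add_neg_cancel, LinearMap.zero_apply]

omit h in
theorem dconj_dconj (D : Derivation QBar ℂ ℂ) : dconj (dconj D) = D := by
  ext z
  rw [dconj_apply, dconj_apply, Complex.conj_conj, Complex.conj_conj]

omit h in
theorem lconj_lconj (lam : ℂ →ₗ[ℚ] ℚ) : lconj (lconj lam) = lam := by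
  ext z
  rw [lconj_apply, lconj_apply, Complex.conj_conj]

variable (A) in
omit h in
/-- The complex structure anticommutes with the conjugations. -/
theorem exists_J' : ∃ J ∈ cx A.MA, J * J = -1 ∧ ∀ F : Module.End ℚ A.H1, IsConj A F →
    J * F.baseChange ℂ + F.baseChange ℂ * J = 0 := by
  classical
  let b : Basis (Fin (2 * g)) ℂ (ℂ ⊗[ℚ] A.H1) := A.bas.baseChange ℂ
  let M : Matrix (Fin (2 * g)) (Fin (2 * g)) ℝ := LinearMap.toMatrix A.lam A.lam AbVar.JJ
  let J : Module.End ℂ (ℂ ⊗[ℚ] A.H1) := Matrix.toLin b b (M.map (algebraMap ℝ ℂ))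
  have hMM : M * M = -1 := by
    have h1 : (AbVar.JJ (g := g)) ∘ₗ AbVar.JJ = -LinearMap.id := by
      refine LinearMap.ext fun u => ?_
      rw [LinearMap.comp_apply, AbVar.JJ_apply, AbVar.JJ_apply, smul_smul, Complex.I_mul_I,
        LinearMap.neg_apply, LinearMap.id_apply, neg_one_smul]
    rw [← LinearMap.toMatrix_comp, h1, map_neg, LinearMap.toMatrix_id]
  have hJ : ∀ lam : ℂ →ₗ[ℚ] ℚ, ∃ f : ℝ →ₗ[ℚ] ℚ, Pool.Agent.W516.DR.cmpE lam J = A.cmpE f AbVar.JJ := by
    intro lam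
    let f : ℝ →ₗ[ℚ] ℚ := lam ∘ₗ (Algebra.linearMap ℝ ℂ).restrictScalars ℚ
    refine ⟨f, ?_⟩
    refine A.bas.ext fun j => ?_
    have e1 : (1 : ℂ) ⊗ₜ[ℚ] A.bas j = b j := by
      rw [Basis.baseChange_apply]
    rw [Pool.Agent.W516.DR.cmpE_apply, e1, Matrix.toLin_self, map_sum, AbVar.cmpE_apply,
      AbVar.per_bas, ← A.lam.sum_repr (AbVar.JJ (A.lam j)), map_sum]
    refine Finset.sum_congr rfl fun i _ => ?_
    rw [AbVar.cmp_real_smul_lam, ← LinearMap.toMatrix_apply, Basis.baseChange_apply,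
      smul_tmul', Pool.Agent.W516.DR.cmp_tmul, smul_eq_mul, mul_one]
    rfl
  refine ⟨J, ?_, ?_, fun F hF => ?_⟩
  · refine end_mem_span _ J fun lam => ?_
    obtain ⟨f, h1⟩ := hJ lam
    rw [h1]
    exact A.J_mem f
  · change Matrix.toLin b b (M.map (algebraMap ℝ ℂ)) * Matrix.toLin b b (M.map (algebraMap ℝ ℂ)) = -1
    rw [Module.End.mul_eq_comp, ← Matrix.toLin_mul, ← Matrix.map_mul, hMM, Matrix.map_neg,
      Matrix.map_one, map_neg, Matrix.toLin_one]
    · rfl
    · exact map_zero _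
    · exact map_one _
    · exact fun a => map_neg _ a
  · apply eq_zero_of_cmpE
    intro lam
    obtain ⟨f, h1⟩ := hJ lam
    have h2 : Pool.Agent.W516.DR.cmpE lam (J * F.baseChange ℂ + F.baseChange ℂ * J) =
        Pool.Agent.W516.DR.cmpE lam (J * F.baseChange ℂ) + Pool.Agent.W516.DR.cmpE lam (F.baseChange ℂ * J) := by
      refine LinearMap.ext fun w => ?_
      rw [Pool.Agent.W516.DR.cmpE_apply, LinearMap.add_apply, map_add]
      rfl
    rw [h2, cmpE_mul_bc, cmpE_bc_mul, h1]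
    exact hF.cmpE_anti f

end IsConj

end Pool.Agent.H945.Sf
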