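import Pool.Agent.H945.Sf4
import Pool.Graph.R_seed8.Y710.SV.Fftv
import Pool.Graph.R_seed8.Y79.SV.Fftdv

/-!
# The first fundamental theorem: products of divisor classes
-/

set_option autoImplicit false
set_option linter.unusedSectionVars false
set_option linter.unusedVariables false
set_option linter.unusedSimpArgs false
set_option maxHeartbeats 1000000

open Module Function TensorProduct Matrix

noncomputable section

namespace Pool.Agent.H945.Sf

open Pool.Agent.R912 Pool.Agent.R912.Q Pool.Agent.Y102 Pool.Agent.W516.DR Pool.Agent.H204R3.GP Pool.Agent.W516.KC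
  Pool.Agent.H204R3.SP Pool.Agent.W5h25.AS Pool.Agent.H945.Rf Pool.Agent.R917 Pool.Agent.N208.AM
  Pool.Agent.N113.ME

open Pool.Agent.Y142.SV (Selfadj LieV)
open Pool.Agent.Y142.SU (FromHerm)

/-- The first fundamental theorem over the rational numbers. -/
theorem fft_rat {N k : ℕ} {J : Matrix (Fin N) (Fin N) ℚ} {𝒞 : Subalgebra ℚ (Matrix (Fin N) (Fin N) ℚ)}
    (hJ : Selfadj J 𝒞) (hred : ∀ A ∈ 𝒞, IsNilpotent A → A = 0) (hk : Jᵀ = -J)
    (φ : MultilinearMap ℚ (fun _ : Fin k => Fin N → ℚ) ℚ)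
    (hφ : ∀ X, LieV J 𝒞 X → ∀ v : Fin k → Fin N → ℚ, ∑ j, φ (Function.update v j (X *ᵥ v j)) = 0) :
    (fun v => φ v) ∈ FromHerm J 𝒞 k := by
  have h1 := Pool.Agent.Y710.SV.t ℂ N 0 (Pool.Agent.Y177.SU.up _ J) (Pool.Agent.Y177.SU.bc 𝒞 _)
    (Pool.Agent.Y79.SV.bc_selfadj hJ) (Pool.Agent.Y177.SU.bc_red hJ.2.2.1 hred) (fun _ _ _ _ => Nat.zero_le _) k
    (Pool.Agent.Y177.SU.upf _ φ) (Or.inr (Pool.Agent.Y79.SV.up_neg hk)) (Pool.Agent.Y79.SV.killed φ hφ)
  obtain ⟨r, hr⟩ := LinearMap.exists_leftInverse_of_injective (Algebra.linearMap ℚ ℂ)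
    (LinearMap.ker_eq_bot.2 (algebraMap ℚ ℂ).injective)
  have h2 := Pool.Agent.Y177.SU.desc (J := J) r h1 1
  have h3 : (fun v : Fin k → Fin N → ℚ => r (1 * (fun v => Pool.Agent.Y177.SU.upf ℂ φ v)
      (fun j => Pool.Agent.Y177.SU.upv ℂ (v j)))) = fun v => φ v := by
    funext v
    simp only [one_mul]
    rw [Pool.Agent.Y177.SU.upf_up]
    exact LinearMap.congr_fun hr (φ v)
  rw [h3] at h2
  exact h2

/-- A fixed point free involution of `2 m` points is a matching. -/
theorem exists_matching {m : ℕ} (π : Equiv.Perm (Fin (m * 2))) (h1 : ∀ j, π (π j) = j) (h2 : ∀ j, π j ≠ j) :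
    ∃ τ : Fin m × Fin 2 ≃ Fin (m * 2), (∀ l, τ (l, 0) < τ (l, 1)) ∧ (∀ l, π (τ (l, 0)) = τ (l, 1)) ∧
      ∀ f : Fin (m * 2) → ℚ, ∏ j with j < π j, f j = ∏ l, f (τ (l, 0)) := by
  classical
  set S : Finset (Fin (m * 2)) := Finset.univ.filter fun j => j < π j with hS
  have hSc : S.image π = Sᶜ := by
    ext j
    simp only [Finset.mem_image, Finset.mem_compl, hS, Finset.mem_filter, Finset.mem_univ, true_and]
    constructor
    · rintro ⟨i, hi, rfl⟩
      rw [h1]
      exact not_lt.2 hi.le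
    · intro hj
      refine ⟨π j, ?_, h1 j⟩
      rw [h1]
      exact lt_of_le_of_ne (not_lt.1 hj) (h2 j)
  have hcard : S.card = m := by
    have h3 : (S.image π).card = S.card := Finset.card_image_of_injective _ π.injective
    rw [hSc, Finset.card_compl, Fintype.card_fin] at h3
    have h4 : S.card ≤ m * 2 := by
      have := Finset.card_le_univ S
      rwa [Fintype.card_fin] at this
    omega
  let e : Fin m ≃ S := (Finset.equivFinOfCardEq hcard).symm
  let f : Fin m × Fin 2 → Fin (m * 2) := fun p => if p.2 = 0 then (e p.1 : Fin (m * 2)) else π (e p.1)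
  have hf : Function.Injective f := by
    rintro ⟨l, a⟩ ⟨l', a'⟩ h
    have hl := (e l).2
    have hl' := (e l').2
    have hmem : ∀ x : Fin m, π (e x : Fin (m * 2)) ∉ S := by
      intro x hx
      have : π (e x : Fin (m * 2)) ∈ S.image π := Finset.mem_image_of_mem _ (e x).2
      rw [hSc, Finset.mem_compl] at this
      exact this hx
    simp only [f] at h
    by_cases ha : a = 0
    · by_cases ha' : a' = 0
      · rw [if_pos ha, if_pos ha'] at h
        rw [ha, ha', e.injective (Subtype.ext h)]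
      · rw [if_pos ha, if_neg ha'] at h
        exact absurd (h ▸ hl) (hmem l')
    · by_cases ha' : a' = 0
      · rw [if_neg ha, if_pos ha'] at h
        exact absurd (h ▸ hl') (hmem l)
      · rw [if_neg ha, if_neg ha'] at h
        have h5 : a = a' := by omega
        rw [h5, e.injective (Subtype.ext (π.injective h))]
  have hbij : Function.Bijective f := by
    rw [Fintype.bijective_iff_injective_and_card]
    refine ⟨hf, ?_⟩
    rw [Fintype.card_prod, Fintype.card_fin, Fintype.card_fin, Fintype.card_fin]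
  have e0 : ∀ l, f (l, 0) = e l := fun l => if_pos rfl
  have e1 : ∀ l, f (l, 1) = π (e l) := fun l => if_neg (show ¬((1 : Fin 2) = 0) by decide)
  refine ⟨Equiv.ofBijective f hbij, fun l => ?_, fun l => ?_, fun F => ?_⟩
  · rw [Equiv.ofBijective_apply, Equiv.ofBijective_apply, e0, e1]
    exact (Finset.mem_filter.1 (e l).2).2
  · rw [Equiv.ofBijective_apply, Equiv.ofBijective_apply, e0, e1]
  · rw [← Finset.prod_coe_sort, ← Equiv.prod_comp e (fun s : S => F s)]
    exact Finset.prod_congr rfl fun l _ => by rw [Equiv.ofBijective_apply, e0]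

variable {g : ℕ} {A : AbVar g}

/-- The algebra of the endomorphisms. -/
def EAa (A : AbVar g) : Subalgebra ℚ (Module.End ℚ A.H1) where
  carrier := {P | P ∈ A.EA}
  mul_mem' := fun h h' => A.EA_mul h h'
  add_mem' := fun h h' => A.EA.add_mem h h'
  algebraMap_mem' := fun r => by
    rw [Algebra.algebraMap_eq_smul_one]
    exact A.EA.smul_mem _ A.EA_one

theorem eq_zero_of_nilp {P : Module.End ℚ A.H1} (hP : P ∈ A.EA) (hs : ∀ u v, A.om (P u) v = A.om u (P v))
    (hn : IsNilpotent P) : P = 0 := by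
  have hpow : ∀ n : ℕ, P ^ n ∈ A.EA ∧ ∀ u v, A.om ((P ^ n) u) v = A.om u ((P ^ n) v) := by
    intro n
    induction n with
    | zero => exact ⟨A.EA_one, fun u v => rfl⟩
    | succ n ih =>
      refine ⟨?_, fun u v => ?_⟩
      · rw [pow_succ]
        exact A.EA_mul ih.1 hP
      · rw [pow_succ, Module.End.mul_apply, ih.2, hs, ← Module.End.mul_apply, ← pow_succ', ← pow_succ]
  obtain ⟨k, hk⟩ := hn
  have h1 : ∀ n : ℕ, P ^ (2 ^ n) = 0 → P = 0 := by
    intro n
    induction n with
    | zero =>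
      intro h
      rwa [pow_zero, pow_one] at h
    | succ n ih =>
      intro h
      refine ih (A.eq_zero_of_adj (hpow _).1 (hpow _).2 ?_)
      rw [← pow_add, ← two_mul, ← pow_succ']
      exact h
  refine h1 k (pow_eq_zero_of_le (Nat.lt_two_pow_self).le hk)

theorem products_of_kills (hcomm : ∀ P ∈ A.EA, ∀ Q ∈ A.EA, P * Q = Q * P)
    (hself : ∀ P ∈ A.EA, ∀ u v, A.om (P u) v = A.om u (P v)) {m : ℕ}
    (φ : MultilinearMap ℚ (fun _ : Fin m × Fin 2 => A.H1) ℚ)
    (hφ : ∀ X : Module.End ℚ A.H1, IsSkew A.om X → (∀ Q ∈ A.EA, X * Q = Q * X) → Kills X φ) :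
    φ ∈ Submodule.span ℚ (AbVar.LefProd A A.EA m) := by
  classical
  let b := Module.finBasis ℚ A.H1
  set N := finrank ℚ A.H1 with hN
  let J : Matrix (Fin N) (Fin N) ℚ := Matrix.of fun i j => A.om (b i) (b j)
  let M : Module.End ℚ A.H1 ≃ₐ[ℚ] Matrix (Fin N) (Fin N) ℚ := LinearMap.toMatrixAlgEquiv b
  let 𝒞 : Subalgebra ℚ (Matrix (Fin N) (Fin N) ℚ) := (EAa A).map M.toAlgHom
  have hM : ∀ (P : Module.End ℚ A.H1) (i j : Fin N), M P i j = b.repr (P (b j)) i := fun P i j => by
    simp only [M]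
    rw [LinearMap.toMatrixAlgEquiv_apply]
  have hsum : ∀ (P : Module.End ℚ A.H1) (j : Fin N), ∑ i, M P i j • b i = P (b j) := by
    intro P j
    simp only [hM]
    exact b.sum_repr _
  -- the form and the endomorphisms
  have hL : ∀ (P : Module.End ℚ A.H1) (i j : Fin N), ((M P)ᵀ * J) i j = A.om (P (b i)) (b j) := by
    intro P i j
    rw [← hsum P i, map_sum, LinearMap.sum_apply, Matrix.mul_apply]
    refine Finset.sum_congr rfl fun k _ => ?_
    rw [map_smul, LinearMap.smul_apply, smul_eq_mul]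
    rfl
  have hR : ∀ (P : Module.End ℚ A.H1) (i j : Fin N), (J * M P) i j = A.om (b i) (P (b j)) := by
    intro P i j
    rw [← hsum P j, map_sum, Matrix.mul_apply]
    refine Finset.sum_congr rfl fun k _ => ?_
    rw [map_smul, smul_eq_mul, mul_comm]
    rfl
  have hJt : Jᵀ = -J := by
    ext i j
    exact A.om_anti _ _
  have hve : ∀ (P : Module.End ℚ A.H1) (u : Fin N → ℚ), b.equivFun.symm (M P *ᵥ u) = P (b.equivFun.symm u) := by
    intro P u
    rw [Basis.equivFun_symm_apply, Basis.equivFun_symm_apply, map_sum]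
    simp only [Matrix.mulVec, dotProduct, Finset.sum_smul, map_smul]
    rw [Finset.sum_comm]
    refine Finset.sum_congr rfl fun j _ => ?_
    rw [← hsum P j, Finset.smul_sum]
    refine Finset.sum_congr rfl fun i _ => ?_
    rw [smul_smul]
    exact congrArg (fun t : ℚ => t • b i) (mul_comm _ _)
  have hdot : ∀ u v : Fin N → ℚ, u ⬝ᵥ J *ᵥ v = A.om (b.equivFun.symm u) (b.equivFun.symm v) := by
    intro u v
    rw [Basis.equivFun_symm_apply, Basis.equivFun_symm_apply, map_sum A.om, LinearMap.sum_apply]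
    simp only [Matrix.mulVec, dotProduct, map_sum, map_smul, LinearMap.smul_apply, smul_eq_mul, Finset.mul_sum]
    refine Finset.sum_congr rfl fun i _ => Finset.sum_congr rfl fun j _ => ?_
    show u i * (A.om (b i) (b j) * v j) = _
    ring
  have hself' : Selfadj J 𝒞 := by
    refine ⟨Or.inr hJt, ?_, ?_, ?_⟩
    · intro h0
      obtain ⟨v, hv, h1⟩ := Matrix.exists_mulVec_eq_zero_iff.2 h0
      apply hv
      have h2 : b.equivFun.symm v = 0 := by
        apply A.om_nondeg
        intro u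
        have h3 := hdot (b.equivFun u) v
        rw [h1, dotProduct_zero, LinearEquiv.symm_apply_apply] at h3
        rw [A.om_anti, ← h3, neg_zero]
      rwa [LinearEquiv.map_eq_zero_iff] at h2
    · rintro _ ⟨P, hP, rfl⟩ _ ⟨Q, hQ, rfl⟩
      show M P * M Q = M Q * M P
      rw [← map_mul, ← map_mul, hcomm P hP Q hQ]
    · rintro _ ⟨P, hP, rfl⟩
      ext i j
      show ((M P)ᵀ * J) i j = (J * M P) i j
      rw [hL, hR]
      exact hself P hP _ _
  have hred : ∀ B ∈ 𝒞, IsNilpotent B → B = 0 := by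
    rintro _ ⟨P, hP, rfl⟩ hn
    have h1 : IsNilpotent P := by
      obtain ⟨n, hn⟩ := hn
      refine ⟨n, M.injective ?_⟩
      rw [map_pow, map_zero]
      exact hn
    show M P = 0
    rw [eq_zero_of_nilp hP (hself P hP) h1, map_zero]
  -- the form in coordinates
  let τ0 : Fin m × Fin 2 ≃ Fin (m * 2) := finProdFinEquiv
  let φ' : MultilinearMap ℚ (fun _ : Fin (m * 2) => Fin N → ℚ) ℚ :=
    (φ.compLinearMap fun _ => (b.equivFun.symm : (Fin N → ℚ) →ₗ[ℚ] A.H1)).domDomCongr τ0
  have hφ' : ∀ v, φ' v = φ fun p => b.equivFun.symm (v (τ0 p)) := fun v => rfl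
  have h1 := fft_rat hself' hred hJt φ' (by
    intro X hX v
    obtain ⟨X', rfl⟩ := M.surjective X
    have h2 : IsSkew A.om X' := by
      intro u v
      have h3 : ∀ i j, A.om (X' (b i)) (b j) + A.om (b i) (X' (b j)) = 0 := by
        intro i j
        have h4 := congrFun (congrFun hX.2 i) j
        rw [Matrix.add_apply, hL, hR] at h4
        exact h4
      have h5 : A.om.comp X' + (A.om.flip.comp X').flip = 0 := by
        refine b.ext fun i => b.ext fun j => ?_
        exact h3 i j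
      have h6 := LinearMap.congr_fun (LinearMap.congr_fun h5 u) v
      exact h6
    have h3 : ∀ Q ∈ A.EA, X' * Q = Q * X' := by
      intro Q hQ
      apply M.injective
      rw [map_mul, map_mul]
      exact hX.1 _ ⟨Q, hQ, rfl⟩
    have h4 := hφ X' h2 h3 fun p => b.equivFun.symm (v (τ0 p))
    rw [← h4, ← Equiv.sum_comp τ0]
    refine Finset.sum_congr rfl fun p _ => ?_
    rw [hφ']
    congr 1
    funext q
    by_cases hq : q = p
    · subst hq
      rw [Function.update_self, Function.update_self, hve]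
    · rw [Function.update_of_ne hq, Function.update_of_ne fun h => hq (τ0.injective h)])
  let T : MultilinearMap ℚ (fun _ : Fin m × Fin 2 => A.H1) ℚ →ₗ[ℚ] ((Fin (m * 2) → Fin N → ℚ) → ℚ) :=
    { toFun := fun ψ v => ψ fun p => b.equivFun.symm (v (τ0 p))
      map_add' := fun _ _ => rfl
      map_smul' := fun _ _ => rfl }
  have hT : Function.Injective T := by
    intro ψ ψ' h
    refine MultilinearMap.ext fun w => ?_
    have h2 := congrFun h fun j => b.equivFun (w (τ0.symm j))
    simpa [T] using h2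
  have h2 : FromHerm J 𝒞 (m * 2) ≤ (Submodule.span ℚ (AbVar.LefProd A A.EA m)).map T := by
    unfold FromHerm
    rw [Submodule.span_le]
    rintro f ⟨π, B, hπ1, hπ2, hB, hf⟩
    obtain ⟨τ, hτ1, hτ2, hτ3⟩ := exists_matching π hπ1 hπ2
    choose Q hQ using hB
    let σ : Equiv.Perm (Fin m × Fin 2) := τ.trans τ0.symm
    refine ⟨mmG σ (fun l => A.om.comp (Q (τ (l, 0)))), Submodule.subset_span ⟨σ, fun l => Q (τ (l, 0)),
      fun l => (hQ _).1, fun v => ?_⟩, ?_⟩
    · rw [mmG_apply]
      rfl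
    · funext v
      rw [hf v, hτ3 fun j => (B j *ᵥ v j) ⬝ᵥ J *ᵥ v (π j)]
      show mmG σ (fun l => A.om.comp (Q (τ (l, 0)))) (fun p => b.equivFun.symm (v (τ0 p))) = _
      rw [mmG_apply]
      refine Finset.prod_congr rfl fun l _ => ?_
      rw [hτ2, hdot, ← (hQ (τ (l, 0))).2]
      show A.om (Q (τ (l, 0)) (b.equivFun.symm (v (τ0 (σ (l, 0)))))) (b.equivFun.symm (v (τ0 (σ (l, 1))))) = _
      have e1 : ∀ p, τ0 (σ p) = τ p := fun p => τ0.apply_symm_apply _
      rw [e1, e1]
      congr 1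
      congr 1
      exact (hve _ _).symm
  obtain ⟨ψ, hψ, hψ'⟩ := h2 h1
  have h3 : ψ = φ := by
    apply hT
    rw [hψ']
    rfl
  rwa [← h3]

end Pool.Agent.H945.Sf
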